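import Pool.Agent.H543R3.PC.Defs

/-!
# Decision trees
-/

namespace Pool.Agent.H543R3.PC

theorem Agr.mono {m m' : ℕ} {G G' : GG} (h : Agr m G G') (hm : m' ≤ m) : Agr m' G G' :=
  fun j y hj => h j y (lt_of_lt_of_le hj hm)

theorem Agr.symm {m : ℕ} {G G' : GG} (h : Agr m G G') : Agr m G' G :=
  fun j y hj => (h j y hj).symm

theorem Agr.trans {m : ℕ} {G G' G'' : GG} (h : Agr m G G') (h' : Agr m G' G'') : Agr m G G'' :=
  fun j y hj => (h' j y hj).trans (h j y hj)

theorem sh_const {α : Type} (a : α) (d s : ℕ) : Sh (fun _ => a) d s :=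
  ⟨.leaf a, fun _ => rfl, Nat.zero_le _, Nat.zero_le _⟩

theorem sh_mono {α : Type} {f : GG → α} {d d' s s' : ℕ} (h : Sh f d s) (hd : d ≤ d')
    (hs : s ≤ s') : Sh f d' s' := by
  obtain ⟨t, h1, h2, h3⟩ := h
  exact ⟨t, h1, h2.trans hd, h3.trans hs⟩

theorem sh_ask (j : ℕ) (y : List Bool) : Sh (fun G => G j y) 1 (j + y.length) := by
  refine ⟨.node j y (.leaf false) (.leaf true), fun G => ?_, ?_, ?_⟩
  · simp only [DT.eval]
    cases G j y <;> rfl
  · simp [DT.depth]
  · simp [DT.size]

/-- Replace the leaves of a decision tree by decision trees. -/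
def a1_graft {α β : Type} (k : α → DT β) : DT α → DT β
  | .leaf a => k a
  | .node j y t₀ t₁ => .node j y (a1_graft k t₀) (a1_graft k t₁)

theorem a1_graft_eval {α β : Type} (k : α → DT β) (t : DT α) (G : GG) :
    (a1_graft k t).eval G = (k (t.eval G)).eval G := by
  induction t with
  | leaf a => rfl
  | node j y t₀ t₁ h₀ h₁ =>
    simp only [a1_graft, DT.eval]
    by_cases h : G j y = true
    · rw [if_pos h, if_pos h, h₁]
    · rw [if_neg h, if_neg h, h₀]

theorem a1_graft_depth {α β : Type} {k : α → DT β} {d : ℕ} (hk : ∀ a, (k a).depth ≤ d)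
    (t : DT α) : (a1_graft k t).depth ≤ t.depth + d := by
  induction t with
  | leaf a => simpa [a1_graft, DT.depth] using hk a
  | node j y t₀ t₁ h₀ h₁ =>
    simp only [a1_graft, DT.depth]
    omega

theorem a1_graft_size {α β : Type} {k : α → DT β} {s : ℕ} (hk : ∀ a, (k a).size ≤ s)
    (t : DT α) (ht : t.size ≤ s) : (a1_graft k t).size ≤ s := by
  induction t with
  | leaf a => exact hk a
  | node j y t₀ t₁ h₀ h₁ =>
    simp only [DT.size] at ht
    have e₀ := h₀ (by omega)
    have e₁ := h₁ (by omega)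
    simp only [a1_graft, DT.size]
    omega

/-- Version in which only the values actually taken matter. -/
theorem sh_bind' {α β : Type} {f : GG → α} {g : α → GG → β} {d d' s : ℕ} (h : Sh f d s)
    (h' : ∀ G, Sh (g (f G)) d' s) : Sh (fun G => g (f G) G) (d + d') s := by
  obtain ⟨t, h1, h2, h3⟩ := h
  have h4 : ∀ a, ∃ t' : DT β, (∀ G, f G = a → t'.eval G = g a G) ∧ t'.depth ≤ d' ∧
      t'.size ≤ s := by
    intro a
    by_cases ha : ∃ G, f G = a
    · obtain ⟨G, rfl⟩ := ha
      obtain ⟨t', e1, e2, e3⟩ := h' G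
      exact ⟨t', fun G' _ => e1 G', e2, e3⟩
    · obtain ⟨t', e1, e2, e3⟩ := h' (fun _ _ => false)
      exact ⟨t', fun G' hG' => absurd ⟨G', hG'⟩ ha, e2, e3⟩
  choose k hk1 hk2 hk3 using h4
  refine ⟨a1_graft k t, fun G => ?_, ?_, ?_⟩
  · rw [a1_graft_eval, h1, hk1 (f G) G rfl]
  · have := a1_graft_depth hk2 t
    omega
  · exact a1_graft_size hk3 t h3

theorem sh_bind {α β : Type} {f : GG → α} {g : α → GG → β} {d d' s : ℕ} (h : Sh f d s)
    (h' : ∀ a, Sh (g a) d' s) : Sh (fun G => g (f G) G) (d + d') s :=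
  sh_bind' h fun G => h' (f G)

theorem sh_map {α β : Type} {f : GG → α} {d s : ℕ} (h : Sh f d s) (g : α → β) :
    Sh (fun G => g (f G)) d s :=
  sh_bind (g := fun a _ => g a) h fun a => sh_const (g a) 0 s

/-- A function depending only on the positions in a list. -/
theorem sh_dep {α : Type} {f : GG → α} (l : List (ℕ × List Bool)) {s : ℕ}
    (hl : ∀ q ∈ l, q.1 + q.2.length ≤ s)
    (hf : ∀ G G' : GG, (∀ q ∈ l, G' q.1 q.2 = G q.1 q.2) → f G' = f G) : Sh f l.length s := by
  induction l generalizing f with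
  | nil =>
    have h1 : f = fun _ => f (fun _ _ => false) := by
      funext G
      exact hf _ _ (by simp)
    rw [h1]
    exact sh_const _ _ _
  | cons q l ih =>
    have h1 : Sh (fun G => (fun b (G : GG) => f fun j y => if (j, y) = q then b else G j y)
        (G q.1 q.2) G) (1 + l.length) s := by
      refine sh_bind (f := fun G => G q.1 q.2)
        (g := fun b (G : GG) => f fun j y => if (j, y) = q then b else G j y)
        (sh_mono (sh_ask q.1 q.2) le_rfl (hl q List.mem_cons_self)) fun b => ?_
      refine ih (fun r hr => hl r (List.mem_cons_of_mem _ hr)) fun G G' hG => ?_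
      refine hf _ _ fun r hr => ?_
      rcases List.mem_cons.1 hr with hr | hr
      · simp only [hr, if_true]
      · simp only [hG r hr]
    have h2 : f = fun G => (fun b (G : GG) => f fun j y => if (j, y) = q then b else G j y)
        (G q.1 q.2) G := by
      funext G
      simp only
      congr 1
      funext j y
      by_cases h : (j, y) = q
      · subst h
        simp
      · simp [h]
    rw [h2, List.length_cons, add_comm]
    exact h1

/-- All strings of length at most `m`. -/
def a1_str : ℕ → List (List Bool)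
  | 0 => [[]]
  | m + 1 => [] :: ((a1_str m).map (List.cons false) ++ (a1_str m).map (List.cons true))

theorem a1_str_len (m : ℕ) : (a1_str m).length + 1 = 2 ^ (m + 1) := by
  induction m with
  | zero => rfl
  | succ m ih =>
    rw [a1_str, List.length_cons, List.length_append, List.length_map, List.length_map, pow_succ,
      ← ih]
    ring

theorem a1_mem_str {m : ℕ} {y : List Bool} : y ∈ a1_str m ↔ y.length ≤ m := by
  induction m generalizing y with
  | zero =>
    rw [a1_str, List.mem_singleton, Nat.le_zero, List.length_eq_zero_iff]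
  | succ m ih =>
    cases y with
    | nil => simp [a1_str]
    | cons b y =>
      cases b <;> simp [a1_str, ih]

/-- All positions of size at most `s`. -/
def a1_pos : ℕ → List (ℕ × List Bool)
  | 0 => [(0, [])]
  | s + 1 => (a1_str (s + 1)).map (Prod.mk 0) ++ (a1_pos s).map fun q => (q.1 + 1, q.2)

theorem a1_pos_len (s : ℕ) : (a1_pos s).length + 2 ≤ 2 ^ (s + 2) := by
  induction s with
  | zero => decide
  | succ s ih =>
    rw [a1_pos, List.length_append, List.length_map, List.length_map]
    have h : (a1_str (s + 1)).length + 1 = 2 ^ (s + 2) := a1_str_len (s + 1)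
    have h' : 2 ^ (s + 1 + 2) = 2 ^ (s + 2) * 2 := pow_succ 2 (s + 2)
    rw [h']
    generalize 2 ^ (s + 2) = c at *
    omega

theorem a1_mem_pos {s j : ℕ} {y : List Bool} : (j, y) ∈ a1_pos s ↔ j + y.length ≤ s := by
  induction s generalizing j y with
  | zero =>
    rw [a1_pos, List.mem_singleton, Prod.mk.injEq, Nat.le_zero, Nat.add_eq_zero_iff,
      List.length_eq_zero_iff]
  | succ s ih =>
    rw [a1_pos, List.mem_append, List.mem_map, List.mem_map]
    cases j with
    | zero =>
      constructor
      · rintro (⟨z, hz, h⟩ | ⟨q, _, h⟩)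
        · rw [Prod.mk.injEq] at h
          rw [← h.2, Nat.zero_add]
          exact a1_mem_str.1 hz
        · rw [Prod.mk.injEq] at h
          exact absurd h.1 (Nat.succ_ne_zero _)
      · intro h
        exact Or.inl ⟨y, a1_mem_str.2 (by omega), rfl⟩
    | succ j =>
      constructor
      · rintro (⟨z, _, h⟩ | ⟨⟨q1, q2⟩, hq, h⟩)
        · rw [Prod.mk.injEq] at h
          exact absurd h.1.symm (Nat.succ_ne_zero _)
        · rw [Prod.mk.injEq] at h
          obtain ⟨h1, h2⟩ := h
          have h3 := ih.1 hq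
          simp only at h1 h2
          subst h2
          omega
      · intro h
        exact Or.inr ⟨(j, y), ih.2 (by omega), rfl⟩

/-- A function depending only on the positions of size at most `s`. -/
theorem sh_full {α : Type} {f : GG → α} {s : ℕ}
    (hf : ∀ G G' : GG, Agr (s + 1) G G' → f G' = f G) : Sh f (2 ^ (s + 2)) s := by
  refine sh_mono (sh_dep (a1_pos s) (s := s) (fun q hq => a1_mem_pos.1 hq)
    fun G G' hG => hf G G' fun j y hj => hG (j, y) (a1_mem_pos.2 (by omega))) ?_ le_rfl
  have := a1_pos_len s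
  omega

theorem a1_eval_agr {α : Type} {s : ℕ} {G G' : GG} (hG : Agr (s + 1) G G') (t : DT α)
    (ht : t.size ≤ s) : t.eval G' = t.eval G := by
  induction t with
  | leaf a => rfl
  | node j y t₀ t₁ h₀ h₁ =>
    simp only [DT.size] at ht
    simp only [DT.eval]
    rw [hG j y (by omega), h₀ (by omega), h₁ (by omega)]

theorem Sh.agr {α : Type} {f : GG → α} {d s : ℕ} (h : Sh f d s) {G G' : GG}
    (hG : Agr (s + 1) G G') : f G' = f G := by
  obtain ⟨t, h1, _, h3⟩ := h
  rw [← h1, ← h1]
  exact a1_eval_agr hG t h3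

theorem DT.path_spec {α : Type} (t : DT α) {G G' : GG}
    (h : ∀ q ∈ t.path G, G' q.1 q.2 = G q.1 q.2) :
    t.eval G' = t.eval G ∧ t.path G' = t.path G := by
  induction t with
  | leaf a => exact ⟨rfl, rfl⟩
  | node j y t₀ t₁ h₀ h₁ =>
    simp only [DT.path] at h
    have h2 : G' j y = G j y := h (j, y) List.mem_cons_self
    simp only [DT.eval, DT.path]
    rw [h2]
    by_cases h3 : G j y = true
    · simp only [h3, if_true] at h ⊢
      have h4 := h₁ fun q hq => h q (List.mem_cons_of_mem _ hq)
      exact ⟨h4.1, by rw [h4.2]⟩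
    · simp only [if_neg h3] at h ⊢
      have h4 := h₀ fun q hq => h q (List.mem_cons_of_mem _ hq)
      exact ⟨h4.1, by rw [h4.2]⟩

theorem DT.path_length {α : Type} (t : DT α) (G : GG) : (t.path G).length ≤ t.depth := by
  induction t with
  | leaf a => exact Nat.zero_le _
  | node j y t₀ t₁ h₀ h₁ =>
    simp only [DT.path, DT.depth, List.length_cons]
    by_cases h : G j y = true
    · rw [if_pos h]
      omega
    · rw [if_neg h]
      omega

theorem Sh.loc {α : Type} {f : GG → α} {d s : ℕ} (h : Sh f d s) (G : GG) :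
    ∃ Q : Finset (ℕ × List Bool), Q.card ≤ d ∧
      ∀ G' : GG, (∀ q ∈ Q, G' q.1 q.2 = G q.1 q.2) → f G' = f G := by
  obtain ⟨t, h1, h2, _⟩ := h
  refine ⟨(t.path G).toFinset, ((List.toFinset_card_le _).trans (t.path_length G)).trans h2,
    fun G' hG' => ?_⟩
  rw [← h1, ← h1]
  exact (t.path_spec fun q hq => hG' q (List.mem_toFinset.2 hq)).1

end Pool.Agent.H543R3.PC
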