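import Pool.Agent.H543R3.PC.Reqs
import Pool.Agent.H622R2.CoNP

/-!
# Strings (section A2)
-/

namespace Pool.Agent.H543R3.PC

open Pool.Agent.NPC Pool.Agent.H628R3.RO

theorem a2_ustep (s : List Bool × List Bool × Bool) :
    (ustep s).1.length + (ustep s).2.1.length ≤ s.1.length + s.2.1.length := by
  obtain ⟨a, l, b⟩ := s
  unfold ustep
  cases b with
  | true => simp
  | false =>
    match l with
    | [] => simp
    | true :: [] => simp
    | true :: c :: l' => simp; omega
    | false :: l' => simp

theorem a2_iter (k : ℕ) : ∀ s : List Bool × List Bool × Bool,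
    (ustep^[k] s).1.length + (ustep^[k] s).2.1.length ≤ s.1.length + s.2.1.length := by
  induction k with
  | zero => exact fun s => le_rfl
  | succ k ih =>
    intro s
    rw [Function.iterate_succ_apply]
    exact (ih _).trans (a2_ustep s)

theorem unpair_len (y : List Bool) : (unpair y).1.length + (unpair y).2.length ≤ y.length := by
  have h := a2_iter y.length ([], y, false)
  unfold unpair
  simpa using h

theorem zU_zR_len (z : List Bool) : (zU z).length + zR z ≤ z.length := by
  have h1 := unpair_len (unpair z).2
  have h2 := unpair_len z
  unfold zU zR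
  omega

theorem zK_zM (k u : List Bool) (r : ℕ) : zK (zM k u r) = k := by
  unfold zK zM
  rw [unpair_pairBits]

theorem zU_zM (k u : List Bool) (r : ℕ) : zU (zM k u r) = u := by
  unfold zU zM
  rw [unpair_pairBits, unpair_pairBits]

theorem zR_zM (k u : List Bool) (r : ℕ) : zR (zM k u r) = r := by
  unfold zR zM
  rw [unpair_pairBits, unpair_pairBits]
  simp [one]

theorem a2_poly_one {α : Type} [TEnc α] {n : α → ℕ} (hn : UPoly n) :
    Poly (fun a => one (n a)) := by
  have h : (fun a => one (n a)) = fun a => (List.replicate (n a) ()).map (fun _ => true) := by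
    funext a
    simp [one]
  rw [h]
  exact NPC.Poly.map (F := fun _ _ => true) hn (NPC.Poly.const true)

theorem poly_zM (k : List Bool) (p : Polynomial ℕ) : Poly (fun u => zM k u (p.eval u.length)) := by
  unfold zM
  exact H622R2.poly_pairBits (Pool.Agent.NPC.Poly.const k) (H622R2.poly_pairBits Poly.id
    (a2_poly_one (UPoly.eval (UPoly.length Poly.id) p)))

theorem uC_inj {j n j' n' : ℕ} (h : uC j n = uC j' n') : j = j' ∧ n = n' := by
  unfold uC at h
  have h1 := congrArg unpair h
  rw [unpair_pairBits, unpair_pairBits, Prod.mk.injEq] at h1
  have h2 := congrArg List.length h1.1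
  have h3 := congrArg List.length h1.2
  simp only [one, List.length_replicate] at h2 h3
  exact ⟨h2, h3⟩

theorem uC_len (j n : ℕ) : (uC j n).length = 2 * j + 1 + n := by
  unfold uC pairBits one
  rw [List.length_append, List.length_flatMap]
  simp
  ring

theorem poly_uC (j : ℕ) : Poly (fun x : List Bool => uC j x.length) := by
  unfold uC
  exact H622R2.poly_pairBits (Pool.Agent.NPC.Poly.const _) (a2_poly_one (UPoly.length Poly.id))

theorem a2_drop (n : ℕ) (v : List Bool) :
    (List.replicate n false ++ true :: v).dropWhile (fun b => !b) = true :: v := by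
  induction n with
  | zero => simp
  | succ n ih => rw [List.replicate_succ, List.cons_append, List.dropWhile_cons]; simp [ih]

theorem unp_pad (q : ℕ) (v : List Bool) : unp (pad q v) = v := by
  unfold unp pad
  rw [a2_drop]
  rfl

theorem pad_len {q : ℕ} {v : List Bool} (h : v.length + 1 ≤ q) : (pad q v).length = q := by
  unfold pad
  simp
  omega

theorem gad_pad_pay (q j : ℕ) (y : List Bool) : gad (pad q (pay j y)) = (j, y) := by
  unfold gad
  rw [unp_pad]
  unfold pay
  have h1 : (List.replicate j true ++ false :: y).takeWhile id = List.replicate j true := by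
    induction j with
    | zero => simp
    | succ j ih =>
      rw [List.replicate_succ, List.cons_append, List.takeWhile_cons]
      simp [ih]
  have h2 : (List.replicate j true ++ false :: y).dropWhile id = false :: y := by
    clear h1
    induction j with
    | zero => simp
    | succ j ih =>
      rw [List.replicate_succ, List.cons_append, List.dropWhile_cons]
      simp [ih]
  rw [h1, h2]
  simp

theorem gad_len (v : List Bool) : (gad v).1 + (gad v).2.length ≤ v.length := by
  unfold gad
  have h1 : (unp v).length ≤ v.length := by
    unfold unp
    rw [List.length_tail]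
    have := List.length_dropWhile_le (fun b => !b) v
    omega
  have h2 : ((unp v).takeWhile id).length + ((unp v).dropWhile id).length = (unp v).length := by
    rw [← List.length_append, List.takeWhile_append_dropWhile]
  simp only [List.length_tail]
  omega

theorem exists_tab (m : ℕ) (G : GG) : ∃ F : Finset (ℕ × List Bool), Agr m (tab F) G := by
  have h1 : {q : ℕ × List Bool | q.1 + q.2.length < m ∧ G q.1 q.2 = true}.Finite := by
    refine ((Set.finite_lt_nat m).prod (List.finite_length_lt Bool m)).subset ?_
    rintro ⟨j, y⟩ ⟨h, -⟩
    simp only at h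
    exact ⟨by show j < m; omega, by show y.length < m; omega⟩
  refine ⟨h1.toFinset, fun j y hjy => ?_⟩
  unfold tab
  cases h : G j y
  · simp [h]
  · simp [h, hjy]

end Pool.Agent.H543R3.PC
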