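import Pool.Agent.H543R3.PC.Reqs

/-!
# Costs
-/

namespace Pool.Agent.H543R3.PC

open Pool.Agent.NPC Pool.Agent.H628R3.RO

theorem a3_gad_len (v : List Bool) : (gad v).1 + (gad v).2.length ≤ v.length := by
  have h1 : ((unp v).takeWhile id).length + ((unp v).dropWhile id).length = (unp v).length := by
    rw [← List.length_append, List.takeWhile_append_dropWhile]
  have h2 : (unp v).length ≤ v.length := by
    unfold unp
    rw [List.length_tail]
    have := (List.dropWhile_suffix (l := v) (fun b => !b)).length_le
    omega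
  unfold gad
  simp only [List.length_tail]
  omega

theorem a3_sh_mono {α : Type} {f : GG → α} {d d' s s' : ℕ} (h : Sh f d s) (hd : d ≤ d')
    (hs : s ≤ s') : Sh f d' s' := by
  obtain ⟨t, h1, h2, h3⟩ := h
  exact ⟨t, h1, h2.trans hd, h3.trans hs⟩

theorem a3_agB_mono {t t' : ℕ} {B B' : List Bool → Bool} (h : AgB t B B') (ht : t' ≤ t) :
    AgB t' B B' := fun v hv => h v (hv.trans ht)

theorem a3_run (M : Alg) {b : Polynomial ℕ}
    (hb : ∀ x a : List Bool, a.length ≤ M.p.eval x.length →
      (M.D (pairBits x a)).length ≤ b.eval x.length) (x : List Bool) :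
    ∀ (n : ℕ) (a : List Bool), a.length + n ≤ M.p.eval x.length →
      (∀ B, Sh (fun G => M.run (mk B G) x n a) n (b.eval x.length)) ∧
      ∀ B B' G, AgB (b.eval x.length) B B' → M.run (mk B' G) x n a = M.run (mk B G) x n a := by
  intro n
  induction n with
  | zero =>
    intro a _
    refine ⟨fun B => ⟨.leaf none, fun G => rfl, le_rfl, Nat.zero_le _⟩, fun B B' G _ => rfl⟩
  | succ n ih =>
    intro a ha
    have hD := hb x a (by omega)
    rcases hq : M.D (pairBits x a) with _ | ⟨c, q⟩
    · refine ⟨fun B => ⟨.leaf (some []), fun G => ?_, Nat.zero_le _, Nat.zero_le _⟩,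
        fun B B' G _ => ?_⟩
      · simp only [Alg.run, hq, DT.eval]
      · simp only [Alg.run, hq]
    · cases c with
      | true =>
        refine ⟨fun B => ⟨.leaf (some q), fun G => ?_, Nat.zero_le _, Nat.zero_le _⟩,
          fun B B' G _ => ?_⟩
        · simp only [Alg.run, hq, DT.eval]
        · simp only [Alg.run, hq]
      | false =>
        rw [hq, List.length_cons] at hD
        have hl : ∀ c : Bool, (a ++ [c]).length + n ≤ M.p.eval x.length := fun c => by
          rw [List.length_append, List.length_singleton]; omega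
        rcases q with _ | ⟨c, v⟩
        · -- the empty question
          refine ⟨fun B => ?_, fun B B' G hBB => ?_⟩
          · obtain ⟨t, h1, h2, h3⟩ := (ih (a ++ [false]) (hl _)).1 B
            refine ⟨t, fun G => ?_, by omega, h3⟩
            simp only [Alg.run, hq, mk]
            exact h1 G
          · simp only [Alg.run, hq, mk]
            exact (ih (a ++ [false]) (hl _)).2 B B' G hBB
        · rw [List.length_cons] at hD
          cases c with
          | false =>
            -- a question to the guide
            refine ⟨fun B => ?_, fun B B' G hBB => ?_⟩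
            · obtain ⟨t, h1, h2, h3⟩ := (ih (a ++ [B v]) (hl _)).1 B
              refine ⟨t, fun G => ?_, by omega, h3⟩
              simp only [Alg.run, hq, mk]
              exact h1 G
            · simp only [Alg.run, hq, mk]
              rw [hBB v (by omega)]
              exact (ih (a ++ [B v]) (hl _)).2 B B' G hBB
          | true =>
            -- a question to the blocks
            refine ⟨fun B => ?_, fun B B' G hBB => ?_⟩
            · obtain ⟨t₀, h1, h2, h3⟩ := (ih (a ++ [false]) (hl _)).1 B
              obtain ⟨t₁, k1, k2, k3⟩ := (ih (a ++ [true]) (hl _)).1 B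
              refine ⟨.node (gad v).1 (gad v).2 t₀ t₁, fun G => ?_, ?_, ?_⟩
              · simp only [Alg.run, hq, mk, DT.eval]
                cases hG : G (gad v).1 (gad v).2 with
                | true => rw [if_pos rfl]; exact k1 G
                | false => rw [if_neg Bool.false_ne_true]; exact h1 G
              · simp only [DT.depth]
                omega
              · simp only [DT.size]
                have := a3_gad_len v
                omega
            · simp only [Alg.run, hq, mk]
              exact (ih (a ++ [G (gad v).1 (gad v).2]) (hl _)).2 B B' G hBB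

theorem a3_out (M : Alg) : ∃ b : Polynomial ℕ, ∀ x : List Bool,
    (∀ B, Sh (fun G => M.out (mk B G) x) (b.eval x.length) (b.eval x.length)) ∧
      ∀ B B' G, AgB (b.eval x.length) B B' → M.out (mk B' G) x = M.out (mk B G) x := by
  obtain ⟨b, hb⟩ := M.next_length
  refine ⟨M.p + b, fun x => ?_⟩
  obtain ⟨h1, h2⟩ := a3_run M hb x (M.p.eval x.length) [] (by simp)
  rw [Polynomial.eval_add]
  exact ⟨fun B => a3_sh_mono (h1 B) (Nat.le_add_right _ _) (Nat.le_add_left _ _),
    fun B B' G h => h2 B B' G (a3_agB_mono h (Nat.le_add_left _ _))⟩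

theorem CostP.mono {M : Alg} {p c c' : Polynomial ℕ} (h : CostP M p c)
    (hc : ∀ n, c.eval n ≤ c'.eval n) : CostP M p c' := fun u w hw =>
  ⟨fun B => a3_sh_mono ((h u w hw).1 B) (hc _) (hc _),
    fun B B' G hB => (h u w hw).2 B B' G (a3_agB_mono hB (hc _))⟩

theorem CostF.mono {M : Alg} {c c' : Polynomial ℕ} (h : CostF M c)
    (hc : ∀ n, c.eval n ≤ c'.eval n) : CostF M c' := fun u =>
  ⟨fun B => a3_sh_mono ((h u).1 B) (hc _) (hc _),
    fun B B' G hB => (h u).2.1 B B' G (a3_agB_mono hB (hc _)),
    fun A z hz => ((h u).2.2 A z hz).trans (hc _)⟩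

theorem exists_costP (M : Alg) (p : Polynomial ℕ) : ∃ c, CostP M p c := by
  obtain ⟨b, hb⟩ := a3_out M
  refine ⟨b.comp (Polynomial.C 2 * Polynomial.X + Polynomial.C 1 + p), fun u w hw => ?_⟩
  have hlen : b.eval (pairBits u w).length ≤
      (b.comp (Polynomial.C 2 * Polynomial.X + Polynomial.C 1 + p)).eval u.length := by
    rw [Polynomial.eval_comp]
    apply eval_mono
    rw [length_pairBits]
    simp only [Polynomial.eval_add, Polynomial.eval_mul, Polynomial.eval_C, Polynomial.eval_X]
    omega
  exact ⟨fun B => a3_sh_mono ((hb _).1 B) hlen hlen,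
    fun B B' G hB => (hb _).2 B B' G (a3_agB_mono hB hlen)⟩

theorem exists_costF (M : Alg) : ∃ c, CostF M c := by
  obtain ⟨b, hb⟩ := a3_out M
  obtain ⟨b', hb'⟩ := M.out_length
  refine ⟨b + b', fun u => ?_⟩
  rw [Polynomial.eval_add]
  exact ⟨fun B => a3_sh_mono ((hb _).1 B) (Nat.le_add_right _ _) (Nat.le_add_right _ _),
    fun B B' G hB => (hb _).2 B B' G (a3_agB_mono hB (Nat.le_add_right _ _)),
    fun A z hz => (hb' A u z hz).trans (Nat.le_add_left _ _)⟩

theorem cR_spec (r : Req) : CostR r (cR r) := by
  have h : ∃ c, CostR r c := by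
    obtain ⟨c₁, h₁⟩ := exists_costP r.M₀ r.p₀
    obtain ⟨c₂, h₂⟩ := exists_costP r.M₁ r.p₁
    obtain ⟨c₃, h₃⟩ := exists_costF r.M₀
    refine ⟨c₁ + c₂ + c₃ + r.p₀ + r.p₁, h₁.mono fun n => ?_, h₂.mono fun n => ?_,
      h₃.mono fun n => ?_, fun n => ⟨?_, ?_⟩⟩ <;>
    · simp only [Polynomial.eval_add]
      omega
  unfold cR
  rw [dif_pos h]
  exact h.choose_spec

theorem cA_spec (a : Alg × Polynomial ℕ) : CostA a (cA a) := by
  have h : ∃ c, CostA a c := by
    obtain ⟨c₁, h₁⟩ := exists_costP a.1 a.2
    refine ⟨c₁ + a.2, h₁.mono fun n => ?_, fun n => ?_⟩ <;>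
    · simp only [Polynomial.eval_add]
      omega
  unfold cA
  rw [dif_pos h]
  exact h.choose_spec

end Pool.Agent.H543R3.PC
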