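import Pool.Agent.H543R3.PC.DefsB
import Pool.Agent.H622R2.CoNP

/-!
# The algorithm following the guide is polynomial time
-/

namespace Pool.Agent.H543R3.PC

open Pool.Agent.NPC Pool.Agent.H628R3.RO

theorem b1_zipIdx (l : List Bool) (n i : ℕ) :
    ((l.zipIdx i).filter (fun p => decide (n ≤ p.2))).map (fun p => p.1) = l.drop (n - i) := by
  induction l generalizing i with
  | nil => simp
  | cons b l ih =>
    rw [List.zipIdx_cons]
    by_cases h : n ≤ i
    · rw [List.filter_cons_of_pos (by simpa using h), List.map_cons, ih,
        Nat.sub_eq_zero_of_le h, Nat.sub_eq_zero_of_le (by omega)]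
      simp
    · rw [List.filter_cons_of_neg (by simpa using h), ih,
        show n - i = (n - (i + 1)) + 1 by omega, List.drop_succ_cons]

theorem b1_drop {α : Type} [TEnc α] {l : α → List Bool} {n : α → ℕ} (hl : Poly l) (hn : Poly n) :
    Poly (fun a => (l a).drop (n a)) := by
  refine (NPC.Poly.map (F := fun _ (p : Bool × ℕ) => p.1)
    (Poly.filter (p := fun a (q : Bool × ℕ) => decide (n a ≤ q.2)) (Poly.zipIdx hl)
      (Poly.decide_le (hn.comp (Poly.fst Poly.id)) (Poly.snd (Poly.snd Poly.id))))
    (Poly.fst (Poly.snd Poly.id))).congr fun a => ?_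
  rw [b1_zipIdx, Nat.sub_zero]

/-- one step of `dropWhile` -/
def b1F (s : List Bool) : List Bool := if s.head? = some false then s.tail else s

theorem b1F_sz (s : List Bool) : sz (b1F s) ≤ sz s := by
  unfold b1F
  split_ifs
  · have := NPC.Poly.sz_drop_le s 1
    rwa [List.drop_one] at this
  · exact le_rfl

theorem b1F_iter (v : List Bool) : ∀ k, v.length ≤ k → b1F^[k] v = v.dropWhile (fun b => !b) := by
  induction v with
  | nil =>
    intro k _
    have : b1F [] = [] := rfl
    rw [Function.iterate_fixed this]
    rfl
  | cons b v ih =>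
    intro k hk
    cases b with
    | false =>
      obtain ⟨k', rfl⟩ : ∃ k', k = k' + 1 := ⟨k - 1, by simp at hk; omega⟩
      rw [Function.iterate_succ_apply]
      have : b1F (false :: v) = v := by simp [b1F]
      rw [this, ih k' (by simp at hk; omega)]
      simp
    | true =>
      have : b1F (true :: v) = true :: v := by simp [b1F]
      rw [Function.iterate_fixed this]
      simp

theorem b1_unp {α : Type} [TEnc α] {l : α → List Bool} (hl : Poly l) :
    Poly (fun a => unp (l a)) := by
  obtain ⟨p, hp⟩ := hl.sz_le
  have h1 : Poly (fun a => (fun s => b1F s)^[(l a).length] (l a)) := by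
    refine Poly.iterLen (F := fun _ s => b1F s) hl hl ?_ p ?_
    · unfold b1F
      exact Poly.ite (Poly.decide_eq (Poly.head? (Poly.snd Poly.id)) (NPC.Poly.const _))
        (Poly.tail (Poly.snd Poly.id)) (Poly.snd Poly.id)
    · intro a k _
      have : ∀ k (s : List Bool), sz ((fun s => b1F s)^[k] s) ≤ sz s := by
        intro k
        induction k with
        | zero => intro s; exact le_rfl
        | succ k ih =>
          intro s
          rw [Function.iterate_succ_apply]
          exact (ih _).trans (b1F_sz s)
      exact (this k _).trans (hp a)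
  refine (Poly.tail h1).congr fun a => ?_
  unfold unp
  exact congrArg List.tail (b1F_iter (l a) _ le_rfl)

theorem gD_poly (c : List Bool) : PolyTime (gD c) := by
  apply H622R2.polyTime_of_poly_list
  have hx : Poly (fun y => (unpair y).1) := Poly.fst poly_unpair
  have hw : Poly (fun y => (unpair y).2) := Poly.snd poly_unpair
  have hn : Poly (fun y => (unpair y).1.length + c.length) :=
    Poly.add (Poly.length hx) (NPC.Poly.const _)
  have hn2 : Poly (fun y => (unpair y).1.length + c.length + 2) :=
    Poly.add hn (NPC.Poly.const 2)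
  have hn3 : Poly (fun y => (unpair y).1.length + c.length + 3) :=
    Poly.add hn (NPC.Poly.const 3)
  have hl : Poly (fun y => (unpair y).2.length) := Poly.length hw
  have hd : Poly (fun y => (unpair y).2.drop
      ((unpair y).2.length - ((unpair y).1.length + c.length + 2))) :=
    b1_drop hw (Poly.sub hl hn2)
  unfold gD
  exact Poly.ite (Poly.decide_le (Poly.add (Poly.mul hn hn3) hn2) hl)
    (Poly.cons (NPC.Poly.const true) (b1_unp hd))
    (Poly.ite (Poly.decide_eq (Poly.mod hl hn3) hn2)
      (Poly.cons (NPC.Poly.const false) (Poly.cons (NPC.Poly.const true) hd))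
      (Poly.cons (NPC.Poly.const false) (Poly.cons (NPC.Poly.const false)
        (H622R2.poly_pairBits (NPC.Poly.const c) Poly.id))))

end Pool.Agent.H543R3.PC
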