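import Pool.Agent.H543R3.PC.DefsB

/-!
# The algorithm follows the guide
-/

namespace Pool.Agent.H543R3.PC

open Pool.Agent.NPC Pool.Agent.H628R3.RO

theorem b2_unp (m : ℕ) (v : List Bool) : unp (List.replicate m false ++ true :: v) = v := by
  induction m with
  | zero => simp [unp]
  | succ m ih =>
    simp only [unp] at ih ⊢
    simpa [List.replicate_succ] using ih

theorem b2_unp_pad (q : ℕ) (v : List Bool) : unp (pad q v) = v := b2_unp _ _

theorem b2_pad_len {q : ℕ} {v : List Bool} (h : v.length + 1 ≤ q) : (pad q v).length = q := by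
  simp only [pad, List.length_append, List.length_replicate, List.length_cons]
  omega

theorem b2_pay (j : ℕ) (y : List Bool) :
    ((pay j y).takeWhile id).length = j ∧ ((pay j y).dropWhile id).tail = y := by
  induction j with
  | zero => simp [pay]
  | succ j ih =>
    simp only [pay] at ih ⊢
    simpa [List.replicate_succ] using ih

theorem b2_gad (q j : ℕ) (y : List Bool) : gad (pad q (pay j y)) = (j, y) := by
  unfold gad
  rw [b2_unp_pad, (b2_pay j y).1, (b2_pay j y).2]

theorem b2_pay_len (j : ℕ) (y : List Bool) : (pay j y).length = j + y.length + 1 := by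
  simp only [pay, List.length_append, List.length_replicate, List.length_cons]
  omega

theorem b2_walk_leaf {α : Type} (a : α) (g : List Bool) : (DT.leaf a).walk g = DT.leaf a := by
  cases g <;> rfl

theorem b2_walk_append {α : Type} (l l' : List Bool) (t : DT α) :
    t.walk (l ++ l') = (t.walk l).walk l' := by
  induction l generalizing t with
  | nil => cases t <;> rfl
  | cons b l ih =>
    cases t with
    | leaf a => rw [b2_walk_leaf, b2_walk_leaf, b2_walk_leaf]
    | node j y t₀ t₁ =>
      simp only [List.cons_append, DT.walk]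
      split_ifs
      · exact ih t₁
      · exact ih t₀

/-- one step of the walk with the true answer -/
theorem b2_step {α : Type} (G : GG) (t : DT α) :
    (t.walk [G t.ask.1 t.ask.2]).eval G = t.eval G ∧
    (t.walk [G t.ask.1 t.ask.2]).depth ≤ t.depth - 1 ∧
    (t.walk [G t.ask.1 t.ask.2]).size ≤ t.size := by
  cases t with
  | leaf a => rw [b2_walk_leaf]; exact ⟨rfl, Nat.zero_le _, le_refl _⟩
  | node j y t₀ t₁ =>
    simp only [DT.ask, DT.walk, DT.eval, DT.depth, DT.size]
    split_ifs
    · exact ⟨rfl, by omega, by omega⟩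
    · exact ⟨rfl, by omega, by omega⟩

theorem b2_ask_size {α : Type} (t : DT α) : t.ask.1 + t.ask.2.length ≤ t.size := by
  cases t with
  | leaf a => simp [DT.ask]
  | node j y t₀ t₁ => simp only [DT.ask, DT.size]; omega

theorem b2_leaf {t : DT (List Bool)} (h : t.depth = 0) (G : GG) : t.res = t.eval G := by
  cases t with
  | leaf a => rfl
  | node j y t₀ t₁ => simp [DT.depth] at h

/-- `filterMap` over a range -/
theorem b2_filterMap (F : ℕ → Option Bool) (f : ℕ → Bool) (r d : ℕ)
    (h1 : ∀ k, k < r → F k = some (f k)) (h2 : ∀ k, r ≤ k → F k = none) :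
    (List.range (r + d)).filterMap F = (List.range r).map f := by
  rw [List.range_add, List.filterMap_append]
  have e1 : (List.range r).filterMap F = (List.range r).map f := by
    rw [← List.filterMap_eq_map]
    refine List.filterMap_congr fun k hk => ?_
    rw [h1 k (List.mem_range.1 hk)]
    rfl
  have e2 : ((List.range d).map (fun x => r + x)).filterMap F = [] := by
    rw [List.filterMap_eq_nil_iff]
    intro k hk
    obtain ⟨k', _, rfl⟩ := List.mem_map.1 hk
    exact h2 _ (Nat.le_add_right _ _)
  rw [e1, e2, List.append_nil]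

theorem b2_getElem (b : ℕ → Bool) (k i : ℕ) :
    ((List.range k).map b)[i]? = if i < k then some (b i) else none := by
  rw [List.getElem?_map]
  by_cases h : i < k
  · rw [List.getElem?_range h, if_pos h]; rfl
  · rw [if_neg h, List.getElem?_eq_none (by rw [List.length_range]; omega)]; rfl

theorem b2_gans (b : ℕ → Bool) (n r i : ℕ) (hr : r ≤ n) (hi : i ≤ n + 2) :
    gans n ((List.range (r * (n + 3) + i)).map b) =
      (List.range r).map (fun k => b (k * (n + 3) + (n + 2))) := by
  obtain ⟨d, rfl⟩ : ∃ d, n = r + d := ⟨n - r, by omega⟩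
  unfold gans
  refine b2_filterMap _ _ r d (fun k hk => ?_) (fun k hk => ?_)
  · rw [b2_getElem, if_pos]
    have h1 : (k + 1) * (r + d + 3) ≤ r * (r + d + 3) := Nat.mul_le_mul_right _ hk
    have h2 : (k + 1) * (r + d + 3) = k * (r + d + 3) + (r + d + 3) := by ring
    omega
  · rw [b2_getElem, if_neg]
    have h1 : r * (r + d + 3) ≤ k * (r + d + 3) := Nat.mul_le_mul_right _ hk
    omega

/-- the last `m` bits -/
theorem b2_drop (b : ℕ → Bool) (k m : ℕ) :
    ((List.range (k + m)).map b).drop k = (List.range m).map (fun i => b (k + i)) := by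
  rw [List.range_add, List.map_append, List.drop_append_of_le_length (by simp)]
  rw [List.drop_of_length_le (by simp), List.nil_append, List.map_map]
  rfl

theorem b2_getD (L : List Bool) (m : ℕ) (h : L.length = m) :
    (List.range m).map (fun i => L.getD i false) = L := by
  apply List.ext_getElem?
  intro i
  rw [b2_getElem]
  split_ifs with hi
  · rw [List.getD_eq_getElem?_getD, List.getElem?_eq_getElem (by omega)]; rfl
  · rw [List.getElem?_eq_none (by omega)]

section main

variable (c x : List Bool) (B : List Bool → Bool) (G : GG) (t : DT (List Bool)) (n : ℕ)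

/-- the next answer -/
def b2ans (a : List Bool) : Bool :=
  if a.length % (n + 3) = n + 2 then
    G (gad (a.drop (a.length - (n + 2)))).1 (gad (a.drop (a.length - (n + 2)))).2
  else gbit t n a

/-- the answers -/
def b2A : ℕ → List Bool
  | 0 => []
  | k + 1 => b2A k ++ [b2ans G t n (b2A k)]

/-- the bits of the answers -/
def b2b (k : ℕ) : Bool := b2ans G t n (b2A G t n k)

theorem b2A_eq (k : ℕ) : b2A G t n k = (List.range k).map (b2b G t n) := by
  induction k with
  | zero => rfl
  | succ k ih =>
    rw [List.range_succ, List.map_append, ← ih]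
    rfl

theorem b2A_len (k : ℕ) : (b2A G t n k).length = k := by
  rw [b2A_eq, List.length_map, List.length_range]

/-- the answers of the blocks -/
def b2g (r : ℕ) : List Bool := (List.range r).map (fun k => b2b G t n (k * (n + 3) + (n + 2)))

theorem b2_gansA (r i : ℕ) (hr : r ≤ n) (hi : i ≤ n + 2) :
    gans n (b2A G t n (r * (n + 3) + i)) = b2g G t n r := by
  rw [b2A_eq, b2_gans _ n r i hr hi]
  rfl

theorem b2_mod (r i : ℕ) (hi : i ≤ n + 2) : (r * (n + 3) + i) % (n + 3) = i := by
  rw [Nat.add_comm, Nat.add_mul_mod_self_right]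
  exact Nat.mod_eq_of_lt (by omega)

/-- bits of the addresses -/
theorem b2_addr (r i : ℕ) (hr : r < n) (hi : i < n + 2) :
    b2b G t n (r * (n + 3) + i) =
      (pad (n + 2) (pay (t.walk (b2g G t n r)).ask.1 (t.walk (b2g G t n r)).ask.2)).getD i false := by
  unfold b2b b2ans
  rw [b2A_len, b2_mod n r i (by omega), if_neg (by omega)]
  unfold gbit
  have h1 : r * (n + 3) + i < n * (n + 3) := by
    have h2 : (r + 1) * (n + 3) ≤ n * (n + 3) := Nat.mul_le_mul_right _ hr
    have h3 : (r + 1) * (n + 3) = r * (n + 3) + (n + 3) := by ring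
    omega
  rw [b2A_len, if_pos h1, b2_mod n r i (by omega), b2_gansA G t n r i (by omega) (by omega)]

/-- bits of the output -/
theorem b2_outb (i : ℕ) (hi : i < n + 2) :
    b2b G t n (n * (n + 3) + i) = (pad (n + 2) (t.walk (b2g G t n n)).res).getD i false := by
  unfold b2b b2ans
  rw [b2A_len, b2_mod n n i (by omega), if_neg (by omega)]
  unfold gbit
  rw [b2A_len, if_neg (by omega), b2_gansA G t n n i (le_refl _) (by omega)]
  congr 1
  omega

theorem b2_drop_mod (r : ℕ) :
    (b2A G t n (r * (n + 3) + (n + 2))).drop (r * (n + 3)) =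
      (List.range (n + 2)).map (fun i => b2b G t n (r * (n + 3) + i)) := by
  rw [b2A_eq, b2_drop]

theorem b2_blk (r : ℕ) (hr : r < n) (hs : (t.walk (b2g G t n r)).size ≤ n) :
    b2b G t n (r * (n + 3) + (n + 2)) =
      G (t.walk (b2g G t n r)).ask.1 (t.walk (b2g G t n r)).ask.2 := by
  have h0 : b2b G t n (r * (n + 3) + (n + 2)) =
      G (gad ((b2A G t n (r * (n + 3) + (n + 2))).drop (r * (n + 3)))).1
        (gad ((b2A G t n (r * (n + 3) + (n + 2))).drop (r * (n + 3)))).2 := by
    unfold b2b b2ans
    rw [b2A_len, b2_mod n r (n + 2) (le_refl _), if_pos rfl]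
    have e : r * (n + 3) + (n + 2) - (n + 2) = r * (n + 3) := by omega
    rw [e]
  have h1 : (b2A G t n (r * (n + 3) + (n + 2))).drop (r * (n + 3)) =
      pad (n + 2) (pay (t.walk (b2g G t n r)).ask.1 (t.walk (b2g G t n r)).ask.2) := by
    rw [b2_drop_mod]
    have h2 := b2_ask_size (t.walk (b2g G t n r))
    rw [← b2_getD (pad (n + 2) (pay (t.walk (b2g G t n r)).ask.1 (t.walk (b2g G t n r)).ask.2))
      (n + 2) (b2_pad_len (by rw [b2_pay_len]; omega))]
    refine List.map_congr_left fun i hi => ?_
    exact b2_addr G t n r i hr (List.mem_range.1 hi)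
  rw [h0, h1, b2_gad]

theorem b2_inv (hd : t.depth ≤ n) (hs : t.size ≤ n) (r : ℕ) (hr : r ≤ n) :
    (t.walk (b2g G t n r)).eval G = t.eval G ∧ (t.walk (b2g G t n r)).depth ≤ t.depth - r ∧
      (t.walk (b2g G t n r)).size ≤ t.size := by
  induction r with
  | zero =>
    have h : t.walk (b2g G t n 0) = t := by
      have : b2g G t n 0 = [] := rfl
      rw [this]; cases t <;> rfl
    rw [h]
    exact ⟨rfl, by omega, le_refl _⟩
  | succ r ih =>
    obtain ⟨h1, h2, h3⟩ := ih (by omega)
    have hg : b2g G t n (r + 1) = b2g G t n r ++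
        [G (t.walk (b2g G t n r)).ask.1 (t.walk (b2g G t n r)).ask.2] := by
      rw [← b2_blk G t n r (by omega) (by omega)]
      unfold b2g
      rw [List.range_succ, List.map_append]
      rfl
    rw [hg, b2_walk_append]
    obtain ⟨s1, s2, s3⟩ := b2_step G (t.walk (b2g G t n r))
    exact ⟨s1.trans h1, by omega, by omega⟩

theorem b2_final (hd : t.depth ≤ n) (hs : t.size ≤ n) (ho : (t.eval G).length ≤ n) :
    unp ((b2A G t n (n * (n + 3) + (n + 2))).drop (n * (n + 3))) = t.eval G := by
  obtain ⟨h1, h2, _⟩ := b2_inv G t n hd hs n (le_refl _)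
  have h3 : (t.walk (b2g G t n n)).res = t.eval G := by
    rw [b2_leaf (by omega) G, h1]
  have h4 : (b2A G t n (n * (n + 3) + (n + 2))).drop (n * (n + 3)) = pad (n + 2) (t.eval G) := by
    rw [b2_drop_mod]
    rw [← b2_getD (pad (n + 2) (t.eval G)) (n + 2) (b2_pad_len (by omega))]
    refine List.map_congr_left fun i hi => ?_
    rw [b2_outb G t n i (List.mem_range.1 hi), h3]
  rw [h4, b2_unp_pad]

end main

theorem gAlg_out (c : List Bool) (hc : PolyTime (gD c)) (x : List Bool) (B : List Bool → Bool)
    (G : GG) (t : DT (List Bool))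
    (hB : ∀ a : List Bool, a.length < (x.length + c.length) * (x.length + c.length + 3) +
      (x.length + c.length + 2) → B (pairBits c (pairBits x a)) = gbit t (x.length + c.length) a)
    (hd : t.depth ≤ x.length + c.length) (hs : t.size ≤ x.length + c.length)
    (ho : (t.eval G).length ≤ x.length + c.length) :
    (gAlg c hc).out (mk B G) x = some (t.eval G) := by
  set n := x.length + c.length with hn
  have hrun : ∀ m k : ℕ, k + m = n * (n + 3) + (n + 2) →
      (gAlg c hc).run (mk B G) x (m + 1) (b2A G t n k) = some (t.eval G) := by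
    intro m
    induction m with
    | zero =>
      intro k hk
      have hk' : k = n * (n + 3) + (n + 2) := by omega
      subst hk'
      have hD : (gAlg c hc).D (pairBits x (b2A G t n (n * (n + 3) + (n + 2)))) =
          true :: t.eval G := by
        change gD c _ = _
        unfold gD
        rw [unpair_pairBits]
        simp only [b2A_len, ← hn]
        rw [if_pos (le_refl _)]
        have e : n * (n + 3) + (n + 2) - (n + 2) = n * (n + 3) := by omega
        rw [e, b2_final G t n hd hs ho]
      rw [Alg.run, hD]
    | succ m ih =>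
      intro k hk
      have hlt : k < n * (n + 3) + (n + 2) := by omega
      have key : (gAlg c hc).run (mk B G) x (m + 1 + 1) (b2A G t n k) =
          (gAlg c hc).run (mk B G) x (m + 1) (b2A G t n (k + 1)) := by
        by_cases hmod : k % (n + 3) = n + 2
        · have hD : (gAlg c hc).D (pairBits x (b2A G t n k)) =
              false :: true :: ((b2A G t n k).drop (k - (n + 2))) := by
            change gD c _ = _
            unfold gD
            rw [unpair_pairBits]
            simp only [b2A_len, ← hn]
            rw [if_neg (by omega), if_pos hmod]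
          rw [Alg.run, hD]
          change (gAlg c hc).run (mk B G) x (m + 1) (b2A G t n k ++ [G _ _]) = _
          congr 1
          change _ = b2A G t n k ++ [b2ans G t n (b2A G t n k)]
          unfold b2ans
          rw [b2A_len, if_pos hmod]
        · have hD : (gAlg c hc).D (pairBits x (b2A G t n k)) =
              false :: false :: pairBits c (pairBits x (b2A G t n k)) := by
            change gD c _ = _
            unfold gD
            rw [unpair_pairBits]
            simp only [b2A_len, ← hn]
            rw [if_neg (by omega), if_neg hmod]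
          rw [Alg.run, hD]
          change (gAlg c hc).run (mk B G) x (m + 1)
            (b2A G t n k ++ [B (pairBits c (pairBits x (b2A G t n k)))]) = _
          rw [hB _ (by rw [b2A_len]; exact hlt)]
          congr 1
          change _ = b2A G t n k ++ [b2ans G t n (b2A G t n k)]
          unfold b2ans
          rw [b2A_len, if_neg hmod]
      rw [key]
      exact ih (k + 1) (by omega)
  have hp : (gAlg c hc).p.eval x.length = n * (n + 3) + (n + 2) + 1 := by
    simp only [gAlg, Polynomial.eval_add, Polynomial.eval_mul, Polynomial.eval_X,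
      Polynomial.eval_C]
    rw [hn]
    ring
  unfold Alg.out
  rw [hp]
  exact hrun (n * (n + 3) + (n + 2)) 0 (by omega)

end Pool.Agent.H543R3.PC
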