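import Pool.Agent.H543R3.PC.B1
import Pool.Agent.H543R3.PC.B2

/-!
# Existence of the guide
-/

namespace Pool.Agent.H543R3.PC

open Pool.Agent.NPC Pool.Agent.H628R3.RO

/-- Decision tree of depth and size at most `d` computing `φ`, if there is one. -/
noncomputable def b3_treeOf (φ : GG → List Bool) (d : ℕ) : DT (List Bool) :=
  open Classical in if h : Sh φ d d then h.choose else DT.leaf []

theorem b3_treeOf_spec {φ : GG → List Bool} {d : ℕ} (h : Sh φ d d) :
    (∀ G, (b3_treeOf φ d).eval G = φ G) ∧ (b3_treeOf φ d).depth ≤ d ∧
      (b3_treeOf φ d).size ≤ d := by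
  unfold b3_treeOf
  rw [dif_pos h]
  exact h.choose_spec

/-- Stages of the definition of the guide. -/
def b3_stage (F : (List Bool → Bool) → List Bool → Bool) : ℕ → List Bool → Bool
  | 0 => fun _ => false
  | n + 1 => fun s => if s.length = n then F (b3_stage F n) s else b3_stage F n s

/-- The guide defined by the stages. -/
def b3_B (F : (List Bool → Bool) → List Bool → Bool) (s : List Bool) : Bool :=
  b3_stage F (s.length + 1) s

theorem b3_stage_eq (F : (List Bool → Bool) → List Bool → Bool) (n : ℕ) (s : List Bool)
    (h : s.length < n) : b3_stage F n s = b3_B F s := by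
  induction n with
  | zero => omega
  | succ n ih =>
    by_cases h1 : s.length = n
    · subst h1; rfl
    · have h2 : b3_stage F (n + 1) s = b3_stage F n s := by
        simp only [b3_stage, if_neg h1]
      rw [h2, ih (by omega)]

theorem b3_B_eq (F : (List Bool → Bool) → List Bool → Bool) (s : List Bool) :
    b3_B F s = F (b3_stage F s.length) s := by
  simp [b3_B, b3_stage]

theorem guide_exists {τ : Type} [Countable τ] [Nonempty τ]
    (f : τ → (List Bool → Bool) → List Bool → GG → List Bool) (κ : τ → ℕ)
    (hloc : ∀ T B B' x, AgB (x.length + κ T) B B' → f T B' x = f T B x)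
    (hsh : ∀ T B x, Sh (f T B x) (x.length + κ T) (x.length + κ T))
    (hlen : ∀ T B x G, (f T B x G).length ≤ x.length + κ T) :
    ∃ B : List Bool → Bool, ∀ T : τ, ∃ M : Alg, ∀ G x, M.out (mk B G) x = some (f T B x G) := by
  classical
  obtain ⟨g, hg⟩ := exists_surjective_nat τ
  let F : (List Bool → Bool) → List Bool → Bool := fun C s =>
    if κ (g ((unpair s).1.count true)) ≤ (unpair s).1.length ∧
        (unpair (unpair s).2).1.length + κ (g ((unpair s).1.count true)) < s.length then
      gbit (b3_treeOf (f (g ((unpair s).1.count true)) C (unpair (unpair s).2).1)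
        ((unpair (unpair s).2).1.length + κ (g ((unpair s).1.count true))))
        ((unpair (unpair s).2).1.length + (unpair s).1.length) (unpair (unpair s).2).2
    else false
  refine ⟨b3_B F, fun T => ?_⟩
  obtain ⟨i, hi⟩ := hg T
  let c : List Bool := List.replicate i true ++ List.replicate (κ T) false
  have hc1 : c.length = i + κ T := by simp [c]
  have hc2 : c.count true = i := by
    simp [c, List.count_append, List.count_replicate]
  refine ⟨gAlg c (gD_poly c), fun G x => ?_⟩
  obtain ⟨h1, h2, h3⟩ := b3_treeOf_spec (hsh T (b3_B F) x)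
  have key := gAlg_out c (gD_poly c) x (b3_B F) G
    (b3_treeOf (f T (b3_B F) x) (x.length + κ T)) ?_ (by omega) (by omega) ?_
  · rw [key, h1]
  · intro a _
    rw [b3_B_eq]
    have hl : (pairBits c (pairBits x a)).length = 2 * c.length + 1 + (2 * x.length + 1 + a.length) := by
      rw [length_pairBits, length_pairBits]
    simp only [F, unpair_pairBits, hc2, hi]
    rw [if_pos ⟨by omega, by omega⟩]
    have h4 : f T (b3_stage F (pairBits c (pairBits x a)).length) x = f T (b3_B F) x := by
      apply hloc
      intro v hv
      exact b3_stage_eq F _ v (by omega)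
    exact congrArg (fun φ => gbit (b3_treeOf φ (x.length + κ T)) (x.length + c.length) a) h4
  · rw [h1]
    have := hlen T (b3_B F) x G
    omega

end Pool.Agent.H543R3.PC
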