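import Pool.Agent.H543R3.PC.DefsC

/-!
# C1: basic facts on the construction
-/

namespace Pool.Agent.H543R3.PC

open Pool.Agent.NPC Pool.Agent.H628R3.RO

section

variable {Bad : ℕ → GG → Prop} {Win : ℕ → ℕ → ℕ → GG → Prop} {ev : ℕ → Option ℕ}

theorem tr_tr (m : ℕ) (G : GG) : tr m (tr m G) = tr m G := by
  funext j y
  simp [tr]

theorem agr_tr (m : ℕ) (G : GG) : Agr m G (tr m G) := by
  intro j y h
  simp [tr, h]

theorem tr_congr {m : ℕ} {G G' : GG} (h : Agr m G G') : tr m G' = tr m G := by
  funext j y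
  by_cases hy : j + y.length < m
  · simp [tr, hy, h j y hy]
  · simp [tr, hy]

theorem c1_tr_le {m m' : ℕ} (h : m ≤ m') {G : GG} (hG : G = tr m G) : G = tr m' G := by
  funext j y
  by_cases hy : j + y.length < m'
  · simp [tr, hy]
  · rw [hG]
    have : ¬ j + y.length < m := by omega
    simp [tr, hy, this]

theorem put_at {G : GG} {j n : ℕ} {C : List (List Bool)} {y : List Bool} (hy : y.length = n) :
    put G j n C j y = (decide (y = zer n) || decide (y ∈ C)) := by
  simp [put, hy]

theorem put_ne {G : GG} {j n j' : ℕ} {C : List (List Bool)} {y : List Bool}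
    (h : ¬ (j' = j ∧ y.length = n)) : put G j n C j' y = G j' y := by
  unfold put
  rw [if_neg h]

theorem c1_zer_length (n : ℕ) : (zer n).length = n := by simp [zer]

theorem put_hit {G : GG} {j n : ℕ} {C : List (List Bool)} {y : List Bool} :
    Hit (put G j n C) j n y ↔ y.length = n ∧ y ≠ zer n ∧ y ∈ C := by
  unfold Hit
  constructor
  · rintro ⟨h1, h2, h3⟩
    rw [put_at h1] at h3
    refine ⟨h1, h2, ?_⟩
    simpa [h2] using h3
  · rintro ⟨h1, h2, h3⟩
    refine ⟨h1, h2, ?_⟩
    rw [put_at h1]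
    simp [h3]

theorem put_act {G : GG} {j n : ℕ} {C : List (List Bool)} : Act (put G j n C) j n := by
  unfold Act
  rw [put_at (c1_zer_length n)]
  simp

theorem put_legal {G : GG} {j n : ℕ} {y : List Bool} (hy : y.length = n) (hy' : y ≠ zer n) :
    Legal (put G j n [y]) j n := by
  refine ⟨put_act, y, put_hit.2 ⟨hy, hy', by simp⟩, ?_⟩
  intro y' h
  have := (put_hit.1 h).2.2
  simpa using this

theorem c1_le_stab (P : GG → Prop) (m : ℕ) (G : GG) : m ≤ stab P m G := by
  unfold stab
  split_ifs with h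
  · exact h.choose_spec.1
  · exact le_rfl

/-- the description of `stepB` -/
theorem c1_stepB (Bad : ℕ → GG → Prop) (ev : ℕ → Option ℕ) (st : St) (s : ℕ) :
    (∃ m' G', st.m ≤ m' ∧ Agr st.m st.G G' ∧ stepB Bad ev st s = ⟨m', tr m' G'⟩) ∨
      stepB Bad ev st s = st := by
  classical
  by_cases h : ∃ e, ∃ S G', BrkOpt Bad ev st s e S G'
  · left
    unfold stepB
    rw [dif_pos h]
    exact ⟨_, _, c1_le_stab _ _ _, (Nat.find_spec h).choose_spec.choose_spec.2.2.2.1.agr, rfl⟩
  · right
    unfold stepB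
    rw [dif_neg h]

/-- the description of `stepD` -/
theorem c1_stepD (Win : ℕ → ℕ → ℕ → GG → Prop) (ev : ℕ → Option ℕ) (st : St) (s : ℕ) :
    stepD Win ev st s = ⟨st.m + 1, st.G⟩ ∨
      ∃ j n m' y, st.m ≤ n ∧ j + n < m' ∧ stepD Win ev st s = ⟨m', put st.G j n [y]⟩ := by
  classical
  unfold stepD
  cases h : ev s with
  | none => exact Or.inl rfl
  | some j =>
    right
    simp only
    split_ifs with h1
    · refine ⟨j, h1.choose, _, h1.choose_spec.choose, h1.choose_spec.choose_spec.1, ?_, rfl⟩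
      exact lt_of_lt_of_le (Nat.lt_succ_self _) (c1_le_stab _ _ _)
    · exact ⟨j, st.m + 1, _, _, by omega, by omega, rfl⟩

theorem run_m_mid (s : ℕ) : (run Bad Win ev s).m ≤ (mid Bad Win ev s).m := by
  unfold mid
  rcases c1_stepB Bad ev (run Bad Win ev s) s with ⟨m', G', h1, -, h2⟩ | h
  · rw [h2]
    exact h1
  · rw [h]

theorem c1_run_succ (s : ℕ) :
    run Bad Win ev (s + 1) = stepD Win ev (mid Bad Win ev s) s := rfl

theorem mid_m_run (s : ℕ) : (mid Bad Win ev s).m < (run Bad Win ev (s + 1)).m := by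
  rw [c1_run_succ]
  rcases c1_stepD Win ev (mid Bad Win ev s) s with h | ⟨j, n, m', y, h1, h2, h⟩
  · rw [h]
    exact Nat.lt_succ_self _
  · rw [h]
    show (mid Bad Win ev s).m < m'
    omega

theorem le_run_m (s : ℕ) : s ≤ (run Bad Win ev s).m := by
  induction s with
  | zero => exact Nat.zero_le _
  | succ s ih =>
    have h1 := run_m_mid (Bad := Bad) (Win := Win) (ev := ev) s
    have h2 := mid_m_run (Bad := Bad) (Win := Win) (ev := ev) s
    omega

theorem run_agr_mid (s : ℕ) :
    Agr (run Bad Win ev s).m (run Bad Win ev s).G (mid Bad Win ev s).G := by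
  unfold mid
  rcases c1_stepB Bad ev (run Bad Win ev s) s with ⟨m', G', h1, h3, h2⟩ | h
  · rw [h2]
    intro j y hy
    show tr m' G' j y = _
    rw [agr_tr m' G' j y (by omega), h3 j y hy]
  · rw [h]
    exact fun _ _ _ => rfl

theorem mid_agr_run (s : ℕ) :
    Agr (mid Bad Win ev s).m (mid Bad Win ev s).G (run Bad Win ev (s + 1)).G := by
  rw [c1_run_succ]
  rcases c1_stepD Win ev (mid Bad Win ev s) s with h | ⟨j, n, m', y, h1, h2, h⟩
  · rw [h]
    exact fun _ _ _ => rfl
  · rw [h]
    intro j' y' hy'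
    show put (mid Bad Win ev s).G j n [y] j' y' = _
    apply put_ne
    rintro ⟨rfl, h3⟩
    omega

/-- in the middle of a stage nothing is decided from size `m` on -/
theorem c1_mid_tr_of {s : ℕ} (h : (run Bad Win ev s).G = tr (run Bad Win ev s).m
    (run Bad Win ev s).G) : (mid Bad Win ev s).G = tr (mid Bad Win ev s).m (mid Bad Win ev s).G := by
  unfold mid
  rcases c1_stepB Bad ev (run Bad Win ev s) s with ⟨m', G', h1, h3, h2⟩ | h'
  · rw [h2]
    exact (tr_tr m' G').symm
  · rw [h']
    exact h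

theorem c1_run_tr (s : ℕ) : (run Bad Win ev s).G = tr (run Bad Win ev s).m
    (run Bad Win ev s).G := by
  induction s with
  | zero =>
    funext j y
    simp [run, tr]
  | succ s ih =>
    have ih' := c1_mid_tr_of ih
    rw [c1_run_succ]
    rcases c1_stepD Win ev (mid Bad Win ev s) s with h | ⟨j, n, m', y, h1, h2, h⟩
    · rw [h]
      exact c1_tr_le (Nat.le_succ _) ih'
    · rw [h]
      show put (mid Bad Win ev s).G j n [y] = tr m' (put (mid Bad Win ev s).G j n [y])
      funext j' y'
      by_cases h3 : j' + y'.length < m'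
      · rw [agr_tr _ _ _ _ h3]
      · have h4 : tr m' (put (mid Bad Win ev s).G j n [y]) j' y' = false := by
          simp [tr, h3]
        rw [h4, put_ne (by rintro ⟨rfl, h5⟩; omega), ih']
        have : ¬ j' + y'.length < (mid Bad Win ev s).m := by omega
        simp [tr, this]

theorem c1_mid_tr (s : ℕ) : (mid Bad Win ev s).G = tr (mid Bad Win ev s).m
    (mid Bad Win ev s).G := c1_mid_tr_of (c1_run_tr s)

theorem c1_run_m_le {s s' : ℕ} (h : s ≤ s') :
    (run Bad Win ev s).m ≤ (run Bad Win ev s').m := by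
  induction s', h using Nat.le_induction with
  | base => exact le_rfl
  | succ s' _ ih =>
    have h1 := run_m_mid (Bad := Bad) (Win := Win) (ev := ev) s'
    have h2 := mid_m_run (Bad := Bad) (Win := Win) (ev := ev) s'
    omega

theorem c1_run_agr {s s' : ℕ} (h : s ≤ s') :
    Agr (run Bad Win ev s).m (run Bad Win ev s).G (run Bad Win ev s').G := by
  induction s', h using Nat.le_induction with
  | base => exact fun _ _ _ => rfl
  | succ s' h' ih =>
    intro j y hy
    have h1 := run_m_mid (Bad := Bad) (Win := Win) (ev := ev) s'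
    have h2 := c1_run_m_le (Bad := Bad) (Win := Win) (ev := ev) h'
    rw [mid_agr_run s' j y (by omega), run_agr_mid s' j y (by omega), ih j y hy]

theorem c1_lim_eq {s j : ℕ} {y : List Bool} (h : j + y.length < (run Bad Win ev s).m) :
    lim Bad Win ev j y = (run Bad Win ev s).G j y := by
  unfold lim
  have h0 := le_run_m (Bad := Bad) (Win := Win) (ev := ev) (j + y.length + 1)
  rcases le_total s (j + y.length + 1) with h1 | h1
  · exact c1_run_agr h1 j y h
  · exact (c1_run_agr h1 j y (by omega)).symm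

theorem run_lim (s : ℕ) :
    (run Bad Win ev s).G = tr (run Bad Win ev s).m (lim Bad Win ev) := by
  rw [c1_run_tr s]
  exact (tr_congr fun j y hy => c1_lim_eq hy).symm

theorem mid_lim (s : ℕ) :
    (mid Bad Win ev s).G = tr (mid Bad Win ev s).m (lim Bad Win ev) := by
  rw [c1_mid_tr s]
  refine (tr_congr fun j y hy => ?_).symm
  have h1 := mid_m_run (Bad := Bad) (Win := Win) (ev := ev) s
  rw [c1_lim_eq (s := s + 1) (by omega)]
  exact mid_agr_run s j y hy

open Classical in
/-- `stepB` for an arbitrary predicate -/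
noncomputable def c1_stepG (Bad : ℕ → GG → Prop) (P : ℕ → Finset ℕ → GG → Prop) (st : St) : St :=
  if h : ∃ e, ∃ S G', P e S G' then
    ⟨stab (Bad (Nat.find h)) st.m (Nat.find_spec h).choose_spec.choose,
      tr (stab (Bad (Nat.find h)) st.m (Nat.find_spec h).choose_spec.choose)
        (Nat.find_spec h).choose_spec.choose⟩
  else st

theorem c1_stepB_eq (Bad : ℕ → GG → Prop) (ev : ℕ → Option ℕ) (st : St) (s : ℕ) :
    stepB Bad ev st s = c1_stepG Bad (BrkOpt Bad ev st s) st := rfl

theorem c1_cnt_congr {ev' : ℕ → Option ℕ} {i a b : ℕ} (h : ∀ s' < b, ev s' = ev' s') :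
    cnt ev i a b = cnt ev' i a b := by
  unfold cnt
  congr 1
  apply Finset.filter_congr
  intro s hs
  rw [Finset.mem_Ico] at hs
  rw [h s hs.2]

theorem c1_lev_congr {ev' : ℕ → Option ℕ} {e : ℕ} {S : Finset ℕ} {s : ℕ}
    (h : ∀ s' < s, ev s' = ev' s') : lev ev e S s = lev ev' e S s := by
  unfold lev
  have h1 : (fun k => ∀ i ∈ S, k ≤ cnt ev i e s) = (fun k => ∀ i ∈ S, k ≤ cnt ev' i e s) := by
    funext k
    simp only [c1_cnt_congr h]
  simp only [c1_cnt_congr h]

theorem c1_brkOpt_congr {ev' : ℕ → Option ℕ} {st : St} {s : ℕ} (h : ∀ s' ≤ s, ev s' = ev' s') :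
    BrkOpt Bad ev st s = BrkOpt Bad ev' st s := by
  funext e S G'
  unfold BrkOpt Evt
  rw [c1_lev_congr (fun s' hs' => h s' hs'.le), c1_lev_congr (fun s' hs' => h s' (by omega))]

theorem c1_stepB_congr {ev' : ℕ → Option ℕ} {st : St} {s : ℕ} (h : ∀ s' ≤ s, ev s' = ev' s') :
    stepB Bad ev st s = stepB Bad ev' st s := by
  rw [c1_stepB_eq, c1_stepB_eq, c1_brkOpt_congr h]

open Classical in
/-- the second case of `stepD` for an arbitrary predicate -/
noncomputable def c1_stepH (P : ℕ → GG → Prop) (st : St) (j : ℕ) : St :=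
  if h : ∃ n y, st.m ≤ n ∧ y.length = n ∧ y ≠ zer n ∧ P n (put st.G j n [y]) then
    ⟨stab (P h.choose) (j + h.choose + 1) (put st.G j h.choose [h.choose_spec.choose]),
      put st.G j h.choose [h.choose_spec.choose]⟩
  else ⟨j + st.m + 2, put st.G j (st.m + 1) [one (st.m + 1)]⟩

theorem c1_stepD_some {st : St} {s j : ℕ} (h : ev s = some j) :
    stepD Win ev st s = c1_stepH (Win (cnt ev j 0 s).unpair.1 j) st j := by
  unfold stepD
  rw [h]
  rfl

theorem c1_stepD_congr {ev' : ℕ → Option ℕ} {st : St} {s : ℕ} (h : ∀ s' ≤ s, ev s' = ev' s') :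
    stepD Win ev st s = stepD Win ev' st s := by
  cases h1 : ev s with
  | none =>
    have h2 : ev' s = none := by rw [← h s le_rfl, h1]
    unfold stepD
    rw [h1, h2]
  | some j =>
    have h2 : ev' s = some j := by rw [← h s le_rfl, h1]
    rw [c1_stepD_some h1, c1_stepD_some h2,
      c1_cnt_congr (i := j) (a := 0) (fun s' (hs' : s' < s) => h s' hs'.le)]

theorem run_congr {ev' : ℕ → Option ℕ} (s : ℕ) (h : ∀ s' < s, ev s' = ev' s') :
    run Bad Win ev s = run Bad Win ev' s := by
  induction s with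
  | zero => rfl
  | succ s ih =>
    have ih' := ih fun s' hs' => h s' (by omega)
    show stepD Win ev (stepB Bad ev (run Bad Win ev s) s) s =
      stepD Win ev' (stepB Bad ev' (run Bad Win ev' s) s) s
    rw [ih', c1_stepB_congr fun s' hs' => h s' (by omega),
      c1_stepD_congr fun s' hs' => h s' (by omega)]

theorem lim_congr {ev' : ℕ → Option ℕ} (m : ℕ) (h : ∀ s < m, ev s = ev' s) :
    Agr m (lim Bad Win ev) (lim Bad Win ev') := by
  intro j y hy
  unfold lim
  rw [run_congr (ev := ev) (ev' := ev') (j + y.length + 1) fun s hs => h s (by omega)]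

end

end Pool.Agent.H543R3.PC
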