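import Pool.Agent.H543R3.PC.DefsC

/-!
# Task C2: what happens at a stage
-/

namespace Pool.Agent.H543R3.PC

theorem c2_stab_le (P : GG → Prop) (m : ℕ) (G : GG) : m ≤ stab P m G := by
  unfold stab
  split_ifs with h
  · exact h.choose_spec.1
  · exact le_rfl

theorem c2_agr_mono {m m' : ℕ} {G G' : GG} (h : Agr m' G G') (hm : m ≤ m') : Agr m G G' :=
  fun j y hy => h j y (lt_of_lt_of_le hy hm)

theorem c2_agr_trans {m : ℕ} {G G' G'' : GG} (h : Agr m G G') (h' : Agr m G' G'') :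
    Agr m G G'' := fun j y hy => (h' j y hy).trans (h j y hy)

theorem c2_stab_spec {P : GG → Prop} {m : ℕ} {G : GG} (h : ∃ m', ∀ G', Agr m' G G' → P G') :
    ∀ G', Agr (stab P m G) G G' → P G' := by
  obtain ⟨m₀, h₀⟩ := h
  have h1 : ∃ m', m ≤ m' ∧ ∀ G', Agr m' G G' → P G' :=
    ⟨max m m₀, le_max_left _ _, fun G' hG' => h₀ G' (c2_agr_mono hG' (le_max_right _ _))⟩
  unfold stab
  rw [dif_pos h1]
  exact h1.choose_spec.2

theorem c2_tr {m : ℕ} {G : GG} {j : ℕ} {y : List Bool} (h : j + y.length < m) :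
    tr m G j y = G j y := by
  unfold tr
  rw [decide_eq_true h, Bool.true_and]

section

variable {Bad : ℕ → GG → Prop} {Win : ℕ → ℕ → ℕ → GG → Prop} {ev : ℕ → Option ℕ}

theorem c2_stepB (st : St) (s : ℕ) :
    st.m ≤ (stepB Bad ev st s).m ∧ Agr st.m st.G (stepB Bad ev st s).G := by
  classical
  unfold stepB
  split_ifs with h
  · have hs := (Nat.find_spec h).choose_spec.choose_spec
    refine ⟨c2_stab_le _ _ _, fun j y hy => ?_⟩
    change tr _ _ j y = _
    rw [c2_tr (lt_of_lt_of_le hy (c2_stab_le _ _ _))]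
    exact hs.2.2.2.1.agr j y hy
  · exact ⟨le_rfl, fun _ _ _ => rfl⟩

theorem c2_put {G : GG} {j n m : ℕ} {C : List (List Bool)} (h : m ≤ n) :
    Agr m G (put G j n C) := by
  intro j' y hy
  unfold put
  rw [if_neg]
  rintro ⟨-, h2⟩
  omega

theorem c2_stepD (st : St) (s : ℕ) :
    st.m < (stepD Win ev st s).m ∧ Agr st.m st.G (stepD Win ev st s).G := by
  unfold stepD
  cases ev s with
  | none => exact ⟨Nat.lt_succ_self _, fun _ _ _ => rfl⟩
  | some j =>
    by_cases h : ∃ n y, st.m ≤ n ∧ y.length = n ∧ y ≠ zer n ∧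
        Win (cnt ev j 0 s).unpair.1 j n (put st.G j n [y])
    · simp only [dif_pos h]
      have h1 := h.choose_spec.choose_spec.1
      refine ⟨?_, c2_put h1⟩
      exact lt_of_lt_of_le (by omega) (c2_stab_le _ _ _)
    · simp only [dif_neg h]
      exact ⟨by omega, c2_put (Nat.le_succ _)⟩

theorem c2_mid (s : ℕ) : (run Bad Win ev s).m ≤ (mid Bad Win ev s).m ∧
    Agr (run Bad Win ev s).m (run Bad Win ev s).G (mid Bad Win ev s).G := c2_stepB _ _

theorem c2_run (s : ℕ) : (mid Bad Win ev s).m < (run Bad Win ev (s + 1)).m ∧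
    Agr (mid Bad Win ev s).m (mid Bad Win ev s).G (run Bad Win ev (s + 1)).G := c2_stepD _ _

theorem c2_brk {e : ℕ} {st st' : St} (h : Brk Bad e st) (hm : st.m ≤ st'.m)
    (ha : Agr st.m st.G st'.G) : Brk Bad e st' :=
  fun G' hG' => h G' (c2_agr_trans ha (c2_agr_mono hG' hm))

theorem c2_persist {e s : ℕ} (h : Brk Bad e (mid Bad Win ev s)) :
    ∀ k, Brk Bad e (run Bad Win ev (s + 1 + k))
  | 0 => c2_brk h (c2_run s).1.le (c2_run s).2
  | k + 1 => by
    have h1 := c2_brk (c2_persist h k) (c2_mid (s + 1 + k)).1 (c2_mid (s + 1 + k)).2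
    exact c2_brk h1 (c2_run (s + 1 + k)).1.le (c2_run (s + 1 + k)).2

theorem actB_or (hB : ∀ e G, Bad e G → ∃ m, ∀ G', Agr m G G' → Bad e G') (s : ℕ) :
    (∃ e S G', ActB Bad Win ev s e S G') ∨
    ((∀ e S G', ¬ BrkOpt Bad ev (run Bad Win ev s) s e S G') ∧
      mid Bad Win ev s = run Bad Win ev s) := by
  classical
  by_cases h : ∃ e, ∃ S G', BrkOpt Bad ev (run Bad Win ev s) s e S G'
  · left
    have hs := (Nat.find_spec h).choose_spec.choose_spec
    have hmid : mid Bad Win ev s = ⟨stab (Bad (Nat.find h)) (run Bad Win ev s).m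
          (Nat.find_spec h).choose_spec.choose,
        tr (stab (Bad (Nat.find h)) (run Bad Win ev s).m (Nat.find_spec h).choose_spec.choose)
          (Nat.find_spec h).choose_spec.choose⟩ := by
      unfold mid stepB
      rw [dif_pos h]
    refine ⟨Nat.find h, (Nat.find_spec h).choose, (Nat.find_spec h).choose_spec.choose, hs,
      fun e' he' S' G'' hb => Nat.find_min h he' ⟨S', G'', hb⟩, ?_, (c2_mid s).1, ?_⟩
    · rw [hmid]
    · rw [hmid]
      intro G'' hG''
      refine c2_stab_spec (m := (run Bad Win ev s).m) (hB _ _ hs.2.2.2.2) G'' fun j y hy => ?_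
      rw [hG'' j y hy]
      exact c2_tr hy
  · right
    refine ⟨fun e S G' hb => h ⟨e, S, G', hb⟩, ?_⟩
    unfold mid stepB
    rw [dif_neg h]

theorem c2_not_lt {s s' e : ℕ} {S S' : Finset ℕ} {G G' : GG}
    (h : ActB Bad Win ev s e S G) (h' : ActB Bad Win ev s' e S' G') : ¬ s < s' := by
  intro hlt
  obtain ⟨k, rfl⟩ := Nat.exists_eq_add_of_le (Nat.succ_le_of_lt hlt)
  exact h'.1.2.2.1 (c2_persist h.2.2.2.2 k)

theorem actB_unique {s s' e : ℕ} {S S' : Finset ℕ} {G G' : GG}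
    (h : ActB Bad Win ev s e S G) (h' : ActB Bad Win ev s' e S' G') : s = s' := by
  rcases lt_trichotomy s s' with hlt | heq | hgt
  · exact absurd hlt (c2_not_lt h h')
  · exact heq
  · exact absurd hgt (c2_not_lt h' h)

theorem diag_none {s : ℕ} (h : ev s = none) :
    run Bad Win ev (s + 1) = ⟨(mid Bad Win ev s).m + 1, (mid Bad Win ev s).G⟩ := by
  change stepD Win ev (mid Bad Win ev s) s = _
  unfold stepD
  rw [h]

theorem diag_some (hW : ∀ k j n G, Win k j n G → ∃ m, ∀ G', Agr m G G' → Win k j n G')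
    {s j : ℕ} (h : ev s = some j) :
    ∃ n y, (mid Bad Win ev s).m ≤ n ∧ y.length = n ∧ y ≠ zer n ∧
      (run Bad Win ev (s + 1)).G = put (mid Bad Win ev s).G j n [y] ∧
      j + n < (run Bad Win ev (s + 1)).m ∧
      ((∃ n' y', (mid Bad Win ev s).m ≤ n' ∧ y'.length = n' ∧ y' ≠ zer n' ∧
        Win (cnt ev j 0 s).unpair.1 j n' (put (mid Bad Win ev s).G j n' [y'])) →
        ∀ G', Agr (run Bad Win ev (s + 1)).m (run Bad Win ev (s + 1)).G G' →
          Win (cnt ev j 0 s).unpair.1 j n G') := by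
  have hrun : run Bad Win ev (s + 1) = stepD Win ev (mid Bad Win ev s) s := rfl
  unfold stepD at hrun
  rw [h] at hrun
  by_cases hw : ∃ n y, (mid Bad Win ev s).m ≤ n ∧ y.length = n ∧ y ≠ zer n ∧
        Win (cnt ev j 0 s).unpair.1 j n (put (mid Bad Win ev s).G j n [y])
  · simp only [dif_pos hw] at hrun
    have hs := hw.choose_spec.choose_spec
    refine ⟨hw.choose, hw.choose_spec.choose, hs.1, hs.2.1, hs.2.2.1, ?_, ?_, fun _ G' hG' => ?_⟩
    · rw [hrun]
    · rw [hrun]
      exact lt_of_lt_of_le (Nat.lt_succ_self _) (c2_stab_le _ _ _)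
    · rw [hrun] at hG'
      exact c2_stab_spec (hW _ _ _ _ hs.2.2.2) G' hG'
  · simp only [dif_neg hw] at hrun
    refine ⟨(mid Bad Win ev s).m + 1, one ((mid Bad Win ev s).m + 1), Nat.le_succ _, ?_, ?_, ?_,
      ?_, fun hw' => absurd hw' hw⟩
    · simp [one]
    · simp [one, zer, List.replicate_succ]
    · rw [hrun]
    · rw [hrun]
      change j + (_ + 1) < j + _ + 2
      omega

end

end Pool.Agent.H543R3.PC
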