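import Pool.Agent.H543R3.PC.C1
import Pool.Agent.H543R3.PC.C2

/-!
# C3: the blocks of the limit
-/

namespace Pool.Agent.H543R3.PC

open Pool.Agent.NPC Pool.Agent.H628R3.RO

section

variable {Bad : ℕ → GG → Prop} {Win : ℕ → ℕ → ℕ → GG → Prop} {ev : ℕ → Option ℕ}

theorem c3_act_congr {G G' : GG} {j n : ℕ} (h : ∀ y : List Bool, y.length = n → G' j y = G j y)
    (hA : Act G j n) : Act G' j n := by
  unfold Act at *
  rw [h _ (by simp [zer])]
  exact hA

theorem c3_inact_congr {G G' : GG} {j n : ℕ} (h : ∀ y : List Bool, y.length = n → G' j y = G j y)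
    (hA : Inact G j n) : Inact G' j n := by
  intro y hy
  rw [h y hy]
  exact hA y hy

theorem c3_hit_congr {G G' : GG} {j n : ℕ} (h : ∀ y : List Bool, y.length = n → G' j y = G j y)
    {y : List Bool} (hA : Hit G j n y) : Hit G' j n y :=
  ⟨hA.1, hA.2.1, by rw [h y hA.1]; exact hA.2.2⟩

theorem c3_legal_congr {G G' : GG} {j n : ℕ} (h : ∀ y : List Bool, y.length = n → G' j y = G j y)
    (hA : Legal G j n) : Legal G' j n := by
  obtain ⟨h1, y, hy, hu⟩ := hA
  exact ⟨c3_act_congr h h1, y, c3_hit_congr h hy, fun y' hy' =>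
    hu y' (c3_hit_congr (fun z hz => (h z hz).symm) hy')⟩

theorem block_cases (hB : ∀ e G, Bad e G → ∃ m, ∀ G', Agr m G G' → Bad e G')
    (hW : ∀ k j n G, Win k j n G → ∃ m, ∀ G', Agr m G G' → Win k j n G') (j n : ℕ) :
    ∃ s, s ≤ j + n ∧ j + n < (run Bad Win ev (s + 1)).m ∧
      (((run Bad Win ev s).m ≤ j + n ∧ ∃ e S G', ActB Bad Win ev s e S G' ∧
        ∀ y : List Bool, y.length = n → lim Bad Win ev j y = G' j y) ∨
      Inact (lim Bad Win ev) j n ∨ (ev s = some j ∧ Legal (lim Bad Win ev) j n)) := by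
  classical
  have hex : ∃ s, j + n < (run Bad Win ev (s + 1)).m :=
    ⟨j + n, lt_of_lt_of_le (Nat.lt_succ_self _) (le_run_m (j + n + 1))⟩
  obtain ⟨s, hs, hmin⟩ : ∃ s, j + n < (run Bad Win ev (s + 1)).m ∧
      ∀ s' < s, ¬ j + n < (run Bad Win ev (s' + 1)).m :=
    ⟨Nat.find hex, Nat.find_spec hex, fun s' hs' => Nat.find_min hex hs'⟩
  have hsle : s ≤ j + n := by
    by_contra hc
    exact hmin (j + n) (by omega) (lt_of_lt_of_le (Nat.lt_succ_self _) (le_run_m (j + n + 1)))
  have hRs : (run Bad Win ev s).m ≤ j + n := by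
    cases s with
    | zero => exact Nat.zero_le _
    | succ s' => exact Nat.le_of_not_lt (hmin s' (Nat.lt_succ_self _))
  refine ⟨s, hsle, hs, ?_⟩
  by_cases hM : j + n < (mid Bad Win ev s).m
  · left
    refine ⟨hRs, ?_⟩
    rcases actB_or (Win := Win) (ev := ev) hB s with ⟨e, S, G', hA⟩ | ⟨_, h2⟩
    · refine ⟨e, S, G', hA, fun y hy => ?_⟩
      have h3 : (mid Bad Win ev s).G = tr (mid Bad Win ev s).m G' := by
        have := hA.2.2.1
        exact congrArg St.G this
      have h4 := congrFun (congrFun (h3.symm.trans (mid_lim (Bad := Bad) (Win := Win) (ev := ev) s)) j) y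
      have h5 : decide (j + y.length < (mid Bad Win ev s).m) = true := by
        rw [decide_eq_true_iff, hy]; exact hM
      simp only [tr, h5, Bool.true_and] at h4
      exact h4.symm
    · rw [h2] at hM
      omega
  · right
    have h1 : ∀ y : List Bool, y.length = n → (mid Bad Win ev s).G j y = false := by
      intro y hy
      rw [mid_lim]
      have h5 : decide (j + y.length < (mid Bad Win ev s).m) = false := by
        rw [decide_eq_false_iff_not, hy]; exact hM
      simp only [tr, h5, Bool.false_and]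
    have h2 : ∀ y : List Bool, y.length = n →
        lim Bad Win ev j y = (run Bad Win ev (s + 1)).G j y := by
      intro y hy
      have h5 : decide (j + y.length < (run Bad Win ev (s + 1)).m) = true := by
        rw [decide_eq_true_iff, hy]; exact hs
      have h6 := congrFun (congrFun (run_lim (Bad := Bad) (Win := Win) (ev := ev) (s + 1)) j) y
      simp only [tr, h5, Bool.true_and] at h6
      exact h6.symm
    cases hev : ev s with
    | none =>
      left
      intro y hy
      rw [h2 y hy, diag_none hev]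
      exact h1 y hy
    | some j0 =>
      obtain ⟨n0, y0, hn0, hy0, hy0', hput, _, _⟩ := diag_some (Bad := Bad) hW hev
      by_cases hc : j = j0 ∧ n = n0
      · obtain ⟨rfl, rfl⟩ := hc
        right
        refine ⟨rfl, ?_⟩
        apply c3_legal_congr (G := put (mid Bad Win ev s).G j n [y0])
        · intro y hy
          rw [h2 y hy, hput]
        · exact put_legal hy0 hy0'
      · left
        intro y hy
        rw [h2 y hy, hput, put_ne (by rw [hy]; exact hc)]
        exact h1 y hy

theorem lim_inv (hB : ∀ e G, Bad e G → ∃ m, ∀ G', Agr m G G' → Bad e G')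
    (hW : ∀ k j n G, Win k j n G → ∃ m, ∀ G', Agr m G G' → Win k j n G') (j n : ℕ) :
    Act (lim Bad Win ev) j n ∨ Inact (lim Bad Win ev) j n := by
  obtain ⟨s, _, _, h⟩ := block_cases (ev := ev) hB hW j n
  rcases h with ⟨hR, e, S, G', hA, hy⟩ | h | ⟨_, h⟩
  · rcases hA.1.2.2.2.1.inv j n hR with h | h
    · exact Or.inl (c3_act_congr hy h)
    · exact Or.inr (c3_inact_congr hy h)
  · exact Or.inr h
  · exact Or.inl h.1

theorem lim_leg (hB : ∀ e G, Bad e G → ∃ m, ∀ G', Agr m G G' → Bad e G')
    (hW : ∀ k j n G, Win k j n G → ∃ m, ∀ G', Agr m G G' → Win k j n G') (j : ℕ) :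
    ∃ N, ∀ n, N ≤ n → Legal (lim Bad Win ev) j n ∨ Inact (lim Bad Win ev) j n := by
  have h1 : ∀ e, ∃ N, ∀ s S G', ActB Bad Win ev s e S G' → (run Bad Win ev (s + 1)).m ≤ N := by
    intro e
    by_cases h : ∃ s S G', ActB Bad Win ev s e S G'
    · obtain ⟨s, S, G, hs⟩ := h
      refine ⟨(run Bad Win ev (s + 1)).m, fun s' S' G' hs' => ?_⟩
      rw [actB_unique hs' hs]
    · exact ⟨0, fun s S G' hs => absurd ⟨s, S, G', hs⟩ h⟩
  choose f hf using h1
  refine ⟨(Finset.range (j + 1)).sup f, fun n hn => ?_⟩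
  obtain ⟨s, _, hlt, h⟩ := block_cases (ev := ev) hB hW j n
  rcases h with ⟨hR, e, S, G', hA, hy⟩ | h | ⟨_, h⟩
  · by_cases he : j < e
    · by_cases hjS : j ∈ S
      · rcases hA.1.2.2.2.1.leg j hjS n hR with h | h
        · exact Or.inl (c3_legal_congr hy h)
        · exact Or.inr (c3_inact_congr hy h)
      · exact Or.inr (c3_inact_congr hy (hA.1.2.2.2.1.ina j he hjS n hR))
    · exfalso
      have h2 : f e ≤ (Finset.range (j + 1)).sup f :=
        Finset.le_sup (f := f) (Finset.mem_range.2 (by omega))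
      have h3 := hf e s S G' hA
      omega
  · exact Or.inr h
  · exact Or.inl h

end

end Pool.Agent.H543R3.PC
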