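import Pool.Agent.H543R3.PC.C2
import Pool.Agent.H543R3.PC.C3

/-!
# C4: columns with finitely many events
-/

namespace Pool.Agent.H543R3.PC

open Pool.Agent.NPC Pool.Agent.H628R3.RO

section

variable {Bad : ℕ → GG → Prop} {Win : ℕ → ℕ → ℕ → GG → Prop} {ev : ℕ → Option ℕ}

theorem c4_cnt_mono (i a : ℕ) {b b' : ℕ} (h : b ≤ b') : cnt ev i a b ≤ cnt ev i a b' := by
  unfold cnt
  apply Finset.card_le_card
  intro s hs
  simp only [Finset.mem_filter, Finset.mem_Ico] at hs ⊢
  exact ⟨⟨hs.1.1, lt_of_lt_of_le hs.1.2 h⟩, hs.2⟩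

theorem c4_lev_mono (e : ℕ) (S : Finset ℕ) {s s' : ℕ} (h : s ≤ s') :
    lev ev e S s ≤ lev ev e S s' := by
  classical
  unfold lev
  apply Nat.findGreatest_mono _ h
  intro k hk i hi
  exact (hk i hi).trans (c4_cnt_mono i e h)

theorem c4_lev_le {e : ℕ} {S : Finset ℕ} {s i : ℕ} (hi : i ∈ S) :
    lev ev e S s ≤ cnt ev i e s := by
  classical
  have h : ∀ i ∈ S, lev ev e S s ≤ cnt ev i e s := by
    unfold lev
    exact Nat.findGreatest_spec (P := fun k => ∀ i ∈ S, k ≤ cnt ev i e s) (Nat.zero_le s)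
      (fun _ _ => Nat.zero_le _)
  exact h i hi

theorem c4_le_lev {e : ℕ} {S : Finset ℕ} {s k : ℕ} (hk : k ≤ s) (h : ∀ i ∈ S, k ≤ cnt ev i e s) :
    k ≤ lev ev e S s := by
  classical
  unfold lev
  exact Nat.le_findGreatest (P := fun k => ∀ i ∈ S, k ≤ cnt ev i e s) hk h

/-- the levels at different events are different -/
theorem c4_injOn (e : ℕ) (S : Finset ℕ) : Set.InjOn (lev ev e S) {s | Evt ev e S s} := by
  have key : ∀ s s', Evt ev e S s → s < s' → lev ev e S s < lev ev e S s' := by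
    intro s s' hs hlt
    exact lt_of_lt_of_le hs.2 (c4_lev_mono e S hlt)
  intro s hs s' hs' heq
  rcases lt_trichotomy s s' with h | h | h
  · exact absurd heq (ne_of_lt (key s s' hs h))
  · exact h
  · exact absurd heq.symm (ne_of_lt (key s' s hs' h))

theorem c4_bound {j : ℕ} (hj : j ∉ inf ev) : ∃ b, ∀ s, ev s = some j → s < b := by
  have h : {s | ev s = some j}.Finite := Set.not_infinite.1 hj
  obtain ⟨b, hb⟩ := h.bddAbove
  exact ⟨b + 1, fun s hs => Nat.lt_succ_of_le (hb hs)⟩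

theorem c4_cnt_le {j b : ℕ} (hb : ∀ s, ev s = some j → s < b) (a c : ℕ) : cnt ev j a c ≤ b := by
  unfold cnt
  calc _ ≤ (Finset.range b).card := by
        apply Finset.card_le_card
        intro s hs
        simp only [Finset.mem_filter, Finset.mem_Ico] at hs
        exact Finset.mem_range.2 (hb s hs.2)
    _ = b := Finset.card_range b

theorem evt_finite {j : ℕ} (hj : j ∉ inf ev) :
    {s | ∃ e S, j ∈ S ∧ (∀ i ∈ S, i < e) ∧ Evt ev e S s}.Finite := by
  obtain ⟨b, hb⟩ := c4_bound hj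
  have h1 : {s | ∃ e S, j ∈ S ∧ (∀ i ∈ S, i < e) ∧ Evt ev e S s} ⊆
      ⋃ e ∈ Finset.range b, ⋃ S ∈ (Finset.range e).powerset, {s | j ∈ S ∧ Evt ev e S s} := by
    rintro s ⟨e, S, hjS, hS, hE⟩
    have h2 : 0 < cnt ev j e (s + 1) :=
      lt_of_lt_of_le (lt_of_le_of_lt (Nat.zero_le _) hE.2) (c4_lev_le hjS)
    unfold cnt at h2
    obtain ⟨t, ht⟩ := Finset.card_pos.1 h2
    simp only [Finset.mem_filter, Finset.mem_Ico] at ht
    have h3 : e < b := lt_of_le_of_lt ht.1.1 (hb t ht.2)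
    simp only [Set.mem_iUnion]
    refine ⟨e, Finset.mem_range.2 h3, S, ?_, hjS, hE⟩
    rw [Finset.mem_powerset]
    exact fun i hi => Finset.mem_range.2 (hS i hi)
  refine Set.Finite.subset ?_ h1
  refine (Finset.range b).finite_toSet.biUnion fun e _ => ?_
  refine (Finset.range e).powerset.finite_toSet.biUnion fun S _ => ?_
  by_cases hjS : j ∈ S
  · apply Set.Finite.of_finite_image (f := lev ev e S)
    · apply (Set.finite_Iic b).subset
      rintro _ ⟨s, _, rfl⟩
      exact (c4_lev_le hjS).trans (c4_cnt_le hb _ _)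
    · exact (c4_injOn e S).mono fun s hs => hs.2
  · have : {s | j ∈ S ∧ Evt ev e S s} = ∅ := by
      ext s
      simp [hjS]
    rw [this]
    exact Set.finite_empty

theorem c4_cnt_unbdd {i : ℕ} (h : i ∈ inf ev) (e k : ℕ) : ∃ b, k ≤ cnt ev i e b := by
  have h1 : ({s | ev s = some i} \ (Set.Iio e)).Infinite :=
    Set.Infinite.sdiff h (Set.finite_Iio e)
  obtain ⟨t, ht, hc⟩ := h1.exists_subset_card_eq k
  refine ⟨t.sup id + 1, ?_⟩
  rw [← hc]
  unfold cnt
  apply Finset.card_le_card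
  intro s hs
  have h2 := ht hs
  simp only [Finset.mem_filter, Finset.mem_Ico]
  refine ⟨⟨not_lt.1 h2.2, Nat.lt_succ_of_le ?_⟩, h2.1⟩
  exact Finset.le_sup (f := id) hs

theorem evt_infinite (e : ℕ) {S : Finset ℕ} (h : ∀ i ∈ S, i ∈ inf ev) :
    {s | Evt ev e S s}.Infinite := by
  intro hfin
  obtain ⟨b, hb⟩ := hfin.bddAbove
  obtain ⟨M, hM⟩ : ∃ M, M = max (b + 1) e := ⟨_, rfl⟩
  have h1 : ∀ s, M ≤ s → lev ev e S (s + 1) ≤ lev ev e S s := by
    intro s hs
    by_contra hc
    have h2 : Evt ev e S s := ⟨by omega, not_le.1 hc⟩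
    have := hb h2
    omega
  have h2 : ∀ d, lev ev e S (M + d) ≤ lev ev e S M := by
    intro d
    induction d with
    | zero => exact le_rfl
    | succ d ih => exact (h1 (M + d) (by omega)).trans ih
  have h3 : ∀ i ∈ S, ∃ c, lev ev e S M + 1 ≤ cnt ev i e c := fun i hi => c4_cnt_unbdd (h i hi) e _
  choose! c hc using h3
  obtain ⟨d, hd⟩ : ∃ d, d = max (S.sup c) (lev ev e S M + 1) := ⟨_, rfl⟩
  have h4 : lev ev e S M + 1 ≤ lev ev e S (M + d) := by
    apply c4_le_lev
    · omega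
    · intro i hi
      refine (hc i hi).trans (c4_cnt_mono i e ?_)
      have := Finset.le_sup (f := c) hi
      omega
  have := h2 d
  omega

theorem lim_ina (hB : ∀ e G, Bad e G → ∃ m, ∀ G', Agr m G G' → Bad e G')
    (hW : ∀ k j n G, Win k j n G → ∃ m, ∀ G', Agr m G G' → Win k j n G') {j : ℕ}
    (hj : j ∉ inf ev) : ∃ N, ∀ n, N ≤ n → Inact (lim Bad Win ev) j n := by
  have hf1 : {s | ev s = some j}.Finite := Set.not_infinite.1 hj
  have hf2 := evt_finite hj
  have hf3 : (⋃ e ∈ Finset.range (j + 1), {s | ∃ S G', ActB Bad Win ev s e S G'}).Finite := by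
    refine (Finset.range (j + 1)).finite_toSet.biUnion fun e _ => ?_
    apply Set.Subsingleton.finite
    rintro s ⟨S, G, h⟩ s' ⟨S', G', h'⟩
    exact actB_unique h h'
  have hf := (hf1.union hf2).union hf3
  obtain ⟨F, hF⟩ := hf.exists_finset
  refine ⟨F.sup fun s => (run Bad Win ev (s + 1)).m, fun n hn => ?_⟩
  obtain ⟨s, _, hlt, hcase⟩ := block_cases (ev := ev) hB hW j n
  have hns : s ∉ F := by
    intro hs
    have := Finset.le_sup (f := fun s => (run Bad Win ev (s + 1)).m) hs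
    omega
  rw [hF] at hns
  rcases hcase with ⟨hm, e, S, G', hA, hy⟩ | h | ⟨h, _⟩
  · by_cases hej : e ≤ j
    · exfalso
      apply hns
      right
      simp only [Set.mem_iUnion]
      exact ⟨e, Finset.mem_range.2 (by omega), S, G', hA⟩
    · have hopt := hA.1
      by_cases hjS : j ∈ S
      · exfalso
        apply hns
        left
        right
        exact ⟨e, S, hjS, hopt.1, hopt.2.1⟩
      · have h5 := hopt.2.2.2.1.ina j (by omega) hjS n hm
        intro y hyn
        rw [hy y hyn]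
        exact h5 y hyn
  · exact h
  · exfalso
    apply hns
    left
    left
    exact h

end

end Pool.Agent.H543R3.PC
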