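import Pool.Agent.H543R3.PC.C1
import Pool.Agent.H543R3.PC.C2
import Pool.Agent.H543R3.PC.C3
import Pool.Agent.H543R3.PC.C4

/-!
# C5: robustness (helper89)
-/

namespace Pool.Agent.H543R3.PC

open Pool.Agent.NPC Pool.Agent.H628R3.RO

section

variable {Bad : ℕ → GG → Prop} {Win : ℕ → ℕ → ℕ → GG → Prop} {ev : ℕ → Option ℕ}

theorem c5_agr_of_tr {m : ℕ} {G L : GG} (h : G = tr m L) : Agr m G L := by
  intro j y hjy
  rw [h]
  simp [tr, hjy]

theorem c5_bound (P : ℕ → ℕ → Prop) (T : ℕ → Prop) (e : ℕ)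
    (h : ∀ j, j < e → T j → ∃ N, ∀ n, N ≤ n → P j n) :
    ∃ N, ∀ j, j < e → T j → ∀ n, N ≤ n → P j n := by
  induction e with
  | zero => exact ⟨0, fun j hj => absurd hj (Nat.not_lt_zero _)⟩
  | succ e ih =>
    obtain ⟨N, hN⟩ := ih fun j hj ht => h j (Nat.lt_succ_of_lt hj) ht
    by_cases hT : T e
    · obtain ⟨N', hN'⟩ := h e (Nat.lt_succ_self e) hT
      refine ⟨max N N', fun j hj ht n hn => ?_⟩
      rcases Nat.lt_succ_iff_lt_or_eq.1 hj with hj | hj
      · exact hN j hj ht n ((le_max_left _ _).trans hn)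
      · subst hj
        exact hN' n ((le_max_right _ _).trans hn)
    · refine ⟨N, fun j hj ht n hn => ?_⟩
      rcases Nat.lt_succ_iff_lt_or_eq.1 hj with hj | hj
      · exact hN j hj ht n hn
      · subst hj
        exact absurd ht hT

theorem lim_rob (hB : ∀ e G, Bad e G → ∃ m, ∀ G', Agr m G G' → Bad e G')
    (hW : ∀ k j n G, Win k j n G → ∃ m, ∀ G', Agr m G G' → Win k j n G') {e : ℕ}
    (he : ¬ Bad e (lim Bad Win ev)) (N : ℕ) :
    ∃ m, N ≤ m ∧ ∃ S : Finset ℕ, (∀ i, i ∈ S ↔ i < e ∧ i ∈ inf ev) ∧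
      Leg e S m (lim Bad Win ev) (lim Bad Win ev) ∧
      ∀ G', Leg e S m (lim Bad Win ev) G' → ¬ Bad e G' := by
  classical
  obtain ⟨S, hS⟩ : ∃ S : Finset ℕ, ∀ i, i ∈ S ↔ i < e ∧ i ∈ inf ev :=
    ⟨(Finset.range e).filter (fun i => i ∈ inf ev), fun i => by simp⟩
  obtain ⟨N1, hN1⟩ := c5_bound
    (fun j n => Legal (lim Bad Win ev) j n ∨ Inact (lim Bad Win ev) j n) (fun _ => True) e
    (fun j _ _ => lim_leg hB hW j)
  obtain ⟨N2, hN2⟩ := c5_bound (fun j n => Inact (lim Bad Win ev) j n) (fun j => j ∉ inf ev) e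
    (fun j _ hj => lim_ina hB hW hj)
  obtain ⟨s1, hs1⟩ := c5_bound (fun e' s => ∀ S' G', ¬ ActB Bad Win ev s e' S' G') (fun _ => True) e
    (fun e' _ _ => by
      by_cases h : ∃ s S' G', ActB Bad Win ev s e' S' G'
      · obtain ⟨s, S', G', h⟩ := h
        refine ⟨s + 1, fun s' hs' S'' G'' h' => ?_⟩
        have := actB_unique h h'
        omega
      · exact ⟨0, fun s _ S' G' h' => h ⟨s, S', G', h'⟩⟩)
  obtain ⟨s, hsE, hs⟩ := (evt_infinite (ev := ev) e (S := S) fun i hi => ((hS i).1 hi).2).exists_gt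
    (N + N1 + N2 + e + s1)
  have hEvt : Evt ev e S s := hsE
  have hm : s ≤ (run Bad Win ev s).m := le_run_m s
  refine ⟨(run Bad Win ev s).m, by omega, S, hS, ?_, ?_⟩
  · refine ⟨fun j y _ => rfl, fun j n _ => lim_inv hB hW j n, ?_, ?_⟩
    · intro j hj n hn
      have hje := ((hS j).1 hj).1
      exact hN1 j hje trivial n (by omega)
    · intro j hje hj n hn
      exact hN2 j hje (fun hi => hj ((hS j).2 ⟨hje, hi⟩)) n (by omega)
  · intro G' hL hBad
    have hnb : ¬ Brk Bad e (run Bad Win ev s) := fun hb => he (hb _ (c5_agr_of_tr (run_lim s)))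
    have hL' : Leg e S (run Bad Win ev s).m (run Bad Win ev s).G G' := by
      refine ⟨fun j y hjy => ?_, hL.inv, hL.leg, hL.ina⟩
      rw [hL.agr j y hjy]
      exact c5_agr_of_tr (run_lim s) j y hjy
    have hopt : BrkOpt Bad ev (run Bad Win ev s) s e S G' :=
      ⟨fun i hi => ((hS i).1 hi).1, hEvt, hnb, hL', hBad⟩
    rcases actB_or (Win := Win) (ev := ev) hB s with ⟨e'', S'', G'', hA⟩ | ⟨h, _⟩
    · rcases lt_trichotomy e'' e with hlt | heq | hgt
      · exact hs1 e'' hlt trivial s (by omega) S'' G'' hA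
      · subst heq
        exact he (hA.2.2.2.2 _ (c5_agr_of_tr (mid_lim s)))
      · exact hA.2.1 e hgt S G' hopt
    · exact h e S G' hopt

end

end Pool.Agent.H543R3.PC
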