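import Pool.Agent.H543R3.PC.DefsC
import Pool.Agent.H543R3.PC.C1
import Pool.Agent.H543R3.PC.C2

/-!
# Part C6: diagonalisation
-/

namespace Pool.Agent.H543R3.PC

open Pool.Agent.NPC Pool.Agent.H628R3.RO

section

variable {Bad : ℕ → GG → Prop} {Win : ℕ → ℕ → ℕ → GG → Prop} {ev : ℕ → Option ℕ}

/-- The `c`-th event of a column with infinitely many events. -/
theorem c6_stage {j : ℕ} (hj : j ∈ inf ev) (c : ℕ) :
    ∃ s, ev s = some j ∧ cnt ev j 0 s = c ∧ c ≤ s := by
  classical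
  have hj' : {s | ev s = some j}.Infinite := hj
  have h1 : ev (Nat.nth (fun s => ev s = some j) c) = some j :=
    Nat.nth_mem_of_infinite (p := fun s => ev s = some j) hj' c
  have h2 := Nat.count_nth_of_infinite (p := fun s => ev s = some j) hj' c
  refine ⟨Nat.nth (fun s => ev s = some j) c, h1, ?_, ?_⟩
  · rw [Nat.count_eq_card_filter_range, Finset.range_eq_Ico] at h2
    unfold cnt
    convert h2 using 2
  · have h3 := Nat.count_le (p := fun s => ev s = some j)
      (n := Nat.nth (fun s => ev s = some j) c)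
    omega

/-- Blocks below the bound are the same in the truncation. -/
theorem c6_legal {G : GG} {m j n : ℕ} (h : Legal (tr m G) j n) (hm : j + n < m) :
    Legal G j n := by
  have key : ∀ y : List Bool, y.length = n → tr m G j y = G j y := by
    intro y hy
    unfold tr
    rw [hy]
    simp [hm]
  have hit : ∀ y, Hit (tr m G) j n y ↔ Hit G j n y := by
    intro y
    constructor
    · rintro ⟨h1, h2, h3⟩
      exact ⟨h1, h2, by rw [← key y h1]; exact h3⟩
    · rintro ⟨h1, h2, h3⟩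
      exact ⟨h1, h2, by rw [key y h1]; exact h3⟩
  obtain ⟨h1, y, h2, h3⟩ := h
  refine ⟨?_, y, (hit y).1 h2, fun y' hy' => h3 y' ((hit y').2 hy')⟩
  have hz : (zer n).length = n := by simp [zer]
  unfold Act at h1 ⊢
  rw [← key _ hz]
  exact h1

theorem c6_agr (m : ℕ) (G : GG) : Agr m (tr m G) G := by
  intro j y h
  unfold tr
  simp [h]

/-! ### C6: diagonalisation -/

theorem c6_main (hW : ∀ k j n G, Win k j n G → ∃ m, ∀ G', Agr m G G' → Win k j n G')
    {j s : ℕ} (h : ev s = some j) :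
    ∃ n, (mid Bad Win ev s).m ≤ n ∧ Legal (lim Bad Win ev) j n ∧
      ((∃ n' y', (mid Bad Win ev s).m ≤ n' ∧ y'.length = n' ∧ y' ≠ zer n' ∧
        Win (cnt ev j 0 s).unpair.1 j n' (put (mid Bad Win ev s).G j n' [y'])) →
        Win (cnt ev j 0 s).unpair.1 j n (lim Bad Win ev)) := by
  obtain ⟨n, y, h1, h2, h3, h4, h5, h6⟩ := diag_some (Bad := Bad) hW h
  refine ⟨n, h1, ?_, ?_⟩
  · have h7 : Legal (run Bad Win ev (s + 1)).G j n := by
      rw [h4]
      exact put_legal h2 h3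
    rw [run_lim] at h7
    exact c6_legal h7 h5
  · intro h8
    apply h6 h8
    rw [run_lim (s + 1)]
    exact c6_agr _ _

theorem lim_act (hW : ∀ k j n G, Win k j n G → ∃ m, ∀ G', Agr m G G' → Win k j n G') {j : ℕ}
    (hj : j ∈ inf ev) (N : ℕ) : ∃ n, N ≤ n ∧ Legal (lim Bad Win ev) j n := by
  obtain ⟨s, hs, _, hsN⟩ := c6_stage hj N
  obtain ⟨n, h1, h2, _⟩ := c6_main (Bad := Bad) hW hs
  refine ⟨n, ?_, h2⟩
  have h3 := le_run_m (Bad := Bad) (Win := Win) (ev := ev) s
  have h4 := run_m_mid (Bad := Bad) (Win := Win) (ev := ev) s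
  omega

theorem lim_win (hW : ∀ k j n G, Win k j n G → ∃ m, ∀ G', Agr m G G' → Win k j n G') {j : ℕ}
    (hj : j ∈ inf ev) (k N : ℕ) :
    ∃ m, N ≤ m ∧ ((∃ n y, m ≤ n ∧ y.length = n ∧ y ≠ zer n ∧
        Win k j n (put (tr m (lim Bad Win ev)) j n [y])) →
      ∃ n, N ≤ n ∧ Legal (lim Bad Win ev) j n ∧ Win k j n (lim Bad Win ev)) := by
  obtain ⟨s, hs, hcnt, hsN⟩ := c6_stage hj (Nat.pair k N)
  have hN : N ≤ Nat.pair k N := Nat.right_le_pair k N
  obtain ⟨n, h1, h2, h3⟩ := c6_main (Bad := Bad) hW hs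
  have h5 := le_run_m (Bad := Bad) (Win := Win) (ev := ev) s
  have h6 := run_m_mid (Bad := Bad) (Win := Win) (ev := ev) s
  rw [hcnt, Nat.unpair_pair, mid_lim] at h3
  exact ⟨(mid Bad Win ev s).m, by omega, fun h7 => ⟨n, by omega, h2, h3 h7⟩⟩

end

end Pool.Agent.H543R3.PC
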