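import Pool.Agent.H543R3.PC.Defs

/-!
# The construction
-/

namespace Pool.Agent.H543R3.PC

open Classical

/-- The state of the construction: everything of size less than `m` is decided. -/
structure St : Type where
  m : ℕ
  G : GG

/-- Requirement `e` is already violated for good. -/
def Brk (Bad : ℕ → GG → Prop) (e : ℕ) (st : St) : Prop := ∀ G', Agr st.m st.G G' → Bad e G'

/-- The number of events of column `i` at the stages in `[a, b)`. -/
noncomputable def cnt (ev : ℕ → Option ℕ) (i a b : ℕ) : ℕ :=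
  ((Finset.Ico a b).filter (fun s => ev s = some i)).card

/-- The level reached by the set `S` of columns since stage `e`. -/
noncomputable def lev (ev : ℕ → Option ℕ) (e : ℕ) (S : Finset ℕ) (s : ℕ) : ℕ :=
  Nat.findGreatest (fun k => ∀ i ∈ S, k ≤ cnt ev i e s) s

/-- At stage `s` the level of `(e, S)` increases. -/
def Evt (ev : ℕ → Option ℕ) (e : ℕ) (S : Finset ℕ) (s : ℕ) : Prop :=
  e ≤ s ∧ lev ev e S s < lev ev e S (s + 1)

/-- At stage `s`, in state `st`, requirement `e` can be violated by `G'`. -/
def BrkOpt (Bad : ℕ → GG → Prop) (ev : ℕ → Option ℕ) (st : St) (s e : ℕ) (S : Finset ℕ)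
    (G' : GG) : Prop :=
  (∀ i ∈ S, i < e) ∧ Evt ev e S s ∧ ¬ Brk Bad e st ∧ Leg e S st.m st.G G' ∧ Bad e G'

/-- A number `m' ≥ m` such that `P` holds for everything agreeing with `G` below `m'`. -/
noncomputable def stab (P : GG → Prop) (m : ℕ) (G : GG) : ℕ :=
  if h : ∃ m', m ≤ m' ∧ ∀ G', Agr m' G G' → P G' then h.choose else m

/-- First part of a stage: violate the first requirement for which this is possible. -/
noncomputable def stepB (Bad : ℕ → GG → Prop) (ev : ℕ → Option ℕ) (st : St) (s : ℕ) : St :=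
  if h : ∃ e, ∃ S G', BrkOpt Bad ev st s e S G' then
    ⟨stab (Bad (Nat.find h)) st.m (Nat.find_spec h).choose_spec.choose,
      tr (stab (Bad (Nat.find h)) st.m (Nat.find_spec h).choose_spec.choose)
        (Nat.find_spec h).choose_spec.choose⟩
  else st

/-- Second part of a stage: if the event of this stage is in column `j`, make a block of this
column active, and let the next reduction fail, if possible. -/
noncomputable def stepD (Win : ℕ → ℕ → ℕ → GG → Prop) (ev : ℕ → Option ℕ) (st : St) (s : ℕ) : St :=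
  match ev s with
  | none => ⟨st.m + 1, st.G⟩
  | some j =>
    if h : ∃ n y, st.m ≤ n ∧ y.length = n ∧ y ≠ zer n ∧
        Win (cnt ev j 0 s).unpair.1 j n (put st.G j n [y]) then
      ⟨stab (Win (cnt ev j 0 s).unpair.1 j h.choose) (j + h.choose + 1)
          (put st.G j h.choose [h.choose_spec.choose]),
        put st.G j h.choose [h.choose_spec.choose]⟩
    else ⟨j + st.m + 2, put st.G j (st.m + 1) [one (st.m + 1)]⟩

/-- The state before stage `s`. -/
noncomputable def run (Bad : ℕ → GG → Prop) (Win : ℕ → ℕ → ℕ → GG → Prop)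
    (ev : ℕ → Option ℕ) : ℕ → St
  | 0 => ⟨0, fun _ _ => false⟩
  | s + 1 => stepD Win ev (stepB Bad ev (run Bad Win ev s) s) s

/-- The state in the middle of stage `s`. -/
noncomputable def mid (Bad : ℕ → GG → Prop) (Win : ℕ → ℕ → ℕ → GG → Prop)
    (ev : ℕ → Option ℕ) (s : ℕ) : St := stepB Bad ev (run Bad Win ev s) s

/-- The result of the construction. -/
noncomputable def lim (Bad : ℕ → GG → Prop) (Win : ℕ → ℕ → ℕ → GG → Prop)
    (ev : ℕ → Option ℕ) : GG := fun j y => (run Bad Win ev (j + y.length + 1)).G j y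

/-- The columns with infinitely many events. -/
def inf (ev : ℕ → Option ℕ) : Set ℕ := {j | {s | ev s = some j}.Infinite}

/-- At stage `s` the requirement `e` is violated, using the set `S` and the extension `G'`. -/
def ActB (Bad : ℕ → GG → Prop) (Win : ℕ → ℕ → ℕ → GG → Prop) (ev : ℕ → Option ℕ) (s e : ℕ)
    (S : Finset ℕ) (G' : GG) : Prop :=
  BrkOpt Bad ev (run Bad Win ev s) s e S G' ∧
    (∀ e' < e, ∀ S' G'', ¬ BrkOpt Bad ev (run Bad Win ev s) s e' S' G'') ∧
    mid Bad Win ev s = ⟨(mid Bad Win ev s).m, tr (mid Bad Win ev s).m G'⟩ ∧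
    (run Bad Win ev s).m ≤ (mid Bad Win ev s).m ∧ Brk Bad e (mid Bad Win ev s)

end Pool.Agent.H543R3.PC
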