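import Pool.Agent.H543R3.PC.Reqs
import Pool.Agent.H543R3.PC.A1
import Pool.Agent.H543R3.PC.A2
import Pool.Agent.H543R3.PC.A3

/-!
# Locality of the promises
-/

namespace Pool.Agent.H543R3.PC

open Pool.Agent.NPC Pool.Agent.H628R3.RO

/-! ### E1: locality -/

theorem AgB.mono_e1 {t t' : ℕ} {B B' : List Bool → Bool} (h : AgB t B B') (ht : t' ≤ t) :
    AgB t' B B' := fun v hv => h v (hv.trans ht)

theorem e1_acc_agr {M : Alg} {p c : Polynomial ℕ} (h : CostP M p c) {B : List Bool → Bool}
    {G G' : GG} {u : List Bool} (w : List Bool) (hG : Agr (c.eval u.length + 1) G G') :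
    Acc M p (mk B G') u w ↔ Acc M p (mk B G) u w := by
  unfold Acc
  refine and_congr_right fun hw => ?_
  have h1 : M.out (mk B G') (pairBits u w) = M.out (mk B G) (pairBits u w) :=
    ((h u w hw).1 B).agr hG
  rw [h1]

theorem e1_acc_agB {M : Alg} {p c : Polynomial ℕ} (h : CostP M p c) {B B' : List Bool → Bool}
    {G : GG} {u : List Bool} (w : List Bool) (hB : AgB (c.eval u.length) B B') :
    Acc M p (mk B' G) u w ↔ Acc M p (mk B G) u w := by
  unfold Acc
  refine and_congr_right fun hw => ?_
  rw [(h u w hw).2 B B' G hB]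

theorem e1_wt_agr {M : Alg} {p c : Polynomial ℕ} (h : CostP M p c) {B : List Bool → Bool}
    {G G' : GG} {u : List Bool} (hG : Agr (c.eval u.length + 1) G G') :
    Wt M p (mk B G') u ↔ Wt M p (mk B G) u :=
  exists_congr fun w => e1_acc_agr h w hG

theorem e1_wt_agB {M : Alg} {p c : Polynomial ℕ} (h : CostP M p c) {B B' : List Bool → Bool}
    {G : GG} {u : List Bool} (hB : AgB (c.eval u.length) B B') :
    Wt M p (mk B' G) u ↔ Wt M p (mk B G) u :=
  exists_congr fun w => e1_acc_agB h w hB

theorem e1_canAcc_agr {B : List Bool → Bool} {z : List Bool} {G G' : GG}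
    (h : Agr (z.length + 1) G G') (w : List Bool) : canAcc B G' z w ↔ canAcc B G z w := by
  unfold canAcc
  refine and_congr_right fun hc => ?_
  have h1 := zU_zR_len z
  exact e1_acc_agr (cA_spec (decA (zK z))).1 w (h.mono (by omega))

theorem e1_canAcc_agB {B B' : List Bool → Bool} {z : List Bool} {G : GG}
    (h : AgB z.length B B') (w : List Bool) : canAcc B' G z w ↔ canAcc B G z w := by
  unfold canAcc
  refine and_congr_right fun hc => ?_
  have h1 := zU_zR_len z
  exact e1_acc_agB (cA_spec (decA (zK z))).1 w (h.mono_e1 (by omega))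

theorem canNP_agr {B : List Bool → Bool} {z : List Bool} {G G' : GG}
    (h : Agr (z.length + 1) G G') : z ∈ canNP B G' ↔ z ∈ canNP B G :=
  exists_congr fun w => e1_canAcc_agr h w

theorem canNP_agB {B B' : List Bool → Bool} {z : List Bool} {G : GG}
    (h : AgB z.length B B') : z ∈ canNP B' G ↔ z ∈ canNP B G :=
  exists_congr fun w => e1_canAcc_agB h w

theorem e1_hit {m j n : ℕ} {G G' : GG} (h : Agr m G G') (hm : j + n < m) (y : List Bool) :
    Hit G' j n y ↔ Hit G j n y := by
  unfold Hit
  refine and_congr_right fun hy => ?_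
  rw [h j y (by omega)]

theorem e1_act {m j n : ℕ} {G G' : GG} (h : Agr m G G') (hm : j + n < m) :
    Act G' j n ↔ Act G j n := by
  unfold Act
  rw [h j (zer n) (by unfold zer; rw [List.length_replicate]; exact hm)]

theorem e1_twoHits {m j n : ℕ} {G G' : GG} (h : Agr m G G') (hm : j + n < m) :
    TwoHits G' j n ↔ TwoHits G j n := by
  unfold TwoHits
  simp only [e1_hit h hm]

theorem e1_noHits {m j n : ℕ} {G G' : GG} (h : Agr m G G') (hm : j + n < m) :
    NoHits G' j n ↔ NoHits G j n := by
  unfold NoHits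
  simp only [e1_hit h hm, e1_act h hm]

theorem e1_setT {z : List Bool} {G G' : GG} (h : Agr (z.length + 1) G G') :
    z ∉ setT G' ↔ z ∉ setT G := by
  unfold setT
  refine not_congr (not_congr (exists_congr fun j => exists_congr fun n =>
    and_congr_right fun hz => ?_))
  refine e1_twoHits h ?_
  have := uC_len j n
  rw [← hz] at this
  omega

theorem e1_setS {z : List Bool} {G G' : GG} (h : Agr (z.length + 1) G G') :
    z ∉ setS G' ↔ z ∉ setS G := by
  unfold setS
  refine not_congr (not_congr (exists_congr fun j => exists_congr fun n =>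
    and_congr_right fun hz => ?_))
  refine e1_noHits h ?_
  have := uC_len j n
  rw [← hz] at this
  omega

theorem CBad_agr (r : Req) (u : List Bool) {B : List Bool → Bool} {G G' : GG}
    (h : Agr ((cR r).eval u.length + 1) G G') : CBad r B G' u ↔ CBad r B G u := by
  obtain ⟨h0, h1, h2, h3⟩ := cR_spec r
  have hout : r.M₀.out (mk B G') u = r.M₀.out (mk B G) u := ((h2 u).1 B).agr h
  have hlen := (h2 u).2.2 (mk B G)
  have hex : ∀ (P P' : List Bool → Prop), (∀ z, z.length ≤ (cR r).eval u.length → (P' z ↔ P z)) →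
      ((∃ z, r.M₀.out (mk B G') u = some z ∧ P' z) ↔
        ∃ z, r.M₀.out (mk B G) u = some z ∧ P z) := by
    intro P P' hP
    rw [hout]
    exact exists_congr fun z => and_congr_right fun hz => hP z (hlen z hz)
  unfold CBad
  rcases r.kind with _ | _ | _ | _ | _ | _ | _ | _ | _
  · exact exists_congr fun w => exists_congr fun w' => and_congr_right fun _ =>
      and_congr (e1_acc_agr h0 w h) (e1_acc_agr h0 w' h)
  · exact iff_congr (e1_wt_agr h0 h) (e1_wt_agr h1 h)
  · exact and_congr (e1_wt_agr h0 h) (e1_wt_agr h1 h)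
  · exact and_congr (not_congr (e1_wt_agr h0 h)) (not_congr (e1_wt_agr h1 h))
  · exact not_congr (e1_wt_agr h0 h)
  · exact hex _ _ fun z hz => canNP_agr (h.mono (by omega))
  · exact hex _ _ fun z hz => not_congr (canNP_agr (h.mono (by omega)))
  · exact hex _ _ fun z hz => e1_setT (h.mono (by omega))
  · exact hex _ _ fun z hz => e1_setS (h.mono (by omega))

theorem CBad_agB (r : Req) (u : List Bool) {B B' : List Bool → Bool} {G : GG}
    (h : AgB ((cR r).eval u.length) B B') : CBad r B' G u ↔ CBad r B G u := by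
  obtain ⟨h0, h1, h2, h3⟩ := cR_spec r
  have hout : r.M₀.out (mk B' G) u = r.M₀.out (mk B G) u := (h2 u).2.1 B B' G h
  have hlen := (h2 u).2.2 (mk B G)
  have hex : ∀ (P P' : List Bool → Prop), (∀ z, z.length ≤ (cR r).eval u.length → (P' z ↔ P z)) →
      ((∃ z, r.M₀.out (mk B' G) u = some z ∧ P' z) ↔
        ∃ z, r.M₀.out (mk B G) u = some z ∧ P z) := by
    intro P P' hP
    rw [hout]
    exact exists_congr fun z => and_congr_right fun hz => hP z (hlen z hz)
  unfold CBad
  rcases r.kind with _ | _ | _ | _ | _ | _ | _ | _ | _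
  · exact exists_congr fun w => exists_congr fun w' => and_congr_right fun _ =>
      and_congr (e1_acc_agB h0 w h) (e1_acc_agB h0 w' h)
  · exact iff_congr (e1_wt_agB h0 h) (e1_wt_agB h1 h)
  · exact and_congr (e1_wt_agB h0 h) (e1_wt_agB h1 h)
  · exact and_congr (not_congr (e1_wt_agB h0 h)) (not_congr (e1_wt_agB h1 h))
  · exact not_congr (e1_wt_agB h0 h)
  · exact hex _ _ fun z hz => canNP_agB (h.mono_e1 hz)
  · exact hex _ _ fun z hz => not_congr (canNP_agB (h.mono_e1 hz))
  · exact hex _ _ fun z hz => Iff.rfl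
  · exact hex _ _ fun z hz => Iff.rfl

end Pool.Agent.H543R3.PC
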