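import Pool.Agent.H543R3.PC.Reqs
import Pool.Agent.H628R3.RO.A1

/-!
# E2: locality of the failure of a reduction
-/

set_option autoImplicit false

namespace Pool.Agent.H543R3.PC

open Pool.Agent.NPC Pool.Agent.H628R3.RO

theorem e2_gad_len (v : List Bool) : (gad v).1 + (gad v).2.length ≤ v.length := by
  have h1 : (unp v).length ≤ v.length := by
    unfold unp
    rw [List.length_tail]
    have := List.length_dropWhile_le (fun b => !b) v
    omega
  have h2 : ((unp v).takeWhile id).length + ((unp v).dropWhile id).length = (unp v).length := by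
    rw [← List.length_append, List.takeWhile_append_dropWhile]
  unfold gad
  dsimp only
  rw [List.length_tail]
  omega

/-- `f` is constant near `G` -/
def E2Loc {α : Type} (f : GG → α) (G : GG) : Prop := ∃ m, ∀ G', Agr m G G' → f G' = f G

theorem e2_agr_mono {m m' : ℕ} {G G' : GG} (h : Agr m G G') (hm : m' ≤ m) : Agr m' G G' :=
  fun j y hy => h j y (lt_of_lt_of_le hy hm)

theorem e2_const {α : Type} (a : α) (G : GG) : E2Loc (fun _ => a) G := ⟨0, fun _ _ => rfl⟩

theorem e2_map {α β : Type} {f : GG → α} {G : GG} (h : E2Loc f G) (g : α → β) :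
    E2Loc (fun G => g (f G)) G := by
  obtain ⟨m, hm⟩ := h
  exact ⟨m, fun G' hG => congrArg g (hm G' hG)⟩

theorem e2_map2 {α β γ : Type} {f : GG → α} {f' : GG → β} {G : GG} (h : E2Loc f G)
    (h' : E2Loc f' G) (g : α → β → γ) : E2Loc (fun G => g (f G) (f' G)) G := by
  obtain ⟨m, hm⟩ := h
  obtain ⟨m', hm'⟩ := h'
  refine ⟨max m m', fun G' hG => ?_⟩
  show g (f G') (f' G') = g (f G) (f' G)
  rw [hm G' (e2_agr_mono hG (le_max_left _ _)), hm' G' (e2_agr_mono hG (le_max_right _ _))]

theorem e2_bind {α β : Type} {f : GG → α} {g : α → GG → β} {G : GG} (h : E2Loc f G)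
    (h' : ∀ a, E2Loc (g a) G) : E2Loc (fun G => g (f G) G) G := by
  obtain ⟨m, hm⟩ := h
  obtain ⟨m', hm'⟩ := h' (f G)
  refine ⟨max m m', fun G' hG => ?_⟩
  show g (f G') G' = g (f G) G
  rw [hm G' (e2_agr_mono hG (le_max_left _ _)), hm' G' (e2_agr_mono hG (le_max_right _ _))]

/-- finitely many -/
theorem e2_forall_fin {ι : Type} (s : Set ι) (hs : s.Finite) {P : ι → GG → Prop} {G : GG}
    (h : ∀ i ∈ s, E2Loc (P i) G) : ∃ m, ∀ G', Agr m G G' → ∀ i ∈ s, (P i G' ↔ P i G) := by
  classical
  choose! m hm using h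
  refine ⟨hs.toFinset.sup m, fun G' hG i hi => ?_⟩
  have h1 : m i ≤ hs.toFinset.sup m := Finset.le_sup (hs.mem_toFinset.2 hi)
  exact iff_of_eq (hm i hi G' (e2_agr_mono hG h1))

theorem e2_bits {P : GG → Prop} {G : GG} (m : ℕ) (h : ∀ G', Agr m G G' → (P G' ↔ P G)) :
    E2Loc P G := ⟨m, fun G' hG => propext (h G' hG)⟩

theorem e2_out (M : Alg) (B : List Bool → Bool) (x : List Bool) (G : GG) :
    E2Loc (fun G => M.out (mk B G) x) G := by
  obtain ⟨qb, hq⟩ := M.out_local
  obtain ⟨Q, _, hQ, hQ'⟩ := hq (mk B G) x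
  refine ⟨qb.eval x.length, fun G' hG => hQ' (mk B G') ?_⟩
  intro q hqQ
  have hl := hQ q hqQ
  match q, hl with
  | [], _ => rfl
  | false :: v, _ => rfl
  | true :: v, hl =>
    show G' (gad v).1 (gad v).2 = G (gad v).1 (gad v).2
    apply hG
    have := e2_gad_len v
    rw [List.length_cons] at hl
    omega

theorem e2_hit (G : GG) (j n : ℕ) (y : List Bool) : E2Loc (fun G => Hit G j n y) G := by
  refine e2_bits (j + n + 1) fun G' hG => ?_
  unfold Hit
  constructor
  · rintro ⟨h1, h2, h3⟩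
    refine ⟨h1, h2, ?_⟩
    rw [← hG j y (by omega)]
    exact h3
  · rintro ⟨h1, h2, h3⟩
    refine ⟨h1, h2, ?_⟩
    rw [hG j y (by omega)]
    exact h3

theorem e2_hitT (G : GG) (j n : ℕ) : E2Loc (fun G => HitT G j n) G := by
  refine e2_bits (j + n + 1) fun G' hG => ?_
  unfold HitT Hit
  constructor
  · rintro ⟨y, ⟨h1, h2, h3⟩, h4⟩
    refine ⟨y, ⟨h1, h2, ?_⟩, h4⟩
    rw [← hG j y (by omega)]
    exact h3
  · rintro ⟨y, ⟨h1, h2, h3⟩, h4⟩
    refine ⟨y, ⟨h1, h2, ?_⟩, h4⟩
    rw [hG j y (by omega)]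
    exact h3

theorem e2_acc (M : Alg) (p : Polynomial ℕ) (B : List Bool → Bool) (u w : List Bool) (G : GG) :
    E2Loc (fun G => Acc M p (mk B G) u w) G :=
  e2_map (e2_out M B (pairBits u w) G) (fun o => w.length ≤ p.eval u.length ∧ o = some [true])

theorem e2_wt (M : Alg) (p : Polynomial ℕ) (B : List Bool → Bool) (u : List Bool) (G : GG) :
    E2Loc (fun G => Wt M p (mk B G) u) G := by
  obtain ⟨m, hm⟩ := e2_forall_fin {w : List Bool | w.length ≤ p.eval u.length}
    (List.finite_length_le Bool _) (P := fun w G => Acc M p (mk B G) u w) (G := G)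
    (fun w _ => e2_acc M p B u w G)
  refine e2_bits m fun G' hG => ?_
  constructor
  · rintro ⟨w, hw⟩
    exact ⟨w, (hm G' hG w hw.1).1 hw⟩
  · rintro ⟨w, hw⟩
    exact ⟨w, (hm G' hG w hw.1).2 hw⟩

/-- the output of an algorithm satisfies a property -/
theorem e2_ex (M : Alg) (B : List Bool → Bool) (x : List Bool) (G : GG)
    {P : List Bool → GG → Prop} (h : ∀ u, E2Loc (P u) G) :
    E2Loc (fun G => ∃ u, M.out (mk B G) x = some u ∧ P u G) G :=
  e2_bind (g := fun o G => ∃ u, o = some u ∧ P u G) (e2_out M B x G) (by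
    intro o
    cases o with
    | none =>
      refine e2_bits 0 fun G' _ => ?_
      simp
    | some u =>
      obtain ⟨m, hm⟩ := h u
      refine e2_bits m fun G' hG => ?_
      simp [hm G' hG])

theorem CWin_agr (a : Adv) (B : List Bool → Bool) (G : GG) (j n : ℕ) :
    ∃ m, ∀ G', Agr m G G' → (CWin a B G' j n ↔ CWin a B G j n) := by
  have key : E2Loc (fun G => CWin a B G j n) G := by
    unfold CWin
    cases (req a.e).kind with
    | up =>
      exact e2_map (e2_ex a.F B (one n) G (fun u =>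
        e2_map2 (e2_hitT G j n) (e2_wt _ _ B u G) (fun p q => (p ↔ q)))) Not
    | npc =>
      exact e2_map (e2_ex a.F B (one n) G (fun u =>
        e2_map2 (e2_map2 (e2_hitT G j n) (e2_wt _ _ B u G) (fun p q => (p → q)))
          (e2_map2 (e2_hitT G j n) (e2_wt _ _ B u G) (fun p q => (¬ p → q))) And)) Not
    | dnp =>
      exact e2_map (e2_ex a.F B (one n) G (fun u =>
        e2_map2 (e2_map2 (e2_hitT G j n) (e2_wt _ _ B u G) (fun p q => (p → q)))
          (e2_map2 (e2_hitT G j n) (e2_wt _ _ B u G) (fun p q => (¬ p → q))) And)) Not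
    | dconp =>
      exact e2_map (e2_ex a.F B (one n) G (fun u =>
        e2_map2 (e2_map2 (e2_hitT G j n) (e2_wt _ _ B u G) (fun p q => (p → ¬ q)))
          (e2_map2 (e2_hitT G j n) (e2_wt _ _ B u G) (fun p q => (¬ p → ¬ q))) And)) Not
    | tfnp =>
      refine e2_map (e2_ex a.F B (one n) G (fun u => ?_)) Not
      obtain ⟨m, hm⟩ := e2_forall_fin
        {w : List Bool | w.length ≤ (req a.e).p₀.eval u.length}
        (List.finite_length_le Bool _)
        (P := fun w G => Acc (req a.e).M₀ (req a.e).p₀ (mk B G) u w →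
          ∃ v, a.R.out (mk B G) (pairBits (one n) w) = some v ∧ Hit G j n v) (G := G)
        (fun w _ => e2_map2 (e2_acc _ _ B u w G)
          (e2_ex a.R B (pairBits (one n) w) G (fun v => e2_hit G j n v)) (fun p q => (p → q)))
      refine e2_bits m fun G' hG => ?_
      constructor
      · intro h w hw
        exact (hm G' hG w hw.1).1 (h w) hw
      · intro h w hw
        exact (hm G' hG w hw.1).2 (h w) hw
    | nS =>
      exact e2_map (e2_ex a.F B (one n) G (fun v =>
        e2_map (e2_out (req a.e).M₀ B v G) (fun o => o = some (uC j n)))) Not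
    | psT => exact e2_const False G
    | psS => exact e2_const False G
    | nT => exact e2_const False G
  obtain ⟨m, hm⟩ := key
  exact ⟨m, fun G' hG => iff_of_eq (hm G' hG)⟩

end Pool.Agent.H543R3.PC
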