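import Pool.Agent.H543R3.PC.Reqs
import Pool.Agent.H543R3.PC.DefsC
import Pool.Agent.H543R3.PC.C1
import Pool.Agent.H543R3.PC.C3
import Pool.Agent.H543R3.PC.C5
import Pool.Agent.H543R3.PC.C6
import Pool.Agent.H543R3.PC.E1
import Pool.Agent.H543R3.PC.E2

/-!
# C7: the two situations
-/

namespace Pool.Agent.H543R3.PC

open Pool.Agent.NPC Pool.Agent.H628R3.RO

theorem situations (B : List Bool → Bool) : ∃ f : (ℕ → Option ℕ) → GG,
    (∀ m, ∃ N, ∀ ev ev' : ℕ → Option ℕ, (∀ s < N, ev s = ev' s) → Agr m (f ev) (f ev')) ∧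
    ∀ ev, (∀ hf : (inf ev).Finite, ∃ nH, PosSit B (f ev) hf.toFinset nH) ∧
      ((inf ev).Infinite → NegSit B (f ev) (inf ev)) := by
  obtain ⟨adv, hadv⟩ := exists_surjective_nat Adv
  obtain ⟨Bad, hBad⟩ : ∃ Bad : ℕ → GG → Prop, Bad = fun e G => ∃ u, CBad (req e) B G u := ⟨_, rfl⟩
  obtain ⟨Win, hWin⟩ : ∃ Win : ℕ → ℕ → ℕ → GG → Prop, Win = fun k j n G => CWin (adv k) B G j n :=
    ⟨_, rfl⟩
  have hB : ∀ e G, Bad e G → ∃ m, ∀ G', Agr m G G' → Bad e G' := by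
    rw [hBad]
    rintro e G ⟨u, hu⟩
    exact ⟨(cR (req e)).eval u.length + 1, fun G' h => ⟨u, (CBad_agr _ _ h).2 hu⟩⟩
  have hW : ∀ k j n G, Win k j n G → ∃ m, ∀ G', Agr m G G' → Win k j n G' := by
    rw [hWin]
    intro k j n G h
    obtain ⟨m, hm⟩ := CWin_agr (adv k) B G j n
    exact ⟨m, fun G' hG => (hm G' hG).2 h⟩
  have hnb : ∀ (e : ℕ) (G : GG), ¬ Bad e G ↔ ∀ u, ¬ CBad (req e) B G u := by
    intro e G
    rw [hBad]
    exact not_exists
  refine ⟨lim Bad Win, fun m => ⟨m, fun ev ev' h => lim_congr m h⟩, fun ev =>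
    ⟨fun hf => ?_, fun hi => ?_⟩⟩
  · choose N hN using fun j => lim_leg (ev := ev) hB hW j
    refine ⟨∑ j ∈ hf.toFinset, (N j + j), ⟨fun j n => lim_inv hB hW j n, ?_, ?_⟩⟩
    · intro j hj n hn
      have h1 : N j + j ≤ ∑ j ∈ hf.toFinset, (N j + j) :=
        Finset.single_le_sum (f := fun j => N j + j) (fun _ _ => Nat.zero_le _) hj
      exact hN j n (by omega)
    · intro e hSe hgood
      obtain ⟨m, hm, S, hS, hl, hr⟩ := lim_rob hB hW ((hnb e _).2 hgood)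
        (∑ j ∈ hf.toFinset, (N j + j))
      have e1 : S = hf.toFinset := by
        ext i
        rw [hS i, Set.Finite.mem_toFinset]
        exact ⟨fun h => h.2, fun h => ⟨hSe i (by rwa [Set.Finite.mem_toFinset]), h⟩⟩
      subst e1
      exact ⟨m, hm, hl, fun G' hG' => (hnb e _).1 (hr G' hG')⟩
  · refine ⟨hi, fun j n => lim_inv hB hW j n, fun j => lim_leg hB hW j,
      fun j hj N => lim_act hW hj N, ?_, ?_⟩
    · intro e hgood
      obtain ⟨m, -, S, hS, hl, hr⟩ := lim_rob hB hW ((hnb e _).2 hgood) 0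
      exact ⟨m, S, fun i h => ((hS i).1 h).1, hl, fun G' hG' => (hnb e _).1 (hr G' hG')⟩
    · intro j hj a N
      obtain ⟨k, rfl⟩ := hadv a
      have := lim_win (Bad := Bad) hW hj k N
      rw [hWin] at this ⊢
      exact this

end Pool.Agent.H543R3.PC
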