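import Pool.Agent.H543R3.PC.Reqs
import Pool.Agent.H543R3.PC.DefsC

/-!
# Stubs needed by C7 (to be replaced by the imports of C1, C3, C5, C6, E1, E2)
-/

namespace Pool.Agent.H543R3.PC

open Pool.Agent.NPC Pool.Agent.H628R3.RO

section

variable {Bad : ℕ → GG → Prop} {Win : ℕ → ℕ → ℕ → GG → Prop} {ev : ℕ → Option ℕ}

theorem lim_congr {ev' : ℕ → Option ℕ} (m : ℕ) (h : ∀ s < m, ev s = ev' s) :
    Agr m (lim Bad Win ev) (lim Bad Win ev') := sorry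

theorem lim_inv (hB : ∀ e G, Bad e G → ∃ m, ∀ G', Agr m G G' → Bad e G')
    (hW : ∀ k j n G, Win k j n G → ∃ m, ∀ G', Agr m G G' → Win k j n G') (j n : ℕ) :
    Act (lim Bad Win ev) j n ∨ Inact (lim Bad Win ev) j n := sorry

theorem lim_leg (hB : ∀ e G, Bad e G → ∃ m, ∀ G', Agr m G G' → Bad e G')
    (hW : ∀ k j n G, Win k j n G → ∃ m, ∀ G', Agr m G G' → Win k j n G') (j : ℕ) :
    ∃ N, ∀ n, N ≤ n → Legal (lim Bad Win ev) j n ∨ Inact (lim Bad Win ev) j n := sorry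

theorem lim_rob (hB : ∀ e G, Bad e G → ∃ m, ∀ G', Agr m G G' → Bad e G')
    (hW : ∀ k j n G, Win k j n G → ∃ m, ∀ G', Agr m G G' → Win k j n G') {e : ℕ}
    (he : ¬ Bad e (lim Bad Win ev)) (N : ℕ) :
    ∃ m, N ≤ m ∧ ∃ S : Finset ℕ, (∀ i, i ∈ S ↔ i < e ∧ i ∈ inf ev) ∧
      Leg e S m (lim Bad Win ev) (lim Bad Win ev) ∧
      ∀ G', Leg e S m (lim Bad Win ev) G' → ¬ Bad e G' := sorry

theorem lim_act (hW : ∀ k j n G, Win k j n G → ∃ m, ∀ G', Agr m G G' → Win k j n G') {j : ℕ}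
    (hj : j ∈ inf ev) (N : ℕ) : ∃ n, N ≤ n ∧ Legal (lim Bad Win ev) j n := sorry

theorem lim_win (hW : ∀ k j n G, Win k j n G → ∃ m, ∀ G', Agr m G G' → Win k j n G') {j : ℕ}
    (hj : j ∈ inf ev) (k N : ℕ) :
    ∃ m, N ≤ m ∧ ((∃ n y, m ≤ n ∧ y.length = n ∧ y ≠ zer n ∧
        Win k j n (put (tr m (lim Bad Win ev)) j n [y])) →
      ∃ n, N ≤ n ∧ Legal (lim Bad Win ev) j n ∧ Win k j n (lim Bad Win ev)) := sorry

end

theorem CBad_agr (r : Req) (u : List Bool) {B : List Bool → Bool} {G G' : GG}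
    (h : Agr ((cR r).eval u.length + 1) G G') : CBad r B G' u ↔ CBad r B G u := sorry

theorem CWin_agr (a : Adv) (B : List Bool → Bool) (G : GG) (j n : ℕ) :
    ∃ m, ∀ G', Agr m G G' → (CWin a B G' j n ↔ CWin a B G j n) := sorry

end Pool.Agent.H543R3.PC
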