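import Pool.Agent.H543R3.PC.DefsC
import Pool.Agent.H556R2.SComplete

/-!
# D1: coding of `Σ⁰₄` sets by events
-/

namespace Pool.Agent.H543R3.PC

open TopologicalSpace Topology
open H556R2 (IsSigma03 IsPi03 IsSigma04 Sigma04Complete)

open Classical in
/-- The largest `b' + 1 ≤ b` such that some row `i' < i` has an entry at `b'`. -/
noncomputable def d1_last (β : ℕ → ℕ → Prop) (i : ℕ) : ℕ → ℕ
  | 0 => 0
  | b + 1 => if ∃ i' < i, β i' b then b + 1 else d1_last β i b

theorem d1_last_le (β : ℕ → ℕ → Prop) (i b : ℕ) : d1_last β i b ≤ b := by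
  induction b with
  | zero => simp [d1_last]
  | succ b ih => unfold d1_last; split_ifs <;> omega

theorem d1_last_mono (β : ℕ → ℕ → Prop) (i : ℕ) : Monotone (d1_last β i) := by
  apply monotone_nat_of_le_succ
  intro b
  rw [d1_last]
  have := d1_last_le β i b
  split_ifs <;> omega

theorem d1_last_const (β : ℕ → ℕ → Prop) (i N : ℕ) (h : ∀ b, N ≤ b → ¬ ∃ i' < i, β i' b) :
    ∀ b, N ≤ b → d1_last β i b = d1_last β i N := by
  intro b hb
  induction b, hb using Nat.le_induction with
  | base => rfl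
  | succ b hb ih => rw [d1_last, if_neg (h b hb), ih]

theorem d1_finite (β : ℕ → ℕ → Prop) (i t i0 : ℕ) (hi : i0 < i) (h : {b | β i0 b}.Infinite) :
    {b | d1_last β i b = t}.Finite := by
  obtain ⟨b0, hb0, hlt⟩ := h.exists_gt t
  apply (Set.finite_Iio (b0+1)).subset
  intro b hb
  by_contra hcon
  simp only [Set.mem_Iio, not_lt] at hcon
  have h1 : d1_last β i (b0+1) = b0+1 := by rw [d1_last, if_pos ⟨i0, hi, hb0⟩]
  have h2 := d1_last_mono β i hcon
  have h3 : d1_last β i b = t := hb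
  omega

/-- if all rows below `i` are finite, `last` is eventually constant -/
theorem d1_evconst (β : ℕ → ℕ → Prop) (i : ℕ) (h : ∀ i' < i, {b | β i' b}.Finite) :
    ∃ N, ∀ b, N ≤ b → d1_last β i b = d1_last β i N := by
  have h1 : (⋃ i' ∈ Finset.range i, {b | β i' b}).Finite :=
    Set.Finite.biUnion (Finset.finite_toSet _) (fun i' hi' => h i' (by simpa using hi'))
  obtain ⟨N, hN⟩ := h1.bddAbove
  refine ⟨N+1, d1_last_const β i (N+1) ?_⟩
  rintro b hb ⟨i', hi', hb'⟩
  have : b ∈ (⋃ i' ∈ Finset.range i, {b | β i' b}) := by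
    simp only [Set.mem_iUnion]
    exact ⟨i', Finset.mem_range.2 hi', hb'⟩
  have := hN this
  omega

open Classical in
/-- the events -/
noncomputable def d1_ev (β : ℕ → ℕ → ℕ → Prop) (s : ℕ) : Option ℕ :=
  if β s.unpair.1 s.unpair.2.unpair.1 s.unpair.2.unpair.2 then
    some (Nat.pair s.unpair.1 (Nat.pair s.unpair.2.unpair.1
      (d1_last (β s.unpair.1) s.unpair.2.unpair.1 s.unpair.2.unpair.2)))
  else none

theorem d1_ev_congr (β β' : ℕ → ℕ → ℕ → Prop) (s : ℕ)
    (h : β s.unpair.1 s.unpair.2.unpair.1 s.unpair.2.unpair.2 ↔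
      β' s.unpair.1 s.unpair.2.unpair.1 s.unpair.2.unpair.2)
    (h' : d1_last (β s.unpair.1) s.unpair.2.unpair.1 s.unpair.2.unpair.2 =
      d1_last (β' s.unpair.1) s.unpair.2.unpair.1 s.unpair.2.unpair.2) :
    d1_ev β s = d1_ev β' s := by
  unfold d1_ev
  rw [h']
  by_cases hc : β' s.unpair.1 s.unpair.2.unpair.1 s.unpair.2.unpair.2
  · rw [if_pos hc, if_pos (h.2 hc)]
  · rw [if_neg hc, if_neg (fun h'' => hc (h.1 h''))]

theorem d1_mem_inf (β : ℕ → ℕ → ℕ → Prop) (c i t : ℕ) :
    Nat.pair c (Nat.pair i t) ∈ inf (d1_ev β) ↔ {b | β c i b ∧ d1_last (β c) i b = t}.Infinite := by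
  have h1 : {s | d1_ev β s = some (Nat.pair c (Nat.pair i t))} =
      (fun b => Nat.pair c (Nat.pair i b)) '' {b | β c i b ∧ d1_last (β c) i b = t} := by
    ext s
    simp only [Set.mem_ofPred_eq, Set.mem_image]
    constructor
    · intro hs
      unfold d1_ev at hs
      split_ifs at hs with h
      rw [Option.some.injEq, Nat.pair_eq_pair, Nat.pair_eq_pair] at hs
      obtain ⟨e1, e2, e3⟩ := hs
      refine ⟨s.unpair.2.unpair.2, ?_, ?_⟩
      · rw [← e1, ← e2]
        exact ⟨h, by rw [← e3]⟩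
      · rw [← e1, ← e2, Nat.pair_unpair, Nat.pair_unpair]
    · rintro ⟨b, ⟨hb1, hb2⟩, rfl⟩
      unfold d1_ev
      rw [if_pos (by simpa using hb1)]
      simp only [Nat.unpair_pair]
      rw [hb2]
  unfold inf
  rw [Set.mem_ofPred_eq, h1, Set.infinite_image_iff]
  intro b _ b' _ h
  simpa using h

theorem d1_card (β : ℕ → ℕ → ℕ → Prop) (c : ℕ) (h : ∃ i, {b | β c i b}.Infinite) :
    ∃ p, Nat.pair c p ∈ inf (d1_ev β) := by
  classical
  obtain ⟨N, hN⟩ := d1_evconst (β c) (Nat.find h) (fun i' hi' => by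
    have := Nat.find_min h hi'
    rwa [Set.not_infinite] at this)
  refine ⟨Nat.pair (Nat.find h) (d1_last (β c) (Nat.find h) N), ?_⟩
  rw [d1_mem_inf]
  have h2 := Nat.find_spec h
  intro hfin
  apply h2
  apply (hfin.union (Set.finite_Iio N)).subset
  intro b hb
  by_cases hbN : N ≤ b
  · exact Or.inl ⟨hb, hN b hbN⟩
  · exact Or.inr (by simpa using hbN)

theorem d1_unique (β : ℕ → ℕ → ℕ → Prop) (c i t i' t' : ℕ)
    (h : Nat.pair c (Nat.pair i t) ∈ inf (d1_ev β))
    (h' : Nat.pair c (Nat.pair i' t') ∈ inf (d1_ev β)) : i = i' ∧ t = t' := by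
  rw [d1_mem_inf] at h h'
  have a1 : {b | β c i b}.Infinite := h.mono (fun b hb => hb.1)
  have a2 : {b | β c i' b}.Infinite := h'.mono (fun b hb => hb.1)
  have hi : i = i' := by
    rcases lt_trichotomy i i' with hl | hl | hl
    · exact absurd ((d1_finite (β c) i' t' i hl a1).subset (fun b hb => hb.2)) h'
    · exact hl
    · exact absurd ((d1_finite (β c) i t i' hl a2).subset (fun b hb => hb.2)) h
  subst hi
  refine ⟨rfl, ?_⟩
  -- monotone: both values attained infinitely often
  by_contra hne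
  rcases lt_or_gt_of_ne hne with hl | hl
  · obtain ⟨b0, hb0⟩ := h'.nonempty
    obtain ⟨b1, hb1, hlt⟩ := h.exists_gt b0
    have := d1_last_mono (β c) i hlt.le
    rw [hb0.2, hb1.2] at this
    omega
  · obtain ⟨b0, hb0⟩ := h.nonempty
    obtain ⟨b1, hb1, hlt⟩ := h'.exists_gt b0
    have := d1_last_mono (β c) i hlt.le
    rw [hb0.2, hb1.2] at this
    omega

theorem d1_finite_iff (β : ℕ → ℕ → ℕ → Prop) :
    (inf (d1_ev β)).Finite ↔ {c | ∃ i, {b | β c i b}.Infinite}.Finite := by
  constructor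
  · intro h
    apply (h.image (fun j => j.unpair.1)).subset
    intro c hc
    obtain ⟨p, hp⟩ := d1_card β c hc
    exact ⟨_, hp, by simp⟩
  · intro h
    apply Set.Finite.of_injOn (f := fun j : ℕ => j.unpair.1) (t := {c | ∃ i, {b | β c i b}.Infinite}) _ _ h
    · intro j hj
      have e : j = Nat.pair j.unpair.1 (Nat.pair j.unpair.2.unpair.1 j.unpair.2.unpair.2) := by simp
      rw [e, d1_mem_inf] at hj
      exact ⟨_, hj.mono (fun b hb => hb.1)⟩
    · intro j hj j' hj' heq
      have e : j = Nat.pair j.unpair.1 (Nat.pair j.unpair.2.unpair.1 j.unpair.2.unpair.2) := by simp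
      have e' : j' = Nat.pair j.unpair.1 (Nat.pair j'.unpair.2.unpair.1 j'.unpair.2.unpair.2) := by
        simp only at heq
        rw [heq]
        simp
      rw [e] at hj
      rw [e'] at hj'
      obtain ⟨a, b⟩ := d1_unique β _ _ _ _ _ hj hj'
      rw [e, e', a, b]

theorem d1_last_local {X : Type} [TopologicalSpace X] (α : X → ℕ → ℕ → Option ℕ)
    (h : ∀ i b x, ∀ᶠ y in 𝓝 x, α y i b = α x i b) (x : X) (i b : ℕ) :
    ∀ᶠ y in 𝓝 x, d1_last (fun i b => α y i b ≠ none) i b = d1_last (fun i b => α x i b ≠ none) i b := by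
  induction b with
  | zero => exact Filter.Eventually.of_forall fun _ => rfl
  | succ b ih =>
    have h1 : ∀ᶠ y in 𝓝 x, ∀ i' ∈ Finset.range i, α y i' b = α x i' b := by
      rw [Filter.eventually_all_finset]
      intro i' _
      exact h i' b x
    filter_upwards [ih, h1] with y hy hy1
    rw [d1_last, d1_last, hy]
    have e : (∃ i' < i, α y i' b ≠ none) ↔ (∃ i' < i, α x i' b ≠ none) := by
      constructor
      · rintro ⟨i', hi', h'⟩
        exact ⟨i', hi', by rwa [← hy1 i' (Finset.mem_range.2 hi')]⟩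
      · rintro ⟨i', hi', h'⟩
        exact ⟨i', hi', by rwa [hy1 i' (Finset.mem_range.2 hi')]⟩
    by_cases hc : ∃ i' < i, α x i' b ≠ none
    · rw [if_pos hc, if_pos (e.2 hc)]
    · rw [if_neg hc, if_neg (fun h' => hc (e.1 h'))]

theorem exists_ev {X : Type} [TopologicalSpace X] [SecondCountableTopology X]
    (hX : IsTopologicalBasis {s : Set X | IsClopen s}) {D : Set X} (hD : IsSigma04 D) :
    ∃ ev : X → ℕ → Option ℕ, (∀ s x, ∀ᶠ y in 𝓝 x, ev y s = ev x s) ∧
      ∀ x, x ∈ D ↔ (inf (ev x)).Finite := by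
  obtain ⟨P, hP, rfl⟩ := hD
  have hmat : ∀ c, ∃ α : X → ℕ → ℕ → Option ℕ, (∀ i b x, ∀ᶠ y in 𝓝 x, α y i b = α x i b) ∧
      (∀ x ∈ (⋃ m ∈ Finset.range (c + 1), P m)ᶜ, ∃ i, ∀ t, ∃ b, α x i b = some t) ∧
      (∀ x ∉ (⋃ m ∈ Finset.range (c + 1), P m)ᶜ, ∀ i, {b | α x i b ≠ none}.Finite) :=
    fun c => H556R2.exists_matrix hX (H556R2.isPi03_accumulate hP c)
  choose α h1 h2 h3 using hmat
  refine ⟨fun x => d1_ev (fun c i b => α c x i b ≠ none), ?_, ?_⟩
  · intro s x
    filter_upwards [h1 s.unpair.1 s.unpair.2.unpair.1 s.unpair.2.unpair.2 x,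
      d1_last_local (α s.unpair.1) (h1 s.unpair.1) x s.unpair.2.unpair.1 s.unpair.2.unpair.2] with y hy1 hy2
    exact d1_ev_congr _ _ s (by simp only [hy1]) hy2
  · intro x
    rw [d1_finite_iff, Set.mem_iUnion]
    constructor
    · rintro ⟨m, hm⟩
      apply (Set.finite_Iio m).subset
      rintro c ⟨i, hi⟩
      by_contra hcon
      simp only [Set.mem_Iio, not_lt] at hcon
      apply hi
      apply h3 c x
      simp only [Set.mem_compl_iff, Set.mem_iUnion, not_not]
      exact ⟨m, Finset.mem_range.2 (by omega), hm⟩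
    · intro hfin
      by_contra hcon
      push Not at hcon
      apply Set.infinite_univ (α := ℕ)
      apply hfin.subset
      intro c _
      obtain ⟨i, hi⟩ := h2 c x (by
        simp only [Set.mem_compl_iff, Set.mem_iUnion, not_exists]
        intro m _
        exact hcon m)
      refine ⟨i, ?_⟩
      choose g hg using hi
      have hginj : Function.Injective g := by
        intro t t' htt
        have e1 := hg t
        have e2 := hg t'
        rw [htt, e2] at e1
        simpa using e1.symm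
      apply (Set.infinite_range_of_injective hginj).mono
      rintro _ ⟨t, rfl⟩
      show α c x i (g t) ≠ none
      rw [hg t]
      simp

end Pool.Agent.H543R3.PC
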