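import Pool.Agent.H543R3.PC.Reqs

/-!
# The languages of the two situations; local predicates
-/

namespace Pool.Agent.H543R3.PC

open Pool.Agent.NPC Pool.Agent.H628R3 Pool.Agent.H628R3.RO

/-- The language accepted by the guarded verifier. -/
def KK (B : List Bool → Bool) (G : GG) (S : Finset ℕ) (nH : ℕ) (κ : Kind) (i dflt : Bool) :
    Set (List Bool) := {z | ∃ w, semG S nH κ i dflt B (pairBits z w) G = [true]}

/-- The hard language of column `j`. -/
def LL (G : GG) (j N : ℕ) : Set (List Bool) :=
  {x | N ≤ x.length ∧ Act G j x.length ∧ HitT G j x.length}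

/-- The hard search problem of column `j`. -/
def SS (G : GG) (j N : ℕ) (x y : List Bool) : Prop :=
  (¬ (N ≤ x.length ∧ Act G j x.length) ∧ y = []) ∨
    (N ≤ x.length ∧ Act G j x.length ∧ Hit G j x.length y)

/-- `P A` depends only on finitely many bits of `A` (locally). -/
def Lc (P : RO.Oracle → Prop) : Prop :=
  ∀ A, ∃ N : ℕ, ∀ A' : RO.Oracle, (∀ v : List Bool, v.length ≤ N → A' v = A v) → (P A' ↔ P A)

end Pool.Agent.H543R3.PC
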