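import Pool.Agent.H543R3.PC.DefsB
import Pool.Agent.H543R3.PC.DefsC
import Pool.Agent.H543R3.PC.DefsP
import Pool.Agent.H556R2.Sigma04Defs
import Pool.Agent.H556R2.Borel

/-!
# Completeness from a reduction (with the coding of `Σ⁰₄` sets as a hypothesis)
-/

namespace Pool.Agent.H543R3.PC

open Pool.Agent.NPC Pool.Agent.H628R3 Pool.Agent.H628R3.RO TopologicalSpace Topology
open H556R2 (IsSigma03 IsPi03 IsSigma04 Sigma04Complete)

theorem d2_continuous {X : Type} [TopologicalSpace X] (B : List Bool → Bool)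
    (f : (ℕ → Option ℕ) → GG)
    (hf : ∀ m, ∃ N, ∀ ev ev' : ℕ → Option ℕ, (∀ s < N, ev s = ev' s) → Agr m (f ev) (f ev'))
    (ev : X → ℕ → Option ℕ) (hev : ∀ s x, ∀ᶠ y in 𝓝 x, ev y s = ev x s) :
    Continuous fun x => mk B (f (ev x)) := by
  apply continuous_pi
  intro v
  apply IsLocallyConstant.continuous
  rw [IsLocallyConstant.iff_eventually_eq]
  intro x
  match v with
  | [] => exact Filter.Eventually.of_forall fun _ => rfl
  | false :: v => exact Filter.Eventually.of_forall fun _ => rfl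
  | true :: v =>
    obtain ⟨N, hN⟩ := hf ((gad v).1 + (gad v).2.length + 1)
    have h1 : ∀ᶠ y in 𝓝 x, ∀ s ∈ Finset.range N, ev y s = ev x s := by
      rw [Filter.eventually_all_finset]
      intro s _
      exact hev s x
    filter_upwards [h1] with y hy
    have h2 := hN (ev x) (ev y) (fun s hs => (hy s (Finset.mem_range.2 hs)).symm)
      (gad v).1 (gad v).2 (Nat.lt_succ_self _)
    simpa [mk] using h2

theorem complete_of_core
    (hE : ∀ {X : Type} [TopologicalSpace X] [SecondCountableTopology X],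
      IsTopologicalBasis {s : Set X | IsClopen s} → ∀ {D : Set X}, IsSigma04 D →
      ∃ ev : X → ℕ → Option ℕ, (∀ s x, ∀ᶠ y in 𝓝 x, ev y s = ev x s) ∧
        ∀ x, x ∈ D ↔ (inf (ev x)).Finite)
    {Has : RO.Oracle → Prop} (hup : IsSigma04 {A : RO.Oracle | Has A})
    (B : List Bool → Bool) (f : (ℕ → Option ℕ) → GG)
    (hf : ∀ m, ∃ N, ∀ ev ev' : ℕ → Option ℕ, (∀ s < N, ev s = ev' s) → Agr m (f ev) (f ev'))
    (hpos : ∀ ev, (inf ev).Finite → Has (mk B (f ev)))
    (hneg : ∀ ev, (inf ev).Infinite → ¬ Has (mk B (f ev))) :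
    Sigma04Complete {A : RO.Oracle | Has A} := by
  refine ⟨hup, fun X _ _ hX D hD => ?_⟩
  obtain ⟨ev, hev, hDev⟩ := hE hX hD
  refine ⟨fun x => mk B (f (ev x)), d2_continuous B f hf ev hev, ?_⟩
  ext x
  rw [hDev x]
  constructor
  · intro h
    by_contra h2
    exact hneg (ev x) h2 h
  · intro h
    exact hpos (ev x) h

end Pool.Agent.H543R3.PC
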