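import Pool.Agent.H543R3.PC.D1
import Pool.Agent.H543R3.PC.D2core

/-!
# Completeness from a reduction
-/

namespace Pool.Agent.H543R3.PC

open Pool.Agent.NPC Pool.Agent.H628R3 Pool.Agent.H628R3.RO TopologicalSpace Topology
open H556R2 (IsSigma03 IsPi03 IsSigma04 Sigma04Complete)

theorem complete_of {Has : RO.Oracle → Prop} (hup : IsSigma04 {A : RO.Oracle | Has A})
    (B : List Bool → Bool) (f : (ℕ → Option ℕ) → GG)
    (hf : ∀ m, ∃ N, ∀ ev ev' : ℕ → Option ℕ, (∀ s < N, ev s = ev' s) → Agr m (f ev) (f ev'))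
    (hpos : ∀ ev, (inf ev).Finite → Has (mk B (f ev)))
    (hneg : ∀ ev, (inf ev).Infinite → ¬ Has (mk B (f ev))) :
    Sigma04Complete {A : RO.Oracle | Has A} :=
  complete_of_core (fun hX _ hD => exists_ev hX hD) hup B f hf hpos hneg

end Pool.Agent.H543R3.PC
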