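import Pool.Agent.H628R3.RO.A3

/-!
# Oracles with a guide: blocks, admissible extensions, decision trees
-/

namespace Pool.Agent.H543R3.PC

open Pool.Agent.NPC Pool.Agent.H628R3.RO

/-! ### The oracle: a fixed part `B` (the guide) and a variable part `G` (the blocks) -/

/-- The variable part of the oracle: `G j y` is the bit `y` of column `j`. -/
abbrev GG : Type := ℕ → List Bool → Bool

/-- The string of `n` zeros. -/
def zer (n : ℕ) : List Bool := List.replicate n false

/-- The string of `n` ones. -/
def one (n : ℕ) : List Bool := List.replicate n true

/-- Remove the padding `0…01` in front of a string. -/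
def unp (v : List Bool) : List Bool := (v.dropWhile (fun b => !b)).tail

/-- The column number and the string named by a padded address `0…01 1^j 0 y`. -/
def gad (v : List Bool) : ℕ × List Bool :=
  (((unp v).takeWhile id).length, ((unp v).dropWhile id).tail)

/-- Padding of a string to length `q`. -/
def pad (q : ℕ) (v : List Bool) : List Bool := List.replicate (q - (v.length + 1)) false ++ true :: v

/-- The payload of the address of bit `y` of column `j`. -/
def pay (j : ℕ) (y : List Bool) : List Bool := List.replicate j true ++ false :: y

/-- The oracle with guide `B` and blocks `G`. -/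
def mk (B : List Bool → Bool) (G : GG) : Oracle
  | [] => false
  | false :: v => B v
  | true :: v => G (gad v).1 (gad v).2

/-- `G` and `G'` agree on all positions of size less than `m`. -/
def Agr (m : ℕ) (G G' : GG) : Prop := ∀ j y, j + y.length < m → G' j y = G j y

/-- The guides agree on all strings of length at most `t`. -/
def AgB (t : ℕ) (B B' : List Bool → Bool) : Prop := ∀ v : List Bool, v.length ≤ t → B' v = B v

/-- `G` with everything from size `m` on removed. -/
def tr (m : ℕ) (G : GG) : GG := fun j y => decide (j + y.length < m) && G j y

/-! ### Blocks -/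

/-- Block `n` of column `j` is active. -/
def Act (G : GG) (j n : ℕ) : Prop := G j (zer n) = true

/-- `y` is a hit of block `n` of column `j`. -/
def Hit (G : GG) (j n : ℕ) (y : List Bool) : Prop := y.length = n ∧ y ≠ zer n ∧ G j y = true

/-- Block `n` of column `j` is empty (inactive). -/
def Inact (G : GG) (j n : ℕ) : Prop := ∀ y : List Bool, y.length = n → G j y = false

/-- Block `n` of column `j` is active and has exactly one hit. -/
def Legal (G : GG) (j n : ℕ) : Prop := Act G j n ∧ ∃ y, Hit G j n y ∧ ∀ y', Hit G j n y' → y' = y

/-- The hit of the block starts with `1` (for legal blocks). -/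
def HitT (G : GG) (j n : ℕ) : Prop := ∃ y, Hit G j n y ∧ y.head? = some true

/-- `G` where block `n` of column `j` is made active with exactly the hits in `C`. -/
def put (G : GG) (j n : ℕ) (C : List (List Bool)) : GG := fun j' y =>
  if j' = j ∧ y.length = n then decide (y = zer n) || decide (y ∈ C) else G j' y

/-- The admissible extensions for requirement `e`, if exactly the columns in `S` are believed to
be the infinite ones among the columns below `e`: from size `m` on, the blocks of the columns in
`S` are legal or empty, the blocks of the other columns below `e` are empty, and the other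
blocks are active or empty. -/
structure Leg (e : ℕ) (S : Finset ℕ) (m : ℕ) (G₀ G : GG) : Prop where
  agr : Agr m G₀ G
  inv : ∀ j n, m ≤ j + n → Act G j n ∨ Inact G j n
  leg : ∀ j ∈ S, ∀ n, m ≤ j + n → Legal G j n ∨ Inact G j n
  ina : ∀ j, j < e → j ∉ S → ∀ n, m ≤ j + n → Inact G j n

/-! ### Decision trees -/

/-- Decision trees asking for bits of `G`. -/
inductive DT (α : Type) : Type
  | leaf (a : α) : DT α
  | node (j : ℕ) (y : List Bool) (t₀ t₁ : DT α) : DT α

/-- The value computed by a decision tree. -/
def DT.eval {α : Type} : DT α → GG → α
  | .leaf a, _ => a
  | .node j y t₀ t₁, G => if G j y = true then t₁.eval G else t₀.eval G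

/-- The questions asked by a decision tree. -/
def DT.path {α : Type} : DT α → GG → List (ℕ × List Bool)
  | .leaf _, _ => []
  | .node j y t₀ t₁, G => (j, y) :: (if G j y = true then t₁.path G else t₀.path G)

/-- The depth of a decision tree. -/
def DT.depth {α : Type} : DT α → ℕ
  | .leaf _ => 0
  | .node _ _ t₀ t₁ => max t₀.depth t₁.depth + 1

/-- The maximal size of a question of a decision tree. -/
def DT.size {α : Type} : DT α → ℕ
  | .leaf _ => 0
  | .node j y t₀ t₁ => max (j + y.length) (max t₀.size t₁.size)

/-- `f` is computed by a decision tree of depth at most `d` with questions of size at most `s`. -/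
def Sh {α : Type} (f : GG → α) (d s : ℕ) : Prop :=
  ∃ t : DT α, (∀ G, t.eval G = f G) ∧ t.depth ≤ d ∧ t.size ≤ s

end Pool.Agent.H543R3.PC
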