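import Pool.Agent.H543R3.PC.Reqs

/-!
# The algorithm that follows the guide
-/

namespace Pool.Agent.H543R3.PC

open Pool.Agent.NPC Pool.Agent.H628R3.RO

/-- The next action of the algorithm following the guide, with constant `c`; `s = ⟨x, a⟩`, where
`a` are the answers received so far. With `n = |x| + |c|`, the first `n` rounds consist of `n + 2`
questions to the guide and one question to the blocks (the address spelled by the guide);
then `n + 2` questions to the guide give the output. -/
def gD (c s : List Bool) : List Bool :=
  if (((unpair s).1.length + c.length) * ((unpair s).1.length + c.length + 3) +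
      ((unpair s).1.length + c.length + 2)) ≤ (unpair s).2.length then
    true :: unp ((unpair s).2.drop ((unpair s).2.length - ((unpair s).1.length + c.length + 2)))
  else if (unpair s).2.length % ((unpair s).1.length + c.length + 3) =
      (unpair s).1.length + c.length + 2 then
    false :: true ::
      ((unpair s).2.drop ((unpair s).2.length - ((unpair s).1.length + c.length + 2)))
  else false :: false :: pairBits c s

open Polynomial in
/-- The algorithm following the guide. -/
noncomputable def gAlg (c : List Bool) (h : PolyTime (gD c)) : Alg where
  D := gD c
  poly := h
  p := (X + C c.length) * (X + C (c.length + 3)) + (X + C (c.length + 3))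

/-- The answers to the questions to the blocks among all answers. -/
def gans (n : ℕ) (a : List Bool) : List Bool :=
  (List.range n).filterMap (fun k => a[k * (n + 3) + (n + 2)]?)

/-- Follow the answers in a decision tree. -/
def DT.walk {α : Type} : DT α → List Bool → DT α
  | t, [] => t
  | .leaf a, _ :: _ => .leaf a
  | .node _ _ t₀ t₁, b :: g => if b = true then t₁.walk g else t₀.walk g

/-- The question at the root. -/
def DT.ask {α : Type} : DT α → ℕ × List Bool
  | .leaf _ => (0, [])
  | .node j y _ _ => (j, y)

/-- The output at the root. -/
def DT.res : DT (List Bool) → List Bool
  | .leaf a => a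
  | .node _ _ _ _ => []

/-- The advice of the guide for the decision tree `t` after the answers `a`. -/
def gbit (t : DT (List Bool)) (n : ℕ) (a : List Bool) : Bool :=
  if a.length < n * (n + 3) then
    (pad (n + 2) (pay (t.walk (gans n a)).ask.1 (t.walk (gans n a)).ask.2)).getD
      (a.length % (n + 3)) false
  else (pad (n + 2) (t.walk (gans n a)).res).getD (a.length - n * (n + 3)) false

end Pool.Agent.H543R3.PC
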