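import Pool.Agent.H543R3.PC.Reqs
import Pool.Agent.H543R3.PC.A1
import Pool.Agent.H543R3.PC.E1
import Pool.Agent.H543R3.PC.A2

/-!
# Task F1: the guard is shallow
-/

namespace Pool.Agent.H543R3.PC

open Pool.Agent.NPC Pool.Agent.H628R3.RO

theorem f1_agB_mp (S : Finset ℕ) (nH : ℕ) (κ : Kind) {B B' : List Bool → Bool} (G : GG)
    (z : List Bool) (h : AgB z.length B B') (hz : okZ S nH κ B G z) : okZ S nH κ B' G z := by
  have h1 : zT z ≤ z.length := by
    have h2 := zU_zR_len z
    have h3 := hz.grd
    rw [add_assoc] at h3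
    have h4 : zT z ≤ zR z := le_trans (Nat.le_add_right _ _) h3
    omega
  refine ⟨hz.kind, hz.sub, hz.low, hz.grd, ?_, hz.agr, hz.ina⟩
  intro G' hG' hbad
  refine hz.rob G' hG' ?_
  rw [← CBad_agB (req (zE z)) (zU z) (B := B) (B' := B') (G := G')]
  · exact hbad
  · intro v hv
    exact h v (hv.trans h1)

theorem okZ_agB (S : Finset ℕ) (nH : ℕ) (κ : Kind) {B B' : List Bool → Bool} (G : GG)
    (z : List Bool) (h : AgB z.length B B') : okZ S nH κ B' G z ↔ okZ S nH κ B G z :=
  ⟨f1_agB_mp S nH κ G z (fun v hv => (h v hv).symm), f1_agB_mp S nH κ G z h⟩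

/-- the positions of the activity bits -/
def f1_pos (e t : ℕ) : List (ℕ × List Bool) :=
  ((List.range e ×ˢ List.range (t + 1)).filter (fun q => decide (q.1 + q.2 ≤ t))).map
    (fun q => (q.1, zer q.2))

theorem f1_pos_length (e t : ℕ) : (f1_pos e t).length ≤ e * (t + 1) := by
  unfold f1_pos
  rw [List.length_map]
  refine (List.length_filter_le _ _).trans ?_
  rw [List.length_product, List.length_range, List.length_range]

theorem f1_pos_size (e t : ℕ) : ∀ q ∈ f1_pos e t, q.1 + q.2.length ≤ t := by
  intro q hq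
  unfold f1_pos at hq
  obtain ⟨⟨a, b⟩, hab, rfl⟩ := List.mem_map.1 hq
  have h := (List.mem_filter.1 hab).2
  simp only [decide_eq_true_eq] at h
  simpa [zer] using h

theorem f1_pos_mem (e t j n : ℕ) (hj : j < e) (hn : j + n ≤ t) : (j, zer n) ∈ f1_pos e t := by
  unfold f1_pos
  refine List.mem_map.2 ⟨(j, n), List.mem_filter.2 ⟨?_, ?_⟩, rfl⟩
  · rw [List.mem_product]
    exact ⟨List.mem_range.2 hj, List.mem_range.2 (by omega)⟩
  · simpa using hn

theorem okZ_sh (S : Finset ℕ) (nH : ℕ) (κ : Kind) (B : List Bool → Bool) (z : List Bool)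
    (hg : zT z + zE z * (zT z + 1) + 2 ^ (zm z + 2) ≤ zR z) :
    Sh (fun G => okZ S nH κ B G z) (zE z * (zT z + 1) + 2 ^ (zm z + 2)) (zR z) := by
  by_cases hfix : (req (zE z)).kind = κ ∧ (∀ i ∈ S, i < zE z) ∧ nH ≤ zm z ∧
      ∀ G', Leg (zE z) S (zm z) (tab (zF z)) G' → ¬ CBad (req (zE z)) B G' (zU z)
  · obtain ⟨h1, h2, h3, h4⟩ := hfix
    have hpow : zm z < 2 ^ (zm z + 2) :=
      lt_of_lt_of_le Nat.lt_two_pow_self (Nat.pow_le_pow_right (by norm_num) (by omega))
    have e1 : (fun G => okZ S nH κ B G z) = fun G =>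
        (Agr (zm z) (tab (zF z)) G ∧ (∀ j, j < zE z → j ∉ S → ∀ n, zm z ≤ j + n →
          j + n ≤ zT z → ¬ Act G j n)) := by
      funext G
      apply propext
      constructor
      · intro h
        exact ⟨h.agr, h.ina⟩
      · rintro ⟨h5, h6⟩
        exact ⟨h1, h2, h3, hg, h4, h5, h6⟩
    rw [e1]
    have hA : Sh (fun G => Agr (zm z) (tab (zF z)) G) (2 ^ (zm z + 2)) (zR z) := by
      rcases Nat.eq_zero_or_pos (zm z) with hm | hm
      · have e2 : (fun G => Agr (zm z) (tab (zF z)) G) = fun _ => True := by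
          funext G
          apply propext
          rw [hm]
          exact ⟨fun _ => trivial, fun _ j y h => absurd h (Nat.not_lt_zero _)⟩
        rw [e2]
        exact sh_const _ _ _
      · refine sh_mono (sh_full (s := zm z - 1) ?_) ?_ ?_
        · intro G G' h
          apply propext
          have hs : zm z - 1 + 1 = zm z := by omega
          rw [hs] at h
          constructor
          · intro h' j y hjy
            rw [← h j y hjy]
            exact h' j y hjy
          · intro h' j y hjy
            rw [h j y hjy]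
            exact h' j y hjy
        · exact Nat.pow_le_pow_right (by norm_num) (by omega)
        · omega
    have hI : Sh (fun G => ∀ j, j < zE z → j ∉ S → ∀ n, zm z ≤ j + n → j + n ≤ zT z →
        ¬ Act G j n) (zE z * (zT z + 1)) (zR z) := by
      refine sh_mono (sh_dep (f1_pos (zE z) (zT z)) (s := zT z) (f1_pos_size _ _) ?_)
        (f1_pos_length _ _) (by omega)
      intro G G' h
      apply propext
      have h5 : ∀ j n, j < zE z → j + n ≤ zT z → (Act G' j n ↔ Act G j n) := by
        intro j n hj hn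
        unfold Act
        rw [h _ (f1_pos_mem _ _ j n hj hn)]
      constructor
      · intro h' j hj hjS n hn1 hn2
        rw [← h5 j n hj hn2]
        exact h' j hj hjS n hn1 hn2
      · intro h' j hj hjS n hn1 hn2
        rw [h5 j n hj hn2]
        exact h' j hj hjS n hn1 hn2
    have hB := sh_bind (f := fun G => Agr (zm z) (tab (zF z)) G)
      (g := fun a G => (a ∧ (∀ j, j < zE z → j ∉ S → ∀ n, zm z ≤ j + n →
          j + n ≤ zT z → ¬ Act G j n))) hA (d' := zE z * (zT z + 1)) (by
        intro a
        by_cases ha : a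
        · have e3 : (fun G : GG => (a ∧ (∀ j, j < zE z → j ∉ S → ∀ n, zm z ≤ j + n →
              j + n ≤ zT z → ¬ Act G j n))) = fun G => (∀ j, j < zE z → j ∉ S →
              ∀ n, zm z ≤ j + n → j + n ≤ zT z → ¬ Act G j n) := by
            funext G
            exact propext ⟨fun h => h.2, fun h => ⟨ha, h⟩⟩
          rw [e3]
          exact hI
        · have e3 : (fun G : GG => (a ∧ (∀ j, j < zE z → j ∉ S → ∀ n, zm z ≤ j + n →
              j + n ≤ zT z → ¬ Act G j n))) = fun _ => False := by
            funext G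
            exact propext ⟨fun h => ha h.1, fun h => h.elim⟩
          rw [e3]
          exact sh_const _ _ _)
    exact sh_mono hB (by omega) le_rfl
  · have e1 : (fun G => okZ S nH κ B G z) = fun _ => False := by
      funext G
      apply propext
      refine ⟨fun h => hfix ⟨h.kind, h.sub, h.low, h.rob⟩, fun h => h.elim⟩
    rw [e1]
    exact sh_const _ _ _

end Pool.Agent.H543R3.PC
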