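import Pool.Agent.H543R3.PC.Reqs

/-! Stubs of A1 and E1 used in F1. -/

namespace Pool.Agent.H543R3.PC

open Pool.Agent.NPC Pool.Agent.H628R3.RO

theorem sh_const {α : Type} (a : α) (d s : ℕ) : Sh (fun _ => a) d s := sorry

theorem sh_mono {α : Type} {f : GG → α} {d d' s s' : ℕ} (h : Sh f d s) (hd : d ≤ d')
    (hs : s ≤ s') : Sh f d' s' := sorry

theorem sh_bind {α β : Type} {f : GG → α} {g : α → GG → β} {d d' s : ℕ} (h : Sh f d s)
    (h' : ∀ a, Sh (g a) d' s) : Sh (fun G => g (f G) G) (d + d') s := sorry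

theorem sh_dep {α : Type} {f : GG → α} (l : List (ℕ × List Bool)) {s : ℕ}
    (hl : ∀ q ∈ l, q.1 + q.2.length ≤ s)
    (hf : ∀ G G' : GG, (∀ q ∈ l, G' q.1 q.2 = G q.1 q.2) → f G' = f G) : Sh f l.length s := sorry

theorem sh_full {α : Type} {f : GG → α} {s : ℕ}
    (hf : ∀ G G' : GG, Agr (s + 1) G G' → f G' = f G) : Sh f (2 ^ (s + 2)) s := sorry

theorem CBad_agB (r : Req) (u : List Bool) {B B' : List Bool → Bool} {G : GG}
    (h : AgB ((cR r).eval u.length) B B') : CBad r B' G u ↔ CBad r B G u := sorry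

end Pool.Agent.H543R3.PC
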