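import Pool.Agent.H543R3.PC.A1
import Pool.Agent.H543R3.PC.A2
import Pool.Agent.H543R3.PC.A3
import Pool.Agent.H543R3.PC.F1

/-!
# The guarded verifiers and proof systems are shallow
-/

namespace Pool.Agent.H543R3.PC

open Pool.Agent.NPC Pool.Agent.H628R3.RO

/-- Two shallow functions give a shallow function. -/
theorem f2_pair {α β γ : Type} {f : GG → α} {g : GG → β} {d d' s : ℕ} (h : Sh f d s)
    (h' : Sh g d' s) (F : α → β → γ) : Sh (fun G => F (f G) (g G)) (d + d') s :=
  sh_bind (g := fun a G => F a (g G)) h (fun a => sh_map h' (F a))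

/-- A run with bounded certificate. -/
theorem f2_acc {M : Alg} {p c : Polynomial ℕ} (hM : CostP M p c) (B : List Bool → Bool)
    (u w : List Bool) : Sh (fun G => Acc M p (mk B G) u w) (c.eval u.length) (c.eval u.length) := by
  by_cases hw : w.length ≤ p.eval u.length
  · have h1 := sh_map ((hM u w hw).1 B) (fun o => w.length ≤ p.eval u.length ∧ o = some [true])
    exact h1
  · have h2 : (fun G => Acc M p (mk B G) u w) = fun _ => False := by
      funext G
      simp only [Acc, hw, false_and]
    rw [h2]
    exact sh_const _ _ _

theorem f2_acc_agB {M : Alg} {p c : Polynomial ℕ} (hM : CostP M p c) {B B' : List Bool → Bool}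
    (G : GG) (u w : List Bool) (h : AgB (c.eval u.length) B B') :
    Acc M p (mk B' G) u w ↔ Acc M p (mk B G) u w := by
  unfold Acc
  refine and_congr_right fun hw => ?_
  rw [(hM u w hw).2 B B' G h]

theorem f2_zT {z : List Bool} (hg : zT z + zE z * (zT z + 1) + 2 ^ (zm z + 2) ≤ zR z) :
    zT z ≤ zR z := by
  have := Nat.zero_le (zE z * (zT z + 1))
  have := Nat.zero_le (2 ^ (zm z + 2))
  omega

theorem f2_zR (z : List Bool) : zR z ≤ z.length := by
  have := zU_zR_len z
  omega

theorem f2_fst (x : List Bool) : (unpair x).1.length ≤ x.length := by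
  have := unpair_len x
  omega

theorem semG_ok (S : Finset ℕ) (nH : ℕ) (κ : Kind) (i dflt : Bool) (B : List Bool → Bool)
    (x : List Bool) :
    Sh (semG S nH κ i dflt B x) (x.length + 2) (x.length + 2) ∧
    (∀ G, (semG S nH κ i dflt B x G).length ≤ x.length + 2) ∧
    ∀ B', AgB (x.length + 2) B B' → semG S nH κ i dflt B' x = semG S nH κ i dflt B x := by
  classical
  have hzx := f2_fst x
  have hRz := f2_zR (unpair x).1
  have hc := cR_spec (req (zE (unpair x).1))
  have hr0 := hc.1
  have hr1 := hc.2.1
  refine ⟨?_, ?_, ?_⟩
  · by_cases hg : zT (unpair x).1 + zE (unpair x).1 * (zT (unpair x).1 + 1) +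
        2 ^ (zm (unpair x).1 + 2) ≤ zR (unpair x).1
    · have hT := f2_zT hg
      have h1 := okZ_sh S nH κ B (unpair x).1 hg
      have h2 : Sh (fun G => if i = true then Acc (req (zE (unpair x).1)).M₁
          (req (zE (unpair x).1)).p₁ (mk B G) (zU (unpair x).1) (unpair x).2
          else Acc (req (zE (unpair x).1)).M₀ (req (zE (unpair x).1)).p₀ (mk B G)
          (zU (unpair x).1) (unpair x).2) (zT (unpair x).1) (zR (unpair x).1) := by
        by_cases hi : i = true
        · simp only [hi, if_true]
          exact sh_mono (f2_acc hr1 B _ _) le_rfl hT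
        · simp only [hi]
          exact sh_mono (f2_acc hr0 B _ _) le_rfl hT
      have h3 := f2_pair h1 h2 (fun a b : Prop =>
        if (a ∧ b) ∨ (¬ a ∧ dflt = true ∧ (unpair x).2 = []) then [true] else ([] : List Bool))
      have h4 : semG S nH κ i dflt B x = fun G => (fun a b : Prop =>
          if (a ∧ b) ∨ (¬ a ∧ dflt = true ∧ (unpair x).2 = []) then [true] else ([] : List Bool))
          (okZ S nH κ B G (unpair x).1) (if i = true then Acc (req (zE (unpair x).1)).M₁
          (req (zE (unpair x).1)).p₁ (mk B G) (zU (unpair x).1) (unpair x).2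
          else Acc (req (zE (unpair x).1)).M₀ (req (zE (unpair x).1)).p₀ (mk B G)
          (zU (unpair x).1) (unpair x).2) := by
        funext G
        unfold semG
        congr
      rw [h4]
      refine sh_mono h3 ?_ ?_
      · omega
      · omega
    · have h4 : semG S nH κ i dflt B x =
          fun _ => if dflt = true ∧ (unpair x).2 = [] then [true] else [] := by
        funext G
        have hok : ¬ okZ S nH κ B G (unpair x).1 := fun h => hg h.grd
        unfold semG
        simp only [hok, false_and, false_or, not_false_eq_true, true_and]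
      rw [h4]
      exact sh_const _ _ _
  · intro G
    unfold semG
    split_ifs <;> simp
  · intro B' hB
    funext G
    have h1 : okZ S nH κ B' G (unpair x).1 ↔ okZ S nH κ B G (unpair x).1 :=
      okZ_agB S nH κ G _ (fun v hv => hB v (by omega))
    by_cases hok : okZ S nH κ B G (unpair x).1
    · have hok' := h1.2 hok
      have hT := f2_zT hok.grd
      have hBT : AgB ((cR (req (zE (unpair x).1))).eval (zU (unpair x).1).length) B B' := by
        intro v hv
        have hv' : v.length ≤ zT (unpair x).1 := hv
        exact hB v (by omega)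
      have h2 := f2_acc_agB hr0 G (zU (unpair x).1) (unpair x).2 hBT
      have h3 := f2_acc_agB hr1 G (zU (unpair x).1) (unpair x).2 hBT
      unfold semG
      simp only [hok, hok', h2, h3]
    · have hok' : ¬ okZ S nH κ B' G (unpair x).1 := fun h => hok (h1.1 h)
      unfold semG
      simp only [hok, hok', false_and]

theorem semP_ok (S : Finset ℕ) (nH : ℕ) (κ : Kind) (d : List Bool) (B : List Bool → Bool)
    (x : List Bool) :
    Sh (semP S nH κ d B x) (x.length + (d.length + 1)) (x.length + (d.length + 1)) ∧
    (∀ G, (semP S nH κ d B x G).length ≤ x.length + (d.length + 1)) ∧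
    ∀ B', AgB (x.length + (d.length + 1)) B B' → semP S nH κ d B' x = semP S nH κ d B x := by
  classical
  have hRz := f2_zR x
  have hc := (cR_spec (req (zE x))).2.2.1 (zU x)
  refine ⟨?_, ?_, ?_⟩
  · by_cases hg : zT x + zE x * (zT x + 1) + 2 ^ (zm x + 2) ≤ zR x
    · have hT := f2_zT hg
      have h1 := okZ_sh S nH κ B x hg
      have h2 : Sh (fun G => (req (zE x)).M₀.out (mk B G) (zU x)) (zT x) (zR x) :=
        sh_mono (hc.1 B) le_rfl hT
      have h3 := f2_pair h1 h2 (fun (a : Prop) b => if a then b.getD d else d)
      refine sh_mono h3 ?_ ?_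
      · omega
      · omega
    · have h4 : semP S nH κ d B x = fun _ => d := by
        funext G
        have hok : ¬ okZ S nH κ B G x := fun h => hg h.grd
        unfold semP
        simp only [hok, if_false]
      rw [h4]
      exact sh_const _ _ _
  · intro G
    unfold semP
    split_ifs with hok
    · have hT := f2_zT hok.grd
      rcases hy : (req (zE x)).M₀.out (mk B G) (zU x) with _ | y
      · simp only [Option.getD_none]
        omega
      · simp only [Option.getD_some]
        have hl := hc.2.2 _ _ hy
        have hl' : y.length ≤ zT x := hl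
        omega
    · omega
  · intro B' hB
    funext G
    have h1 : okZ S nH κ B' G x ↔ okZ S nH κ B G x :=
      okZ_agB S nH κ G _ (fun v hv => hB v (by omega))
    by_cases hok : okZ S nH κ B G x
    · have hok' := h1.2 hok
      have hT := f2_zT hok.grd
      have hBT : AgB ((cR (req (zE x))).eval (zU x).length) B B' := by
        intro v hv
        have hv' : v.length ≤ zT x := hv
        exact hB v (by omega)
      have h2 := hc.2.1 B B' G hBT
      unfold semP
      simp only [hok, hok', h2]
    · have hok' : ¬ okZ S nH κ B' G x := fun h => hok (h1.1 h)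
      unfold semP
      simp only [hok, hok', if_false]

end Pool.Agent.H543R3.PC
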