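import Pool.Agent.H543R3.PC.A1
import Pool.Agent.H543R3.PC.A2
import Pool.Agent.H543R3.PC.A3
import Pool.Agent.H543R3.PC.E1

/-!
# F3: the verifier of the canonical set and the brute-force proof systems are shallow
-/

namespace Pool.Agent.H543R3.PC

open Pool.Agent.NPC Pool.Agent.H628R3.RO

theorem f3_agB_mono {t t' : ℕ} {B B' : List Bool → Bool} (h : AgB t B B') (ht : t' ≤ t) :
    AgB t' B B' := fun v hv => h v (hv.trans ht)

theorem semC_ok (B : List Bool → Bool) (x : List Bool) :
    Sh (semC B x) (x.length + 2) (x.length + 2) ∧
    (∀ G, (semC B x G).length ≤ x.length + 2) ∧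
    ∀ B', AgB (x.length + 2) B B' → semC B' x = semC B x := by
  classical
  have hx := unpair_len x
  have hz := zU_zR_len (unpair x).1
  have hlen : ∀ G, (semC B x G).length ≤ x.length + 2 := by
    intro G
    unfold semC
    split_ifs
    · simp
    · simp
  by_cases hg : (cA (decA (zK (unpair x).1))).eval (zU (unpair x).1).length ≤ zR (unpair x).1 ∧
      (unpair x).2.length ≤ (decA (zK (unpair x).1)).2.eval (zU (unpair x).1).length
  · obtain ⟨hg1, hg2⟩ := hg
    obtain ⟨hP1, hP2⟩ := (cA_spec (decA (zK (unpair x).1))).1 (zU (unpair x).1) (unpair x).2 hg2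
    have hle : (cA (decA (zK (unpair x).1))).eval (zU (unpair x).1).length ≤ x.length + 2 := by
      omega
    have hf : ∀ B', semC B' x = fun G =>
        if (decA (zK (unpair x).1)).1.out (mk B' G) (pairBits (zU (unpair x).1) (unpair x).2) =
          some [true] then [true] else [] := by
      intro B'
      funext G
      unfold semC
      have e : canAcc B' G (unpair x).1 (unpair x).2 ↔
          (decA (zK (unpair x).1)).1.out (mk B' G) (pairBits (zU (unpair x).1) (unpair x).2) =
            some [true] :=
        ⟨fun h => h.2.2, fun h => ⟨hg1, hg2, h⟩⟩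
      simp only [e]
    refine ⟨?_, hlen, ?_⟩
    · rw [hf B]
      exact sh_mono (sh_map (hP1 B) (fun o => if o = some [true] then [true] else [])) hle hle
    · intro B' hB
      rw [hf B, hf B']
      funext G
      rw [hP2 B B' G (f3_agB_mono hB hle)]
  · have hf : ∀ B', semC B' x = fun _ => [] := by
      intro B'
      funext G
      unfold semC
      rw [if_neg]
      intro h
      exact hg ⟨h.1, h.2.1⟩
    refine ⟨?_, hlen, ?_⟩
    · rw [hf B]
      exact sh_const _ _ _
    · intro B' _
      rw [hf B, hf B']

theorem semB_ok (b : Bool) (d : List Bool) (B : List Bool → Bool) (x : List Bool) :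
    Sh (semB b d B x) (x.length + (d.length + 1)) (x.length + (d.length + 1)) ∧
    (∀ G, (semB b d B x G).length ≤ x.length + (d.length + 1)) ∧
    ∀ B', AgB (x.length + (d.length + 1)) B B' → semB b d B' x = semB b d B x := by
  classical
  have hx := unpair_len x
  have hlen : ∀ G, (semB b d B x G).length ≤ x.length + (d.length + 1) := by
    intro G
    unfold semB
    split_ifs <;> omega
  by_cases hg : 2 ^ ((unpair x).1.length + 2) ≤ (unpair x).2.length
  · have hf : ∀ B', semB b d B' x = fun G =>
        (fun p : Prop => if (p ↔ b = true) then (unpair x).1 else d) ((unpair x).1 ∈ canNP B' G) := by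
      intro B'
      funext G
      unfold semB
      simp only [hg, true_and]
    refine ⟨?_, hlen, ?_⟩
    · rw [hf B]
      have h1 : Sh (fun G => (unpair x).1 ∈ canNP B G) (2 ^ ((unpair x).1.length + 2))
          (unpair x).1.length :=
        sh_full (fun G G' h => propext (canNP_agr h))
      exact sh_mono (sh_map h1 (fun p : Prop => if (p ↔ b = true) then (unpair x).1 else d))
        (by omega) (by omega)
    · intro B' hB
      rw [hf B, hf B']
      funext G
      have h2 : ((unpair x).1 ∈ canNP B' G) = ((unpair x).1 ∈ canNP B G) :=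
        propext (canNP_agB (f3_agB_mono hB (by omega)))
      rw [h2]
  · have hf : ∀ B', semB b d B' x = fun _ => d := by
      intro B'
      funext G
      unfold semB
      rw [if_neg]
      intro h
      exact hg h.1
    refine ⟨?_, hlen, ?_⟩
    · rw [hf B]
      exact sh_const _ _ _
    · intro B' _
      rw [hf B, hf B']

end Pool.Agent.H543R3.PC
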