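import Pool.Agent.H543R3.PC.Reqs
import Pool.Agent.H628R3.RO.A1

/-!
# F4: the tasks for the hard languages are shallow
-/

namespace Pool.Agent.H543R3.PC

open Pool.Agent.NPC Pool.Agent.H628R3.RO

theorem f4_ustep_len (s : List Bool × List Bool × Bool) :
    (ustep s).1.length + (ustep s).2.1.length ≤ s.1.length + s.2.1.length := by
  obtain ⟨a, l, b⟩ := s
  unfold ustep
  cases b with
  | true => simp
  | false =>
    match l with
    | [] => simp
    | true :: [] => simp
    | true :: c :: l' => simp; omega
    | false :: l' => simp

theorem f4_unpair_len (y : List Bool) : (unpair y).1.length + (unpair y).2.length ≤ y.length := by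
  have h : ∀ (k : ℕ) (s : List Bool × List Bool × Bool),
      (ustep^[k] s).1.length + (ustep^[k] s).2.1.length ≤ s.1.length + s.2.1.length := by
    intro k
    induction k with
    | zero => intro s; simp
    | succ k ih =>
      intro s
      rw [Function.iterate_succ_apply]
      exact (ih (ustep s)).trans (f4_ustep_len s)
  have h2 := h y.length ([], y, false)
  simp only [List.length_nil, zero_add] at h2
  unfold unpair
  rw [List.length_reverse]
  exact h2

theorem f4_uC_inj {j n j' n' : ℕ} (h : uC j n = uC j' n') : j = j' ∧ n = n' := by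
  have h2 := congrArg unpair h
  unfold uC at h2
  rw [unpair_pairBits, unpair_pairBits, Prod.mk.injEq] at h2
  have h3 := congrArg List.length h2.1
  have h4 := congrArg List.length h2.2
  simp only [one, List.length_replicate] at h3 h4
  exact ⟨h3, h4⟩

theorem f4_uC_len (j n : ℕ) : (uC j n).length = 2 * j + 1 + n := by
  unfold uC
  rw [length_pairBits]
  simp [one]

/-- A function depending only on the positions in a list. -/
theorem f4_sh_dep {α : Type} : ∀ (l : List (ℕ × List Bool)) {f : GG → α} {s : ℕ},
    (∀ q ∈ l, q.1 + q.2.length ≤ s) →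
    (∀ G G' : GG, (∀ q ∈ l, G' q.1 q.2 = G q.1 q.2) → f G' = f G) → Sh f l.length s := by
  classical
  intro l
  induction l with
  | nil =>
    intro f s _ hf
    refine ⟨.leaf (f fun _ _ => false), fun G => ?_, le_refl _, Nat.zero_le _⟩
    exact hf _ _ (fun q hq => absurd hq List.not_mem_nil)
  | cons q l ih =>
    intro f s hl hf
    have key : ∀ b : Bool, Sh (fun G : GG => f fun j y => if (j, y) = q then b else G j y)
        l.length s := by
      intro b
      refine ih (fun q' hq' => hl q' (List.mem_cons_of_mem _ hq')) ?_
      intro G G' h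
      apply hf
      intro q' hq'
      rcases List.mem_cons.1 hq' with rfl | hq'
      · simp
      · by_cases hq2 : (q'.1, q'.2) = q
        · simp [hq2]
        · simp only [hq2, if_false]
          exact h q' hq'
    obtain ⟨t₀, ht₀, hd₀, hs₀⟩ := key false
    obtain ⟨t₁, ht₁, hd₁, hs₁⟩ := key true
    refine ⟨.node q.1 q.2 t₀ t₁, fun G => ?_, ?_, ?_⟩
    · have e : ∀ b, G q.1 q.2 = b → (fun j y => if (j, y) = q then b else G j y) = G := by
        intro b hb
        funext j y
        by_cases hq : (j, y) = q
        · subst hq
          simp only [if_true]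
          exact hb.symm
        · simp only [hq, if_false]
      by_cases hG : G q.1 q.2 = true
      · simp only [DT.eval, hG, if_true, ht₁]
        rw [e true hG]
      · have hG' : G q.1 q.2 = false := by simpa using hG
        simp only [DT.eval, hG', ht₀]
        rw [e false hG']
        simp
    · simp only [DT.depth, List.length_cons]
      omega
    · simp only [DT.size]
      have := hl q List.mem_cons_self
      omega

theorem f4_sh_mono {α : Type} {f : GG → α} {d d' s s' : ℕ} (h : Sh f d s) (hd : d ≤ d')
    (hs : s ≤ s') : Sh f d' s' := by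
  obtain ⟨t, h1, h2, h3⟩ := h
  exact ⟨t, h1, h2.trans hd, h3.trans hs⟩

theorem f4_if {α : Type} {P Q : Prop} {iP : Decidable P} {iQ : Decidable Q} {a b : α}
    (h : P ↔ Q) : @ite α P iP a b = @ite α Q iQ a b := by
  by_cases hp : P
  · rw [if_pos hp, if_pos (h.1 hp)]
  · rw [if_neg hp, if_neg (fun hq => hp (h.2 hq))]

/-- functions depending on two positions -/
theorem f4_two {α : Type} {f : GG → α} {D : ℕ} (j : ℕ) (y y' : List Bool) (hD : 2 ≤ D)
    (h1 : j + y.length ≤ D) (h2 : j + y'.length ≤ D)
    (hf : ∀ G G' : GG, G' j y = G j y → G' j y' = G j y' → f G' = f G) : Sh f D D := by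
  refine f4_sh_mono (f4_sh_dep [(j, y), (j, y')] (s := D) ?_ ?_) hD le_rfl
  · intro q hq
    simp only [List.mem_cons, List.not_mem_nil, or_false] at hq
    rcases hq with rfl | rfl
    · exact h1
    · exact h2
  · intro G G' h
    exact hf G G' (h (j, y) (by simp)) (h (j, y') (by simp))

theorem semL_ok (j N : ℕ) (b : Bool) (x : List Bool) :
    Sh (semL j N b x) (x.length + (j + 2)) (x.length + (j + 2)) ∧
    ∀ G, (semL j N b x G).length ≤ x.length + (j + 2) := by
  have hx := f4_unpair_len x
  refine ⟨?_, ?_⟩
  · refine f4_two j (zer (unpair x).1.length) (unpair x).2 (by omega) ?_ (by omega) ?_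
    · simp only [zer, List.length_replicate]; omega
    · intro G G' h1 h2
      unfold semL
      refine f4_if ?_
      simp only [Act, Hit, h1, h2]
  · intro G
    unfold semL
    split_ifs
    · simp only [List.length_cons, List.length_nil]; omega
    · simp only [List.length_nil]; omega

theorem semS_ok (j N : ℕ) (x : List Bool) :
    Sh (semS j N x) (x.length + (j + 2)) (x.length + (j + 2)) ∧
    ∀ G, (semS j N x G).length ≤ x.length + (j + 2) := by
  have hx := f4_unpair_len x
  refine ⟨?_, ?_⟩
  · refine f4_two j (zer (unpair x).1.length) (unpair x).2 (by omega) ?_ (by omega) ?_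
    · simp only [zer, List.length_replicate]; omega
    · intro G G' h1 h2
      unfold semS
      refine f4_if ?_
      simp only [Act, Hit, h1, h2]
  · intro G
    unfold semS
    split_ifs
    · simp only [List.length_cons, List.length_nil]; omega
    · simp only [List.length_nil]; omega

theorem semU_ok (x : List Bool) :
    Sh (semU x) (x.length + 2) (x.length + 2) ∧ ∀ G, (semU x G).length ≤ x.length + 2 := by
  have hx := f4_unpair_len x
  have hx2 := f4_unpair_len (unpair x).2
  refine ⟨?_, ?_⟩
  · by_cases hu : ∃ j n, (unpair x).1 = uC j n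
    · obtain ⟨j, n, hu⟩ := hu
      have hl := congrArg List.length hu
      rw [f4_uC_len] at hl
      refine f4_two j (unpair (unpair x).2).1 (unpair (unpair x).2).2 (by omega) (by omega)
        (by omega) ?_
      intro G G' h1 h2
      have key : ∀ G : GG, (∃ j n, (unpair x).1 = uC j n ∧ Hit G j n (unpair (unpair x).2).1 ∧
          Hit G j n (unpair (unpair x).2).2 ∧
          (unpair (unpair x).2).1 ≠ (unpair (unpair x).2).2) ↔
          (Hit G j n (unpair (unpair x).2).1 ∧
          Hit G j n (unpair (unpair x).2).2 ∧
          (unpair (unpair x).2).1 ≠ (unpair (unpair x).2).2) := by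
        intro G
        constructor
        · rintro ⟨j', n', h, h'⟩
          obtain ⟨rfl, rfl⟩ := f4_uC_inj (hu.symm.trans h)
          exact h'
        · intro h
          exact ⟨j, n, hu, h⟩
      unfold semU
      refine f4_if ?_
      rw [key, key]
      simp only [Hit, h1, h2]
    · have hno : ∀ G : GG, semU x G = [] := by
        intro G
        unfold semU
        rw [if_neg]
        rintro ⟨j, n, h, _⟩
        exact hu ⟨j, n, h⟩
      refine ⟨.leaf [], fun G => (hno G).symm, Nat.zero_le _, Nat.zero_le _⟩
  · intro G
    unfold semU
    split_ifs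
    · simp only [List.length_cons, List.length_nil]; omega
    · simp only [List.length_nil]; omega

theorem semU'_ok (x : List Bool) :
    Sh (semU' x) (x.length + 2) (x.length + 2) ∧ ∀ G, (semU' x G).length ≤ x.length + 2 := by
  have hx := f4_unpair_len x
  refine ⟨?_, ?_⟩
  · by_cases hu : ∃ j n, (unpair x).1 = uC j n
    · obtain ⟨j, n, hu⟩ := hu
      have hl := congrArg List.length hu
      rw [f4_uC_len] at hl
      refine f4_two j (zer n) (unpair x).2 (by omega) ?_ (by omega) ?_
      · simp only [zer, List.length_replicate]; omega
      intro G G' h1 h2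
      have key : ∀ G : GG, ((∃ j n, (unpair x).1 = uC j n ∧ (Hit G j n (unpair x).2 ∨
          (¬ Act G j n ∧ (unpair x).2 = []))) ∨
          ((¬ ∃ j n, (unpair x).1 = uC j n) ∧ (unpair x).2 = [])) ↔
          (Hit G j n (unpair x).2 ∨ (¬ Act G j n ∧ (unpair x).2 = [])) := by
        intro G
        constructor
        · rintro (⟨j', n', h, h'⟩ | ⟨h, _⟩)
          · obtain ⟨rfl, rfl⟩ := f4_uC_inj (hu.symm.trans h)
            exact h'
          · exact absurd ⟨j, n, hu⟩ h
        · intro h
          exact Or.inl ⟨j, n, hu, h⟩
      unfold semU'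
      refine f4_if ?_
      rw [key, key]
      simp only [Hit, Act, h1, h2]
    · refine f4_two 0 [] [] (by omega) (by simp) (by simp) ?_
      intro G G' _ _
      unfold semU'
      refine f4_if ?_
      constructor
      · rintro (⟨j', n', h, _⟩ | h)
        · exact absurd ⟨j', n', h⟩ hu
        · exact Or.inr h
      · rintro (⟨j', n', h, _⟩ | h)
        · exact absurd ⟨j', n', h⟩ hu
        · exact Or.inr h
  · intro G
    unfold semU'
    split_ifs
    · simp only [List.length_cons, List.length_nil]; omega
    · simp only [List.length_nil]; omega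

end Pool.Agent.H543R3.PC
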