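import Pool.Agent.H543R3.PC.DefsB
import Pool.Agent.H543R3.PC.B3
import Pool.Agent.H543R3.PC.F2
import Pool.Agent.H543R3.PC.F3
import Pool.Agent.H543R3.PC.F4

/-!
# F5: there are countably many tasks; the guide exists

(When B3, F2, F3, F4 are finished: replace the import of `F5Dep` by
`import Pool.Agent.H543R3.PC.B3`, `F2`, `F3`, `F4`.)
-/

namespace Pool.Agent.H543R3.PC

open Pool.Agent.NPC Pool.Agent.H628R3.RO

/-- An injection of the tasks into a countable type. -/
def f5_enc : Task → ℕ × Finset ℕ × ℕ × Kind × Bool × Bool × List Bool × ℕ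
  | .gV S nH κ i dflt => (0, S, nH, κ, i, dflt, [], 0)
  | .gP S nH κ d => (1, S, nH, κ, false, false, d, 0)
  | .cV => (2, ∅, 0, .up, false, false, [], 0)
  | .bP b d => (3, ∅, 0, .up, b, false, d, 0)
  | .lV j N b => (4, ∅, j, .up, b, false, [], N)
  | .sV j N => (5, ∅, j, .up, false, false, [], N)
  | .uV => (6, ∅, 0, .up, false, false, [], 0)
  | .uV' => (7, ∅, 0, .up, false, false, [], 0)

theorem f5_enc_injective : Function.Injective f5_enc := by
  intro T T' h
  cases T <;> cases T' <;> simp_all [f5_enc]

theorem countable_task : Countable Task := f5_enc_injective.countable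

theorem exists_guide : ∃ B, GuideP B := by
  have : Countable Task := countable_task
  have : Nonempty Task := ⟨.cV⟩
  refine guide_exists (τ := Task) sem kap ?_ ?_ ?_
  · intro T B B' x h
    cases T with
    | gV S nH κ i dflt => exact (semG_ok S nH κ i dflt B x).2.2 B' h
    | gP S nH κ d => exact (semP_ok S nH κ d B x).2.2 B' h
    | cV => exact (semC_ok B x).2.2 B' h
    | bP b d => exact (semB_ok b d B x).2.2 B' h
    | lV j N b => rfl
    | sV j N => rfl
    | uV => rfl
    | uV' => rfl
  · intro T B x
    cases T with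
    | gV S nH κ i dflt => exact (semG_ok S nH κ i dflt B x).1
    | gP S nH κ d => exact (semP_ok S nH κ d B x).1
    | cV => exact (semC_ok B x).1
    | bP b d => exact (semB_ok b d B x).1
    | lV j N b => exact (semL_ok j N b x).1
    | sV j N => exact (semS_ok j N x).1
    | uV => exact (semU_ok x).1
    | uV' => exact (semU'_ok x).1
  · intro T B x G
    cases T with
    | gV S nH κ i dflt => exact (semG_ok S nH κ i dflt B x).2.1 G
    | gP S nH κ d => exact (semP_ok S nH κ d B x).2.1 G
    | cV => exact (semC_ok B x).2.1 G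
    | bP b d => exact (semB_ok b d B x).2.1 G
    | lV j N b => exact (semL_ok j N b x).2 G
    | sV j N => exact (semS_ok j N x).2 G
    | uV => exact (semU_ok x).2 G
    | uV' => exact (semU'_ok x).2 G

end Pool.Agent.H543R3.PC
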