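import Pool.Agent.H543R3.PC.DefsB

/-!
# Stubs of unfinished tasks used in F5 (to be replaced by the files B3, F2, F3, F4)
-/

namespace Pool.Agent.H543R3.PC

open Pool.Agent.NPC Pool.Agent.H628R3.RO

theorem guide_exists {τ : Type} [Countable τ] [Nonempty τ]
    (f : τ → (List Bool → Bool) → List Bool → GG → List Bool) (κ : τ → ℕ)
    (hloc : ∀ T B B' x, AgB (x.length + κ T) B B' → f T B' x = f T B x)
    (hsh : ∀ T B x, Sh (f T B x) (x.length + κ T) (x.length + κ T))
    (hlen : ∀ T B x G, (f T B x G).length ≤ x.length + κ T) :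
    ∃ B : List Bool → Bool, ∀ T : τ, ∃ M : Alg, ∀ G x, M.out (mk B G) x = some (f T B x G) :=
  sorry

theorem semG_ok (S : Finset ℕ) (nH : ℕ) (κ : Kind) (i dflt : Bool) (B : List Bool → Bool)
    (x : List Bool) :
    Sh (semG S nH κ i dflt B x) (x.length + 2) (x.length + 2) ∧
    (∀ G, (semG S nH κ i dflt B x G).length ≤ x.length + 2) ∧
    ∀ B', AgB (x.length + 2) B B' → semG S nH κ i dflt B' x = semG S nH κ i dflt B x := sorry

theorem semP_ok (S : Finset ℕ) (nH : ℕ) (κ : Kind) (d : List Bool) (B : List Bool → Bool)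
    (x : List Bool) :
    Sh (semP S nH κ d B x) (x.length + (d.length + 1)) (x.length + (d.length + 1)) ∧
    (∀ G, (semP S nH κ d B x G).length ≤ x.length + (d.length + 1)) ∧
    ∀ B', AgB (x.length + (d.length + 1)) B B' → semP S nH κ d B' x = semP S nH κ d B x := sorry

theorem semC_ok (B : List Bool → Bool) (x : List Bool) :
    Sh (semC B x) (x.length + 2) (x.length + 2) ∧
    (∀ G, (semC B x G).length ≤ x.length + 2) ∧
    ∀ B', AgB (x.length + 2) B B' → semC B' x = semC B x := sorry

theorem semB_ok (b : Bool) (d : List Bool) (B : List Bool → Bool) (x : List Bool) :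
    Sh (semB b d B x) (x.length + (d.length + 1)) (x.length + (d.length + 1)) ∧
    (∀ G, (semB b d B x G).length ≤ x.length + (d.length + 1)) ∧
    ∀ B', AgB (x.length + (d.length + 1)) B B' → semB b d B' x = semB b d B x := sorry

theorem semL_ok (j N : ℕ) (b : Bool) (x : List Bool) :
    Sh (semL j N b x) (x.length + (j + 2)) (x.length + (j + 2)) ∧
    ∀ G, (semL j N b x G).length ≤ x.length + (j + 2) := sorry

theorem semS_ok (j N : ℕ) (x : List Bool) :
    Sh (semS j N x) (x.length + (j + 2)) (x.length + (j + 2)) ∧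
    ∀ G, (semS j N x G).length ≤ x.length + (j + 2) := sorry

theorem semU_ok (x : List Bool) :
    Sh (semU x) (x.length + 2) (x.length + 2) ∧ ∀ G, (semU x G).length ≤ x.length + 2 := sorry

theorem semU'_ok (x : List Bool) :
    Sh (semU' x) (x.length + 2) (x.length + 2) ∧ ∀ G, (semU' x G).length ≤ x.length + 2 := sorry

end Pool.Agent.H543R3.PC
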