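import Pool.Agent.H543R3.PC.DefsP

/-!
# N0: admissible extensions by one block, the core of the negative situation
-/

namespace Pool.Agent.H543R3.PC

open Pool.Agent.NPC Pool.Agent.H628R3.RO

section
variable {B : List Bool → Bool} {G : GG}

theorem n0_put_at {G : GG} {j n : ℕ} {C : List (List Bool)} {y : List Bool} (hy : y.length = n) :
    put G j n C j y = (decide (y = zer n) || decide (y ∈ C)) := by
  simp [put, hy]

theorem n0_put_ne {G : GG} {j n j' : ℕ} {C : List (List Bool)} {y : List Bool}
    (h : ¬ (j' = j ∧ y.length = n)) : put G j n C j' y = G j' y := by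
  simp only [put, if_neg h]

theorem n0_zer_length (n : ℕ) : (zer n).length = n := by simp [zer]

/-- the blocks of an extension, if they agree with the blocks of `G` or are empty -/
theorem n0_leg {e m : ℕ} {S : Finset ℕ} (hS : ∀ i ∈ S, i < e) (hl : Leg e S m G G)
    {G' : GG} {j n : ℕ} (hj : e ≤ j) (hn : m ≤ n) (C : List (List Bool))
    (hagr : Agr m G G')
    (hG' : ∀ j' n', (∀ y : List Bool, y.length = n' → G' j' y = G j' y) ∨ Inact G' j' n') :
    Leg e S m G (put G' j n C) := by
  have hother : ∀ j' n', ¬ (j' = j ∧ n' = n) → ∀ y : List Bool, y.length = n' →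
      put G' j n C j' y = G' j' y := by
    intro j' n' h y hy
    exact n0_put_ne (by rw [hy]; exact h)
  refine ⟨?_, ?_, ?_, ?_⟩
  · intro j' y hy
    rw [n0_put_ne, hagr j' y hy]
    rintro ⟨rfl, h⟩
    omega
  · intro j' n' hmn
    by_cases h : j' = j ∧ n' = n
    · obtain ⟨rfl, rfl⟩ := h
      left
      show put G' j' n' C j' (zer n') = true
      rw [n0_put_at (n0_zer_length _)]
      simp
    · rcases hG' j' n' with h1 | h1
      · rcases hl.inv j' n' hmn with h2 | h2
        · left
          show put G' j n C j' (zer n') = true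
          rw [hother _ _ h _ (n0_zer_length _), h1 _ (n0_zer_length _)]
          exact h2
        · right
          intro y hy
          rw [hother _ _ h _ hy, h1 _ hy]
          exact h2 y hy
      · right
        intro y hy
        rw [hother _ _ h _ hy]
        exact h1 y hy
  · intro j' hj' n' hmn
    have h : ¬ (j' = j ∧ n' = n) := by
      rintro ⟨rfl, -⟩
      exact absurd (hS _ hj') (by omega)
    rcases hG' j' n' with h1 | h1
    · have heq : ∀ y : List Bool, y.length = n' → put G' j n C j' y = G j' y := by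
        intro y hy
        rw [hother _ _ h _ hy, h1 _ hy]
      rcases hl.leg j' hj' n' hmn with ⟨h2, y, h3, h4⟩ | h2
      · left
        refine ⟨?_, y, ⟨h3.1, h3.2.1, ?_⟩, ?_⟩
        · show put G' j n C j' (zer n') = true
          rw [heq _ (n0_zer_length _)]
          exact h2
        · rw [heq _ h3.1]
          exact h3.2.2
        · rintro y' ⟨h5, h6, h7⟩
          rw [heq _ h5] at h7
          exact h4 y' ⟨h5, h6, h7⟩
      · right
        intro y hy
        rw [heq _ hy]
        exact h2 y hy
    · right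
      intro y hy
      rw [hother _ _ h _ hy]
      exact h1 y hy
  · intro j' hj' hjS n' hmn
    have h : ¬ (j' = j ∧ n' = n) := by
      rintro ⟨rfl, -⟩
      omega
    intro y hy
    rw [hother _ _ h _ hy]
    rcases hG' j' n' with h1 | h1
    · rw [h1 _ hy]
      exact hl.ina j' hj' hjS n' hmn y hy
    · exact h1 y hy

theorem leg_put {e m m' n j : ℕ} {S : Finset ℕ} (hS : ∀ i ∈ S, i < e) (hl : Leg e S m G G)
    (hm : m ≤ m') (hn : m' ≤ n) (hj : e ≤ j) (C : List (List Bool)) :
    Leg e S m G (put (tr m' G) j n C) := by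
  refine n0_leg hS hl hj (hm.trans hn) C ?_ ?_
  · intro j' y hy
    have : j' + y.length < m' := by omega
    simp [tr, this]
  · intro j' n'
    by_cases h : j' + n' < m'
    · left
      intro y hy
      have : j' + y.length < m' := by omega
      simp [tr, this]
    · right
      intro y hy
      have : ¬ j' + y.length < m' := by omega
      simp [tr, this]

theorem leg_put' {e m n j : ℕ} {S : Finset ℕ} (hS : ∀ i ∈ S, i < e) (hl : Leg e S m G G)
    (hn : m ≤ n) (hj : e ≤ j) (C : List (List Bool)) : Leg e S m G (put G j n C) :=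
  n0_leg hS hl hj hn C (fun _ _ _ => rfl) (fun _ _ => Or.inl fun _ _ => rfl)

theorem neg_core {H : Set ℕ} (h : NegSit B G H) {e : ℕ} (hr : ∀ u, ¬ CBad (req e) B G u) {j : ℕ}
    (hj : j ∈ H) (hej : e ≤ j) (a : Adv) (ha : a.e = e)
    (hc : ∃ N₀, ∀ n, N₀ ≤ n → ∀ G', (∀ C u, ¬ CBad (req e) B (put G' j n C) u) →
      ∃ y, y.length = n ∧ y ≠ zer n ∧ CWin a B (put G' j n [y]) j n) (N : ℕ) :
    ∃ n, N ≤ n ∧ Legal G j n ∧ CWin a B G j n := by
  obtain ⟨N₀, hN₀⟩ := hc
  obtain ⟨m, S, hS, hl, hrob⟩ := h.rob e hr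
  obtain ⟨m', hm', hwin⟩ := h.win j hj a (max N (max m N₀))
  have h1 : N ≤ m' := (le_max_left _ _).trans hm'
  have h2 : m ≤ m' := ((le_max_left _ _).trans (le_max_right _ _)).trans hm'
  have h3 : N₀ ≤ m' := ((le_max_right _ _).trans (le_max_right _ _)).trans hm'
  obtain ⟨y, hy1, hy2, hy3⟩ := hN₀ m' h3 (tr m' G) (fun C u =>
    hrob _ (leg_put hS hl h2 le_rfl hej C) u)
  obtain ⟨n, hn1, hn2, hn3⟩ := hwin ⟨m', y, le_rfl, hy1, hy2, hy3⟩
  exact ⟨n, (le_max_left _ _).trans hn1, hn2, hn3⟩

end

end Pool.Agent.H543R3.PC
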