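import Pool.Agent.H543R3.PC.DefsP

/-!
# N1: the hard languages and the hard search problem of a column
-/

namespace Pool.Agent.H543R3.PC

open Pool.Agent.NPC Pool.Agent.H628R3.RO

section
variable {B : List Bool → Bool} {G : GG}

theorem n1_isFP_L (hB : GuideP B) (j N : ℕ) (b : Bool) :
    IsFP (mk B G) (fun x => semL j N b x G) := by
  obtain ⟨M, hM⟩ := hB (.lV j N b)
  exact ⟨M, fun x => hM G x⟩

theorem n1_isFP_S (hB : GuideP B) (j N : ℕ) :
    IsFP (mk B G) (fun x => semS j N x G) := by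
  obtain ⟨M, hM⟩ := hB (.sV j N)
  exact ⟨M, fun x => hM G x⟩

theorem n1_semL_true {j N : ℕ} {x w : List Bool} :
    semL j N true (pairBits x w) G = [true] ↔
      N ≤ x.length ∧ Act G j x.length ∧ Hit G j x.length w ∧ w.head? = some true := by
  unfold semL
  rw [unpair_pairBits]
  simp

theorem n1_semL_false {j N : ℕ} {x w : List Bool} :
    semL j N false (pairBits x w) G = [true] ↔
      (¬ (N ≤ x.length ∧ Act G j x.length) ∧ w = []) ∨
        (N ≤ x.length ∧ Act G j x.length ∧ Hit G j x.length w ∧ w.head? = some false) := by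
  unfold semL
  rw [unpair_pairBits]
  simp
  tauto

theorem n1_semS {j N : ℕ} {x w : List Bool} :
    semS j N (pairBits x w) G = [true] ↔ SS G j N x w := by
  unfold semS SS
  rw [unpair_pairBits]
  simp
  tauto

theorem n1_legal {j n : ℕ} (h : Legal G j n ∨ Inact G j n) (ha : Act G j n) : Legal G j n := by
  rcases h with h | h
  · exact h
  · have h1 := h (zer n) (by simp [zer])
    rw [Act] at ha
    rw [ha] at h1
    cases h1

theorem n1_unique {j n : ℕ} (h : Legal G j n) {y y' : List Bool} (hy : Hit G j n y)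
    (hy' : Hit G j n y') : y = y' := by
  obtain ⟨_, z, _, hz⟩ := h
  rw [hz y hy, hz y' hy']

theorem n1_hit_ne {j n : ℕ} {y : List Bool} (hy : Hit G j n y) : y ≠ [] := by
  rintro rfl
  obtain ⟨h1, h2, _⟩ := hy
  apply h2
  simp only [List.length_nil] at h1
  subst h1
  rfl

theorem n1_head {j n : ℕ} {y : List Bool} (hy : Hit G j n y) :
    y.head? = some true ∨ y.head? = some false := by
  cases y with
  | nil => exact absurd rfl (n1_hit_ne hy)
  | cons b y =>
    cases b
    · right; rfl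
    · left; rfl

theorem isUP_LL (hB : GuideP B) {j N : ℕ} (h : ∀ n, N ≤ n → Legal G j n ∨ Inact G j n) :
    IsUP (mk B G) (LL G j N) := by
  refine ⟨fun x => semL j N true x G, Polynomial.X, n1_isFP_L hB j N true, ?_, ?_⟩
  · intro x
    simp only [n1_semL_true, Polynomial.eval_X]
    constructor
    · rintro ⟨h1, h2, y, hy, hy'⟩
      exact ⟨y, hy.1.le, h1, h2, hy, hy'⟩
    · rintro ⟨y, _, h1, h2, hy, hy'⟩
      exact ⟨h1, h2, y, hy, hy'⟩
  · intro x w w' _ _ hw hw'
    simp only [n1_semL_true] at hw hw'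
    exact n1_unique (n1_legal (h _ hw.1) hw.2.1) hw.2.2.1 hw'.2.2.1

theorem isUP_LLc (hB : GuideP B) {j N : ℕ} (h : ∀ n, N ≤ n → Legal G j n ∨ Inact G j n) :
    IsUP (mk B G) (LL G j N)ᶜ := by
  refine ⟨fun x => semL j N false x G, Polynomial.X, n1_isFP_L hB j N false, ?_, ?_⟩
  · intro x
    simp only [n1_semL_false, Polynomial.eval_X]
    constructor
    · intro hx
      by_cases hc : N ≤ x.length ∧ Act G j x.length
      · obtain ⟨_, y, hy, _⟩ := n1_legal (h _ hc.1) hc.2
        rcases n1_head hy with hh | hh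
        · exact absurd ⟨hc.1, hc.2, y, hy, hh⟩ hx
        · exact ⟨y, hy.1.le, Or.inr ⟨hc.1, hc.2, hy, hh⟩⟩
      · exact ⟨[], by simp, Or.inl ⟨hc, rfl⟩⟩
    · rintro ⟨w, _, hw⟩ ⟨h1, h2, y, hy, hy'⟩
      rcases hw with hw | ⟨_, _, hw, hw'⟩
      · exact hw.1 ⟨h1, h2⟩
      · have := n1_unique (n1_legal (h _ h1) h2) hy hw
        subst this
        rw [hy'] at hw'
        cases hw'
  · intro x w w' _ _ hw hw'
    simp only [n1_semL_false] at hw hw'
    rcases hw with hw | hw <;> rcases hw' with hw' | hw'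
    · rw [hw.2, hw'.2]
    · exact absurd ⟨hw'.1, hw'.2.1⟩ hw.1
    · exact absurd ⟨hw.1, hw.2.1⟩ hw'.1
    · exact n1_unique (n1_legal (h _ hw.1) hw.2.1) hw.2.2.1 hw'.2.2.1

theorem isTFNP_SS (hB : GuideP B) {j N : ℕ} (h : ∀ n, N ≤ n → Legal G j n ∨ Inact G j n) :
    IsTFNP (mk B G) (SS G j N) := by
  refine ⟨⟨fun x => semS j N x G, Polynomial.X, n1_isFP_S hB j N, ?_⟩, ?_⟩
  · intro x y
    simp only [n1_semS, Polynomial.eval_X]
    constructor
    · intro hx
      refine ⟨?_, hx⟩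
      rcases hx with hx | hx
      · simp [hx.2]
      · exact hx.2.2.1.le
    · exact fun hx => hx.2
  · intro x
    by_cases hc : N ≤ x.length ∧ Act G j x.length
    · obtain ⟨_, y, hy, _⟩ := n1_legal (h _ hc.1) hc.2
      exact ⟨y, Or.inr ⟨hc.1, hc.2, hy⟩⟩
    · exact ⟨[], Or.inl ⟨hc, rfl⟩⟩

end

end Pool.Agent.H543R3.PC
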