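import Pool.Agent.H543R3.PC.Defs

/-!
# Counting: polynomials against `2 ^ n`, choosing strings
-/

namespace Pool.Agent.H543R3.PC

open Pool.Agent.NPC Pool.Agent.H628R3.RO

theorem poly_lt (p : Polynomial ℕ) : ∃ N₀, ∀ n, N₀ ≤ n → p.eval n < 2 ^ n := by
  have h : Filter.Tendsto (fun n : ℕ => ∑ i ∈ Finset.range (p.natDegree + 1),
      (p.coeff i : ℝ) * ((n : ℝ) ^ i / 2 ^ n)) Filter.atTop (nhds (∑ i ∈ Finset.range (p.natDegree + 1),
      (p.coeff i : ℝ) * 0)) := by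
    refine tendsto_finsetSum _ fun i _ => ?_
    exact (tendsto_pow_const_div_const_pow_of_one_lt i (by norm_num)).const_mul _
  simp only [mul_zero, Finset.sum_const_zero] at h
  have h2 := h.eventually_lt_const (show (0 : ℝ) < 1 by norm_num)
  obtain ⟨N, hN⟩ := Filter.eventually_atTop.1 h2
  refine ⟨N, fun n hn => ?_⟩
  have h3 := hN n hn
  have h4 : ((p.eval n : ℕ) : ℝ) / 2 ^ n < 1 := by
    rw [Polynomial.eval_eq_sum_range]
    push_cast
    rw [Finset.sum_div]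
    refine lt_of_eq_of_lt (Finset.sum_congr rfl fun i _ => ?_) h3
    rw [mul_div_assoc]
  rw [div_lt_one (by positivity)] at h4
  exact_mod_cast h4

/-- strings of length `m + 1` with head `b` -/
def n3_S (b : Bool) (m : ℕ) : Finset (List Bool) :=
  (Finset.univ : Finset (List.Vector Bool m)).image (fun v => b :: v.toList)

lemma n3_card (b : Bool) (m : ℕ) : (n3_S b m).card = 2 ^ m := by
  unfold n3_S
  rw [Finset.card_image_of_injective]
  · rw [Finset.card_univ, card_vector]; simp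
  · intro v w h
    have : v.toList = w.toList := by simpa using h
    exact List.Vector.eq _ _ this

lemma n3_mem {b : Bool} {m : ℕ} {y : List Bool} (h : y ∈ n3_S b m) :
    y.length = m + 1 ∧ y.head? = some b := by
  unfold n3_S at h
  obtain ⟨v, -, rfl⟩ := Finset.mem_image.1 h
  simp

lemma n3_big (K n : ℕ) (hn : 8 * K + 8 < 2 ^ n) (b : Bool) (F : Finset (List Bool))
    (hF : F.card ≤ K) : ∃ Y : Finset (List Bool), Y.card = 3 * K + 4 ∧
      ∀ y ∈ Y, y.length = n ∧ y ≠ zer n ∧ y.head? = some b ∧ y ∉ F := by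
  obtain ⟨m, rfl⟩ : ∃ m, n = m + 1 := by
    rcases n with _ | m
    · simp at hn
    · exact ⟨m, rfl⟩
  have hm : 4 * K + 4 < 2 ^ m := by rw [pow_succ] at hn; omega
  have h1 : 3 * K + 4 ≤ (n3_S b m \ insert (zer (m + 1)) F).card := by
    have := Finset.le_card_sdiff (insert (zer (m + 1)) F) (n3_S b m)
    have h2 := Finset.card_insert_le (zer (m + 1)) F
    rw [n3_card] at this
    omega
  obtain ⟨Y, hY, hc⟩ := Finset.exists_subset_card_eq h1
  refine ⟨Y, hc, fun y hy => ?_⟩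
  have h3 := hY hy
  rw [Finset.mem_sdiff, Finset.mem_insert, not_or] at h3
  exact ⟨(n3_mem h3.1).1, h3.2.1, (n3_mem h3.1).2, h3.2.2⟩

/-- Two strings starting with `b` and `b'` such that neither is in the set of the other. -/
theorem pick_two (K n : ℕ) (hn : 8 * K + 8 < 2 ^ n) (b b' : Bool) (Q : List Bool → Finset (List Bool))
    (hQ : ∀ y, (Q y).card ≤ K) (F : Finset (List Bool)) (hF : F.card ≤ K) :
    ∃ y y', y.length = n ∧ y'.length = n ∧ y ≠ zer n ∧ y' ≠ zer n ∧ y ≠ y' ∧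
      y.head? = some b ∧ y'.head? = some b' ∧ y ∉ F ∧ y' ∉ F ∧ y' ∉ Q y ∧ y ∉ Q y' := by
  obtain ⟨Y, hY, hY'⟩ := n3_big K n hn b F hF
  obtain ⟨Z, hZ, hZ'⟩ := n3_big K n hn b' F hF
  by_contra hc
  push Not at hc
  have hbad : ∀ y ∈ Y, ∀ z ∈ Z, 1 ≤ (if z ∈ Q y then 1 else 0) + (if y ∈ Q z then 1 else 0) +
      (if y = z then 1 else 0) := by
    intro y hy z hz
    by_cases h1 : z ∈ Q y
    · simp only [h1, if_true]; omega
    by_cases h2 : y = z
    · simp only [h2, if_true]; omega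
    have h3 := hc y z (hY' y hy).1 (hZ' z hz).1 (hY' y hy).2.1 (hZ' z hz).2.1 h2
      (hY' y hy).2.2.1 (hZ' z hz).2.2.1 (hY' y hy).2.2.2 (hZ' z hz).2.2.2 h1
    simp only [h3, if_true]; omega
  have h1 : ∑ y ∈ Y, ∑ z ∈ Z, 1 ≤ ∑ y ∈ Y, ∑ z ∈ Z, ((if z ∈ Q y then 1 else 0) +
      (if y ∈ Q z then 1 else 0) + (if y = z then 1 else 0)) :=
    Finset.sum_le_sum fun y hy => Finset.sum_le_sum fun z hz => hbad y hy z hz
  simp only [Finset.sum_add_distrib] at h1
  have h2 : ∑ y ∈ Y, ∑ z ∈ Z, (if z ∈ Q y then 1 else 0) ≤ Y.card * K := by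
    rw [← smul_eq_mul]
    refine Finset.sum_le_card_nsmul _ _ _ fun y _ => ?_
    rw [← Finset.card_filter]
    refine (Finset.card_le_card ?_).trans (hQ y)
    intro z hz
    exact (Finset.mem_filter.1 hz).2
  have h3 : ∑ y ∈ Y, ∑ z ∈ Z, (if y ∈ Q z then 1 else 0) ≤ Z.card * K := by
    rw [Finset.sum_comm, ← smul_eq_mul]
    refine Finset.sum_le_card_nsmul _ _ _ fun z _ => ?_
    rw [← Finset.card_filter]
    refine (Finset.card_le_card ?_).trans (hQ z)
    intro y hy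
    exact (Finset.mem_filter.1 hy).2
  have h4 : ∑ y ∈ Y, ∑ z ∈ Z, (if y = z then 1 else 0) ≤ Y.card * 1 := by
    rw [← smul_eq_mul]
    refine Finset.sum_le_card_nsmul _ _ _ fun y _ => ?_
    rw [Finset.sum_ite_eq]
    split_ifs <;> omega
  have h5 : ∑ y ∈ Y, ∑ z ∈ Z, 1 = Y.card * Z.card := by simp
  rw [h5, hY, hZ] at h1
  rw [hY] at h2 h4
  rw [hZ] at h3
  nlinarith

/-- A string starting with `b` outside a small set. -/
theorem pick_one (K n : ℕ) (hn : 8 * K + 8 < 2 ^ n) (b : Bool) (F : Finset (List Bool))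
    (hF : F.card ≤ K) : ∃ y, y.length = n ∧ y ≠ zer n ∧ y.head? = some b ∧ y ∉ F := by
  obtain ⟨Y, hY, hY'⟩ := n3_big K n hn b F hF
  obtain ⟨y, hy⟩ : Y.Nonempty := by
    rw [← Finset.card_pos]; omega
  exact ⟨y, hY' y hy⟩

end Pool.Agent.H543R3.PC
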