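import Pool.Agent.H543R3.PC.DefsP
import Pool.Agent.H543R3.PC.A1
import Pool.Agent.H543R3.PC.A3
import Pool.Agent.H543R3.PC.C1
import Pool.Agent.H543R3.PC.N3

/-!
# Part N4: reductions to `NP ∩ coNP` sets and to disjoint `NP` pairs
-/

namespace Pool.Agent.H543R3.PC

open Pool.Agent.NPC Pool.Agent.H628R3.RO

/-- `put` with more hits agrees on a set of positions avoiding the new hits. -/
theorem n4_put_agree {G : GG} {j n : ℕ} {C C' : List (List Bool)} {Q : Finset (ℕ × List Bool)}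
    (h : ∀ q ∈ Q, (q.2 ∈ C' ↔ q.2 ∈ C)) :
    ∀ q ∈ Q, put G j n C' q.1 q.2 = put G j n C q.1 q.2 := by
  intro q hq
  by_cases h1 : q.1 = j ∧ q.2.length = n
  · obtain ⟨j', y⟩ := q
    obtain ⟨h2, h3⟩ := h1
    simp only at h2 h3
    subst h2
    simp only
    rw [put_at h3, put_at h3]
    congr 1
    exact decide_eq_decide.2 (h _ hq)
  · rw [put_ne h1, put_ne h1]

/-- An accepted certificate survives changes outside a small set of strings. -/
theorem n4_wt {M : Alg} {p c cF : Polynomial ℕ} (hM : CostP M p c) {B : List Bool → Bool}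
    {G : GG} {j n k : ℕ} {C : List (List Bool)} {u : List Bool} (hu : u.length ≤ cF.eval k)
    (h : Wt M p (mk B (put G j n C)) u) :
    ∃ Q : Finset (List Bool), Q.card ≤ (c.comp cF).eval k ∧
      ∀ C' : List (List Bool), (∀ y ∈ Q, (y ∈ C' ↔ y ∈ C)) → Wt M p (mk B (put G j n C')) u := by
  classical
  obtain ⟨w, hw1, hw2⟩ := h
  obtain ⟨Q, hQ1, hQ2⟩ := ((hM u w hw1).1 B).loc (put G j n C)
  refine ⟨Q.image Prod.snd, ?_, fun C' hC' => ⟨w, hw1, ?_⟩⟩
  · refine Finset.card_image_le.trans (hQ1.trans ?_)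
    rw [Polynomial.eval_comp]
    exact eval_mono c hu
  · rw [hQ2 (put G j n C') (n4_put_agree fun q hq => hC' q.2 (Finset.mem_image_of_mem _ hq))]
    exact hw2

theorem n4_hitT {G : GG} {j n : ℕ} {y : List Bool} (hy : y.length = n) (hy' : y ≠ zer n)
    (h : y.head? = some true) : HitT (put G j n [y]) j n :=
  ⟨y, put_hit.2 ⟨hy, hy', by simp⟩, h⟩

theorem n4_not_hitT {G : GG} {j n : ℕ} {y : List Bool} (h : y.head? = some false) :
    ¬ HitT (put G j n [y]) j n := by
  rintro ⟨y', h1, h2⟩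
  obtain ⟨-, -, h3⟩ := put_hit.1 h1
  rw [List.mem_singleton] at h3
  rw [h3, h] at h2
  simp at h2

/-- The value of the reduction does not depend on the hit, outside a small set. -/
theorem n4_red {F : Alg} {cF : Polynomial ℕ} (hF : CostF F cF) (B : List Bool → Bool) (G : GG)
    (j n : ℕ) : ∃ Q : Finset (List Bool), Q.card ≤ cF.eval n ∧
      ∀ C : List (List Bool), (∀ y ∈ Q, y ∉ C) →
        F.out (mk B (put G j n C)) (one n) = F.out (mk B (put G j n [])) (one n) := by
  classical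
  have hn : (one n).length = n := List.length_replicate
  obtain ⟨Q, hQ1, hQ2⟩ := ((hF (one n)).1 B).loc (put G j n [])
  rw [hn] at hQ1
  refine ⟨Q.image Prod.snd, Finset.card_image_le.trans hQ1, fun C hC => ?_⟩
  exact hQ2 (put G j n C) (n4_put_agree fun q hq => by
    have := hC q.2 (Finset.mem_image_of_mem _ hq)
    simp [this])

theorem comb_dec (a : Adv) (hk : (req a.e).kind = .npc ∨ (req a.e).kind = .dnp) :
    ∃ N₀, ∀ n, N₀ ≤ n → ∀ B G j, (∀ C u, ¬ CBad (req a.e) B (put G j n C) u) →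
      ∃ y, y.length = n ∧ y ≠ zer n ∧ CWin a B (put G j n [y]) j n := by
  classical
  obtain ⟨hM0, hM1, -, -⟩ := cR_spec (req a.e)
  obtain ⟨cF, hF⟩ := exists_costF a.F
  set r := req a.e with hr
  set c := cR r with hc
  obtain ⟨N₀, hN₀⟩ := poly_lt (8 * (c.comp cF + cF) + 8)
  refine ⟨N₀, fun n hn B G j hbad => ?_⟩
  by_contra hcon
  push Not at hcon
  set K := (c.comp cF + cF).eval n with hK
  have hK1 : 8 * K + 8 < 2 ^ n := by
    have h1 := hN₀ n hn
    simp only [Polynomial.eval_add, Polynomial.eval_mul] at h1 hK ⊢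
    rw [hK]
    have e8 : (8 : Polynomial ℕ).eval n = 8 := by
      simp
    rw [e8] at h1
    exact h1
  have hKc : (c.comp cF).eval n ≤ K := by rw [hK, Polynomial.eval_add]; omega
  have hKF : cF.eval n ≤ K := by rw [hK, Polynomial.eval_add]; omega
  -- the reduction
  obtain ⟨F0, hF0, hF0'⟩ := n4_red hF B G j n
  -- what it means that `y` does not win
  have hlose : ∀ y : List Bool, y.length = n → y ≠ zer n → ∃ u,
      a.F.out (mk B (put G j n [y])) (one n) = some u ∧
      (HitT (put G j n [y]) j n → Wt r.M₀ r.p₀ (mk B (put G j n [y])) u) ∧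
      (¬ HitT (put G j n [y]) j n → Wt r.M₁ r.p₁ (mk B (put G j n [y])) u) := by
    intro y hy hy'
    have h1 := hcon y hy hy'
    unfold CWin at h1
    rcases hk with hk | hk <;> rw [hk] at h1 <;> simp only [not_not] at h1 <;> exact h1
  have hu : ∀ y : List Bool, y.length = n → y ≠ zer n → y ∉ F0 → ∃ u,
      a.F.out (mk B (put G j n [])) (one n) = some u ∧
      (HitT (put G j n [y]) j n → Wt r.M₀ r.p₀ (mk B (put G j n [y])) u) ∧
      (¬ HitT (put G j n [y]) j n → Wt r.M₁ r.p₁ (mk B (put G j n [y])) u) := by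
    intro y hy hy' hyF
    obtain ⟨u, h1, h2⟩ := hlose y hy hy'
    refine ⟨u, ?_, h2⟩
    rw [← hF0' [y] (fun z hz hzy => ?_), h1]
    rw [List.mem_singleton] at hzy
    exact hyF (hzy ▸ hz)
  have hlen : ∀ u, a.F.out (mk B (put G j n [])) (one n) = some u → u.length ≤ cF.eval n := by
    intro u h1
    have := (hF (one n)).2.2 _ u h1
    rwa [show (one n).length = n from List.length_replicate] at this
  -- the sets of strings that matter
  have hQ : ∀ y : List Bool, ∃ Q : Finset (List Bool), Q.card ≤ K ∧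
      (y.length = n → y ≠ zer n → y ∉ F0 → ∀ u,
        a.F.out (mk B (put G j n [])) (one n) = some u →
        ∀ C : List (List Bool), (∀ z ∈ Q, (z ∈ C ↔ z ∈ [y])) →
          (HitT (put G j n [y]) j n → Wt r.M₀ r.p₀ (mk B (put G j n C)) u) ∧
          (¬ HitT (put G j n [y]) j n → Wt r.M₁ r.p₁ (mk B (put G j n C)) u)) := by
    intro y
    by_cases h : y.length = n ∧ y ≠ zer n ∧ y ∉ F0
    · obtain ⟨u, h1, h2, h3⟩ := hu y h.1 h.2.1 h.2.2
      by_cases hT : HitT (put G j n [y]) j n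
      · obtain ⟨Q, hQ1, hQ2⟩ := n4_wt (cF := cF) (k := n) hM0 (hlen u h1) (h2 hT)
        refine ⟨Q, hQ1.trans hKc, fun _ _ _ u' hu' C hC => ⟨fun _ => ?_, fun hT' => absurd hT hT'⟩⟩
        rw [h1] at hu'
        rw [← Option.some.inj hu']
        exact hQ2 C hC
      · obtain ⟨Q, hQ1, hQ2⟩ := n4_wt (cF := cF) (k := n) hM1 (hlen u h1) (h3 hT)
        refine ⟨Q, hQ1.trans hKc, fun _ _ _ u' hu' C hC => ⟨fun hT' => absurd hT' hT, fun _ => ?_⟩⟩
        rw [h1] at hu'
        rw [← Option.some.inj hu']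
        exact hQ2 C hC
    · exact ⟨∅, by simp, fun h1 h2 h3 => absurd ⟨h1, h2, h3⟩ h⟩
  choose Q hQ1 hQ2 using hQ
  obtain ⟨y, y', hy, hy', hyz, hyz', hne, hyh, hyh', hyF, hyF', hyQ, hyQ'⟩ :=
    pick_two K n hK1 true false Q hQ1 F0 (hF0.trans hKF)
  obtain ⟨u, hu1, -, -⟩ := hu y hy hyz hyF
  have h1 := (hQ2 y hy hyz hyF u hu1 [y, y'] (fun z hz => by
    have : z ≠ y' := fun h => hyQ (h ▸ hz)
    simp [this])).1 (n4_hitT hy hyz hyh)
  have h2 := (hQ2 y' hy' hyz' hyF' u hu1 [y, y'] (fun z hz => by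
    have : z ≠ y := fun h => hyQ' (h ▸ hz)
    simp [this])).2 (n4_not_hitT hyh')
  apply hbad [y, y'] u
  unfold CBad
  rcases hk with hk | hk <;> rw [hk] <;> simp only
  · exact ⟨fun _ => h2, fun _ => h1⟩
  · exact ⟨h1, h2⟩

end Pool.Agent.H543R3.PC
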