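import Pool.Agent.H543R3.PC.A1
import Pool.Agent.H543R3.PC.A3
import Pool.Agent.H543R3.PC.N3

/-!
# N5: `comb_up`
-/

namespace Pool.Agent.H543R3.PC

open Pool.Agent.NPC Pool.Agent.H628R3.RO

theorem n5_eval_mono (p : Polynomial ℕ) {a b : ℕ} (h : a ≤ b) : p.eval a ≤ p.eval b := by
  rw [Polynomial.eval_eq_sum, Polynomial.eval_eq_sum]
  exact Finset.sum_le_sum fun i _ => Nat.mul_le_mul_left _ (Nat.pow_le_pow_left h i)

/-- the blocks with the hits `C` and `C'` agree at a position whose string is in neither -/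
theorem n5_put_agree {G : GG} {j n : ℕ} {C C' : List (List Bool)} {j' : ℕ} {s : List Bool}
    (h : s ∈ C ↔ s ∈ C') : put G j n C' j' s = put G j n C j' s := by
  unfold put
  split
  · congr 1
    exact decide_eq_decide.2 h.symm
  · rfl

theorem n5_put_hit {G : GG} {j n : ℕ} {C : List (List Bool)} {y : List Bool} :
    Hit (put G j n C) j n y ↔ y.length = n ∧ y ≠ zer n ∧ y ∈ C := by
  unfold Hit put
  constructor
  · rintro ⟨h1, h2, h3⟩
    refine ⟨h1, h2, ?_⟩
    rw [if_pos ⟨rfl, h1⟩] at h3
    simpa [h2] using h3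
  · rintro ⟨h1, h2, h3⟩
    refine ⟨h1, h2, ?_⟩
    rw [if_pos ⟨rfl, h1⟩]
    simp [h3]

theorem comb_up (a : Adv) (hk : (req a.e).kind = .up) :
    ∃ N₀, ∀ n, N₀ ≤ n → ∀ B G j, (∀ C u, ¬ CBad (req a.e) B (put G j n C) u) →
      ∃ y, y.length = n ∧ y ≠ zer n ∧ CWin a B (put G j n [y]) j n := by
  classical
  obtain ⟨cF, hcF⟩ := exists_costF a.F
  obtain ⟨cM, hcM⟩ := exists_costP (req a.e).M₀ (req a.e).p₀
  set M := (req a.e).M₀ with hM
  set p := (req a.e).p₀ with hp
  obtain ⟨N₀, hN₀⟩ := poly_lt (8 * (2 * (cM.comp cF) + cF) + 8)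
  refine ⟨N₀, fun n hn B G j hC => ?_⟩
  have hlt := hN₀ n hn
  simp only [Polynomial.eval_add, Polynomial.eval_mul, Polynomial.eval_comp,
    Polynomial.eval_ofNat] at hlt
  set K0 := cF.eval n with hK0
  set K := cM.eval K0 with hK
  have hlt' : 8 * (2 * K + K0) + 8 < 2 ^ n := hlt
  by_contra hno
  push Not at hno
  -- no `y` wins
  have hwin : ∀ y : List Bool, y.length = n → y ≠ zer n →
      ∃ u, a.F.out (mk B (put G j n [y])) (one n) = some u ∧
        (HitT (put G j n [y]) j n ↔ Wt M p (mk B (put G j n [y])) u) := by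
    intro y hy hy'
    have := hno y hy hy'
    unfold CWin at this
    rw [hk] at this
    simpa using this
  have hbad : ∀ C u w w', Acc M p (mk B (put G j n C)) u w → Acc M p (mk B (put G j n C)) u w' →
      w = w' := by
    intro C u w w' h1 h2
    by_contra hne
    apply hC C u
    unfold CBad
    rw [hk]
    exact ⟨w, w', hne, h1, h2⟩
  have hone : (one n).length = n := by simp [one]
  -- the query of the reduction
  obtain ⟨hsh, -, hlenF⟩ := hcF (one n)
  rw [hone] at hsh hlenF
  obtain ⟨Q0, hQ0c, hQ0⟩ := (hsh B).loc (put G j n [])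
  set F0 : Finset (List Bool) := Q0.image Prod.snd with hF0
  have hF0c : F0.card ≤ K0 := Finset.card_image_le.trans hQ0c
  have hF : ∀ y, y ∉ F0 → a.F.out (mk B (put G j n [y])) (one n) =
      a.F.out (mk B (put G j n [])) (one n) := by
    intro y hy
    refine hQ0 _ fun q hq => ?_
    apply n5_put_agree
    constructor
    · intro h; simp at h
    · intro h
      rw [List.mem_singleton] at h
      exfalso
      apply hy
      rw [hF0, Finset.mem_image]
      exact ⟨q, hq, h⟩
  -- the output
  obtain ⟨y0, hy0, hy0', -, hy0F⟩ := pick_one K0 n (by omega) true F0 hF0c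
  obtain ⟨u, hu, -⟩ := hwin y0 hy0 hy0'
  rw [hF y0 hy0F] at hu
  have hulen : u.length ≤ K0 := hlenF _ _ hu
  -- the decision trees
  have htree : ∀ w : List Bool, ∃ t : DT (Option (List Bool)), w.length ≤ p.eval u.length →
      (∀ G, t.eval G = M.out (mk B G) (pairBits u w)) ∧ t.depth ≤ K := by
    intro w
    by_cases hw : w.length ≤ p.eval u.length
    · obtain ⟨t, ht, htd, -⟩ := (hcM u w hw).1 B
      exact ⟨t, fun _ => ⟨ht, htd.trans (n5_eval_mono cM hulen)⟩⟩
    · exact ⟨DT.leaf none, fun h => absurd h hw⟩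
  choose t ht using htree
  -- certificates
  have hcert : ∀ y : List Bool, ∃ w, (y.length = n ∧ y ≠ zer n ∧ y ∉ F0 ∧ y.head? = some true) →
      Acc M p (mk B (put G j n [y])) u w := by
    intro y
    by_cases hy : y.length = n ∧ y ≠ zer n ∧ y ∉ F0 ∧ y.head? = some true
    · obtain ⟨u', hu', hiff⟩ := hwin y hy.1 hy.2.1
      rw [hF y hy.2.2.1, hu] at hu'
      obtain rfl : u = u' := Option.some.inj hu'
      obtain ⟨w, hw⟩ := hiff.1 ⟨y, n5_put_hit.2 ⟨hy.1, hy.2.1, by simp⟩, hy.2.2.2⟩
      exact ⟨w, fun _ => hw⟩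
    · exact ⟨[], fun h => absurd h hy⟩
  choose w hw using hcert
  -- the sets
  set Q : List Bool → Finset (List Bool) := fun y =>
    if (w y).length ≤ p.eval u.length then (((t (w y)).path (put G j n [y])).map Prod.snd).toFinset
    else ∅ with hQ
  have hQc : ∀ y, (Q y).card ≤ 2 * K + K0 := by
    intro y
    rw [hQ]
    by_cases hwy : (w y).length ≤ p.eval u.length
    · simp only [hwy, if_true]
      refine (List.toFinset_card_le _).trans ?_
      rw [List.length_map]
      have := ((t (w y)).path_length (put G j n [y])).trans (ht (w y) hwy).2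
      omega
    · simp only [hwy, if_false, Finset.card_empty]
      omega
  obtain ⟨y1, y2, l1, l2, z1, z2, hne, h1, h2, f1, f2, q2, q1⟩ :=
    pick_two (2 * K + K0) n (by omega) true true Q hQc F0 (by omega)
  have a1 := hw y1 ⟨l1, z1, f1, h1⟩
  have a2 := hw y2 ⟨l2, z2, f2, h2⟩
  have e1 : Q y1 = (((t (w y1)).path (put G j n [y1])).map Prod.snd).toFinset := by
    rw [hQ]; simp only [a1.1, if_true]
  have e2 : Q y2 = (((t (w y2)).path (put G j n [y2])).map Prod.snd).toFinset := by
    rw [hQ]; simp only [a2.1, if_true]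
  have s1 := (t (w y1)).path_spec (G := put G j n [y1]) (G' := put G j n [y1, y2]) (by
    intro q hq
    apply n5_put_agree
    have : q.2 ≠ y2 := by
      rintro rfl
      apply q2
      rw [e1, List.mem_toFinset]
      exact List.mem_map_of_mem hq
    simp [this])
  have s2 := (t (w y2)).path_spec (G := put G j n [y2]) (G' := put G j n [y1, y2]) (by
    intro q hq
    apply n5_put_agree
    have : q.2 ≠ y1 := by
      rintro rfl
      apply q1
      rw [e2, List.mem_toFinset]
      exact List.mem_map_of_mem hq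
    simp [this])
  have b1 : Acc M p (mk B (put G j n [y1, y2])) u (w y1) := by
    refine ⟨a1.1, ?_⟩
    rw [← (ht (w y1) a1.1).1, s1.1, (ht (w y1) a1.1).1]
    exact a1.2
  have b2 : Acc M p (mk B (put G j n [y1, y2])) u (w y2) := by
    refine ⟨a2.1, ?_⟩
    rw [← (ht (w y2) a2.1).1, s2.1, (ht (w y2) a2.1).1]
    exact a2.2
  have hww : w y1 = w y2 := hbad _ _ _ _ b1 b2
  have epath : (t (w y1)).path (put G j n [y1]) = (t (w y2)).path (put G j n [y2]) := by
    rw [← s1.2, ← s2.2, hww]
  have q11 : y1 ∉ Q y1 := by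
    rw [e1, epath, ← e2]
    exact q1
  -- a string starting with `false`
  obtain ⟨y, hy, hy', hyh, hyF⟩ := pick_one (2 * K + K0) n (by omega) false (Q y1 ∪ F0) (by
    refine (Finset.card_union_le _ _).trans ?_
    have : (Q y1).card ≤ K := by
      rw [e1]
      refine (List.toFinset_card_le _).trans ?_
      rw [List.length_map]
      exact ((t (w y1)).path_length (put G j n [y1])).trans (ht (w y1) a1.1).2
    omega)
  rw [Finset.mem_union, not_or] at hyF
  have s3 := (t (w y1)).path_spec (G := put G j n [y1]) (G' := put G j n [y]) (by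
    intro q hq
    apply n5_put_agree
    have hq' : q.2 ∈ Q y1 := by
      rw [e1, List.mem_toFinset]
      exact List.mem_map_of_mem hq
    have n1 : q.2 ≠ y1 := by
      intro h; rw [h] at hq'; exact q11 hq'
    have n2 : q.2 ≠ y := by
      intro h; rw [h] at hq'; exact hyF.1 hq'
    simp [n1, n2])
  obtain ⟨u', hu', hiff⟩ := hwin y hy hy'
  rw [hF y hyF.2, hu] at hu'
  obtain rfl : u = u' := Option.some.inj hu'
  have : HitT (put G j n [y]) j n := by
    apply hiff.2
    refine ⟨w y1, a1.1, ?_⟩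
    rw [← (ht (w y1) a1.1).1, s3.1, (ht (w y1) a1.1).1]
    exact a1.2
  obtain ⟨y', hh, hh'⟩ := this
  have := (n5_put_hit.1 hh).2.2
  rw [List.mem_singleton] at this
  rw [this, hyh] at hh'
  exact absurd hh' (by simp)

end Pool.Agent.H543R3.PC
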