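import Pool.Agent.H543R3.PC.DefsB
import Pool.Agent.H543R3.PC.DefsP
import Pool.Agent.H543R3.PC.A1
import Pool.Agent.H543R3.PC.A3
import Pool.Agent.H543R3.PC.C1
import Pool.Agent.H543R3.PC.N3

/-!
# N6: adversaries win or the promise can be violated: disjoint `coNP` pairs
-/

namespace Pool.Agent.H543R3.PC

open Pool.Agent.NPC Pool.Agent.H628R3.RO

/-- The strings of column `j` in a set of positions. -/
def n6_col (j : ℕ) (Q : Finset (ℕ × List Bool)) : Finset (List Bool) :=
  (Q.filter (fun q => q.1 = j)).image Prod.snd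

theorem n6_col_card (j : ℕ) (Q : Finset (ℕ × List Bool)) : (n6_col j Q).card ≤ Q.card :=
  Finset.card_image_le.trans (Finset.card_filter_le _ _)

theorem n6_col_mono (j : ℕ) {Q Q' : Finset (ℕ × List Bool)} (h : Q ⊆ Q') :
    n6_col j Q ⊆ n6_col j Q' :=
  Finset.image_subset_image (Finset.filter_subset_filter _ h)

theorem n6_agree {G : GG} {j n : ℕ} {y : List Bool} {Q : Finset (ℕ × List Bool)}
    (hy : y ∉ n6_col j Q) :
    ∀ q ∈ Q, put G j n [y] q.1 q.2 = put G j n [] q.1 q.2 := by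
  rintro ⟨j', z⟩ hq
  by_cases h : j' = j ∧ z.length = n
  · obtain ⟨h1, h2⟩ := h
    subst h1
    have hz : z ≠ y := by
      rintro rfl
      exact hy (Finset.mem_image.2 ⟨(j', z), Finset.mem_filter.2 ⟨hq, rfl⟩, rfl⟩)
    rw [put_at h2, put_at h2]
    simp [hz]
  · rw [put_ne h, put_ne h]

/-- The only hit of the block is `y`. -/
theorem n6_hitT {G : GG} {j n : ℕ} {y : List Bool} :
    HitT (put G j n [y]) j n → y.head? = some true := by
  rintro ⟨z, hz, hh⟩
  have h := (put_hit.1 hz).2.2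
  rw [List.mem_singleton] at h
  rw [← h]
  exact hh

theorem comb_dconp (a : Adv) (hk : (req a.e).kind = .dconp) :
    ∃ N₀, ∀ n, N₀ ≤ n → ∀ B G j, (∀ C u, ¬ CBad (req a.e) B (put G j n C) u) →
      ∃ y, y.length = n ∧ y ≠ zer n ∧ CWin a B (put G j n [y]) j n := by
  obtain ⟨c, hc⟩ := exists_costF a.F
  obtain ⟨c0, hc0⟩ := exists_costP (req a.e).M₀ (req a.e).p₀
  obtain ⟨c1, hc1⟩ := exists_costP (req a.e).M₁ (req a.e).p₁
  obtain ⟨N₀, hN⟩ := poly_lt (Polynomial.C 8 * (c + c0.comp c + c1.comp c) + Polynomial.C 8)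
  refine ⟨N₀, fun n hn B G j hG => ?_⟩
  have hlt : 8 * (c.eval n + c0.eval (c.eval n) + c1.eval (c.eval n)) + 8 < 2 ^ n := by
    have h := hN n hn
    rw [Polynomial.eval_add, Polynomial.eval_mul, Polynomial.eval_C, Polynomial.eval_add,
      Polynomial.eval_add, Polynomial.eval_comp, Polynomial.eval_comp] at h
    exact h
  have hone : (one n).length = n := by simp [one]
  obtain ⟨hF1, -, hF3⟩ := hc (one n)
  rw [hone] at hF1 hF3
  obtain ⟨Q, hQc, hQ⟩ := (hF1 B).loc (put G j n [])
  rcases hout : a.F.out (mk B (put G j n [])) (one n) with _ | u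
  · obtain ⟨y, hy1, hy2, -, hy4⟩ := pick_one _ n hlt true (n6_col j Q)
      ((n6_col_card j Q).trans (by omega))
    refine ⟨y, hy1, hy2, ?_⟩
    simp only [CWin, hk]
    rintro ⟨u, hu, -⟩
    have h1 := hQ (put G j n [y]) (n6_agree hy4)
    rw [h1, hout] at hu
    cases hu
  · have hul : u.length ≤ c.eval n := hF3 _ _ hout
    have hb := hG [] u
    simp only [CBad, hk] at hb
    have m0 := eval_mono c0 hul
    have m1 := eval_mono c1 hul
    by_cases hw : Wt (req a.e).M₀ (req a.e).p₀ (mk B (put G j n [])) u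
    · obtain ⟨w, hw1, hw2⟩ := hw
      obtain ⟨Q', hQc', hQ'⟩ := ((hc0 u w hw1).1 B).loc (put G j n [])
      obtain ⟨y, hy1, hy2, hy3, hy4⟩ := pick_one _ n hlt true (n6_col j (Q ∪ Q'))
        ((n6_col_card j _).trans ((Finset.card_union_le Q Q').trans (by omega)))
      have h1 := hQ (put G j n [y])
        (n6_agree (fun h => hy4 (n6_col_mono j Finset.subset_union_left h)))
      have h2 := hQ' (put G j n [y])
        (n6_agree (fun h => hy4 (n6_col_mono j Finset.subset_union_right h)))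
      refine ⟨y, hy1, hy2, ?_⟩
      simp only [CWin, hk]
      rintro ⟨u', hu', h3, -⟩
      rw [h1, hout] at hu'
      obtain rfl := Option.some.inj hu'
      exact h3 ⟨y, put_hit.2 ⟨hy1, hy2, List.mem_singleton.2 rfl⟩, hy3⟩
        ⟨w, hw1, by rw [h2]; exact hw2⟩
    · have hw' : Wt (req a.e).M₁ (req a.e).p₁ (mk B (put G j n [])) u := by
        by_contra hcon
        exact hb ⟨hw, hcon⟩
      obtain ⟨w, hw1, hw2⟩ := hw'
      obtain ⟨Q', hQc', hQ'⟩ := ((hc1 u w hw1).1 B).loc (put G j n [])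
      obtain ⟨y, hy1, hy2, hy3, hy4⟩ := pick_one _ n hlt false (n6_col j (Q ∪ Q'))
        ((n6_col_card j _).trans ((Finset.card_union_le Q Q').trans (by omega)))
      have h1 := hQ (put G j n [y])
        (n6_agree (fun h => hy4 (n6_col_mono j Finset.subset_union_left h)))
      have h2 := hQ' (put G j n [y])
        (n6_agree (fun h => hy4 (n6_col_mono j Finset.subset_union_right h)))
      refine ⟨y, hy1, hy2, ?_⟩
      simp only [CWin, hk]
      rintro ⟨u', hu', -, h3⟩
      rw [h1, hout] at hu'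
      obtain rfl := Option.some.inj hu'
      refine h3 (fun hT => ?_) ⟨w, hw1, by rw [h2]; exact hw2⟩
      have h4 := n6_hitT hT
      rw [hy3] at h4
      simp at h4

end Pool.Agent.H543R3.PC
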