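import Pool.Agent.H543R3.PC.DefsP
import Pool.Agent.H543R3.PC.A2
import Pool.Agent.H543R3.PC.A3

/-!
# P1: the classes of the guarded languages
-/

set_option autoImplicit false

namespace Pool.Agent.H543R3.PC

open Pool.Agent.NPC Pool.Agent.H628R3.RO

theorem isNP_of_isUP {A : Oracle} {L : Set (List Bool)} (h : IsUP A L) : IsNP A L := by
  obtain ⟨V, p, h1, h2, -⟩ := h
  exact ⟨V, p, h1, h2⟩

section
variable {B : List Bool → Bool} {G : GG} {S : Finset ℕ} {nH : ℕ}

theorem p1_semG_iff {κ : Kind} {i dflt : Bool} {z w : List Bool} :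
    semG S nH κ i dflt B (pairBits z w) G = [true] ↔
      (okZ S nH κ B G z ∧ (if i = true then Acc (req (zE z)).M₁ (req (zE z)).p₁ (mk B G) (zU z) w
        else Acc (req (zE z)).M₀ (req (zE z)).p₀ (mk B G) (zU z) w)) ∨
      (¬ okZ S nH κ B G z ∧ dflt = true ∧ w = []) := by
  unfold semG
  rw [unpair_pairBits]
  constructor
  · intro h
    by_contra hn
    rw [if_neg hn] at h
    exact List.cons_ne_nil _ _ h.symm
  · intro h
    rw [if_pos h]

theorem mem_KK {κ : Kind} {i dflt : Bool} {z : List Bool} :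
    z ∈ KK B G S nH κ i dflt ↔
      (okZ S nH κ B G z ∧ (if i = true then Wt (req (zE z)).M₁ (req (zE z)).p₁ (mk B G) (zU z)
        else Wt (req (zE z)).M₀ (req (zE z)).p₀ (mk B G) (zU z))) ∨
      (¬ okZ S nH κ B G z ∧ dflt = true) := by
  constructor
  · rintro ⟨w, hw⟩
    rw [p1_semG_iff] at hw
    rcases hw with ⟨h1, h2⟩ | ⟨h1, h2, -⟩
    · left
      refine ⟨h1, ?_⟩
      by_cases hi : i = true
      · rw [if_pos hi] at h2 ⊢
        exact ⟨w, h2⟩
      · rw [if_neg hi] at h2 ⊢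
        exact ⟨w, h2⟩
    · exact Or.inr ⟨h1, h2⟩
  · rintro (⟨h1, h2⟩ | ⟨h1, h2⟩)
    · by_cases hi : i = true
      · rw [if_pos hi] at h2
        obtain ⟨w, hw⟩ := h2
        refine ⟨w, p1_semG_iff.mpr (Or.inl ⟨h1, ?_⟩)⟩
        rw [if_pos hi]
        exact hw
      · rw [if_neg hi] at h2
        obtain ⟨w, hw⟩ := h2
        refine ⟨w, p1_semG_iff.mpr (Or.inl ⟨h1, ?_⟩)⟩
        rw [if_neg hi]
        exact hw
    · exact ⟨[], p1_semG_iff.mpr (Or.inr ⟨h1, h2, rfl⟩)⟩

theorem KK_isNP (hB : GuideP B) (κ : Kind) (i dflt : Bool) :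
    IsNP (mk B G) (KK B G S nH κ i dflt) := by
  obtain ⟨M, hM⟩ := hB (.gV S nH κ i dflt)
  refine ⟨fun x => semG S nH κ i dflt B x G, Polynomial.X, ⟨M, fun x => hM G x⟩, ?_⟩
  intro z
  constructor
  · rintro ⟨w, hw⟩
    refine ⟨w, ?_, hw⟩
    rw [Polynomial.eval_X]
    rw [p1_semG_iff] at hw
    rcases hw with ⟨h1, h2⟩ | ⟨-, -, h3⟩
    · have hc := (cR_spec (req (zE z))).2.2.2 (zU z).length
      have hg : zT z ≤ zR z :=
        le_trans (le_trans (Nat.le_add_right _ _) (Nat.le_add_right _ _)) h1.grd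
      have hl := zU_zR_len z
      have hT : zT z = (cR (req (zE z))).eval (zU z).length := rfl
      by_cases hi : i = true
      · rw [if_pos hi] at h2
        have h4 := h2.1
        have h5 := hc.2
        omega
      · rw [if_neg hi] at h2
        have h4 := h2.1
        have h5 := hc.1
        omega
    · rw [h3]
      simp
  · rintro ⟨w, -, hw⟩
    exact ⟨w, hw⟩

end

end Pool.Agent.H543R3.PC
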