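import Pool.Agent.H543R3.PC.DefsP
import Pool.Agent.H543R3.PC.N0
import Pool.Agent.H543R3.PC.N1
import Pool.Agent.H543R3.PC.N4
import Pool.Agent.H543R3.PC.N5
import Pool.Agent.H543R3.PC.N6
import Pool.Agent.H543R3.PC.P1

/-!
# M1: no complete set for `UP`, none for `NP ∩ coNP`
-/

namespace Pool.Agent.H543R3.PC

open Pool.Agent.NPC Pool.Agent.H628R3.RO

/-- membership in a language given by a verifier -/
theorem m1_wt {A : Oracle} {V : List Bool → List Bool} {p : Polynomial ℕ} {M : Alg}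
    (hM : ∀ x, M.out A x = some (V x)) {K : Set (List Bool)}
    (hK : ∀ x, x ∈ K ↔ ∃ w : List Bool, w.length ≤ p.eval x.length ∧ V (pairBits x w) = [true])
    (x : List Bool) : Wt M p A x ↔ x ∈ K := by
  rw [hK]
  unfold Wt Acc
  simp only [hM, Option.some.injEq]

theorem m1_len (n : ℕ) : (one n).length = n := by simp [one]

theorem m1_mem {G : GG} {j N n : ℕ} (hn : N ≤ n) (hl : Legal G j n) :
    one n ∈ LL G j N ↔ HitT G j n := by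
  unfold LL
  rw [Set.mem_ofPred_eq, m1_len]
  exact ⟨fun h => h.2.2, fun h => ⟨hn, hl.1, h⟩⟩

theorem neg_up {B : List Bool → Bool} {G : GG} (hB : GuideP B) {H : Set ℕ} (h : NegSit B G H) :
    ¬ HasUP (mk B G) := by
  rintro ⟨K, ⟨V, p, ⟨M, hM⟩, hK, hU⟩, hC⟩
  obtain ⟨e, -, he⟩ := req_spec ⟨.up, M, M, p, p⟩ 0
  have hr : ∀ u, ¬ CBad (req e) B G u := by
    intro u hu
    rw [he] at hu
    obtain ⟨w, w', hne, ⟨h1, h2⟩, ⟨h3, h4⟩⟩ := hu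
    simp only [hM, Option.some.injEq] at h2 h4
    exact hne (hU u w w' h1 h3 h2 h4)
  obtain ⟨j, hj, hej⟩ := h.inf.exists_gt e
  obtain ⟨N, hN⟩ := h.leg j
  obtain ⟨F, ⟨MF, hMF⟩, hF⟩ := hC _ (isUP_LL hB hN)
  have hk : (req (⟨MF, MF, e⟩ : Adv).e).kind = .up := by
    show (req e).kind = .up
    rw [he]
  obtain ⟨N₀, hN₀⟩ := comb_up ⟨MF, MF, e⟩ hk
  obtain ⟨n, hn, hl, hw⟩ := neg_core h hr hj hej.le ⟨MF, MF, e⟩ rfl
    ⟨N₀, fun n hn G' hG' => hN₀ n hn B G' j hG'⟩ N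
  unfold CWin at hw
  simp only [he] at hw
  apply hw
  refine ⟨F (one n), hMF _, ?_⟩
  rw [m1_wt hM hK, ← hF, m1_mem hn hl]

theorem neg_npc {B : List Bool → Bool} {G : GG} (hB : GuideP B) {H : Set ℕ} (h : NegSit B G H) :
    ¬ HasNPC (mk B G) := by
  rintro ⟨K, ⟨V, p, ⟨M, hM⟩, hK⟩, ⟨V', p', ⟨M', hM'⟩, hK'⟩, hC⟩
  obtain ⟨e, -, he⟩ := req_spec ⟨.npc, M, M', p, p'⟩ 0
  have hr : ∀ u, ¬ CBad (req e) B G u := by
    intro u hu
    rw [he] at hu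
    have h1 : Wt M p (mk B G) u ↔ Wt M' p' (mk B G) u := hu
    rw [m1_wt hM hK, m1_wt hM' hK', Set.mem_compl_iff] at h1
    tauto
  obtain ⟨j, hj, hej⟩ := h.inf.exists_gt e
  obtain ⟨N, hN⟩ := h.leg j
  obtain ⟨F, ⟨MF, hMF⟩, hF⟩ := hC _ (isNP_of_isUP (isUP_LL hB hN)) (isNP_of_isUP (isUP_LLc hB hN))
  have hk : (req (⟨MF, MF, e⟩ : Adv).e).kind = .npc := by
    show (req e).kind = .npc
    rw [he]
  obtain ⟨N₀, hN₀⟩ := comb_dec ⟨MF, MF, e⟩ (Or.inl hk)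
  obtain ⟨n, hn, hl, hw⟩ := neg_core h hr hj hej.le ⟨MF, MF, e⟩ rfl
    ⟨N₀, fun n hn G' hG' => hN₀ n hn B G' j hG'⟩ N
  unfold CWin at hw
  simp only [he] at hw
  apply hw
  refine ⟨F (one n), hMF _, ?_, ?_⟩
  · rw [m1_wt hM hK, ← hF, m1_mem hn hl]
    exact id
  · rw [m1_wt hM' hK', Set.mem_compl_iff, ← hF, m1_mem hn hl]
    exact id

end Pool.Agent.H543R3.PC
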