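import Pool.Agent.H543R3.PC.M1

/-!
# M2: no complete disjoint `NP` pair, no complete disjoint `coNP` pair
-/

namespace Pool.Agent.H543R3.PC

open Pool.Agent.NPC Pool.Agent.H628R3.RO

theorem neg_dnp {B : List Bool → Bool} {G : GG} (hB : GuideP B) {H : Set ℕ} (h : NegSit B G H) :
    ¬ HasDNP (mk B G) := by
  rintro ⟨K, K', ⟨⟨V, p, ⟨M, hM⟩, hK⟩, ⟨V', p', ⟨M', hM'⟩, hK'⟩, hD⟩, hC⟩
  obtain ⟨e, -, he⟩ := req_spec ⟨.dnp, M, M', p, p'⟩ 0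
  have hr : ∀ u, ¬ CBad (req e) B G u := by
    intro u hu
    rw [he] at hu
    have h1 : Wt M p (mk B G) u ∧ Wt M' p' (mk B G) u := hu
    rw [m1_wt hM hK, m1_wt hM' hK'] at h1
    exact hD u h1
  obtain ⟨j, hj, hej⟩ := h.inf.exists_gt e
  obtain ⟨N, hN⟩ := h.leg j
  obtain ⟨F, ⟨MF, hMF⟩, hF, hF'⟩ := hC (LL G j N) (LL G j N)ᶜ
    ⟨isNP_of_isUP (isUP_LL hB hN), isNP_of_isUP (isUP_LLc hB hN), fun x hx => hx.2 hx.1⟩
  have hk : (req (⟨MF, MF, e⟩ : Adv).e).kind = .dnp := by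
    show (req e).kind = .dnp
    rw [he]
  obtain ⟨N₀, hN₀⟩ := comb_dec ⟨MF, MF, e⟩ (Or.inr hk)
  obtain ⟨n, hn, hl, hw⟩ := neg_core h hr hj hej.le ⟨MF, MF, e⟩ rfl
    ⟨N₀, fun n hn G' hG' => hN₀ n hn B G' j hG'⟩ N
  unfold CWin at hw
  simp only [he] at hw
  apply hw
  refine ⟨F (one n), hMF _, fun hh => ?_, fun hh => ?_⟩
  · rw [m1_wt hM hK]
    exact hF _ ((m1_mem hn hl).2 hh)
  · rw [m1_wt hM' hK']
    exact hF' _ (fun h1 => hh ((m1_mem hn hl).1 h1))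

theorem neg_dconp {B : List Bool → Bool} {G : GG} (hB : GuideP B) {H : Set ℕ}
    (h : NegSit B G H) : ¬ HasDCoNP (mk B G) := by
  rintro ⟨K, K', ⟨⟨V, p, ⟨M, hM⟩, hK⟩, ⟨V', p', ⟨M', hM'⟩, hK'⟩, hD⟩, hC⟩
  obtain ⟨e, -, he⟩ := req_spec ⟨.dconp, M, M', p, p'⟩ 0
  have hr : ∀ u, ¬ CBad (req e) B G u := by
    intro u hu
    rw [he] at hu
    have h1 : ¬ Wt M p (mk B G) u ∧ ¬ Wt M' p' (mk B G) u := hu
    rw [m1_wt hM hK, m1_wt hM' hK', Set.mem_compl_iff, Set.mem_compl_iff, not_not, not_not] at h1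
    exact hD u h1
  obtain ⟨j, hj, hej⟩ := h.inf.exists_gt e
  obtain ⟨N, hN⟩ := h.leg j
  have hc0 : IsCoNP (mk B G) (LL G j N) := isNP_of_isUP (isUP_LLc hB hN)
  have hc1 : IsCoNP (mk B G) (LL G j N)ᶜ := by
    unfold IsCoNP
    rw [compl_compl]
    exact isNP_of_isUP (isUP_LL hB hN)
  obtain ⟨F, ⟨MF, hMF⟩, hF, hF'⟩ := hC (LL G j N) (LL G j N)ᶜ
    ⟨hc0, hc1, fun x hx => hx.2 hx.1⟩
  have hk : (req (⟨MF, MF, e⟩ : Adv).e).kind = .dconp := by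
    show (req e).kind = .dconp
    rw [he]
  obtain ⟨N₀, hN₀⟩ := comb_dconp ⟨MF, MF, e⟩ hk
  obtain ⟨n, hn, hl, hw⟩ := neg_core h hr hj hej.le ⟨MF, MF, e⟩ rfl
    ⟨N₀, fun n hn G' hG' => hN₀ n hn B G' j hG'⟩ N
  unfold CWin at hw
  simp only [he] at hw
  apply hw
  refine ⟨F (one n), hMF _, fun hh => ?_, fun hh => ?_⟩
  · rw [m1_wt hM hK, Set.mem_compl_iff, not_not]
    exact hF _ ((m1_mem hn hl).2 hh)
  · rw [m1_wt hM' hK', Set.mem_compl_iff, not_not]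
    exact hF' _ (fun h1 => hh ((m1_mem hn hl).1 h1))

end Pool.Agent.H543R3.PC
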