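import Pool.Agent.H543R3.PC.Reqs
import Pool.Agent.H543R3.PC.A1
import Pool.Agent.H543R3.PC.A3
import Pool.Agent.H543R3.PC.N3

/-! # N7: the reduction to a total search problem fails -/

set_option autoImplicit false

namespace Pool.Agent.H543R3.PC

open Pool.Agent.NPC Pool.Agent.H628R3.RO

theorem n7_put_ne {G : GG} {j n j' : ℕ} {y y' : List Bool} (h : ¬ (j' = j ∧ y' = y)) :
    put G j n [y] j' y' = put G j n [] j' y' := by
  unfold put
  split_ifs with h1
  · have hne : y' ≠ y := fun h2 => h ⟨h1.1, h2⟩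
    simp [hne]
  · rfl

theorem n7_put_hit {G : GG} {j n : ℕ} {y v : List Bool} (h : Hit (put G j n [y]) j n v) :
    v = y := by
  obtain ⟨h1, h2, h3⟩ := h
  unfold put at h3
  rw [if_pos ⟨rfl, h1⟩] at h3
  simpa [h2] using h3

theorem n7_mono (p : Polynomial ℕ) {a b : ℕ} (h : a ≤ b) : p.eval a ≤ p.eval b := by
  rw [Polynomial.eval_eq_sum, Polynomial.eval_eq_sum]
  exact Finset.sum_le_sum fun i _ => Nat.mul_le_mul_left _ (Nat.pow_le_pow_left h i)

theorem n7_len (x w : List Bool) : (pairBits x w).length = 2 * x.length + 1 + w.length :=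
  length_pairBits_A3 x w

/-- the queries to the block -/
noncomputable def n7_snd (Q : Finset (ℕ × List Bool)) : Finset (List Bool) := Q.image Prod.snd

theorem n7_loc {Q : Finset (ℕ × List Bool)} {G : GG} {j n : ℕ} {y : List Bool}
    (hy : y ∉ n7_snd Q) : ∀ q ∈ Q, put G j n [y] q.1 q.2 = put G j n [] q.1 q.2 := by
  intro q hq
  refine n7_put_ne fun h => hy ?_
  exact Finset.mem_image.2 ⟨q, hq, h.2⟩

theorem comb_tfnp (a : Adv) (hk : (req a.e).kind = .tfnp) :
    ∃ N₀, ∀ n, N₀ ≤ n → ∀ B G j, (∀ C u, ¬ CBad (req a.e) B (put G j n C) u) →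
      ∃ y, y.length = n ∧ y ≠ zer n ∧ CWin a B (put G j n [y]) j n := by
  classical
  obtain ⟨cF, hF⟩ := exists_costF a.F
  obtain ⟨cR, hR⟩ := exists_costF a.R
  obtain ⟨c0, h0⟩ := exists_costP (req a.e).M₀ (req a.e).p₀
  -- the bound
  set K : Polynomial ℕ := cF + c0.comp cF +
    cR.comp (2 * Polynomial.X + 1 + (req a.e).p₀.comp cF) + 1 with hK
  have hKe : ∀ n, K.eval n = cF.eval n + c0.eval (cF.eval n) +
      cR.eval (2 * n + 1 + (req a.e).p₀.eval (cF.eval n)) + 1 := by
    intro n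
    simp [hK, Polynomial.eval_comp]
  obtain ⟨N₀, hN₀⟩ := poly_lt (8 * K + 8)
  refine ⟨N₀, fun n hn B G j hC => ?_⟩
  have hn' : 8 * K.eval n + 8 < 2 ^ n := by
    have h := hN₀ n hn
    have he : (8 * K + 8 : Polynomial ℕ).eval n = 8 * K.eval n + 8 := by
      rw [Polynomial.eval_add, Polynomial.eval_mul]
      simp
    rwa [he] at h
  have hone : (one n).length = n := by simp [one]
  -- the run of the reduction on the empty block
  obtain ⟨hF1, -, hF3⟩ := hF (one n)
  rw [hone] at hF1 hF3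
  obtain ⟨Q1, hQ1, hQ1'⟩ := (hF1 B).loc (put G j n [])
  have key : ∀ y, y ∉ n7_snd Q1 →
      a.F.out (mk B (put G j n [y])) (one n) = a.F.out (mk B (put G j n [])) (one n) :=
    fun y hy => hQ1' _ (n7_loc hy)
  have hc1 : (n7_snd Q1).card ≤ cF.eval n := Finset.card_image_le.trans hQ1
  rcases hFu : a.F.out (mk B (put G j n [])) (one n) with _ | u
  · -- no output
    have hle : (n7_snd Q1).card ≤ K.eval n := by
      rw [hKe]; omega
    obtain ⟨y, hy1, hy2, -, hy3⟩ := pick_one (K.eval n) n hn' true _ hle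
    refine ⟨y, hy1, hy2, ?_⟩
    unfold CWin
    rw [hk]
    rintro ⟨u, hu, -⟩
    rw [key y hy3, hFu] at hu
    exact absurd hu (by simp)
  · -- the reduction gives an instance `u`
    have hul : u.length ≤ cF.eval n := hF3 _ u hFu
    have hW : Wt (req a.e).M₀ (req a.e).p₀ (mk B (put G j n [])) u := by
      have h := hC [] u
      unfold CBad at h
      rw [hk] at h
      exact not_not.1 h
    obtain ⟨w, hw1, hw2⟩ := hW
    have hwl : w.length ≤ (req a.e).p₀.eval (cF.eval n) := hw1.trans (n7_mono _ hul)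
    obtain ⟨Q2, hQ2, hQ2'⟩ := ((h0 u w hw1).1 B).loc (put G j n [])
    have hc2 : (n7_snd Q2).card ≤ c0.eval (cF.eval n) :=
      (Finset.card_image_le.trans hQ2).trans (n7_mono _ hul)
    obtain ⟨Q3, hQ3, hQ3'⟩ := ((hR (pairBits (one n) w)).1 B).loc (put G j n [])
    have hc3 : (n7_snd Q3).card ≤ cR.eval (2 * n + 1 + (req a.e).p₀.eval (cF.eval n)) := by
      refine (Finset.card_image_le.trans hQ3).trans (n7_mono _ ?_)
      rw [n7_len, hone]
      omega
    set v₀ : List Bool :=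
      (a.R.out (mk B (put G j n [])) (pairBits (one n) w)).getD [] with hv₀
    set Fs : Finset (List Bool) := insert v₀ (n7_snd Q1 ∪ n7_snd Q2 ∪ n7_snd Q3) with hFs
    have hle : Fs.card ≤ K.eval n := by
      rw [hKe]
      have e1 : Fs.card ≤ (n7_snd Q1 ∪ n7_snd Q2 ∪ n7_snd Q3).card + 1 :=
        Finset.card_insert_le _ _
      have e2 : (n7_snd Q1 ∪ n7_snd Q2 ∪ n7_snd Q3).card ≤
          (n7_snd Q1 ∪ n7_snd Q2).card + (n7_snd Q3).card := Finset.card_union_le _ _
      have e3 : (n7_snd Q1 ∪ n7_snd Q2).card ≤ (n7_snd Q1).card + (n7_snd Q2).card :=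
        Finset.card_union_le _ _
      omega
    obtain ⟨y, hy1, hy2, -, hy3⟩ := pick_one (K.eval n) n hn' true _ hle
    simp only [hFs, Finset.mem_insert, Finset.mem_union, not_or] at hy3
    obtain ⟨hyv, ⟨hyQ1, hyQ2⟩, hyQ3⟩ := hy3
    refine ⟨y, hy1, hy2, ?_⟩
    unfold CWin
    rw [hk]
    rintro ⟨u', hu', hall⟩
    rw [key y hyQ1, hFu] at hu'
    have huu : u' = u := (Option.some.inj hu').symm
    subst huu
    have hacc : Acc (req a.e).M₀ (req a.e).p₀ (mk B (put G j n [y])) u' w := by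
      refine ⟨hw1, ?_⟩
      have h := hQ2' (put G j n [y]) (n7_loc hyQ2)
      rw [h]
      exact hw2
    obtain ⟨v, hv, hhit⟩ := hall w hacc
    have h3 := hQ3' (put G j n [y]) (n7_loc hyQ3)
    have hvy : v = y := n7_put_hit hhit
    rw [h3] at hv
    apply hyv
    rw [hv₀, hv, Option.getD_some]
    exact hvy.symm

end Pool.Agent.H543R3.PC
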