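import Pool.Agent.H543R3.PC.N0
import Pool.Agent.H543R3.PC.N7
import Pool.Agent.H543R3.PC.DefsP
import Pool.Agent.H543R3.PC.N1

namespace Pool.Agent.H543R3.PC

open Pool.Agent.NPC Pool.Agent.H628R3.RO

section
variable {B : List Bool → Bool} {G : GG}

theorem neg_tfnp (hB : GuideP B) {H : Set ℕ} (h : NegSit B G H) : ¬ HasTFNP (mk B G) := by
  rintro ⟨R, ⟨⟨V, p, ⟨M, hM⟩, hV⟩, htot⟩, hcomp⟩
  obtain ⟨e, -, hre⟩ := req_spec ⟨.tfnp, M, M, p, p⟩ 0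
  have hAcc : ∀ u w, R u w ↔ Acc M p (mk B G) u w := by
    intro u w
    rw [hV u w]
    unfold Acc
    rw [hM]
    simp
  have hr : ∀ u, ¬ CBad (req e) B G u := by
    intro u
    simp only [CBad, hre, not_not]
    obtain ⟨y, hy⟩ := htot u
    exact ⟨y, (hAcc u y).1 hy⟩
  obtain ⟨j, hj, hej⟩ := h.inf.exists_gt e
  obtain ⟨N, hN⟩ := h.leg j
  obtain ⟨F, Gf, ⟨Fa, hFa⟩, ⟨Ga, hGa⟩, hred⟩ := hcomp _ (isTFNP_SS hB (j := j) (N := N) hN)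
  have hk : (req (Adv.mk Fa Ga e).e).kind = .tfnp := by
    show (req e).kind = .tfnp
    rw [hre]
  obtain ⟨N₀, hN₀⟩ := comb_tfnp ⟨Fa, Ga, e⟩ hk
  obtain ⟨n, hn, hleg, hwin⟩ := neg_core h hr hj hej.le ⟨Fa, Ga, e⟩ rfl
    ⟨N₀, fun n hn G' hG' => hN₀ n hn B G' j hG'⟩ N
  simp only [CWin, hre] at hwin
  apply hwin
  refine ⟨F (one n), hFa _, fun w hw => ⟨Gf (pairBits (one n) w), hGa _, ?_⟩⟩
  have h1 := hred (one n) w ((hAcc _ _).2 hw)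
  have hl : (one n).length = n := by simp [one]
  rcases h1 with ⟨h2, -⟩ | ⟨-, -, h2⟩
  · rw [hl] at h2
    exact absurd ⟨hn, hleg.1⟩ h2
  · rwa [hl] at h2

end

end Pool.Agent.H543R3.PC
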