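import Pool.Agent.H543R3.PC.DefsP

/-!
# Task N2: the special sets `setT` and `setS`
-/

namespace Pool.Agent.H543R3.PC

open Pool.Agent.NPC Pool.Agent.H628R3.RO

theorem n2_uC_len (j n : ℕ) : (uC j n).length = 2 * j + 1 + n := by
  unfold uC
  rw [Pool.Agent.H628R3.RO.length_pairBits_A3]
  simp [one]

theorem n2_uC_inj {j n j' n' : ℕ} (h : uC j n = uC j' n') : j = j' ∧ n = n' := by
  have h1 := congrArg unpair h
  unfold uC at h1
  rw [unpair_pairBits, unpair_pairBits, Prod.mk.injEq] at h1
  have h2 := congrArg List.length h1.1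
  have h3 := congrArg List.length h1.2
  simp only [one, List.length_replicate] at h2 h3
  exact ⟨h2, h3⟩

section
variable {B : List Bool → Bool} {G : GG}

theorem setT_isCoNP (hB : GuideP B) : IsCoNP (mk B G) (setT G) := by
  obtain ⟨M, hM⟩ := hB .uV
  refine ⟨fun x => semU x G, 3 * Polynomial.X + 1, ⟨M, fun x => hM G x⟩, fun x => ?_⟩
  have hev : (3 * Polynomial.X + 1 : Polynomial ℕ).eval x.length = 3 * x.length + 1 := by simp
  rw [hev]
  have h1 : x ∈ (setT G)ᶜ ↔ ∃ j n, x = uC j n ∧ TwoHits G j n := by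
    unfold setT
    simp only [Set.mem_compl_iff, Set.mem_ofPred_eq, not_not]
  rw [h1]
  constructor
  · rintro ⟨j, n, rfl, y, y', hy, hy', hne⟩
    refine ⟨pairBits y y', ?_, ?_⟩
    · rw [Pool.Agent.H628R3.RO.length_pairBits_A3, n2_uC_len, hy.1, hy'.1]
      omega
    · show semU (pairBits (uC j n) (pairBits y y')) G = [true]
      unfold semU
      rw [unpair_pairBits]
      simp only
      rw [unpair_pairBits, if_pos]
      exact ⟨j, n, rfl, hy, hy', hne⟩
  · rintro ⟨w, -, hw⟩
    change semU (pairBits x w) G = [true] at hw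
    unfold semU at hw
    rw [unpair_pairBits] at hw
    simp only at hw
    split_ifs at hw with hc
    · obtain ⟨j, n, hx, hy, hy', hne⟩ := hc
      exact ⟨j, n, hx, _, _, hy, hy', hne⟩

theorem setS_isNP (hB : GuideP B) : IsNP (mk B G) (setS G) := by
  obtain ⟨M, hM⟩ := hB .uV'
  refine ⟨fun x => semU' x G, Polynomial.X, ⟨M, fun x => hM G x⟩, fun x => ?_⟩
  have hev : (Polynomial.X : Polynomial ℕ).eval x.length = x.length := by simp
  rw [hev]
  have h1 : x ∈ setS G ↔ ¬ ∃ j n, x = uC j n ∧ NoHits G j n := Iff.rfl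
  rw [h1]
  constructor
  · intro hx
    by_cases hu : ∃ j n, x = uC j n
    · obtain ⟨j, n, rfl⟩ := hu
      by_cases ha : Act G j n
      · have hh : ∃ y, Hit G j n y := by
          by_contra hcon
          exact hx ⟨j, n, rfl, ha, fun y hy => hcon ⟨y, hy⟩⟩
        obtain ⟨y, hy⟩ := hh
        refine ⟨y, ?_, ?_⟩
        · rw [n2_uC_len, hy.1]
          omega
        · show semU' (pairBits (uC j n) y) G = [true]
          unfold semU'
          rw [unpair_pairBits, if_pos]
          exact Or.inl ⟨j, n, rfl, Or.inl hy⟩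
      · refine ⟨[], by simp, ?_⟩
        show semU' (pairBits (uC j n) []) G = [true]
        unfold semU'
        rw [unpair_pairBits, if_pos]
        exact Or.inl ⟨j, n, rfl, Or.inr ⟨ha, rfl⟩⟩
    · refine ⟨[], by simp, ?_⟩
      show semU' (pairBits x []) G = [true]
      unfold semU'
      rw [unpair_pairBits, if_pos]
      exact Or.inr ⟨hu, rfl⟩
  · rintro ⟨w, -, hw⟩ ⟨j, n, hxj, hno⟩
    change semU' (pairBits x w) G = [true] at hw
    unfold semU' at hw
    rw [unpair_pairBits] at hw
    simp only at hw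
    split_ifs at hw with hc
    · rcases hc with ⟨j', n', hx', hc⟩ | ⟨hc, -⟩
      · obtain ⟨rfl, rfl⟩ := n2_uC_inj (hxj.symm.trans hx')
        rcases hc with hc | ⟨hc, -⟩
        · exact hno.2 _ hc
        · exact hc hno.1
      · exact hc ⟨j, n, hxj⟩

end

end Pool.Agent.H543R3.PC
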