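import Pool.Agent.H543R3.PC.A1
import Pool.Agent.H543R3.PC.A3
import Pool.Agent.H543R3.PC.C1
import Pool.Agent.H543R3.PC.N3

/-! Task N8: adversaries against the special `NP` set and the special `coNP` set -/

namespace Pool.Agent.H543R3.PC

open Pool.Agent.NPC Pool.Agent.H628R3.RO

/-! ### N8: adversaries against the special `NP` set, and the special `coNP` set -/

section

variable {B : List Bool → Bool} {G : GG}

theorem comb_nS (a : Adv) (hk : (req a.e).kind = .nS) :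
    ∃ N₀, ∀ n, N₀ ≤ n → ∀ B G j, (∀ C u, ¬ CBad (req a.e) B (put G j n C) u) →
      ∃ y, y.length = n ∧ y ≠ zer n ∧ CWin a B (put G j n [y]) j n := by
  classical
  obtain ⟨c₁, hc₁⟩ := exists_costF a.F
  obtain ⟨c₀, hc₀⟩ := exists_costF (req a.e).M₀
  obtain ⟨N₀, hN₀⟩ := poly_lt (8 * (c₁ + c₀.comp c₁) + 8)
  refine ⟨N₀, fun n hn B G j hC => ?_⟩
  have hlt := hN₀ n hn
  have hev : (8 * (c₁ + c₀.comp c₁) + 8 : Polynomial ℕ).eval n =
      8 * (c₁.eval n + c₀.eval (c₁.eval n)) + 8 := by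
    simp [Polynomial.eval_comp]
  rw [hev] at hlt
  have h1n : (one n).length = n := by simp [one]
  by_contra hcon
  push Not at hcon
  -- the reduction does not fail at any hit
  have hred : ∀ y : List Bool, y.length = n → y ≠ zer n →
      ∃ v, a.F.out (mk B (put G j n [y])) (one n) = some v ∧
        (req a.e).M₀.out (mk B (put G j n [y])) v = some (uC j n) := by
    intro y hy hy'
    have h := hcon y hy hy'
    unfold CWin at h
    rw [hk] at h
    simp only [not_not] at h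
    exact h
  -- agreement of `put G j n [y]` and `put G j n []`
  have hagr : ∀ (Q : Finset (ℕ × List Bool)) (y : List Bool), y ∉ Q.image Prod.snd →
      ∀ q ∈ Q, put G j n [y] q.1 q.2 = put G j n [] q.1 q.2 := by
    intro Q y hy q hq
    have hne : q.2 ≠ y := fun h => hy (h ▸ Finset.mem_image_of_mem Prod.snd hq)
    by_cases h : q.1 = j ∧ q.2.length = n
    · rw [h.1, put_at h.2, put_at h.2]
      simp [hne]
    · rw [put_ne h, put_ne h]
  obtain ⟨Q₁, hQ₁, hQ₁'⟩ := ((hc₁ (one n)).1 B).loc (put G j n [])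
  rw [h1n] at hQ₁
  have hcard : ∀ Q : Finset (ℕ × List Bool), (Q.image Prod.snd).card ≤ Q.card :=
    fun Q => Finset.card_image_le
  obtain ⟨y₁, hy₁, hy₁', -, hy₁F⟩ := pick_one (c₁.eval n + c₀.eval (c₁.eval n)) n hlt true
    (Q₁.image Prod.snd) ((hcard Q₁).trans (hQ₁.trans (Nat.le_add_right _ _)))
  obtain ⟨v, hv, -⟩ := hred y₁ hy₁ hy₁'
  have hv0 : a.F.out (mk B (put G j n [])) (one n) = some v := by
    rw [← hv]
    exact (hQ₁' _ (hagr Q₁ y₁ hy₁F)).symm
  have hvl : v.length ≤ c₁.eval n := by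
    have := (hc₁ (one n)).2.2 _ v hv0
    rwa [h1n] at this
  obtain ⟨Q₂, hQ₂, hQ₂'⟩ := ((hc₀ v).1 B).loc (put G j n [])
  have hQ₂c : Q₂.card ≤ c₀.eval (c₁.eval n) := hQ₂.trans (eval_mono c₀ hvl)
  obtain ⟨y₂, hy₂, hy₂', -, hy₂F⟩ := pick_one (c₁.eval n + c₀.eval (c₁.eval n)) n hlt true
    (Q₁.image Prod.snd ∪ Q₂.image Prod.snd)
    ((Finset.card_union_le _ _).trans (Nat.add_le_add ((hcard Q₁).trans hQ₁)
      ((hcard Q₂).trans hQ₂c)))
  rw [Finset.mem_union, not_or] at hy₂F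
  obtain ⟨v', hv', hM⟩ := hred y₂ hy₂ hy₂'
  have hvv : v' = v := by
    have h2 : a.F.out (mk B (put G j n [y₂])) (one n) = a.F.out (mk B (put G j n [])) (one n) :=
      hQ₁' _ (hagr Q₁ y₂ hy₂F.1)
    rw [hv', hv0] at h2
    exact Option.some.inj h2
  subst hvv
  have hM0 : (req a.e).M₀.out (mk B (put G j n [])) v' = some (uC j n) := by
    rw [← hM]
    exact (hQ₂' _ (hagr Q₂ y₂ hy₂F.2)).symm
  apply hC [] v'
  unfold CBad
  rw [hk]
  simp only
  refine ⟨uC j n, hM0, ?_⟩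
  unfold setS
  simp only [Set.mem_ofPred_eq, not_not]
  refine ⟨j, n, rfl, put_act, fun y hy => ?_⟩
  rw [put_hit] at hy
  simp at hy

theorem comb_nT (r : Req) (hk : r.kind = .nT) (q : Polynomial ℕ) :
    ∃ N₀, ∀ n, N₀ ≤ n → ∀ B G j, Legal G j n → (∀ C u, ¬ CBad r B (put G j n C) u) →
      ∀ v : List Bool, v.length ≤ q.eval n → r.M₀.out (mk B G) v ≠ some (uC j n) := by
  classical
  obtain ⟨c₀, hc₀⟩ := exists_costF r.M₀
  obtain ⟨N₀, hN₀⟩ := poly_lt (8 * (c₀.comp q + 1) + 8)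
  refine ⟨N₀, fun n hn B G j hL hC v hv hM => ?_⟩
  have hlt := hN₀ n hn
  have hev : (8 * (c₀.comp q + 1) + 8 : Polynomial ℕ).eval n =
      8 * (c₀.eval (q.eval n) + 1) + 8 := by
    simp [Polynomial.eval_comp]
  rw [hev] at hlt
  obtain ⟨hA, y, hy, hyu⟩ := hL
  obtain ⟨Q, hQ, hQ'⟩ := ((hc₀ v).1 B).loc G
  have hQc : Q.card ≤ c₀.eval (q.eval n) := hQ.trans (eval_mono c₀ hv)
  obtain ⟨y', hy', hy'z, -, hy'F⟩ := pick_one (c₀.eval (q.eval n) + 1) n hlt true
    (Q.image Prod.snd ∪ {y})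
    ((Finset.card_union_le _ _).trans (Nat.add_le_add (Finset.card_image_le.trans hQc)
      (by simp)))
  rw [Finset.mem_union, not_or, Finset.mem_singleton] at hy'F
  have hagr : ∀ p ∈ Q, put G j n [y, y'] p.1 p.2 = G p.1 p.2 := by
    intro p hp
    have hne : p.2 ≠ y' := fun h => hy'F.1 (h ▸ Finset.mem_image_of_mem Prod.snd hp)
    by_cases h : p.1 = j ∧ p.2.length = n
    · rw [h.1, put_at h.2]
      by_cases h1 : p.2 = zer n
      · rw [h1]
        have : G j (zer n) = true := hA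
        simp [this]
      · by_cases h2 : p.2 = y
        · rw [h2, hy.2.2]
          simp
        · have h3 : G j p.2 = false := by
            by_contra h4
            rw [Bool.not_eq_false] at h4
            exact h2 (hyu p.2 ⟨h.2, h1, h4⟩)
          rw [h3]
          simp [h1, h2, hne]
    · rw [put_ne h]
  have hM' : r.M₀.out (mk B (put G j n [y, y'])) v = some (uC j n) := by
    rw [← hM]
    exact hQ' _ hagr
  apply hC [y, y'] v
  unfold CBad
  rw [hk]
  simp only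
  refine ⟨uC j n, hM', ?_⟩
  unfold setT
  simp only [Set.mem_ofPred_eq, not_not]
  refine ⟨j, n, rfl, y, y', ?_, ?_, fun h => hy'F.2 h.symm⟩
  · rw [put_hit]
    exact ⟨hy.1, hy.2.1, by simp⟩
  · rw [put_hit]
    exact ⟨hy', hy'z, by simp⟩

end

end Pool.Agent.H543R3.PC
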