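import Pool.Agent.H543R3.PC.A2
import Pool.Agent.H543R3.PC.N0
import Pool.Agent.H543R3.PC.N2
import Pool.Agent.H543R3.PC.DefsP
import Pool.Agent.H543R3.PC.N8

/-!
# M4: no optimal proof systems for `coNP`-complete sets, if infinitely many columns are infinite
(helper204)
-/

namespace Pool.Agent.H543R3.PC

open Pool.Agent.NPC Pool.Agent.H628R3.RO

section
variable {B : List Bool → Bool} {G : GG}

theorem m4_not_two {j n : ℕ} (h : Legal G j n ∨ Inact G j n) : ¬ TwoHits G j n := by
  rintro ⟨y, y', hy, hy', hne⟩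
  rcases h with ⟨-, z, -, hz⟩ | h
  · exact hne ((hz y hy).trans (hz y' hy').symm)
  · have h1 := h y hy.1
    rw [hy.2.2] at h1
    exact Bool.noConfusion h1

/-- the proof system with short proofs for the names of the blocks of column `j` -/
def m4Q (j N : ℕ) (P : List Bool → List Bool) (w : List Bool) : List Bool :=
  if w.head? = some true then (if N ≤ w.tail.length then uC j w.tail.length else P [])
  else P w.tail

theorem m4Q_isFP {A : Oracle} (j N : ℕ) {P : List Bool → List Bool} (hP : IsFP A P) :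
    IsFP A (m4Q j N P) := by
  have h0 := Poly.comp (poly_uC j) (Poly.tail (Poly.id (α := List Bool)))
  have h1 : Poly (fun w : List Bool => if N ≤ w.tail.length then uC j w.tail.length else P []) :=
    Poly.ite (Poly.decide_le (NPC.Poly.const N) (Poly.length (Poly.tail Poly.id)))
      h0 (NPC.Poly.const _)
  have h2 : IsFP A (fun w : List Bool =>
      if N ≤ w.tail.length then uC j w.tail.length else P []) := IsFP.of_poly h1
  exact IsFP.seq (φ := fun p => p.1.tail)
    (ψ := fun p => if p.1.head? = some true then p.2.1 else p.2.2) h2 hP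
    (Poly.tail (Poly.fst Poly.id))
    (Poly.ite (Poly.decide_eq (Poly.head? (Poly.fst Poly.id)) (NPC.Poly.const _))
      (Poly.fst (Poly.snd Poly.id)) (Poly.snd (Poly.snd Poly.id)))

theorem m4Q_isProofSystem {A : Oracle} {j N : ℕ} {P : List Bool → List Bool}
    (hP : IsProofSystem A (setT G) P) (hN : ∀ n, N ≤ n → Legal G j n ∨ Inact G j n) :
    IsProofSystem A (setT G) (m4Q j N P) := by
  refine ⟨m4Q_isFP j N hP.1, ?_⟩
  have hr : ∀ w, P w ∈ setT G := by
    intro w
    rw [← hP.2]
    exact ⟨w, rfl⟩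
  ext x
  constructor
  · rintro ⟨w, rfl⟩
    unfold m4Q
    split_ifs with h1 h2
    · rintro ⟨j', n', h3, h4⟩
      obtain ⟨rfl, rfl⟩ := uC_inj h3
      exact m4_not_two (hN _ h2) h4
    · exact hr _
    · exact hr _
  · intro hx
    rw [← hP.2] at hx
    obtain ⟨v, hv⟩ := hx
    refine ⟨false :: v, ?_⟩
    unfold m4Q
    rw [if_neg (by simp), List.tail_cons, hv]

theorem neg_opt (hB : GuideP B) {H : Set ℕ} (h : NegSit B G H) : ¬ HasOpt (mk B G) := by
  rintro ⟨L, -, hL2, P, hP⟩
  have hne : (setT G).Nonempty := by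
    refine ⟨[], ?_⟩
    rintro ⟨j, n, h1, -⟩
    have h2 := congrArg List.length h1
    rw [uC_len, List.length_nil] at h2
    omega
  obtain ⟨P₀, hP₀⟩ := IsOptimal.transfer hP (hL2 (setT G) (setT_isCoNP hB)) hne
  obtain ⟨M, hM⟩ := hP₀.1.1
  have hr : ∀ w, P₀ w ∈ setT G := by
    intro w
    rw [← hP₀.1.2]
    exact ⟨w, rfl⟩
  obtain ⟨e, -, he⟩ := req_spec ⟨.nT, M, M, 0, 0⟩ 0
  have hbad : ∀ u, ¬ CBad (req e) B G u := by
    intro u
    rw [he]
    rintro ⟨z, hz1, hz2⟩
    have h1 : M.out (mk B G) u = some z := hz1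
    rw [hM, Option.some.injEq] at h1
    rw [← h1] at hz2
    exact hz2 (hr u)
  obtain ⟨m, S, hS, hleg, hrob⟩ := h.rob e hbad
  obtain ⟨j, hj, hej⟩ := h.inf.exists_gt e
  obtain ⟨N, hN⟩ := h.leg j
  obtain ⟨q, hq⟩ := hP₀.2 (m4Q j N P₀) (m4Q_isProofSystem hP₀.1 hN)
  obtain ⟨N₀, hN₀⟩ := comb_nT (req e) (by rw [he]) (q.comp (Polynomial.X + 1))
  obtain ⟨n, hn, hln⟩ := h.act j hj (max N₀ (max N m))
  have hn1 : N₀ ≤ n := (le_max_left _ _).trans hn
  have hn2 : N ≤ n := (le_max_left _ _).trans ((le_max_right _ _).trans hn)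
  have hn3 : m ≤ n := (le_max_right _ _).trans ((le_max_right _ _).trans hn)
  obtain ⟨v, hv, hvl⟩ := hq (true :: one n)
  have h1 : m4Q j N P₀ (true :: one n) = uC j n := by
    unfold m4Q
    rw [if_pos (by simp), List.tail_cons, one, List.length_replicate, if_pos hn2]
  have h2 : v.length ≤ (q.comp (Polynomial.X + 1)).eval n := by
    rw [List.length_cons, one, List.length_replicate] at hvl
    simpa only [Polynomial.eval_comp, Polynomial.eval_add, Polynomial.eval_X,
      Polynomial.eval_one] using hvl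
  refine hN₀ n hn1 B G j hln (fun C u => hrob _ (leg_put' hS hleg hn3 hej.le C) u) v h2 ?_
  rw [he, ← h1, ← hv]
  exact hM v

end

end Pool.Agent.H543R3.PC
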