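import Pool.Agent.H543R3.PC.M5a
import Pool.Agent.H543R3.PC.N0
import Pool.Agent.H543R3.PC.N2
import Pool.Agent.H543R3.PC.N8

/-!
# Task M5: no p-optimal proof system for an NP-complete set
-/

namespace Pool.Agent.H543R3.PC

open Pool.Agent.NPC Pool.Agent.H628R3.RO

variable {B : List Bool → Bool} {G : GG}

theorem neg_poptS (hB : GuideP B) {H : Set ℕ} (h : NegSit B G H) : ¬ HasPOptS (mk B G) :=
  m5_neg_poptS_of h (setS_isNP hB) (fun hr _ hj hej a ha hc N => neg_core h hr hj hej a ha hc N)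
    comb_nS

end Pool.Agent.H543R3.PC
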