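import Pool.Agent.H543R3.PC.A2
import Pool.Agent.H543R3.PC.E1

/-!
# P0: guarded instances
-/

namespace Pool.Agent.H543R3.PC

open Pool.Agent.NPC Pool.Agent.H628R3.RO

theorem p0_tr_eq {M : ℕ} {G : GG} {j : ℕ} {y : List Bool} (h : j + y.length < M) :
    tr M G j y = G j y := by
  unfold tr
  rw [decide_eq_true h, Bool.true_and]

theorem p0_tr_far {M : ℕ} {G : GG} {j : ℕ} {y : List Bool} (h : ¬ j + y.length < M) :
    tr M G j y = false := by
  unfold tr
  rw [decide_eq_false h, Bool.false_and]

theorem p0_zer_len (n : ℕ) : (zer n).length = n := List.length_replicate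

theorem p0_act {M : ℕ} {G : GG} {j n : ℕ} (h : j + n < M) : Act (tr M G) j n ↔ Act G j n := by
  unfold Act
  rw [p0_tr_eq (by rw [p0_zer_len]; exact h)]

theorem p0_inact {M : ℕ} {G : GG} {j n : ℕ} (h : Inact G j n) : Inact (tr M G) j n := by
  intro y hy
  unfold tr
  rw [h y hy, Bool.and_false]

theorem p0_inact_far {M : ℕ} {G : GG} {j n : ℕ} (h : ¬ j + n < M) : Inact (tr M G) j n := by
  intro y hy
  exact p0_tr_far (by rw [hy]; exact h)

theorem p0_hit {M : ℕ} {G : GG} {j n : ℕ} (h : j + n < M) (y : List Bool) :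
    Hit (tr M G) j n y ↔ Hit G j n y := by
  unfold Hit
  constructor
  · rintro ⟨h1, h2, h3⟩
    rw [p0_tr_eq (by rw [h1]; exact h)] at h3
    exact ⟨h1, h2, h3⟩
  · rintro ⟨h1, h2, h3⟩
    refine ⟨h1, h2, ?_⟩
    rw [p0_tr_eq (by rw [h1]; exact h)]
    exact h3

theorem p0_legal {M : ℕ} {G : GG} {j n : ℕ} (h : j + n < M) (hl : Legal G j n) :
    Legal (tr M G) j n := by
  obtain ⟨h1, y, h2, h3⟩ := hl
  exact ⟨(p0_act h).2 h1, y, (p0_hit h y).2 h2, fun y' hy' => h3 y' ((p0_hit h y').1 hy')⟩

section
variable {B : List Bool → Bool} {G : GG} {S : Finset ℕ} {nH : ℕ}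

theorem ok_sound (h : PosSit B G S nH) {κ : Kind} {z : List Bool} (hz : okZ S nH κ B G z) :
    ¬ CBad (req (zE z)) B G (zU z) := by
  have hL : Leg (zE z) S (zm z) (tab (zF z)) (tr (max (zT z + 1) (zm z)) G) := by
    refine ⟨?_, ?_, ?_, ?_⟩
    · intro j y hy
      rw [p0_tr_eq (lt_of_lt_of_le hy (le_max_right _ _))]
      exact hz.agr j y hy
    · intro j n hn
      by_cases hM : j + n < max (zT z + 1) (zm z)
      · rcases h.inv j n with h1 | h1
        · exact Or.inl ((p0_act hM).2 h1)
        · exact Or.inr (p0_inact h1)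
      · exact Or.inr (p0_inact_far hM)
    · intro j hj n hn
      by_cases hM : j + n < max (zT z + 1) (zm z)
      · rcases h.leg j hj n (hz.low.trans hn) with h1 | h1
        · exact Or.inl (p0_legal hM h1)
        · exact Or.inr (p0_inact h1)
      · exact Or.inr (p0_inact_far hM)
    · intro j hj hjS n hn
      by_cases hM : j + n < max (zT z + 1) (zm z)
      · have hT : j + n ≤ zT z := by
          rcases lt_max_iff.1 hM with h1 | h1
          · omega
          · omega
        rcases h.inv j n with h1 | h1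
        · exact absurd h1 (hz.ina j hj hjS n hn hT)
        · exact p0_inact h1
      · exact p0_inact_far hM
  have hA : Agr ((cR (req (zE z))).eval (zU z).length + 1) G (tr (max (zT z + 1) (zm z)) G) :=
    fun j y hy => p0_tr_eq (lt_of_lt_of_le hy (le_max_left _ _))
  rw [← CBad_agr (req (zE z)) (zU z) hA]
  exact hz.rob _ hL

theorem ok_complete (h : PosSit B G S nH) (r : Req) (hr : ∀ u, ¬ CBad r B G u) :
    ∃ ζ : List Bool → List Bool, Poly ζ ∧
      ∀ u, okZ S nH r.kind B G (ζ u) ∧ req (zE (ζ u)) = r ∧ zU (ζ u) = u := by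
  obtain ⟨e, he, her⟩ := req_spec r (S.sup id + 1)
  have hS : ∀ i ∈ S, i < e := by
    intro i hi
    have := Finset.le_sup (f := id) hi
    simp only [id] at this
    omega
  obtain ⟨m, hm, hL, hrob⟩ := h.rob e hS (fun u => by rw [her]; exact hr u)
  obtain ⟨F, hF⟩ := exists_tab m G
  obtain ⟨k, hk⟩ := decZ_surjective (e, m, F)
  let R : Polynomial ℕ := cR r + Polynomial.C e * (cR r + 1) + Polynomial.C (2 ^ (m + 2))
  refine ⟨fun u => zM k u (R.eval u.length), poly_zM k R, fun u => ?_⟩
  have hK := zK_zM k u (R.eval u.length)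
  have hU := zU_zM k u (R.eval u.length)
  have hR := zR_zM k u (R.eval u.length)
  have hE : zE (zM k u (R.eval u.length)) = e := by
    unfold zE
    rw [hK, hk]
  have hmm : zm (zM k u (R.eval u.length)) = m := by
    unfold zm
    rw [hK, hk]
  have hFF : zF (zM k u (R.eval u.length)) = F := by
    unfold zF
    rw [hK, hk]
  have hT : zT (zM k u (R.eval u.length)) = (cR r).eval u.length := by
    unfold zT
    rw [hE, hU, her]
  refine ⟨?_, ?_, hU⟩
  · refine ⟨?_, ?_, ?_, ?_, ?_, ?_, ?_⟩
    · show (req (zE (zM k u (R.eval u.length)))).kind = r.kind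
      rw [hE, her]
    · show ∀ i ∈ S, i < zE (zM k u (R.eval u.length))
      rw [hE]
      exact hS
    · show nH ≤ zm (zM k u (R.eval u.length))
      rw [hmm]
      exact hm
    · show zT (zM k u (R.eval u.length)) + zE (zM k u (R.eval u.length)) *
        (zT (zM k u (R.eval u.length)) + 1) + 2 ^ (zm (zM k u (R.eval u.length)) + 2) ≤
          zR (zM k u (R.eval u.length))
      rw [hT, hE, hmm, hR]
      simp only [R, Polynomial.eval_add, Polynomial.eval_mul, Polynomial.eval_C,
        Polynomial.eval_one]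
      exact le_refl _
    · show ∀ G', Leg (zE (zM k u (R.eval u.length))) S (zm (zM k u (R.eval u.length)))
        (tab (zF (zM k u (R.eval u.length)))) G' →
          ¬ CBad (req (zE (zM k u (R.eval u.length)))) B G' (zU (zM k u (R.eval u.length)))
      rw [hE, hmm, hFF, hU]
      intro G' hG'
      exact hrob G' ⟨fun j y hy => (hG'.agr j y hy).trans (hF j y hy).symm, hG'.inv, hG'.leg,
        hG'.ina⟩ u
    · show Agr (zm (zM k u (R.eval u.length))) (tab (zF (zM k u (R.eval u.length)))) G
      rw [hmm, hFF]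
      exact hF
    · show ∀ j, j < zE (zM k u (R.eval u.length)) → j ∉ S → ∀ n,
        zm (zM k u (R.eval u.length)) ≤ j + n → j + n ≤ zT (zM k u (R.eval u.length)) →
          ¬ Act G j n
      rw [hE, hmm]
      intro j hj hjS n hn _ hact
      have h1 := hL.ina j hj hjS n hn (zer n) (p0_zer_len n)
      unfold Act at hact
      rw [hact] at h1
      exact Bool.noConfusion h1
  · show req (zE (zM k u (R.eval u.length))) = r
    rw [hE, her]

end

end Pool.Agent.H543R3.PC
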