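import Pool.Agent.H543R3.PC.DefsP
import Pool.Agent.H543R3.PC.P0
import Pool.Agent.H543R3.PC.A2
import Pool.Agent.H543R3.PC.A3

/-!
# P2: a complete set for `UP`
-/

namespace Pool.Agent.H543R3.PC

open Pool.Agent.NPC Pool.Agent.H628R3.RO

section
variable {B : List Bool → Bool} {G : GG} {S : Finset ℕ} {nH : ℕ}

theorem p2_semG_iff {z w : List Bool} :
    semG S nH .up false false B (pairBits z w) G = [true] ↔
      okZ S nH .up B G z ∧ Acc (req (zE z)).M₀ (req (zE z)).p₀ (mk B G) (zU z) w := by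
  unfold semG
  rw [unpair_pairBits]
  simp

theorem p2_isUP (hB : GuideP B) (h : PosSit B G S nH) :
    IsUP (mk B G) (KK B G S nH .up false false) := by
  obtain ⟨M, hM⟩ := hB (.gV S nH .up false false)
  refine ⟨fun x => semG S nH .up false false B x G, Polynomial.X, ⟨M, fun x => hM G x⟩, ?_, ?_⟩
  · intro z
    constructor
    · rintro ⟨w, hw⟩
      refine ⟨w, ?_, hw⟩
      obtain ⟨hok, hacc⟩ := p2_semG_iff.1 hw
      have h1 : w.length ≤ (req (zE z)).p₀.eval (zU z).length := hacc.1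
      have h2 : (req (zE z)).p₀.eval (zU z).length ≤ (cR (req (zE z))).eval (zU z).length :=
        ((cR_spec (req (zE z))).2.2.2 _).1
      have h3 : (cR (req (zE z))).eval (zU z).length = zT z := rfl
      have h4 := hok.grd
      have h5 := zU_zR_len z
      rw [Polynomial.eval_X]
      generalize 2 ^ (zm z + 2) = q at h4
      generalize zE z * (zT z + 1) = q' at h4
      omega
    · rintro ⟨w, -, hw⟩
      exact ⟨w, hw⟩
  · intro z w w' _ _ hw hw'
    obtain ⟨hok, hacc⟩ := p2_semG_iff.1 hw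
    obtain ⟨-, hacc'⟩ := p2_semG_iff.1 hw'
    by_contra hne
    apply ok_sound h hok
    unfold CBad
    rw [hok.kind]
    exact ⟨w, w', hne, hacc, hacc'⟩

theorem pos_up (hB : GuideP B) (h : PosSit B G S nH) : HasUP (mk B G) := by
  refine ⟨KK B G S nH .up false false, p2_isUP hB h, ?_⟩
  rintro L ⟨V, p, ⟨M, hM⟩, hmem, huniq⟩
  have hacc : ∀ u w, Acc M p (mk B G) u w ↔
      w.length ≤ p.eval u.length ∧ V (pairBits u w) = [true] := by
    intro u w
    unfold Acc
    rw [hM, Option.some.injEq]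
  have hr : ∀ u, ¬ CBad (⟨.up, M, M, p, 0⟩ : Req) B G u := by
    rintro u ⟨w, w', hne, h1, h2⟩
    have h1' := (hacc u w).1 h1
    have h2' := (hacc u w').1 h2
    exact hne (huniq u w w' h1'.1 h2'.1 h1'.2 h2'.2)
  obtain ⟨ζ, hζ, hζ'⟩ := ok_complete h (⟨.up, M, M, p, 0⟩ : Req) hr
  refine ⟨ζ, IsFP.of_poly hζ, ?_⟩
  intro x
  obtain ⟨hok, hreq, hu⟩ := hζ' x
  have hok' : okZ S nH .up B G (ζ x) := hok
  rw [hmem x]
  constructor
  · rintro ⟨w, hw1, hw2⟩
    refine ⟨w, p2_semG_iff.2 ⟨hok', ?_⟩⟩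
    rw [hreq, hu]
    exact (hacc x w).2 ⟨hw1, hw2⟩
  · rintro ⟨w, hw⟩
    obtain ⟨-, h2⟩ := p2_semG_iff.1 hw
    rw [hreq, hu] at h2
    exact ⟨w, (hacc x w).1 h2⟩

end

end Pool.Agent.H543R3.PC
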