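import Pool.Agent.H543R3.PC.P0
import Pool.Agent.H543R3.PC.P1

/-!
# P3: `NP ∩ coNP` has a complete set
-/

namespace Pool.Agent.H543R3.PC

open Pool.Agent.NPC Pool.Agent.H628R3.RO

variable {B : List Bool → Bool} {G : GG} {S : Finset ℕ} {nH : ℕ}

theorem p3_cbad {r : Req} (hr : r.kind = .npc) (u : List Bool) :
    CBad r B G u ↔ (Wt r.M₀ r.p₀ (mk B G) u ↔ Wt r.M₁ r.p₁ (mk B G) u) := by
  unfold CBad
  rw [hr]

theorem p3_compl (h : PosSit B G S nH) :
    (KK B G S nH .npc false false)ᶜ = KK B G S nH .npc true true := by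
  ext z
  rw [Set.mem_compl_iff, mem_KK, mem_KK]
  by_cases hz : okZ S nH .npc B G z
  · have h1 := ok_sound h hz
    rw [p3_cbad hz.kind] at h1
    simp only [Bool.false_eq_true, if_false, if_true, hz, not_true_eq_false, true_and, false_and,
      or_false]
    tauto
  · simp [hz]

theorem p3_wt {A : Oracle} {V : List Bool → List Bool} {M : Alg} {p : Polynomial ℕ}
    (hM : ∀ x, M.out A x = some (V x)) (u : List Bool) :
    Wt M p A u ↔ ∃ w : List Bool, w.length ≤ p.eval u.length ∧ V (pairBits u w) = [true] := by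
  unfold Wt Acc
  simp only [hM, Option.some.injEq]

theorem pos_npc (hB : GuideP B) (h : PosSit B G S nH) : HasNPC (mk B G) := by
  refine ⟨KK B G S nH .npc false false, KK_isNP hB .npc false false, ?_, ?_⟩
  · unfold IsCoNP
    rw [p3_compl h]
    exact KK_isNP hB .npc true true
  · rintro L ⟨V, p, ⟨M, hM⟩, hL⟩ ⟨V', p', ⟨M', hM'⟩, hL'⟩
    have h0 : ∀ u, Wt M p (mk B G) u ↔ u ∈ L := fun u => (p3_wt hM u).trans (hL u).symm
    have h1 : ∀ u, Wt M' p' (mk B G) u ↔ u ∉ L := fun u => (p3_wt hM' u).trans (hL' u).symm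
    have hr : ∀ u, ¬ CBad ⟨.npc, M, M', p, p'⟩ B G u := by
      intro u hu
      have h2 : Wt M p (mk B G) u ↔ Wt M' p' (mk B G) u := hu
      rw [h0, h1] at h2
      tauto
    obtain ⟨ζ, hζ, hz⟩ := ok_complete h ⟨.npc, M, M', p, p'⟩ hr
    refine ⟨ζ, IsFP.of_poly hζ, fun u => ?_⟩
    obtain ⟨h3, h4, h5⟩ := hz u
    have h3' : okZ S nH .npc B G (ζ u) := h3
    rw [mem_KK, h4, h5]
    simp only [Bool.false_eq_true, if_false, h3', not_true_eq_false, true_and, false_and, or_false]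
    exact (h0 u).symm

end Pool.Agent.H543R3.PC
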