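import Pool.Agent.H543R3.PC.P0
import Pool.Agent.H543R3.PC.P1

/-!
# P4: there is a complete disjoint `NP` pair in the first situation
-/

namespace Pool.Agent.H543R3.PC

open Pool.Agent.NPC Pool.Agent.H628R3.RO

section
variable {B : List Bool → Bool} {G : GG} {S : Finset ℕ} {nH : ℕ}

/-- an `NP` language is accepted by an algorithm -/
theorem p4_alg {A : Oracle} {L : Set (List Bool)} (h : IsNP A L) :
    ∃ (M : Alg) (p : Polynomial ℕ), ∀ u, u ∈ L ↔ Wt M p A u := by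
  obtain ⟨V, p, ⟨M, hM⟩, hL⟩ := h
  refine ⟨M, p, fun u => ?_⟩
  rw [hL u]
  unfold Wt Acc
  simp only [hM, Option.some.injEq]

theorem pos_dnp (hB : GuideP B) (h : PosSit B G S nH) : HasDNP (mk B G) := by
  refine ⟨KK B G S nH .dnp false false, KK B G S nH .dnp true false,
    ⟨KK_isNP hB .dnp false false, KK_isNP hB .dnp true false, ?_⟩, ?_⟩
  · rintro z ⟨h0, h1⟩
    rw [mem_KK] at h0 h1
    have k0 := h0.resolve_right (fun hf => by simp at hf)
    have k1 := h1.resolve_right (fun hf => by simp at hf)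
    obtain ⟨ok, w0⟩ := k0
    refine ok_sound h ok ?_
    have hk := ok.kind
    unfold CBad
    rw [hk]
    exact ⟨by simpa using w0, by simpa using k1.2⟩
  · rintro L₀ L₁ ⟨hL0, hL1, hdis⟩
    obtain ⟨M₀, p₀, h0⟩ := p4_alg hL0
    obtain ⟨M₁, p₁, h1⟩ := p4_alg hL1
    obtain ⟨ζ, hζ, hok⟩ := ok_complete h ⟨.dnp, M₀, M₁, p₀, p₁⟩ (by
      rintro u ⟨hw0, hw1⟩
      exact hdis u ⟨(h0 u).2 hw0, (h1 u).2 hw1⟩)
    refine ⟨ζ, IsFP.of_poly hζ, fun x hx => ?_, fun x hx => ?_⟩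
    · obtain ⟨h2, h3, h4⟩ := hok x
      rw [mem_KK]
      refine Or.inl ⟨h2, ?_⟩
      rw [if_neg (by simp), h3, h4]
      exact (h0 x).1 hx
    · obtain ⟨h2, h3, h4⟩ := hok x
      rw [mem_KK]
      refine Or.inl ⟨h2, ?_⟩
      rw [if_pos rfl, h3, h4]
      exact (h1 x).1 hx

end

end Pool.Agent.H543R3.PC
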