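import Pool.Agent.H543R3.PC.P0
import Pool.Agent.H543R3.PC.P1

/-!
# Complete disjoint `coNP` pairs
-/

namespace Pool.Agent.H543R3.PC

open Pool.Agent.NPC Pool.Agent.H628R3.RO

section
variable {B : List Bool → Bool} {G : GG} {S : Finset ℕ} {nH : ℕ}

/-- An `NP` set is the set of inputs with an accepted certificate. -/
theorem p5_wt {A : Oracle} {L : Set (List Bool)} (h : IsNP A L) :
    ∃ (M : Alg) (p : Polynomial ℕ), ∀ x, x ∈ L ↔ Wt M p A x := by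
  obtain ⟨V, p, ⟨M, hM⟩, hV⟩ := h
  refine ⟨M, p, fun x => ?_⟩
  rw [hV x]
  unfold Wt Acc
  constructor
  · rintro ⟨w, h1, h2⟩
    exact ⟨w, h1, by rw [hM, h2]⟩
  · rintro ⟨w, h1, h2⟩
    rw [hM] at h2
    exact ⟨w, h1, Option.some.inj h2⟩

/-- Membership in the complement of the guarded language with default `true`. -/
theorem p5_notMem {κ : Kind} {i : Bool} {z : List Bool} :
    z ∉ KK B G S nH κ i true ↔ okZ S nH κ B G z ∧
      ¬ (if i = true then Wt (req (zE z)).M₁ (req (zE z)).p₁ (mk B G) (zU z)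
        else Wt (req (zE z)).M₀ (req (zE z)).p₀ (mk B G) (zU z)) := by
  rw [mem_KK]
  constructor
  · intro h
    have h1 : okZ S nH κ B G z := by
      by_contra hc
      exact h (Or.inr ⟨hc, rfl⟩)
    exact ⟨h1, fun hw => h (Or.inl ⟨h1, hw⟩)⟩
  · rintro ⟨h1, h2⟩ (⟨-, h3⟩ | ⟨h3, -⟩)
    · exact h2 h3
    · exact h3 h1

theorem pos_dconp (hB : GuideP B) (h : PosSit B G S nH) : HasDCoNP (mk B G) := by
  refine ⟨(KK B G S nH .dconp false true)ᶜ, (KK B G S nH .dconp true true)ᶜ, ⟨?_, ?_, ?_⟩, ?_⟩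
  · unfold IsCoNP
    rw [compl_compl]
    exact KK_isNP hB _ _ _
  · unfold IsCoNP
    rw [compl_compl]
    exact KK_isNP hB _ _ _
  · rintro z ⟨h0, h1⟩
    obtain ⟨hz, h2⟩ := p5_notMem.1 h0
    obtain ⟨-, h3⟩ := p5_notMem.1 h1
    rw [if_neg (by decide)] at h2
    rw [if_pos rfl] at h3
    apply ok_sound h hz
    unfold CBad
    rw [hz.kind]
    exact ⟨h2, h3⟩
  · rintro L₀ L₁ ⟨hL0, hL1, hd⟩
    obtain ⟨M₀, p₀, h0⟩ := p5_wt hL0
    obtain ⟨M₁, p₁, h1⟩ := p5_wt hL1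
    obtain ⟨ζ, hζ, hz⟩ := ok_complete h ⟨.dconp, M₀, M₁, p₀, p₁⟩ (by
      rintro u ⟨g0, g1⟩
      refine hd u ⟨?_, ?_⟩
      · by_contra hc
        exact g0 ((h0 u).1 hc)
      · by_contra hc
        exact g1 ((h1 u).1 hc))
    refine ⟨ζ, IsFP.of_poly hζ, fun x hx => ?_, fun x hx => ?_⟩
    · obtain ⟨g1, g2, g3⟩ := hz x
      refine p5_notMem.2 ⟨g1, ?_⟩
      rw [if_neg (by decide), g2, g3]
      intro hw
      exact (h0 x).2 hw hx
    · obtain ⟨g1, g2, g3⟩ := hz x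
      refine p5_notMem.2 ⟨g1, ?_⟩
      rw [if_pos rfl, g2, g3]
      intro hw
      exact (h1 x).2 hw hx

end

end Pool.Agent.H543R3.PC
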