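import Pool.Agent.H543R3.PC.A2
import Pool.Agent.H543R3.PC.A3
import Pool.Agent.H543R3.PC.P0

/-!
# P6: a complete total search problem
-/

namespace Pool.Agent.H543R3.PC

open Pool.Agent.NPC Pool.Agent.H628R3.RO

theorem p6_sem {B : List Bool → Bool} {G : GG} {S : Finset ℕ} {nH : ℕ} {z w : List Bool} :
    semG S nH .tfnp false true B (pairBits z w) G = [true] ↔
      (okZ S nH .tfnp B G z ∧
        Acc (req (zE z)).M₀ (req (zE z)).p₀ (mk B G) (zU z) w) ∨
      (¬ okZ S nH .tfnp B G z ∧ w = []) := by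
  classical
  have h0 : semG S nH .tfnp false true B (pairBits z w) G =
      if (okZ S nH .tfnp B G z ∧ Acc (req (zE z)).M₀ (req (zE z)).p₀ (mk B G) (zU z) w) ∨
        (¬ okZ S nH .tfnp B G z ∧ w = []) then [true] else [] := by
    unfold semG
    rw [unpair_pairBits]
    simp
  rw [h0]
  by_cases hc : (okZ S nH .tfnp B G z ∧ Acc (req (zE z)).M₀ (req (zE z)).p₀ (mk B G) (zU z) w) ∨
        (¬ okZ S nH .tfnp B G z ∧ w = [])
  · rw [if_pos hc]; exact ⟨fun _ => hc, fun _ => rfl⟩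
  · rw [if_neg hc]
    exact ⟨fun h => absurd h (by simp), fun h => absurd h hc⟩

theorem pos_tfnp {B : List Bool → Bool} {G : GG} {S : Finset ℕ} {nH : ℕ}
    (hB : GuideP B) (h : PosSit B G S nH) : HasTFNP (mk B G) := by
  obtain ⟨M₁, hM₁⟩ := hB (Task.gV S nH .tfnp false true)
  refine ⟨fun z w => semG S nH .tfnp false true B (pairBits z w) G = [true],
    ⟨⟨fun x => semG S nH .tfnp false true B x G, Polynomial.X, ⟨M₁, fun x => hM₁ G x⟩,
      fun z w => ?_⟩, fun z => ?_⟩, fun S' hS' => ?_⟩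
  · rw [Polynomial.eval_X]
    refine ⟨fun hz => ⟨?_, hz⟩, fun hz => hz.2⟩
    rcases p6_sem.1 hz with ⟨h1, h2⟩ | ⟨-, h2⟩
    · have h3 := h2.1
      have h4 := ((cR_spec (req (zE z))).2.2.2 (zU z).length).1
      have h5 : zT z ≤ zR z :=
        le_trans (Nat.le_add_right _ _) (le_trans (Nat.le_add_right _ _) h1.grd)
      have h6 := zU_zR_len z
      have h7 : zT z = (cR (req (zE z))).eval (zU z).length := rfl
      omega
    · rw [h2]; simp
  · by_cases hz : okZ S nH .tfnp B G z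
    · have h1 := ok_sound h hz
      have hk := hz.kind
      unfold CBad at h1
      rw [hk] at h1
      simp only [not_not] at h1
      obtain ⟨w, hw⟩ := h1
      exact ⟨w, p6_sem.2 (Or.inl ⟨hz, hw⟩)⟩
    · exact ⟨[], p6_sem.2 (Or.inr ⟨hz, rfl⟩)⟩
  · obtain ⟨⟨V, p, ⟨M, hM⟩, hV⟩, htot⟩ := hS'
    obtain ⟨ζ, hζ, hz⟩ := ok_complete h ⟨.tfnp, M, M, p, p⟩ (fun u => by
      show ¬ ¬ Wt M p (mk B G) u
      rw [not_not]
      obtain ⟨y, hy⟩ := htot u
      obtain ⟨h1, h2⟩ := (hV u y).1 hy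
      exact ⟨y, h1, by rw [hM, h2]⟩)
    refine ⟨ζ, fun y => (unpair y).2, IsFP.of_poly hζ, IsFP.of_poly (NPC.Poly.snd poly_unpair),
      fun x y hxy => ?_⟩
    obtain ⟨z1, z2, z3⟩ := hz x
    rcases p6_sem.1 hxy with ⟨-, h2⟩ | ⟨h2, -⟩
    · rw [z2, z3] at h2
      obtain ⟨h3, h4⟩ := h2
      have h4' : M.out (mk B G) (pairBits x y) = some [true] := h4
      rw [hM, Option.some.injEq] at h4'
      show S' x (unpair (pairBits x y)).2
      rw [unpair_pairBits]
      exact (hV x y).2 ⟨h3, h4'⟩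
    · exact absurd z1 h2

end Pool.Agent.H543R3.PC
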