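import Pool.Agent.H543R3.PC.A2
import Pool.Agent.H543R3.PC.A3

/-!
# P7: the canonical sets
-/

namespace Pool.Agent.H543R3.PC

open Pool.Agent.NPC Pool.Agent.H628R3.RO

section
variable {B : List Bool → Bool} {G : GG}

theorem p7_semC (z w : List Bool) : semC B (pairBits z w) G = [true] ↔ canAcc B G z w := by
  unfold semC
  rw [unpair_pairBits]
  by_cases h : canAcc B G z w
  · simp [h]
  · simp [h]

theorem p7_len {z w : List Bool} (h : canAcc B G z w) : w.length ≤ z.length := by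
  have h1 := h.2.1
  have h2 := (cA_spec (decA (zK z))).2 (zU z).length
  have h3 := h.1
  have h4 := zU_zR_len z
  omega

theorem canNP_isNP (hB : GuideP B) : IsNP (mk B G) (canNP B G) := by
  obtain ⟨M, hM⟩ := hB Task.cV
  refine ⟨fun x => semC B x G, Polynomial.X, ⟨M, fun x => hM G x⟩, fun z => ?_⟩
  rw [Polynomial.eval_X]
  constructor
  · rintro ⟨w, hw⟩
    exact ⟨w, p7_len hw, (p7_semC z w).2 hw⟩
  · rintro ⟨w, _, hw⟩
    exact ⟨w, (p7_semC z w).1 hw⟩

theorem p7_mem (k : List Bool) (M : Alg) (p : Polynomial ℕ) (hk : decA k = (M, p))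
    (x : List Bool) :
    zM k x ((cA (M, p)).eval x.length) ∈ canNP B G ↔ ∃ w, Acc M p (mk B G) x w := by
  unfold canNP canAcc
  simp only [Set.mem_ofPred_eq, zK_zM, zU_zM, zR_zM, hk, le_refl, true_and]

theorem p7_red (L' : Set (List Bool)) (hL : IsNP (mk B G) L') :
    ∃ F : List Bool → List Bool, IsFP (mk B G) F ∧ ∀ x, x ∈ L' ↔ F x ∈ canNP B G := by
  obtain ⟨V, p, ⟨M, hM⟩, hV⟩ := hL
  obtain ⟨k, hk⟩ := decA_surjective (M, p)
  refine ⟨fun x => zM k x ((cA (M, p)).eval x.length), IsFP.of_poly (poly_zM k _), fun x => ?_⟩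
  rw [p7_mem k M p hk, hV x]
  refine exists_congr fun w => ?_
  unfold Acc
  rw [hM, Option.some_inj]

theorem canNP_hard : NPHardRel (mk B G) (canNP B G) := fun L' hL => p7_red L' hL

theorem canNP_isCoNP (hB : GuideP B) : IsCoNP (mk B G) (canNP B G)ᶜ := by
  unfold IsCoNP
  rw [compl_compl]
  exact canNP_isNP hB

theorem canNP_coHard : CoNPHardRel (mk B G) (canNP B G)ᶜ := by
  intro L' hL
  obtain ⟨F, hF, h⟩ := p7_red L'ᶜ hL
  refine ⟨F, hF, fun x => ?_⟩
  have := h x
  rw [Set.mem_compl_iff] at this ⊢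
  tauto

theorem p7_const (c : List Bool) : PolyTime (fun _ : List Bool => c) :=
  H622R2.polyTime_of_poly_list (NPC.Poly.const c)

theorem p7_out (c : List Bool) (A : Oracle) (x : List Bool) :
    (Alg.mk (fun _ => true :: c) (p7_const _) 1).out A x = some c := by
  unfold Alg.out
  simp only [Polynomial.eval_one]
  rfl

theorem exists_mem_canNP : ∃ z, z ∈ canNP B G := by
  obtain ⟨k, hk⟩ := decA_surjective (Alg.mk (fun _ => true :: [true]) (p7_const _) 1, 0)
  refine ⟨_, (p7_mem k _ _ hk []).2 ⟨[], ?_, p7_out [true] _ _⟩⟩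
  simp

theorem exists_notMem_canNP : ∃ z, z ∉ canNP B G := by
  obtain ⟨k, hk⟩ := decA_surjective (Alg.mk (fun _ => true :: []) (p7_const _) 1, 0)
  refine ⟨zM k [] ((cA (Alg.mk (fun _ => true :: []) (p7_const _) 1, 0)).eval
    ([] : List Bool).length), fun h => ?_⟩
  obtain ⟨w, _, hw⟩ := (p7_mem k _ _ hk []).1 h
  rw [p7_out] at hw
  simp at hw

end

end Pool.Agent.H543R3.PC
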