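import Mathlib
import Pool.Agent.H543R3.PC.DefsP
import Pool.Agent.H628R3.RO.A1

/-!
# U0: local predicates of oracles
-/

namespace Pool.Agent.H543R3.PC

open Pool.Agent.NPC Pool.Agent.H628R3 Pool.Agent.H628R3.RO TopologicalSpace Topology

private theorem U0.eventually_agree (A : RO.Oracle) (N : ℕ) :
    ∀ᶠ A' in 𝓝 A, ∀ u : List Bool, u.length ≤ N → A' u = A u := by
  have h1 : ∀ᶠ A' in 𝓝 A, ∀ u ∈ (List.finite_length_le Bool N).toFinset, A' u = A u := by
    rw [Filter.eventually_all_finset]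
    intro u _
    exact ((continuous_apply u).tendsto A).eventually
      ((isOpen_discrete {A u}).mem_nhds rfl)
  filter_upwards [h1] with A' hA' u hu
  exact hA' u (by simpa using hu)

theorem Lc.not {P : RO.Oracle → Prop} (h : Lc P) : Lc (fun A => ¬ P A) := by
  intro A
  obtain ⟨N, hN⟩ := h A
  exact ⟨N, fun A' hA' => not_congr (hN A' hA')⟩

private theorem U0.isOpen {P : RO.Oracle → Prop} (h : Lc P) : IsOpen {A : RO.Oracle | P A} := by
  rw [isOpen_iff_eventually]
  intro A hA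
  obtain ⟨N, hN⟩ := h A
  filter_upwards [U0.eventually_agree A N] with A' hA'
  exact (hN A' hA').2 hA

theorem Lc.isClopen {P : RO.Oracle → Prop} (h : Lc P) : IsClopen {A : RO.Oracle | P A} := by
  refine ⟨⟨?_⟩, U0.isOpen h⟩
  exact U0.isOpen h.not

theorem Lc.const (p : Prop) : Lc (fun _ => p) := fun _ => ⟨0, fun _ _ => Iff.rfl⟩

private theorem U0.two {P Q R : RO.Oracle → Prop} (h : Lc P) (h' : Lc Q)
    (hR : ∀ A A', (P A' ↔ P A) → (Q A' ↔ Q A) → (R A' ↔ R A)) : Lc R := by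
  intro A
  obtain ⟨N, hN⟩ := h A
  obtain ⟨N', hN'⟩ := h' A
  refine ⟨max N N', fun A' hA' => hR A A' (hN A' fun v hv => ?_) (hN' A' fun v hv => ?_)⟩
  · exact hA' v (hv.trans (le_max_left _ _))
  · exact hA' v (hv.trans (le_max_right _ _))

theorem Lc.and {P Q : RO.Oracle → Prop} (h : Lc P) (h' : Lc Q) : Lc (fun A => P A ∧ Q A) :=
  U0.two h h' fun _ _ h1 h2 => and_congr h1 h2

theorem Lc.or {P Q : RO.Oracle → Prop} (h : Lc P) (h' : Lc Q) : Lc (fun A => P A ∨ Q A) :=
  U0.two h h' fun _ _ h1 h2 => or_congr h1 h2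

theorem Lc.iff {P Q : RO.Oracle → Prop} (h : Lc P) (h' : Lc Q) : Lc (fun A => (P A ↔ Q A)) :=
  U0.two h h' fun _ _ h1 h2 => iff_congr h1 h2

theorem Lc.imp {P Q : RO.Oracle → Prop} (h : Lc P) (h' : Lc Q) : Lc (fun A => (P A → Q A)) :=
  U0.two h h' fun _ _ h1 h2 => imp_congr h1 h2

theorem Lc.existsFin {ι : Type} {P : ι → RO.Oracle → Prop} (s : Set ι) (hs : s.Finite)
    (h : ∀ i, Lc (P i)) : Lc (fun A => ∃ i ∈ s, P i A) := by
  intro A
  choose N hN using fun i => h i A
  obtain ⟨M, hM⟩ := (hs.image N).bddAbove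
  refine ⟨M, fun A' hA' => ?_⟩
  refine exists_congr fun i => and_congr_right fun hi => ?_
  exact hN i A' fun v hv => hA' v (hv.trans (hM (Set.mem_image_of_mem N hi)))

private theorem U0.out (M : Alg) (x : List Bool) (A : RO.Oracle) :
    ∃ N : ℕ, ∀ A' : RO.Oracle, (∀ v : List Bool, v.length ≤ N → A' v = A v) →
      M.out A' x = M.out A x := by
  obtain ⟨qb, hqb⟩ := M.out_local
  obtain ⟨Q, -, h1, h2⟩ := hqb A x
  exact ⟨qb.eval x.length, fun A' hA' => h2 A' fun q hq => hA' q (h1 q hq)⟩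

theorem Lc.out (M : Alg) (x : List Bool) (y : Option (List Bool)) : Lc (fun A => M.out A x = y) := by
  intro A
  obtain ⟨N, hN⟩ := U0.out M x A
  refine ⟨N, fun A' hA' => ?_⟩
  show M.out A' x = y ↔ M.out A x = y
  rw [hN A' hA']

/-- A predicate of the output of an algorithm. -/
theorem Lc.bind (M : Alg) (x : List Bool) {P : List Bool → RO.Oracle → Prop} (h : ∀ u, Lc (P u)) :
    Lc (fun A => ∃ u, M.out A x = some u ∧ P u A) := by
  intro A
  obtain ⟨N, hN⟩ := U0.out M x A
  rcases hu : M.out A x with _ | u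
  · refine ⟨N, fun A' hA' => ?_⟩
    show (∃ u, M.out A' x = some u ∧ P u A') ↔ (∃ u, M.out A x = some u ∧ P u A)
    rw [hN A' hA', hu]
    simp
  · obtain ⟨N', hN'⟩ := h u A
    refine ⟨max N N', fun A' hA' => ?_⟩
    show (∃ u, M.out A' x = some u ∧ P u A') ↔ (∃ u, M.out A x = some u ∧ P u A)
    rw [hN A' fun v hv => hA' v (hv.trans (le_max_left _ _)), hu]
    simp only [Option.some.injEq, exists_eq_left']
    exact hN' A' fun v hv => hA' v (hv.trans (le_max_right _ _))

theorem Lc.bindAll (M : Alg) (x : List Bool) {P : List Bool → RO.Oracle → Prop}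
    (h : ∀ u, Lc (P u)) : Lc (fun A => ∀ u, M.out A x = some u → P u A) := by
  intro A
  obtain ⟨N, hN⟩ := U0.out M x A
  rcases hu : M.out A x with _ | u
  · refine ⟨N, fun A' hA' => ?_⟩
    show (∀ u, M.out A' x = some u → P u A') ↔ (∀ u, M.out A x = some u → P u A)
    rw [hN A' hA', hu]
    simp
  · obtain ⟨N', hN'⟩ := h u A
    refine ⟨max N N', fun A' hA' => ?_⟩
    show (∀ u, M.out A' x = some u → P u A') ↔ (∀ u, M.out A x = some u → P u A)
    rw [hN A' fun v hv => hA' v (hv.trans (le_max_left _ _)), hu]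
    simp only [Option.some.injEq, forall_eq']
    exact hN' A' fun v hv => hA' v (hv.trans (le_max_right _ _))

theorem Lc.tot (M : Alg) (x : List Bool) : Lc (fun A => (M.out A x).isSome = true) := by
  intro A
  obtain ⟨N, hN⟩ := U0.out M x A
  refine ⟨N, fun A' hA' => ?_⟩
  show (M.out A' x).isSome = true ↔ (M.out A x).isSome = true
  rw [hN A' hA']

theorem Lc.acc (M : Alg) (p : Polynomial ℕ) (u w : List Bool) : Lc (fun A => Acc M p A u w) :=
  (Lc.const _).and (Lc.out M _ _)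

theorem Lc.wt (M : Alg) (p : Polynomial ℕ) (u : List Bool) : Lc (fun A => Wt M p A u) := by
  have h := Lc.existsFin {w : List Bool | w.length ≤ p.eval u.length}
    (List.finite_length_le Bool _) (P := fun w A => Acc M p A u w) (fun w => Lc.acc M p u w)
  have e : (fun A => Wt M p A u) =
      fun A => ∃ w ∈ {w : List Bool | w.length ≤ p.eval u.length}, Acc M p A u w := by
    funext A
    refine propext ⟨fun ⟨w, hw⟩ => ⟨w, hw.1, hw⟩, fun ⟨w, _, hw⟩ => ⟨w, hw⟩⟩
  rw [e]
  exact h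

end Pool.Agent.H543R3.PC
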