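import Pool.Agent.H543R3.PC.DefsP
import Pool.Agent.H556R2.Borel
import Pool.Agent.H556R2.Sigma04Defs

/-!
# Task U1: the form of the `Σ⁰₄` conditions
-/

namespace Pool.Agent.H543R3.PC

open Pool.Agent.NPC Pool.Agent.H628R3 Pool.Agent.H628R3.RO TopologicalSpace Topology
open H556R2 (IsSigma03 IsPi03 IsSigma04 Sigma04Complete)

theorem u1_isOpen {P : RO.Oracle → Prop} (h : Lc P) : IsOpen {A : RO.Oracle | P A} := by
  rw [isOpen_iff_eventually]
  intro A hA
  obtain ⟨N, hN⟩ := h A
  have h1 : ∀ᶠ A' in 𝓝 A, ∀ u : List Bool, u.length ≤ N → A' u = A u :=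
    H556R2.eventually_agree A N
  filter_upwards [h1] with A' hA'
  exact (hN A' hA').2 hA

theorem u1_isOpen_not {P : RO.Oracle → Prop} (h : Lc P) : IsOpen {A : RO.Oracle | ¬ P A} := by
  refine u1_isOpen (P := fun A => ¬ P A) ?_
  intro A
  obtain ⟨N, hN⟩ := h A
  exact ⟨N, fun A' hA' => not_congr (hN A' hA')⟩

theorem sigma04_form {I J F X Y Z W V : Type} [Countable I] [Countable J] [Countable F]
    [Countable X] [Countable Y] [Countable Z] [Countable W] [Countable V]
    {C : I → X → Y → RO.Oracle → Prop} {D : I → J → Z → W → RO.Oracle → Prop}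
    {E : I → J → F → V → RO.Oracle → Prop}
    (hC : ∀ i x y, Lc (C i x y)) (hD : ∀ i j z w, Lc (D i j z w)) (hE : ∀ i j f v, Lc (E i j f v)) :
    IsSigma04 {A : RO.Oracle | ∃ i, (∀ x, ∃ y, C i x y A) ∧
      ∀ j, (∀ z, ∃ w, D i j z w A) → ∃ f, ∀ v, E i j f v A} := by
  have key : ∀ i, IsPi03 {A : RO.Oracle | (∀ x, ∃ y, C i x y A) ∧
      ∀ j, (∀ z, ∃ w, D i j z w A) → ∃ f, ∀ v, E i j f v A} := by
    intro i
    have e : ({A : RO.Oracle | (∀ x, ∃ y, C i x y A) ∧
        ∀ j, (∀ z, ∃ w, D i j z w A) → ∃ f, ∀ v, E i j f v A})ᶜ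
        = ⋃ s : X ⊕ J, Sum.elim (fun x => {A : RO.Oracle | ∀ y, ¬ C i x y A})
          (fun j => {A : RO.Oracle | ∀ z, ∃ w, D i j z w A} ∩
            {A : RO.Oracle | ∀ f, ∃ v, ¬ E i j f v A}) s := by
      ext A
      simp only [Set.mem_compl_iff, Set.mem_setOf_eq, Set.mem_iUnion, Sum.exists, Sum.elim_inl,
        Sum.elim_inr, Set.mem_inter_iff]
      constructor
      · intro h
        by_cases h1 : ∀ x, ∃ y, C i x y A
        · right
          by_contra h2
          apply h
          refine ⟨h1, fun j hj => ?_⟩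
          by_contra h3
          apply h2
          refine ⟨j, hj, fun f => ?_⟩
          by_contra h4
          apply h3
          refine ⟨f, fun v => ?_⟩
          by_contra h5
          exact h4 ⟨v, h5⟩
        · left
          by_contra h2
          apply h1
          intro x
          by_contra h3
          exact h2 ⟨x, fun y hy => h3 ⟨y, hy⟩⟩
      · rintro (⟨x, hx⟩ | ⟨j, hj, hf⟩) ⟨h1, h2⟩
        · obtain ⟨y, hy⟩ := h1 x
          exact hx y hy
        · obtain ⟨f, hf'⟩ := h2 j hj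
          obtain ⟨v, hv⟩ := hf f
          exact hv (hf' v)
    show IsSigma03 _
    rw [e]
    refine H556R2.isSigma03_iUnion ?_
    rintro (x | j)
    · refine H556R2.IsGδ.isSigma03 ?_
      show IsGδ {A : RO.Oracle | ∀ y, ¬ C i x y A}
      rw [Set.setOf_forall]
      exact IsGδ.iInter_of_isOpen fun y => u1_isOpen_not (hC i x y)
    · refine H556R2.IsGδ.isSigma03 ?_
      show IsGδ ({A : RO.Oracle | ∀ z, ∃ w, D i j z w A} ∩
            {A : RO.Oracle | ∀ f, ∃ v, ¬ E i j f v A})
      refine IsGδ.inter ?_ ?_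
      · rw [Set.setOf_forall]
        refine IsGδ.iInter_of_isOpen fun z => ?_
        rw [Set.setOf_exists]
        exact isOpen_iUnion fun w => u1_isOpen (hD i j z w)
      · rw [Set.setOf_forall]
        refine IsGδ.iInter_of_isOpen fun f => ?_
        rw [Set.setOf_exists]
        exact isOpen_iUnion fun v => u1_isOpen_not (hE i j f v)
  rcases isEmpty_or_nonempty I with hI | hI
  · refine ⟨fun _ => ∅, fun _ => ?_, ?_⟩
    · show IsSigma03 _
      rw [Set.compl_empty]
      exact H556R2.IsGδ.isSigma03 IsGδ.univ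
    · rw [Set.iUnion_empty]
      ext A
      simp only [Set.mem_setOf_eq, Set.mem_empty_iff_false, iff_false, not_exists]
      intro i
      exact (hI.false i).elim
  · obtain ⟨g, hg⟩ := exists_surjective_nat I
    refine ⟨fun n => {A : RO.Oracle | (∀ x, ∃ y, C (g n) x y A) ∧
      ∀ j, (∀ z, ∃ w, D (g n) j z w A) → ∃ f, ∀ v, E (g n) j f v A}, fun n => key (g n), ?_⟩
    ext A
    simp only [Set.mem_setOf_eq, Set.mem_iUnion]
    constructor
    · rintro ⟨i, hi⟩
      obtain ⟨n, rfl⟩ := hg i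
      exact ⟨n, hi⟩
    · rintro ⟨n, hn⟩
      exact ⟨g n, hn⟩

end Pool.Agent.H543R3.PC
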