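import Pool.Agent.H543R3.PC.DefsP

/-!
# U2: the relativised classes in terms of algorithms
-/

namespace Pool.Agent.H543R3.PC

open Pool.Agent.NPC Pool.Agent.H628R3 Pool.Agent.H628R3.RO TopologicalSpace Topology

theorem isFP_iff {A : RO.Oracle} {F : List Bool → List Bool} :
    IsFP A F ↔ ∃ M : Alg, ∀ x, M.out A x = some (F x) := Iff.rfl

theorem u2_getD {M : Alg} {A : RO.Oracle} {x : List Bool} (h : (M.out A x).isSome = true) :
    M.out A x = some ((M.out A x).getD []) := by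
  obtain ⟨u, hu⟩ := Option.isSome_iff_exists.1 h
  rw [hu]
  rfl

theorem u2_eq {M : Alg} {A : RO.Oracle} {x : List Bool} (h : (M.out A x).isSome = true)
    (z : List Bool) : (M.out A x).getD [] = z ↔ M.out A x = some z := by
  obtain ⟨u, hu⟩ := Option.isSome_iff_exists.1 h
  rw [hu]
  simp

theorem isNP_iff {A : RO.Oracle} {L : Set (List Bool)} :
    IsNP A L ↔ ∃ (M : Alg) (p : Polynomial ℕ), (∀ x, (M.out A x).isSome = true) ∧
      ∀ x, x ∈ L ↔ Wt M p A x := by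
  constructor
  · rintro ⟨V, p, ⟨M, hM⟩, h⟩
    refine ⟨M, p, fun x => by rw [hM x]; rfl, fun x => (h x).trans ?_⟩
    refine exists_congr fun w => and_congr_right fun _ => ?_
    rw [hM]
    simp
  · rintro ⟨M, p, hM, h⟩
    refine ⟨fun x => (M.out A x).getD [], p, ⟨M, fun x => u2_getD (hM x)⟩,
      fun x => (h x).trans ?_⟩
    exact exists_congr fun w => and_congr_right fun _ => (u2_eq (hM _) _).symm

theorem isUP_iff {A : RO.Oracle} {L : Set (List Bool)} :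
    IsUP A L ↔ ∃ (M : Alg) (p : Polynomial ℕ), (∀ x, (M.out A x).isSome = true) ∧
      (∀ x, x ∈ L ↔ Wt M p A x) ∧
      ∀ x w w', Acc M p A x w → Acc M p A x w' → w = w' := by
  constructor
  · rintro ⟨V, p, ⟨M, hM⟩, h, hu⟩
    refine ⟨M, p, fun x => by rw [hM x]; rfl, fun x => (h x).trans ?_, ?_⟩
    · refine exists_congr fun w => and_congr_right fun _ => ?_
      rw [hM]
      simp
    · rintro x w w' ⟨h1, h2⟩ ⟨h3, h4⟩
      rw [hM] at h2 h4
      exact hu x w w' h1 h3 (Option.some.inj h2) (Option.some.inj h4)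
  · rintro ⟨M, p, hM, h, hu⟩
    refine ⟨fun x => (M.out A x).getD [], p, ⟨M, fun x => u2_getD (hM x)⟩,
      fun x => (h x).trans ?_, ?_⟩
    · exact exists_congr fun w => and_congr_right fun _ => (u2_eq (hM _) _).symm
    · intro x w w' h1 h2 h3 h4
      exact hu x w w' ⟨h1, (u2_eq (hM _) _).1 h3⟩ ⟨h2, (u2_eq (hM _) _).1 h4⟩

theorem isTFNP_iff {A : RO.Oracle} {R : List Bool → List Bool → Prop} :
    IsTFNP A R ↔ ∃ (M : Alg) (p : Polynomial ℕ), (∀ x, (M.out A x).isSome = true) ∧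
      (∀ x y, R x y ↔ Acc M p A x y) ∧ ∀ x, Wt M p A x := by
  constructor
  · rintro ⟨⟨V, p, ⟨M, hM⟩, h⟩, ht⟩
    have h' : ∀ x y, R x y ↔ Acc M p A x y := by
      intro x y
      refine (h x y).trans (and_congr_right fun _ => ?_)
      rw [hM]
      simp
    refine ⟨M, p, fun x => by rw [hM x]; rfl, h', fun x => ?_⟩
    obtain ⟨y, hy⟩ := ht x
    exact ⟨y, (h' x y).1 hy⟩
  · rintro ⟨M, p, hM, h, ht⟩
    refine ⟨⟨fun x => (M.out A x).getD [], p, ⟨M, fun x => u2_getD (hM x)⟩,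
      fun x y => (h x y).trans ?_⟩, fun x => ?_⟩
    · exact and_congr_right fun _ => (u2_eq (hM _) _).symm
    · obtain ⟨w, hw⟩ := ht x
      exact ⟨w, (h x w).2 hw⟩

theorem red_iff {A : RO.Oracle} {L L' : Set (List Bool)} :
    Red A L L' ↔ ∃ M : Alg, ∀ x, ∃ u, M.out A x = some u ∧ (x ∈ L ↔ u ∈ L') := by
  constructor
  · rintro ⟨F, ⟨M, hM⟩, h⟩
    exact ⟨M, fun x => ⟨F x, hM x, h x⟩⟩
  · rintro ⟨M, h⟩
    choose F hF h using h
    exact ⟨F, ⟨M, hF⟩, h⟩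

theorem redPair_iff {A : RO.Oracle} {L₀ L₁ K₀ K₁ : Set (List Bool)} :
    RedPair A L₀ L₁ K₀ K₁ ↔ ∃ M : Alg, ∀ x, ∃ u, M.out A x = some u ∧ (x ∈ L₀ → u ∈ K₀) ∧
      (x ∈ L₁ → u ∈ K₁) := by
  constructor
  · rintro ⟨F, ⟨M, hM⟩, h, h'⟩
    exact ⟨M, fun x => ⟨F x, hM x, h x, h' x⟩⟩
  · rintro ⟨M, h⟩
    choose F hF h using h
    exact ⟨F, ⟨M, hF⟩, fun x => (h x).1, fun x => (h x).2⟩

theorem redSearch_iff {A : RO.Oracle} {R S : List Bool → List Bool → Prop} :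
    RedSearch A R S ↔ ∃ M M' : Alg, (∀ x, (M'.out A x).isSome = true) ∧ ∀ x, ∃ u, M.out A x = some u ∧
      ∀ y, S u y → ∃ v, M'.out A (pairBits x y) = some v ∧ R x v := by
  constructor
  · rintro ⟨F, G, ⟨M, hM⟩, ⟨M', hM'⟩, h⟩
    exact ⟨M, M', fun x => by rw [hM' x]; rfl,
      fun x => ⟨F x, hM x, fun y hy => ⟨G (pairBits x y), hM' _, h x y hy⟩⟩⟩
  · rintro ⟨M, M', hM', h⟩
    choose F hF h using h
    refine ⟨F, fun x => (M'.out A x).getD [], ⟨M, hF⟩, ⟨M', fun x => u2_getD (hM' x)⟩, ?_⟩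
    intro x y hy
    obtain ⟨v, hv, hv'⟩ := h x y hy
    show R x ((M'.out A (pairBits x y)).getD [])
    rw [hv]
    exact hv'

end Pool.Agent.H543R3.PC
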