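import Pool.Agent.H543R3.PC.DefsP
import Pool.Agent.H556R2.Sigma04Defs
import Pool.Agent.H556R2.Borel
import Pool.Agent.H543R3.PC.U0
import Pool.Agent.H543R3.PC.U1
import Pool.Agent.H543R3.PC.U2

/-!
# U3: upper bounds for `UP` and `NP ∩ coNP`
-/

namespace Pool.Agent.H543R3.PC

open Pool.Agent.NPC Pool.Agent.H628R3 Pool.Agent.H628R3.RO TopologicalSpace Topology
open H556R2 (IsSigma03 IsPi03 IsSigma04 Sigma04Complete)

/-- The certificates for `x` are unique. -/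
theorem u3_uniq (M : Alg) (p : Polynomial ℕ) (x : List Bool) :
    Lc (fun A => ∀ w w', Acc M p A x w → Acc M p A x w' → w = w') := by
  have h := Lc.not (Lc.existsFin
    (P := fun (q : List Bool × List Bool) A =>
      Acc M p A x q.1 ∧ Acc M p A x q.2 ∧ ¬ (q.1 = q.2))
    ({w : List Bool | w.length ≤ p.eval x.length} ×ˢ {w : List Bool | w.length ≤ p.eval x.length})
    ((List.finite_length_le Bool _).prod (List.finite_length_le Bool _))
    (fun q => (Lc.acc M p x q.1).and ((Lc.acc M p x q.2).and (Lc.const _))))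
  have e : (fun A : RO.Oracle => ∀ w w', Acc M p A x w → Acc M p A x w' → w = w') =
      (fun A => ¬ ∃ i ∈ ({w : List Bool | w.length ≤ p.eval x.length} ×ˢ
        {w : List Bool | w.length ≤ p.eval x.length}), Acc M p A x i.1 ∧ Acc M p A x i.2 ∧
          ¬ (i.1 = i.2)) := by
    funext A
    apply propext
    constructor
    · rintro h1 ⟨q, _, h2, h3, h4⟩
      exact h4 (h1 _ _ h2 h3)
    · intro h1 w w' h2 h3
      by_contra h4
      exact h1 ⟨(w, w'), ⟨h2.1, h3.1⟩, h2, h3, h4⟩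
  rw [e]
  exact h

theorem u3_up_iff (A : RO.Oracle) : HasUP A ↔ ∃ i : Alg × Polynomial ℕ,
    (∀ x : List Bool, ∃ _y : Unit, (i.1.out A x).isSome = true ∧
      ∀ w w', Acc i.1 i.2 A x w → Acc i.1 i.2 A x w' → w = w') ∧
    ∀ j : Alg × Polynomial ℕ, (∀ z : List Bool, ∃ _w : Unit, (j.1.out A z).isSome = true ∧
      ∀ w w', Acc j.1 j.2 A z w → Acc j.1 j.2 A z w' → w = w') →
      ∃ f : Alg, ∀ v : List Bool, ∃ u, f.out A v = some u ∧
        (Wt j.1 j.2 A v ↔ Wt i.1 i.2 A u) := by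
  constructor
  · rintro ⟨K, hK, hall⟩
    obtain ⟨M, p, h1, h2, h3⟩ := isUP_iff.1 hK
    refine ⟨(M, p), fun x => ⟨(), h1 x, h3 x⟩, ?_⟩
    rintro ⟨M', p'⟩ hj0
    have hj := fun x => (hj0 x).elim (fun _ h => h)
    have hL : IsUP A {x | Wt M' p' A x} :=
      isUP_iff.2 ⟨M', p', fun x => (hj x).1, fun x => Iff.rfl, fun x => (hj x).2⟩
    obtain ⟨f, hf⟩ := red_iff.1 (hall _ hL)
    refine ⟨f, fun v => ?_⟩
    obtain ⟨u, hu, huv⟩ := hf v
    exact ⟨u, hu, huv.trans (h2 u)⟩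
  · rintro ⟨⟨M, p⟩, h0, h2⟩
    have h1 := fun x => (h0 x).elim (fun _ h => h)
    refine ⟨{x | Wt M p A x}, isUP_iff.2 ⟨M, p, fun x => (h1 x).1, fun x => Iff.rfl,
      fun x => (h1 x).2⟩, ?_⟩
    intro L hL
    obtain ⟨M', p', g1, g2, g3⟩ := isUP_iff.1 hL
    obtain ⟨f, hf⟩ := h2 (M', p') (fun z => ⟨(), g1 z, g3 z⟩)
    refine red_iff.2 ⟨f, fun x => ?_⟩
    obtain ⟨u, hu, huv⟩ := hf x
    exact ⟨u, hu, (g2 x).trans huv⟩

theorem up_up : IsSigma04 {A : RO.Oracle | HasUP A} := by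
  have e : {A : RO.Oracle | HasUP A} = {A : RO.Oracle | ∃ i : Alg × Polynomial ℕ,
    (∀ x : List Bool, ∃ _y : Unit, (i.1.out A x).isSome = true ∧
      ∀ w w', Acc i.1 i.2 A x w → Acc i.1 i.2 A x w' → w = w') ∧
    ∀ j : Alg × Polynomial ℕ, (∀ z : List Bool, ∃ _w : Unit, (j.1.out A z).isSome = true ∧
      ∀ w w', Acc j.1 j.2 A z w → Acc j.1 j.2 A z w' → w = w') →
      ∃ f : Alg, ∀ v : List Bool, ∃ u, f.out A v = some u ∧
        (Wt j.1 j.2 A v ↔ Wt i.1 i.2 A u)} := by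
    ext A
    exact u3_up_iff A
  rw [e]
  exact sigma04_form
    (C := fun (i : Alg × Polynomial ℕ) (x : List Bool) (_ : Unit) A =>
      (i.1.out A x).isSome = true ∧ ∀ w w', Acc i.1 i.2 A x w → Acc i.1 i.2 A x w' → w = w')
    (D := fun (_ : Alg × Polynomial ℕ) (j : Alg × Polynomial ℕ) (x : List Bool) (_ : Unit) A =>
      (j.1.out A x).isSome = true ∧ ∀ w w', Acc j.1 j.2 A x w → Acc j.1 j.2 A x w' → w = w')
    (E := fun (i : Alg × Polynomial ℕ) (j : Alg × Polynomial ℕ) (f : Alg) (v : List Bool) A =>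
      ∃ u, f.out A v = some u ∧ (Wt j.1 j.2 A v ↔ Wt i.1 i.2 A u))
    (fun i x _ => (Lc.tot _ _).and (u3_uniq _ _ _))
    (fun _ j x _ => (Lc.tot _ _).and (u3_uniq _ _ _))
    (fun i j f v => Lc.bind f v (fun u => (Lc.wt _ _ _).iff (Lc.wt _ _ _)))

theorem u3_npc_iff (A : RO.Oracle) : HasNPC A ↔
    ∃ i : (Alg × Polynomial ℕ) × (Alg × Polynomial ℕ),
    (∀ x : List Bool, ∃ _y : Unit, (i.1.1.out A x).isSome = true ∧
      (i.2.1.out A x).isSome = true ∧ (Wt i.1.1 i.1.2 A x ↔ ¬ Wt i.2.1 i.2.2 A x)) ∧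
    ∀ j : (Alg × Polynomial ℕ) × (Alg × Polynomial ℕ),
      (∀ z : List Bool, ∃ _w : Unit, (j.1.1.out A z).isSome = true ∧
      (j.2.1.out A z).isSome = true ∧ (Wt j.1.1 j.1.2 A z ↔ ¬ Wt j.2.1 j.2.2 A z)) →
      ∃ f : Alg, ∀ v : List Bool, ∃ u, f.out A v = some u ∧
        (Wt j.1.1 j.1.2 A v ↔ Wt i.1.1 i.1.2 A u) := by
  constructor
  · rintro ⟨K, hK, hK', hall⟩
    obtain ⟨M, p, h1, h2⟩ := isNP_iff.1 hK
    obtain ⟨M', p', h1', h2'⟩ := isNP_iff.1 hK'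
    refine ⟨((M, p), (M', p')), fun x => ⟨(), h1 x, h1' x, ?_⟩, ?_⟩
    · rw [← h2 x, ← h2' x, Set.mem_compl_iff, not_not]
    · rintro ⟨⟨N, q⟩, ⟨N', q'⟩⟩ hj0
      have hj := fun x => (hj0 x).elim (fun _ h => h)
      have hL : IsNP A {x | Wt N q A x} :=
        isNP_iff.2 ⟨N, q, fun x => (hj x).1, fun x => Iff.rfl⟩
      have hL' : IsCoNP A {x | Wt N q A x} := by
        refine isNP_iff.2 ⟨N', q', fun x => (hj x).2.1, fun x => ?_⟩
        have h3 := (hj x).2.2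
        show ¬ Wt N q A x ↔ _
        rw [h3, not_not]
      obtain ⟨f, hf⟩ := red_iff.1 (hall _ hL hL')
      refine ⟨f, fun v => ?_⟩
      obtain ⟨u, hu, huv⟩ := hf v
      exact ⟨u, hu, huv.trans (h2 u)⟩
  · rintro ⟨⟨⟨M, p⟩, ⟨M', p'⟩⟩, h0, h2⟩
    have h1 := fun x => (h0 x).elim (fun _ h => h)
    refine ⟨{x | Wt M p A x}, isNP_iff.2 ⟨M, p, fun x => (h1 x).1, fun x => Iff.rfl⟩,
      isNP_iff.2 ⟨M', p', fun x => (h1 x).2.1, fun x => ?_⟩, ?_⟩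
    · have h3 := (h1 x).2.2
      show ¬ Wt M p A x ↔ _
      rw [h3, not_not]
    · intro L hL hL'
      obtain ⟨N, q, g1, g2⟩ := isNP_iff.1 hL
      obtain ⟨N', q', g1', g2'⟩ := isNP_iff.1 hL'
      obtain ⟨f, hf⟩ := h2 ((N, q), (N', q')) (fun z => ⟨(), g1 z, g1' z, by
        rw [← g2 z, ← g2' z, Set.mem_compl_iff, not_not]⟩)
      refine red_iff.2 ⟨f, fun x => ?_⟩
      obtain ⟨u, hu, huv⟩ := hf x
      exact ⟨u, hu, (g2 x).trans huv⟩

theorem up_npc : IsSigma04 {A : RO.Oracle | HasNPC A} := by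
  have e : {A : RO.Oracle | HasNPC A} = {A : RO.Oracle |
    ∃ i : (Alg × Polynomial ℕ) × (Alg × Polynomial ℕ),
    (∀ x : List Bool, ∃ _y : Unit, (i.1.1.out A x).isSome = true ∧
      (i.2.1.out A x).isSome = true ∧ (Wt i.1.1 i.1.2 A x ↔ ¬ Wt i.2.1 i.2.2 A x)) ∧
    ∀ j : (Alg × Polynomial ℕ) × (Alg × Polynomial ℕ),
      (∀ z : List Bool, ∃ _w : Unit, (j.1.1.out A z).isSome = true ∧
      (j.2.1.out A z).isSome = true ∧ (Wt j.1.1 j.1.2 A z ↔ ¬ Wt j.2.1 j.2.2 A z)) →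
      ∃ f : Alg, ∀ v : List Bool, ∃ u, f.out A v = some u ∧
        (Wt j.1.1 j.1.2 A v ↔ Wt i.1.1 i.1.2 A u)} := by
    ext A
    exact u3_npc_iff A
  rw [e]
  exact sigma04_form
    (C := fun (i : (Alg × Polynomial ℕ) × (Alg × Polynomial ℕ)) (x : List Bool) (_ : Unit) A =>
      (i.1.1.out A x).isSome = true ∧
      (i.2.1.out A x).isSome = true ∧ (Wt i.1.1 i.1.2 A x ↔ ¬ Wt i.2.1 i.2.2 A x))
    (D := fun (_ : (Alg × Polynomial ℕ) × (Alg × Polynomial ℕ))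
      (j : (Alg × Polynomial ℕ) × (Alg × Polynomial ℕ)) (x : List Bool) (_ : Unit) A =>
      (j.1.1.out A x).isSome = true ∧
      (j.2.1.out A x).isSome = true ∧ (Wt j.1.1 j.1.2 A x ↔ ¬ Wt j.2.1 j.2.2 A x))
    (E := fun (i : (Alg × Polynomial ℕ) × (Alg × Polynomial ℕ))
      (j : (Alg × Polynomial ℕ) × (Alg × Polynomial ℕ)) (f : Alg) (v : List Bool) A =>
      ∃ u, f.out A v = some u ∧ (Wt j.1.1 j.1.2 A v ↔ Wt i.1.1 i.1.2 A u))
    (fun i x _ => (Lc.tot _ _).and ((Lc.tot _ _).and ((Lc.wt _ _ _).iff (Lc.not (Lc.wt _ _ _)))))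
    (fun _ j x _ => (Lc.tot _ _).and ((Lc.tot _ _).and
      ((Lc.wt _ _ _).iff (Lc.not (Lc.wt _ _ _)))))
    (fun i j f v => Lc.bind f v (fun u => (Lc.wt _ _ _).iff (Lc.wt _ _ _)))

end Pool.Agent.H543R3.PC
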