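import Pool.Agent.H543R3.PC.U0
import Pool.Agent.H543R3.PC.U1

/-!
# Task U4: the upper bounds for disjoint `NP` pairs and disjoint `coNP` pairs
-/

namespace Pool.Agent.H543R3.PC

open Pool.Agent.NPC Pool.Agent.H628R3 Pool.Agent.H628R3.RO TopologicalSpace Topology
open H556R2 (IsSigma03 IsPi03 IsSigma04 Sigma04Complete)

theorem u4_isNP_iff {A : RO.Oracle} {L : Set (List Bool)} :
    IsNP A L ↔ ∃ (M : Alg) (p : Polynomial ℕ), (∀ x, (M.out A x).isSome = true) ∧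
      ∀ x, x ∈ L ↔ Wt M p A x := by
  constructor
  · rintro ⟨V, p, ⟨M, hM⟩, h⟩
    refine ⟨M, p, fun x => by rw [hM x]; rfl, fun x => ?_⟩
    rw [h x]
    unfold Wt Acc
    refine exists_congr fun w => and_congr_right fun _ => ?_
    rw [hM, Option.some_inj]
  · rintro ⟨M, p, ht, h⟩
    refine ⟨fun x => (M.out A x).get (ht x), p, ⟨M, fun x => (Option.some_get (ht x)).symm⟩,
      fun x => ?_⟩
    rw [h x]
    unfold Wt Acc
    refine exists_congr fun w => and_congr_right fun _ => ?_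
    constructor
    · intro hw
      exact Option.some_injective _ ((Option.some_get (ht (pairBits x w))).trans hw)
    · intro hw
      rw [← Option.some_get (ht (pairBits x w))]
      exact congrArg some hw

theorem u4_redPair_iff {A : RO.Oracle} {L₀ L₁ K₀ K₁ : Set (List Bool)} :
    RedPair A L₀ L₁ K₀ K₁ ↔ ∃ M : Alg, ∀ x, ∃ u, M.out A x = some u ∧ (x ∈ L₀ → u ∈ K₀) ∧
      (x ∈ L₁ → u ∈ K₁) := by
  constructor
  · rintro ⟨F, ⟨M, hM⟩, h0, h1⟩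
    exact ⟨M, fun x => ⟨F x, hM x, h0 x, h1 x⟩⟩
  · rintro ⟨M, hM⟩
    choose F hF using hM
    exact ⟨F, ⟨M, fun x => (hF x).1⟩, fun x hx => (hF x).2.1 hx, fun x hx => (hF x).2.2 hx⟩

/-- The data of a pair of nondeterministic algorithms. -/
abbrev U4I : Type := (Alg × Polynomial ℕ) × (Alg × Polynomial ℕ)

/-- Both algorithms of the pair stop on `x`. -/
def u4T (i : U4I) (x : List Bool) (A : RO.Oracle) : Prop :=
  (i.1.1.out A x).isSome = true ∧ (i.2.1.out A x).isSome = true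

theorem u4T_lc (i : U4I) (x : List Bool) : Lc (u4T i x) :=
  Lc.and (Lc.tot i.1.1 x) (Lc.tot i.2.1 x)

/-- The first algorithm accepts `x`. -/
def u4W0 (i : U4I) (x : List Bool) (A : RO.Oracle) : Prop := Wt i.1.1 i.1.2 A x

/-- The second algorithm accepts `x`. -/
def u4W1 (i : U4I) (x : List Bool) (A : RO.Oracle) : Prop := Wt i.2.1 i.2.2 A x

theorem u4W0_lc (i : U4I) (x : List Bool) : Lc (u4W0 i x) := Lc.wt i.1.1 i.1.2 x

theorem u4W1_lc (i : U4I) (x : List Bool) : Lc (u4W1 i x) := Lc.wt i.2.1 i.2.2 x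

theorem hasDNP_iff_U4 (A : RO.Oracle) : HasDNP A ↔ ∃ i : U4I,
    (∀ x : List Bool, ∃ _y : Unit, u4T i x A ∧ ¬ (u4W0 i x A ∧ u4W1 i x A)) ∧
    ∀ j : U4I, (∀ z : List Bool, ∃ _w : Unit, u4T j z A ∧ ¬ (u4W0 j z A ∧ u4W1 j z A)) →
      ∃ f : Alg, ∀ v : List Bool, ∃ u, f.out A v = some u ∧
        ((u4W0 j v A → u4W0 i u A) ∧ (u4W1 j v A → u4W1 i u A)) := by
  constructor
  · rintro ⟨K₀, K₁, ⟨h0, h1, hd⟩, hc⟩
    obtain ⟨M0, p0, t0, w0⟩ := u4_isNP_iff.1 h0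
    obtain ⟨M1, p1, t1, w1⟩ := u4_isNP_iff.1 h1
    refine ⟨((M0, p0), (M1, p1)), fun x => ⟨(), ⟨t0 x, t1 x⟩, fun h => ?_⟩, fun j hj => ?_⟩
    · exact hd x ⟨(w0 x).2 h.1, (w1 x).2 h.2⟩
    · have hL := hc {x | u4W0 j x A} {x | u4W1 j x A} ⟨?_, ?_, ?_⟩
      · obtain ⟨f, hf⟩ := u4_redPair_iff.1 hL
        refine ⟨f, fun v => ?_⟩
        obtain ⟨u, hu, hu0, hu1⟩ := hf v
        exact ⟨u, hu, fun h => (w0 u).1 (hu0 h), fun h => (w1 u).1 (hu1 h)⟩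
      · exact u4_isNP_iff.2 ⟨j.1.1, j.1.2, fun x => (hj x).choose_spec.1.1, fun x => Iff.rfl⟩
      · exact u4_isNP_iff.2 ⟨j.2.1, j.2.2, fun x => (hj x).choose_spec.1.2, fun x => Iff.rfl⟩
      · exact fun x hx => (hj x).choose_spec.2 hx
  · rintro ⟨i, hi, hc⟩
    refine ⟨{x | u4W0 i x A}, {x | u4W1 i x A}, ⟨?_, ?_, ?_⟩, ?_⟩
    · exact u4_isNP_iff.2 ⟨i.1.1, i.1.2, fun x => (hi x).choose_spec.1.1, fun x => Iff.rfl⟩
    · exact u4_isNP_iff.2 ⟨i.2.1, i.2.2, fun x => (hi x).choose_spec.1.2, fun x => Iff.rfl⟩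
    · exact fun x hx => (hi x).choose_spec.2 hx
    · rintro L₀ L₁ ⟨h0, h1, hd⟩
      obtain ⟨M0, p0, t0, w0⟩ := u4_isNP_iff.1 h0
      obtain ⟨M1, p1, t1, w1⟩ := u4_isNP_iff.1 h1
      obtain ⟨f, hf⟩ := hc ((M0, p0), (M1, p1)) (fun z => ⟨(), ⟨t0 z, t1 z⟩,
        fun h => hd z ⟨(w0 z).2 h.1, (w1 z).2 h.2⟩⟩)
      refine u4_redPair_iff.2 ⟨f, fun x => ?_⟩
      obtain ⟨u, hu, hu0, hu1⟩ := hf x
      exact ⟨u, hu, fun h => hu0 ((w0 x).1 h), fun h => hu1 ((w1 x).1 h)⟩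

theorem hasDCoNP_iff_U4 (A : RO.Oracle) : HasDCoNP A ↔ ∃ i : U4I,
    (∀ x : List Bool, ∃ _y : Unit, u4T i x A ∧ (u4W0 i x A ∨ u4W1 i x A)) ∧
    ∀ j : U4I, (∀ z : List Bool, ∃ _w : Unit, u4T j z A ∧ (u4W0 j z A ∨ u4W1 j z A)) →
      ∃ f : Alg, ∀ v : List Bool, ∃ u, f.out A v = some u ∧
        ((¬ u4W0 j v A → ¬ u4W0 i u A) ∧ (¬ u4W1 j v A → ¬ u4W1 i u A)) := by
  constructor
  · rintro ⟨K₀, K₁, ⟨h0, h1, hd⟩, hc⟩
    obtain ⟨M0, p0, t0, w0⟩ := u4_isNP_iff.1 h0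
    obtain ⟨M1, p1, t1, w1⟩ := u4_isNP_iff.1 h1
    have w0' : ∀ x, x ∈ K₀ ↔ ¬ Wt M0 p0 A x := fun x => by
      rw [← w0 x, Set.mem_compl_iff, not_not]
    have w1' : ∀ x, x ∈ K₁ ↔ ¬ Wt M1 p1 A x := fun x => by
      rw [← w1 x, Set.mem_compl_iff, not_not]
    refine ⟨((M0, p0), (M1, p1)), fun x => ⟨(), ⟨t0 x, t1 x⟩, ?_⟩, fun j hj => ?_⟩
    · by_contra h
      rw [not_or] at h
      exact hd x ⟨(w0' x).2 h.1, (w1' x).2 h.2⟩
    · have hL := hc {x | ¬ u4W0 j x A} {x | ¬ u4W1 j x A} ⟨?_, ?_, ?_⟩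
      · obtain ⟨f, hf⟩ := u4_redPair_iff.1 hL
        refine ⟨f, fun v => ?_⟩
        obtain ⟨u, hu, hu0, hu1⟩ := hf v
        exact ⟨u, hu, fun h => (w0' u).1 (hu0 h), fun h => (w1' u).1 (hu1 h)⟩
      · exact u4_isNP_iff.2 ⟨j.1.1, j.1.2, fun x => (hj x).choose_spec.1.1, fun x => not_not⟩
      · exact u4_isNP_iff.2 ⟨j.2.1, j.2.2, fun x => (hj x).choose_spec.1.2, fun x => not_not⟩
      · exact fun x hx => (hj x).choose_spec.2.elim hx.1 hx.2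
  · rintro ⟨i, hi, hc⟩
    refine ⟨{x | ¬ u4W0 i x A}, {x | ¬ u4W1 i x A}, ⟨?_, ?_, ?_⟩, ?_⟩
    · exact u4_isNP_iff.2 ⟨i.1.1, i.1.2, fun x => (hi x).choose_spec.1.1, fun x => not_not⟩
    · exact u4_isNP_iff.2 ⟨i.2.1, i.2.2, fun x => (hi x).choose_spec.1.2, fun x => not_not⟩
    · exact fun x hx => (hi x).choose_spec.2.elim hx.1 hx.2
    · rintro L₀ L₁ ⟨h0, h1, hd⟩
      obtain ⟨M0, p0, t0, w0⟩ := u4_isNP_iff.1 h0
      obtain ⟨M1, p1, t1, w1⟩ := u4_isNP_iff.1 h1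
      have w0' : ∀ x, x ∈ L₀ ↔ ¬ Wt M0 p0 A x := fun x => by
        rw [← w0 x, Set.mem_compl_iff, not_not]
      have w1' : ∀ x, x ∈ L₁ ↔ ¬ Wt M1 p1 A x := fun x => by
        rw [← w1 x, Set.mem_compl_iff, not_not]
      obtain ⟨f, hf⟩ := hc ((M0, p0), (M1, p1)) (fun z => ⟨(), ⟨t0 z, t1 z⟩, by
        by_contra h
        rw [not_or] at h
        exact hd z ⟨(w0' z).2 h.1, (w1' z).2 h.2⟩⟩)
      refine u4_redPair_iff.2 ⟨f, fun x => ?_⟩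
      obtain ⟨u, hu, hu0, hu1⟩ := hf x
      exact ⟨u, hu, fun h => hu0 ((w0' x).1 h), fun h => hu1 ((w1' x).1 h)⟩

theorem up_dnp : IsSigma04 {A : RO.Oracle | HasDNP A} := by
  have h := sigma04_form (I := U4I) (J := U4I) (F := Alg) (X := List Bool) (Y := Unit)
    (Z := List Bool) (W := Unit) (V := List Bool)
    (C := fun i x _ A => u4T i x A ∧ ¬ (u4W0 i x A ∧ u4W1 i x A))
    (D := fun _ j z _ A => u4T j z A ∧ ¬ (u4W0 j z A ∧ u4W1 j z A))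
    (E := fun i j f v A => ∃ u, f.out A v = some u ∧
        ((u4W0 j v A → u4W0 i u A) ∧ (u4W1 j v A → u4W1 i u A)))
    (fun i x _ => (u4T_lc i x).and ((u4W0_lc i x).and (u4W1_lc i x)).not)
    (fun _ j z _ => (u4T_lc j z).and ((u4W0_lc j z).and (u4W1_lc j z)).not)
    (fun i j f v => Lc.bind f v fun u =>
      ((u4W0_lc j v).imp (u4W0_lc i u)).and ((u4W1_lc j v).imp (u4W1_lc i u)))
  have he : {A : RO.Oracle | HasDNP A} = _ := Set.ext fun A => hasDNP_iff_U4 A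
  rw [he]
  exact h

theorem up_dconp : IsSigma04 {A : RO.Oracle | HasDCoNP A} := by
  have h := sigma04_form (I := U4I) (J := U4I) (F := Alg) (X := List Bool) (Y := Unit)
    (Z := List Bool) (W := Unit) (V := List Bool)
    (C := fun i x _ A => u4T i x A ∧ (u4W0 i x A ∨ u4W1 i x A))
    (D := fun _ j z _ A => u4T j z A ∧ (u4W0 j z A ∨ u4W1 j z A))
    (E := fun i j f v A => ∃ u, f.out A v = some u ∧
        ((¬ u4W0 j v A → ¬ u4W0 i u A) ∧ (¬ u4W1 j v A → ¬ u4W1 i u A)))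
    (fun i x _ => (u4T_lc i x).and ((u4W0_lc i x).or (u4W1_lc i x)))
    (fun _ j z _ => (u4T_lc j z).and ((u4W0_lc j z).or (u4W1_lc j z)))
    (fun i j f v => Lc.bind f v fun u =>
      ((u4W0_lc j v).not.imp (u4W0_lc i u).not).and ((u4W1_lc j v).not.imp (u4W1_lc i u).not))
  have he : {A : RO.Oracle | HasDCoNP A} = _ := Set.ext fun A => hasDCoNP_iff_U4 A
  rw [he]
  exact h

end Pool.Agent.H543R3.PC
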