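import Pool.Agent.H543R3.PC.Defs

/-!
# Requirements, canonical complete sets, guarded instances and tasks
-/

namespace Pool.Agent.H543R3.PC

open Pool.Agent.NPC Pool.Agent.H628R3.RO

theorem exists_surj (α : Type) [Countable α] [Nonempty α] :
    ∃ d : List Bool → α, Function.Surjective d := by
  obtain ⟨f, hf⟩ := exists_surjective_nat α
  refine ⟨fun x => f x.length, fun a => ?_⟩
  obtain ⟨n, rfl⟩ := hf a
  exact ⟨List.replicate n true, by simp⟩

theorem exists_cofinal (α : Type) [Countable α] [Nonempty α] :
    ∃ f : ℕ → α, ∀ a N, ∃ e, N ≤ e ∧ f e = a := by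
  obtain ⟨f, hf⟩ := exists_surjective_nat α
  refine ⟨fun e => f e.unpair.1, fun a N => ?_⟩
  obtain ⟨n, rfl⟩ := hf a
  exact ⟨Nat.pair n N, Nat.right_le_pair n N, by simp⟩

instance countable_polyN : Countable (Polynomial ℕ) := by
  have h2 : Function.Injective (fun p : Polynomial ℕ => p.toFinsupp.coeff) := by
    intro p q hpq
    exact Polynomial.toFinsupp_injective (AddMonoidAlgebra.ext hpq)
  exact h2.countable

instance nonempty_alg : Nonempty Alg :=
  ⟨⟨fun x => x, polyTime_id, 0⟩⟩

/-! ### Instances `⟨k, ⟨u, pad⟩⟩` -/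

/-- The code in an instance. -/
def zK (z : List Bool) : List Bool := (unpair z).1

/-- The input in an instance. -/
def zU (z : List Bool) : List Bool := (unpair (unpair z).2).1

/-- The amount of padding in an instance. -/
def zR (z : List Bool) : ℕ := (unpair (unpair z).2).2.length

/-- The instance with code `k`, input `u` and padding `r`. -/
def zM (k u : List Bool) (r : ℕ) : List Bool := pairBits k (pairBits u (one r))

/-! ### Costs -/

/-- The run of `M` on `⟨u, w⟩`, for short `w`, costs at most `c`. -/
def CostP (M : Alg) (p c : Polynomial ℕ) : Prop :=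
  ∀ u w : List Bool, w.length ≤ p.eval u.length →
    (∀ B, Sh (fun G => M.out (mk B G) (pairBits u w)) (c.eval u.length) (c.eval u.length)) ∧
    ∀ B B' G, AgB (c.eval u.length) B B' →
      M.out (mk B' G) (pairBits u w) = M.out (mk B G) (pairBits u w)

/-- The run of `M` on `u` costs at most `c`. -/
def CostF (M : Alg) (c : Polynomial ℕ) : Prop :=
  ∀ u : List Bool,
    (∀ B, Sh (fun G => M.out (mk B G) u) (c.eval u.length) (c.eval u.length)) ∧
    (∀ B B' G, AgB (c.eval u.length) B B' → M.out (mk B' G) u = M.out (mk B G) u) ∧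
    ∀ A z, M.out A u = some z → z.length ≤ c.eval u.length

/-- `w` is an accepted certificate for `u`. -/
def Acc (M : Alg) (p : Polynomial ℕ) (A : Oracle) (u w : List Bool) : Prop :=
  w.length ≤ p.eval u.length ∧ M.out A (pairBits u w) = some [true]

/-- There is an accepted certificate for `u`. -/
def Wt (M : Alg) (p : Polynomial ℕ) (A : Oracle) (u : List Bool) : Prop := ∃ w, Acc M p A u w

/-! ### The canonical `NP`-complete set -/

/-- All codes of nondeterministic algorithms. -/
noncomputable def decA : List Bool → Alg × Polynomial ℕ :=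
  Classical.choose (exists_surj (Alg × Polynomial ℕ))

theorem decA_surjective : Function.Surjective decA :=
  Classical.choose_spec (exists_surj (Alg × Polynomial ℕ))

/-- Costs of a coded nondeterministic algorithm. -/
def CostA (a : Alg × Polynomial ℕ) (c : Polynomial ℕ) : Prop :=
  CostP a.1 a.2 c ∧ ∀ n, a.2.eval n ≤ c.eval n

open Classical in
/-- The cost polynomial of a coded nondeterministic algorithm. -/
noncomputable def cA (a : Alg × Polynomial ℕ) : Polynomial ℕ :=
  if h : ∃ c, CostA a c then h.choose else 0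

/-- `w` is a certificate for the instance `z` of the canonical problem. -/
def canAcc (B : List Bool → Bool) (G : GG) (z w : List Bool) : Prop :=
  (cA (decA (zK z))).eval (zU z).length ≤ zR z ∧
    Acc (decA (zK z)).1 (decA (zK z)).2 (mk B G) (zU z) w

/-- The canonical `NP`-complete set. -/
def canNP (B : List Bool → Bool) (G : GG) : Set (List Bool) := {z | ∃ w, canAcc B G z w}

/-! ### Requirements -/

/-- The kinds of requirements: unambiguous algorithms, `NP ∩ coNP`, disjoint `NP` pairs, disjoint
`coNP` pairs, total search problems, proof systems for the canonical `coNP`- and `NP`-complete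
sets, and proof systems for the two special sets. -/
inductive Kind : Type
  | up | npc | dnp | dconp | tfnp | psT | psS | nT | nS
  deriving DecidableEq

/-- A requirement. -/
structure Req : Type where
  kind : Kind
  M₀ : Alg
  M₁ : Alg
  p₀ : Polynomial ℕ
  p₁ : Polynomial ℕ

/-- The instance (block `n` of column `j`). -/
def uC (j n : ℕ) : List Bool := pairBits (one j) (one n)

/-- Block `n` of column `j` has two hits. -/
def TwoHits (G : GG) (j n : ℕ) : Prop := ∃ y y', Hit G j n y ∧ Hit G j n y' ∧ y ≠ y'

/-- Block `n` of column `j` is active and has no hit. -/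
def NoHits (G : GG) (j n : ℕ) : Prop := Act G j n ∧ ∀ y, ¬ Hit G j n y

/-- The special `coNP` set: all strings but the names of blocks with two hits. -/
def setT (G : GG) : Set (List Bool) := {z | ¬ ∃ j n, z = uC j n ∧ TwoHits G j n}

/-- The special `NP` set: all strings but the names of active blocks without hits. -/
def setS (G : GG) : Set (List Bool) := {z | ¬ ∃ j n, z = uC j n ∧ NoHits G j n}

/-- The promise of `r` is violated at `u`. -/
def CBad (r : Req) (B : List Bool → Bool) (G : GG) (u : List Bool) : Prop :=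
  match r.kind with
  | .up => ∃ w w', w ≠ w' ∧ Acc r.M₀ r.p₀ (mk B G) u w ∧ Acc r.M₀ r.p₀ (mk B G) u w'
  | .npc => (Wt r.M₀ r.p₀ (mk B G) u ↔ Wt r.M₁ r.p₁ (mk B G) u)
  | .dnp => Wt r.M₀ r.p₀ (mk B G) u ∧ Wt r.M₁ r.p₁ (mk B G) u
  | .dconp => ¬ Wt r.M₀ r.p₀ (mk B G) u ∧ ¬ Wt r.M₁ r.p₁ (mk B G) u
  | .tfnp => ¬ Wt r.M₀ r.p₀ (mk B G) u
  | .psT => ∃ z, r.M₀.out (mk B G) u = some z ∧ z ∈ canNP B G
  | .psS => ∃ z, r.M₀.out (mk B G) u = some z ∧ z ∉ canNP B G
  | .nT => ∃ z, r.M₀.out (mk B G) u = some z ∧ z ∉ setT G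
  | .nS => ∃ z, r.M₀.out (mk B G) u = some z ∧ z ∉ setS G

/-- Costs of a requirement. -/
def CostR (r : Req) (c : Polynomial ℕ) : Prop :=
  CostP r.M₀ r.p₀ c ∧ CostP r.M₁ r.p₁ c ∧ CostF r.M₀ c ∧
    ∀ n, r.p₀.eval n ≤ c.eval n ∧ r.p₁.eval n ≤ c.eval n

open Classical in
/-- The cost polynomial of a requirement. -/
noncomputable def cR (r : Req) : Polynomial ℕ := if h : ∃ c, CostR r c then h.choose else 0

deriving instance Fintype for Kind

theorem countable_req : Countable Req := by
  have h : Function.Injective (fun r : Req => (r.kind, r.M₀, r.M₁, r.p₀, r.p₁)) := by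
    rintro ⟨a, b, c, d, e⟩ ⟨a', b', c', d', e'⟩ h
    simp only [Prod.mk.injEq] at h
    obtain ⟨rfl, rfl, rfl, rfl, rfl⟩ := h
    rfl
  exact h.countable

instance : Countable Req := countable_req

instance : Nonempty Req := ⟨⟨.up, Classical.arbitrary _, Classical.arbitrary _, 0, 0⟩⟩

/-- The list of all requirements, each occurring infinitely often. -/
noncomputable def req : ℕ → Req := Classical.choose (exists_cofinal Req)

theorem req_spec (r : Req) (N : ℕ) : ∃ e, N ≤ e ∧ req e = r :=
  Classical.choose_spec (exists_cofinal Req) r N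

/-! ### Guarded instances -/

/-- The codes of triples: requirement, threshold, table of the bits below the threshold. -/
noncomputable def decZ : List Bool → ℕ × ℕ × Finset (ℕ × List Bool) :=
  Classical.choose (exists_surj (ℕ × ℕ × Finset (ℕ × List Bool)))

theorem decZ_surjective : Function.Surjective decZ :=
  Classical.choose_spec (exists_surj (ℕ × ℕ × Finset (ℕ × List Bool)))

/-- The bits given by a finite table. -/
def tab (F : Finset (ℕ × List Bool)) : GG := fun j y => decide ((j, y) ∈ F)

/-- The requirement of the instance `z`. -/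
noncomputable def zE (z : List Bool) : ℕ := (decZ (zK z)).1

/-- The threshold of the instance `z`. -/
noncomputable def zm (z : List Bool) : ℕ := (decZ (zK z)).2.1

/-- The table of the instance `z`. -/
noncomputable def zF (z : List Bool) : Finset (ℕ × List Bool) := (decZ (zK z)).2.2

/-- The cost of the instance `z`. -/
noncomputable def zT (z : List Bool) : ℕ := (cR (req (zE z))).eval (zU z).length

/-- The guard: the promise of the requirement holds, at the input in question, for all admissible
extensions of the table, the table is correct, and as far as it matters the blocks of the columns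
outside `S` with small numbers are inactive. -/
structure okZ (S : Finset ℕ) (nH : ℕ) (κ : Kind) (B : List Bool → Bool) (G : GG)
    (z : List Bool) : Prop where
  kind : (req (zE z)).kind = κ
  sub : ∀ i ∈ S, i < zE z
  low : nH ≤ zm z
  grd : zT z + zE z * (zT z + 1) + 2 ^ (zm z + 2) ≤ zR z
  rob : ∀ G', Leg (zE z) S (zm z) (tab (zF z)) G' → ¬ CBad (req (zE z)) B G' (zU z)
  agr : Agr (zm z) (tab (zF z)) G
  ina : ∀ j, j < zE z → j ∉ S → ∀ n, zm z ≤ j + n → j + n ≤ zT z → ¬ Act G j n

/-! ### Tasks for the guide -/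

/-- Functions that the guide helps to compute. -/
inductive Task : Type
  | gV (S : Finset ℕ) (nH : ℕ) (κ : Kind) (i dflt : Bool)
  | gP (S : Finset ℕ) (nH : ℕ) (κ : Kind) (d : List Bool)
  | cV
  | bP (b : Bool) (d : List Bool)
  | lV (j N : ℕ) (b : Bool)
  | sV (j N : ℕ)
  | uV
  | uV'

/-- The additional cost allowed for a task. -/
def kap : Task → ℕ
  | .gP _ _ _ d => d.length + 1
  | .bP _ d => d.length + 1
  | .lV j _ _ => j + 2
  | .sV j _ => j + 2
  | _ => 2

open Classical in
/-- The verifier that runs the algorithm number `i` of the requirement, guarded. -/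
noncomputable def semG (S : Finset ℕ) (nH : ℕ) (κ : Kind) (i dflt : Bool)
    (B : List Bool → Bool) (x : List Bool) (G : GG) : List Bool :=
  if (okZ S nH κ B G (unpair x).1 ∧
      (if i = true then Acc (req (zE (unpair x).1)).M₁ (req (zE (unpair x).1)).p₁ (mk B G)
          (zU (unpair x).1) (unpair x).2
        else Acc (req (zE (unpair x).1)).M₀ (req (zE (unpair x).1)).p₀ (mk B G)
          (zU (unpair x).1) (unpair x).2)) ∨
      (¬ okZ S nH κ B G (unpair x).1 ∧ dflt = true ∧ (unpair x).2 = [])
    then [true] else []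

open Classical in
/-- The guarded proof system. -/
noncomputable def semP (S : Finset ℕ) (nH : ℕ) (κ : Kind) (d : List Bool)
    (B : List Bool → Bool) (x : List Bool) (G : GG) : List Bool :=
  if okZ S nH κ B G x then ((req (zE x)).M₀.out (mk B G) (zU x)).getD d else d

open Classical in
/-- The verifier of the canonical `NP`-complete set. -/
noncomputable def semC (B : List Bool → Bool) (x : List Bool) (G : GG) : List Bool :=
  if canAcc B G (unpair x).1 (unpair x).2 then [true] else []

open Classical in
/-- The brute-force proof systems for the canonical set and its complement. -/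
noncomputable def semB (b : Bool) (d : List Bool) (B : List Bool → Bool) (x : List Bool)
    (G : GG) : List Bool :=
  if 2 ^ ((unpair x).1.length + 2) ≤ (unpair x).2.length ∧
      ((unpair x).1 ∈ canNP B G ↔ b = true) then (unpair x).1 else d

open Classical in
/-- The verifiers of the hard language of column `j` and of its complement. -/
noncomputable def semL (j N : ℕ) (b : Bool) (x : List Bool) (G : GG) : List Bool :=
  if (b = true ∧ N ≤ (unpair x).1.length ∧ Act G j (unpair x).1.length ∧
        Hit G j (unpair x).1.length (unpair x).2 ∧ (unpair x).2.head? = some true) ∨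
      (b = false ∧
        ((¬ (N ≤ (unpair x).1.length ∧ Act G j (unpair x).1.length) ∧ (unpair x).2 = []) ∨
        (N ≤ (unpair x).1.length ∧ Act G j (unpair x).1.length ∧
          Hit G j (unpair x).1.length (unpair x).2 ∧ (unpair x).2.head? = some false)))
    then [true] else []

open Classical in
/-- The verifier of the hard search problem of column `j`. -/
noncomputable def semS (j N : ℕ) (x : List Bool) (G : GG) : List Bool :=
  if (¬ (N ≤ (unpair x).1.length ∧ Act G j (unpair x).1.length) ∧ (unpair x).2 = []) ∨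
      (N ≤ (unpair x).1.length ∧ Act G j (unpair x).1.length ∧
        Hit G j (unpair x).1.length (unpair x).2)
    then [true] else []

open Classical in
/-- The verifier for the complement of `setT`. -/
noncomputable def semU (x : List Bool) (G : GG) : List Bool :=
  if ∃ j n, (unpair x).1 = uC j n ∧ Hit G j n (unpair (unpair x).2).1 ∧
      Hit G j n (unpair (unpair x).2).2 ∧ (unpair (unpair x).2).1 ≠ (unpair (unpair x).2).2
    then [true] else []

open Classical in
/-- The verifier for `setS`. -/
noncomputable def semU' (x : List Bool) (G : GG) : List Bool :=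
  if (∃ j n, (unpair x).1 = uC j n ∧ (Hit G j n (unpair x).2 ∨
        (¬ Act G j n ∧ (unpair x).2 = []))) ∨
      ((¬ ∃ j n, (unpair x).1 = uC j n) ∧ (unpair x).2 = [])
    then [true] else []

/-- The meaning of the tasks. -/
noncomputable def sem : Task → (List Bool → Bool) → List Bool → GG → List Bool
  | .gV S nH κ i dflt, B, x, G => semG S nH κ i dflt B x G
  | .gP S nH κ d, B, x, G => semP S nH κ d B x G
  | .cV, B, x, G => semC B x G
  | .bP b d, B, x, G => semB b d B x G
  | .lV j N b, _, x, G => semL j N b x G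
  | .sV j N, _, x, G => semS j N x G
  | .uV, _, x, G => semU x G
  | .uV', _, x, G => semU' x G

/-- `B` is a guide: with its help all tasks can be done in polynomial time. -/
def GuideP (B : List Bool → Bool) : Prop :=
  ∀ T : Task, ∃ M : Alg, ∀ G x, M.out (mk B G) x = some (sem T B x G)

/-! ### Adversaries -/

/-- A reduction (to the object of requirement `e`). -/
structure Adv : Type where
  F : Alg
  R : Alg
  e : ℕ

/-- The reduction fails at block `n` of column `j`. -/
def CWin (a : Adv) (B : List Bool → Bool) (G : GG) (j n : ℕ) : Prop :=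
  match (req a.e).kind with
  | .up => ¬ ∃ u, a.F.out (mk B G) (one n) = some u ∧
      (HitT G j n ↔ Wt (req a.e).M₀ (req a.e).p₀ (mk B G) u)
  | .npc | .dnp => ¬ ∃ u, a.F.out (mk B G) (one n) = some u ∧
      (HitT G j n → Wt (req a.e).M₀ (req a.e).p₀ (mk B G) u) ∧
      (¬ HitT G j n → Wt (req a.e).M₁ (req a.e).p₁ (mk B G) u)
  | .dconp => ¬ ∃ u, a.F.out (mk B G) (one n) = some u ∧
      (HitT G j n → ¬ Wt (req a.e).M₀ (req a.e).p₀ (mk B G) u) ∧
      (¬ HitT G j n → ¬ Wt (req a.e).M₁ (req a.e).p₁ (mk B G) u)
  | .tfnp => ¬ ∃ u, a.F.out (mk B G) (one n) = some u ∧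
      ∀ w, Acc (req a.e).M₀ (req a.e).p₀ (mk B G) u w →
        ∃ v, a.R.out (mk B G) (pairBits (one n) w) = some v ∧ Hit G j n v
  | .nS => ¬ ∃ v, a.F.out (mk B G) (one n) = some v ∧
      (req a.e).M₀.out (mk B G) v = some (uC j n)
  | _ => False

theorem countable_adv : Countable Adv := by
  have h : Function.Injective (fun r : Adv => (r.F, r.R, r.e)) := by
    rintro ⟨a, b, c⟩ ⟨a', b', c'⟩ h
    simp only [Prod.mk.injEq] at h
    obtain ⟨rfl, rfl, rfl⟩ := h
    rfl
  exact h.countable

instance : Countable Adv := countable_adv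

instance : Nonempty Adv := ⟨⟨Classical.arbitrary _, Classical.arbitrary _, 0⟩⟩

/-! ### The two situations -/

/-- The situation when only the columns in `S` are infinite. -/
structure PosSit (B : List Bool → Bool) (G : GG) (S : Finset ℕ) (nH : ℕ) : Prop where
  inv : ∀ j n, Act G j n ∨ Inact G j n
  leg : ∀ j ∈ S, ∀ n, nH ≤ j + n → Legal G j n ∨ Inact G j n
  rob : ∀ e, (∀ i ∈ S, i < e) → (∀ u, ¬ CBad (req e) B G u) →
    ∃ m, nH ≤ m ∧ Leg e S m G G ∧ ∀ G', Leg e S m G G' → ∀ u, ¬ CBad (req e) B G' u

/-- The situation when infinitely many columns are infinite. -/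
structure NegSit (B : List Bool → Bool) (G : GG) (H : Set ℕ) : Prop where
  inf : H.Infinite
  inv : ∀ j n, Act G j n ∨ Inact G j n
  leg : ∀ j, ∃ N, ∀ n, N ≤ n → Legal G j n ∨ Inact G j n
  act : ∀ j ∈ H, ∀ N, ∃ n, N ≤ n ∧ Legal G j n
  rob : ∀ e, (∀ u, ¬ CBad (req e) B G u) →
    ∃ m, ∃ S : Finset ℕ, (∀ i ∈ S, i < e) ∧ Leg e S m G G ∧
      ∀ G', Leg e S m G G' → ∀ u, ¬ CBad (req e) B G' u
  win : ∀ j ∈ H, ∀ a : Adv, ∀ N, ∃ m, N ≤ m ∧
    ((∃ n y, m ≤ n ∧ y.length = n ∧ y ≠ zer n ∧ CWin a B (put (tr m G) j n [y]) j n) →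
      ∃ n, N ≤ n ∧ Legal G j n ∧ CWin a B G j n)

/-! ### The eight properties of oracles -/

/-- `NP ∩ coNP` has a complete set. -/
def HasNPC (A : Oracle) : Prop :=
  ∃ K : Set (List Bool), IsNP A K ∧ IsCoNP A K ∧ ∀ L, IsNP A L → IsCoNP A L → Red A L K

/-- `UP` has a complete set. -/
def HasUP (A : Oracle) : Prop := ∃ K : Set (List Bool), IsUP A K ∧ ∀ L, IsUP A L → Red A L K

/-- There is a complete disjoint `NP` pair. -/
def HasDNP (A : Oracle) : Prop := ∃ K₀ K₁ : Set (List Bool), IsPair (IsNP A) K₀ K₁ ∧
  ∀ L₀ L₁, IsPair (IsNP A) L₀ L₁ → RedPair A L₀ L₁ K₀ K₁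

/-- There is a complete disjoint `coNP` pair. -/
def HasDCoNP (A : Oracle) : Prop := ∃ K₀ K₁ : Set (List Bool), IsPair (IsCoNP A) K₀ K₁ ∧
  ∀ L₀ L₁, IsPair (IsCoNP A) L₀ L₁ → RedPair A L₀ L₁ K₀ K₁

/-- There is a complete total `NP` search problem. -/
def HasTFNP (A : Oracle) : Prop := ∃ R : List Bool → List Bool → Prop, IsTFNP A R ∧
  ∀ S, IsTFNP A S → RedSearch A S R

/-- Some `coNP`-complete set has an optimal proof system. -/
def HasOpt (A : Oracle) : Prop := ∃ L : Set (List Bool), IsCoNP A L ∧ CoNPHardRel A L ∧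
  ∃ P, IsOptimal A L P

/-- Some `coNP`-complete set has a `p`-optimal proof system. -/
def HasPOptT (A : Oracle) : Prop := ∃ L : Set (List Bool), IsCoNP A L ∧ CoNPHardRel A L ∧
  ∃ P, IsPOptimal A L P

/-- Some `NP`-complete set has a `p`-optimal proof system. -/
def HasPOptS (A : Oracle) : Prop := ∃ L : Set (List Bool), IsNP A L ∧ NPHardRel A L ∧
  ∃ P, IsPOptimal A L P

end Pool.Agent.H543R3.PC
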