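import Pool.Agent.H543R3.PC.DefsP
import Pool.Agent.H543R3.PC.Reqs
import Pool.Agent.H556R2.Sigma04Defs
import Pool.Agent.H543R3.PC.U0
import Pool.Agent.H543R3.PC.U1
import Pool.Agent.H543R3.PC.U2

/-!
# The existence of complete total `NP` search problems is `Σ⁰₄`
-/

namespace Pool.Agent.H543R3.PC

open Pool.Agent.NPC Pool.Agent.H628R3 Pool.Agent.H628R3.RO TopologicalSpace Topology
open H556R2 (IsSigma03 IsPi03 IsSigma04 Sigma04Complete)

theorem u5_congr {P Q : RO.Oracle → Prop} (h : Lc P) (e : ∀ A, P A ↔ Q A) : Lc Q := by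
  have : P = Q := funext fun A => propext (e A)
  rwa [← this]

theorem u5_finite (n : ℕ) : {y : List Bool | y.length ≤ n}.Finite :=
  List.finite_length_le Bool n

/-- A bounded universal quantifier over the accepted certificates. -/
theorem u5_forall (M : Alg) (p : Polynomial ℕ) (u : List Bool)
    {Q : List Bool → RO.Oracle → Prop} (hQ : ∀ y, Lc (Q y)) :
    Lc (fun A => ∀ y, Acc M p A u y → Q y A) := by
  have h1 : Lc (fun A => ¬ ∃ y ∈ {y : List Bool | y.length ≤ p.eval u.length},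
      (Acc M p A u y ∧ ¬ Q y A)) :=
    Lc.not (Lc.existsFin _ (u5_finite _) fun y => (Lc.acc M p u y).and (Lc.not (hQ y)))
  refine u5_congr h1 fun A => ?_
  constructor
  · intro h y hy
    by_contra hn
    exact h ⟨y, hy.1, hy, hn⟩
  · rintro h ⟨y, -, hy, hn⟩
    exact hn (h y hy)

theorem up_tfnp : IsSigma04 {A : RO.Oracle | HasTFNP A} := by
  have key := sigma04_form (I := Alg × Polynomial ℕ) (J := Alg × Polynomial ℕ) (F := Alg × Alg)
    (X := List Bool) (Y := Unit) (Z := List Bool) (W := Unit) (V := List Bool)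
    (C := fun i x _ A => (i.1.out A x).isSome = true ∧ Wt i.1 i.2 A x)
    (D := fun _ j z _ A => (j.1.out A z).isSome = true ∧ Wt j.1 j.2 A z)
    (E := fun i j f v A => (f.2.out A v).isSome = true ∧ ∃ u, f.1.out A v = some u ∧
      ∀ y, Acc i.1 i.2 A u y → ∃ w, f.2.out A (pairBits v y) = some w ∧ Acc j.1 j.2 A v w)
    (fun i x _ => (Lc.tot i.1 x).and (Lc.wt i.1 i.2 x))
    (fun _ j z _ => (Lc.tot j.1 z).and (Lc.wt j.1 j.2 z))
    (fun i j f v => (Lc.tot f.2 v).and (Lc.bind f.1 v fun u => u5_forall i.1 i.2 u fun y =>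
      Lc.bind f.2 (pairBits v y) fun w => Lc.acc j.1 j.2 v w))
  convert key using 1
  ext A
  simp only [Set.mem_ofPred_eq]
  constructor
  · rintro ⟨R, hR, hc⟩
    obtain ⟨M, p, h1, h2, h3⟩ := isTFNP_iff.1 hR
    refine ⟨(M, p), fun x => ⟨(), h1 x, h3 x⟩, fun j hj => ?_⟩
    have hS : IsTFNP A (fun x y => Acc j.1 j.2 A x y) :=
      isTFNP_iff.2 ⟨j.1, j.2, fun x => (hj x).choose_spec.1, fun _ _ => Iff.rfl,
        fun x => (hj x).choose_spec.2⟩
    obtain ⟨F, F', g1, g2⟩ := redSearch_iff.1 (hc _ hS)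
    refine ⟨(F, F'), fun v => ⟨g1 v, ?_⟩⟩
    obtain ⟨u, hu, hu'⟩ := g2 v
    exact ⟨u, hu, fun y hy => hu' y ((h2 u y).2 hy)⟩
  · rintro ⟨⟨M, p⟩, h1, h2⟩
    refine ⟨fun x y => Acc M p A x y, ?_, ?_⟩
    · exact isTFNP_iff.2 ⟨M, p, fun x => (h1 x).choose_spec.1, fun _ _ => Iff.rfl,
        fun x => (h1 x).choose_spec.2⟩
    · intro S hS
      obtain ⟨M', p', k1, k2, k3⟩ := isTFNP_iff.1 hS
      obtain ⟨f, hf⟩ := h2 (M', p') (fun z => ⟨(), k1 z, k3 z⟩)
      refine redSearch_iff.2 ⟨f.1, f.2, fun x => (hf x).1, fun x => ?_⟩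
      obtain ⟨u, hu, hu'⟩ := (hf x).2
      refine ⟨u, hu, fun y hy => ?_⟩
      obtain ⟨v, hv, hv'⟩ := hu' y hy
      exact ⟨v, hv, (k2 x v).2 hv'⟩

end Pool.Agent.H543R3.PC
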