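import Pool.Agent.H543R3.PC.DefsP
import Pool.Agent.H556R2.Sigma04Defs
import Pool.Agent.H556R2.Borel
import Pool.Agent.H543R3.PC.U0
import Pool.Agent.H543R3.PC.U1
import Pool.Agent.H543R3.PC.U2

/-!
# U6: the upper bound for optimal proof systems
-/

namespace Pool.Agent.H543R3.PC

open Pool.Agent.NPC Pool.Agent.H628R3 Pool.Agent.H628R3.RO TopologicalSpace Topology
open H556R2 (IsSigma03 IsPi03 IsSigma04 Sigma04Complete)

/-! ### U6 -/

/-- the condition on the codes of the set and the proof system -/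
private def u6C (i : Alg × Polynomial ℕ × Alg) (x y : List Bool) (A : RO.Oracle) : Prop :=
  ((i.1.out A x).isSome = true ∧ (i.2.2.out A x).isSome = true) ∧
    ((∀ u, i.2.2.out A x = some u → ¬ Wt i.1 i.2.1 A u) ∧
      (Wt i.1 i.2.1 A x ∨ i.2.2.out A y = some x))

/-- the condition on the competitor -/
private def u6D (i : Alg × Polynomial ℕ × Alg) (j : (Alg × Polynomial ℕ) ⊕ Alg)
    (z w : List Bool) (A : RO.Oracle) : Prop :=
  match j with
  | .inl j => (j.1.out A z).isSome = true
  | .inr Q => (Q.out A z).isSome = true ∧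
      ((∀ u, Q.out A z = some u → ¬ Wt i.1 i.2.1 A u) ∧
        (Wt i.1 i.2.1 A z ∨ Q.out A w = some z))

/-- the conclusion -/
private def u6E (i : Alg × Polynomial ℕ × Alg) (j : (Alg × Polynomial ℕ) ⊕ Alg)
    (f : Alg × Polynomial ℕ) (v : List Bool) (A : RO.Oracle) : Prop :=
  match j with
  | .inl j => ∃ u, f.1.out A v = some u ∧ (¬ Wt j.1 j.2 A v ↔ ¬ Wt i.1 i.2.1 A u)
  | .inr Q => ∃ u, Q.out A v = some u ∧
      ∃ w ∈ {w : List Bool | w.length ≤ f.2.eval v.length}, i.2.2.out A w = some u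

private theorem u6_lcC (i : Alg × Polynomial ℕ × Alg) (x y : List Bool) : Lc (u6C i x y) :=
  ((Lc.tot _ _).and (Lc.tot _ _)).and
    ((Lc.bindAll _ _ fun u => (Lc.wt _ _ u).not).and ((Lc.wt _ _ _).or (Lc.out _ _ _)))

private theorem u6_lcD (i : Alg × Polynomial ℕ × Alg) (j : (Alg × Polynomial ℕ) ⊕ Alg)
    (z w : List Bool) : Lc (u6D i j z w) := by
  cases j with
  | inl j => exact Lc.tot _ _
  | inr Q =>
    exact (Lc.tot _ _).and
      ((Lc.bindAll _ _ fun u => (Lc.wt _ _ u).not).and ((Lc.wt _ _ _).or (Lc.out _ _ _)))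

private theorem u6_fin (n : ℕ) : {w : List Bool | w.length ≤ n}.Finite :=
  List.finite_length_le Bool n

private theorem u6_lcE (i : Alg × Polynomial ℕ × Alg) (j : (Alg × Polynomial ℕ) ⊕ Alg)
    (f : Alg × Polynomial ℕ) (v : List Bool) : Lc (u6E i j f v) := by
  cases j with
  | inl j => exact Lc.bind _ _ fun u => (Lc.wt _ _ _).not.iff (Lc.wt _ _ u).not
  | inr Q =>
    exact Lc.bind _ _ fun u => Lc.existsFin _ (u6_fin _) fun w => Lc.out _ w _

private theorem u6_proofSystem {A : RO.Oracle} {K : List Bool → Prop} {P : Alg}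
    (htot : ∀ x, (P.out A x).isSome = true) (hs : ∀ x u, P.out A x = some u → ¬ K u)
    (hc : ∀ x, K x ∨ ∃ y, P.out A y = some x) :
    ∃ F : List Bool → List Bool, (∀ x, P.out A x = some (F x)) ∧
      IsProofSystem A {z | ¬ K z} F := by
  refine ⟨fun x => (P.out A x).get (htot x), fun x => (Option.some_get _).symm, ?_, ?_⟩
  · exact ⟨P, fun x => (Option.some_get _).symm⟩
  · ext z
    constructor
    · rintro ⟨x, rfl⟩
      exact hs x _ (Option.some_get _).symm
    · intro hz
      rcases hc z with h | ⟨y, h⟩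
      · exact absurd h hz
      · refine ⟨y, ?_⟩
        have h2 := (Option.some_get (htot y)).trans h
        exact Option.some_injective _ h2

private theorem u6_form : {A : RO.Oracle | HasOpt A} =
    {A : RO.Oracle | ∃ i, (∀ x, ∃ y, u6C i x y A) ∧
      ∀ j, (∀ z, ∃ w, u6D i j z w A) → ∃ f, ∀ v, u6E i j f v A} := by
  ext A
  constructor
  · rintro ⟨L, hL, hhard, P, ⟨⟨MP, hMP⟩, hrange⟩, hopt⟩
    obtain ⟨M, p, htot, hwt⟩ := isNP_iff.1 hL
    have hmem : ∀ x, x ∈ L ↔ ¬ Wt M p A x := by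
      intro x
      rw [← hwt x, Set.mem_compl_iff, not_not]
    have hLeq : L = {z | ¬ Wt M p A z} := Set.ext hmem
    refine ⟨(M, p, MP), ?_, ?_⟩
    · intro x
      have h1 : ∀ u, MP.out A x = some u → ¬ Wt M p A u := by
        intro u hu
        rw [hMP x] at hu
        have : u = P x := (Option.some_injective _ hu).symm
        rw [this, ← hmem, ← hrange]
        exact ⟨x, rfl⟩
      have h2 : (MP.out A x).isSome = true := by rw [hMP]; rfl
      by_cases hx : Wt M p A x
      · exact ⟨[], ⟨htot x, h2⟩, h1, Or.inl hx⟩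
      · rw [← hmem, ← hrange] at hx
        obtain ⟨y, hy⟩ := hx
        exact ⟨y, ⟨htot x, h2⟩, h1, Or.inr (by rw [hMP, hy])⟩
    · intro j hj
      cases j with
      | inl j =>
        obtain ⟨M', p'⟩ := j
        have hL' : IsCoNP A {z | ¬ Wt M' p' A z} := by
          refine isNP_iff.2 ⟨M', p', fun x => (hj x).choose_spec, fun x => ?_⟩
          rw [Set.mem_compl_iff, Set.mem_ofPred_eq, not_not]
        obtain ⟨F, hF⟩ := red_iff.1 (hhard _ hL')
        refine ⟨(F, 0), fun v => ?_⟩
        obtain ⟨u, hu, huv⟩ := hF v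
        refine ⟨u, hu, ?_⟩
        rw [hmem] at huv
        exact huv
      | inr Q =>
        have hjt : ∀ z, (Q.out A z).isSome = true := fun z => (hj z).choose_spec.1
        have hjs : ∀ z u, Q.out A z = some u → ¬ Wt M p A u := fun z => (hj z).choose_spec.2.1
        have hjc : ∀ z, Wt M p A z ∨ ∃ y, Q.out A y = some z := by
          intro z
          rcases (hj z).choose_spec.2.2 with h | h
          · exact Or.inl h
          · exact Or.inr ⟨_, h⟩
        obtain ⟨FQ, hFQ, hPS⟩ := u6_proofSystem hjt hjs hjc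
        rw [← hLeq] at hPS
        obtain ⟨q, hq⟩ := hopt FQ hPS
        refine ⟨(Q, q), fun v => ⟨FQ v, hFQ v, ?_⟩⟩
        obtain ⟨w, hw, hwl⟩ := hq v
        exact ⟨w, hwl, by rw [← hw]; exact hMP w⟩
  · rintro ⟨⟨M, p, MP⟩, hC, hj⟩
    have htot : ∀ x, (M.out A x).isSome = true := fun x => (hC x).choose_spec.1.1
    have hPt : ∀ x, (MP.out A x).isSome = true := fun x => (hC x).choose_spec.1.2
    have hPs : ∀ x u, MP.out A x = some u → ¬ Wt M p A u := fun x => (hC x).choose_spec.2.1
    have hPc : ∀ x, Wt M p A x ∨ ∃ y, MP.out A y = some x := by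
      intro x
      rcases (hC x).choose_spec.2.2 with h | h
      · exact Or.inl h
      · exact Or.inr ⟨_, h⟩
    obtain ⟨P, hP, hPS⟩ := u6_proofSystem hPt hPs hPc
    refine ⟨{z | ¬ Wt M p A z}, ?_, ?_, P, hPS, ?_⟩
    · refine isNP_iff.2 ⟨M, p, htot, fun x => ?_⟩
      rw [Set.mem_compl_iff, Set.mem_ofPred_eq, not_not]
    · intro L' hL'
      obtain ⟨M', p', htot', hwt'⟩ := isNP_iff.1 hL'
      obtain ⟨f, hf⟩ := hj (.inl (M', p')) (fun z => ⟨[], htot' z⟩)
      refine red_iff.2 ⟨f.1, fun x => ?_⟩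
      obtain ⟨u, hu, hux⟩ := hf x
      refine ⟨u, hu, ?_⟩
      rw [Set.mem_ofPred_eq, ← hux, ← hwt' x, Set.mem_compl_iff, not_not]
    · intro Q' hQ'
      obtain ⟨⟨MQ, hMQ⟩, hrange⟩ := hQ'
      obtain ⟨f, hf⟩ := hj (.inr MQ) (by
        intro z
        have h1 : ∀ u, MQ.out A z = some u → ¬ Wt M p A u := by
          intro u hu
          rw [hMQ z] at hu
          have h2 : u = Q' z := (Option.some_injective _ hu).symm
          have h3 : Q' z ∈ {z | ¬ Wt M p A z} := by rw [← hrange]; exact ⟨z, rfl⟩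
          rw [h2]
          exact h3
        have h2 : (MQ.out A z).isSome = true := by rw [hMQ]; rfl
        by_cases hz : Wt M p A z
        · exact ⟨[], h2, h1, Or.inl hz⟩
        · have h3 : z ∈ Set.range Q' := by rw [hrange]; exact hz
          obtain ⟨y, hy⟩ := h3
          exact ⟨y, h2, h1, Or.inr (by rw [hMQ, hy])⟩)
      refine ⟨f.2, fun w => ?_⟩
      obtain ⟨u, hu, v, hv, hvu⟩ := hf w
      refine ⟨v, ?_, hv⟩
      have h1 : some (P v) = some u := (hP v).symm.trans hvu
      have h2 : some (Q' w) = some u := (hMQ w).symm.trans hu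
      exact Option.some_injective _ (h1.trans h2.symm)

theorem up_opt : IsSigma04 {A : RO.Oracle | HasOpt A} := by
  rw [u6_form]
  exact sigma04_form u6_lcC u6_lcD u6_lcE

end Pool.Agent.H543R3.PC
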