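import Pool.Agent.H543R3.PC.U0
import Pool.Agent.H543R3.PC.U1
import Pool.Agent.H543R3.PC.U2

/-!
# `p`-optimal proof systems for `NP`-complete sets: the upper bound
-/

namespace Pool.Agent.H543R3.PC

open Pool.Agent.NPC Pool.Agent.H628R3 Pool.Agent.H628R3.RO TopologicalSpace Topology
open H556R2 (IsSigma03 IsPi03 IsSigma04 Sigma04Complete)

/-- `Q` is total at `x`, its output at `x` is a member of the language of `(M, p)`, and if `x` is
in the language then `y` is a proof of it. -/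
def U8c (M : Alg) (p : Polynomial ℕ) (Q : Alg) (x y : List Bool) (A : RO.Oracle) : Prop :=
  (M.out A x).isSome = true ∧ (Q.out A x).isSome = true ∧
    (∀ u, Q.out A x = some u → Wt M p A u) ∧ (Wt M p A x → Q.out A y = some x)

theorem U8c_lc (M : Alg) (p : Polynomial ℕ) (Q : Alg) (x y : List Bool) : Lc (U8c M p Q x y) := by
  refine Lc.and (Lc.tot M x) (Lc.and (Lc.tot Q x) (Lc.and ?_ ?_))
  · exact Lc.bindAll Q x fun u => Lc.wt M p u
  · exact Lc.imp (Lc.wt M p x) (Lc.out Q y _)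

/-- The promises. -/
def U8D (i : Alg × Polynomial ℕ × Alg) (j : (Alg × Polynomial ℕ) ⊕ Alg) (z w : List Bool)
    (A : RO.Oracle) : Prop :=
  match j with
  | .inl a => (a.1.out A z).isSome = true
  | .inr Q => U8c i.1 i.2.1 Q z w A

theorem U8D_lc (i : Alg × Polynomial ℕ × Alg) (j : (Alg × Polynomial ℕ) ⊕ Alg)
    (z w : List Bool) : Lc (U8D i j z w) := by
  match j with
  | .inl a => exact Lc.tot a.1 z
  | .inr Q => exact U8c_lc i.1 i.2.1 Q z w

/-- The reductions. -/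
def U8E (i : Alg × Polynomial ℕ × Alg) (j : (Alg × Polynomial ℕ) ⊕ Alg) (f : Alg) (v : List Bool)
    (A : RO.Oracle) : Prop :=
  match j with
  | .inl a => ∃ u, f.out A v = some u ∧ (Wt a.1 a.2 A v ↔ Wt i.1 i.2.1 A u)
  | .inr Q => ∃ u, f.out A v = some u ∧ ∃ t, i.2.2.out A u = some t ∧ Q.out A v = some t

theorem U8E_lc (i : Alg × Polynomial ℕ × Alg) (j : (Alg × Polynomial ℕ) ⊕ Alg)
    (f : Alg) (v : List Bool) : Lc (U8E i j f v) := by
  match j with
  | .inl a => exact Lc.bind f v fun u => Lc.iff (Lc.wt a.1 a.2 v) (Lc.wt i.1 i.2.1 u)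
  | .inr Q => exact Lc.bind f v fun u => Lc.bind i.2.2 u fun t => Lc.out Q v _

/-- Proof systems and the condition `U8c`. -/
theorem U8_ps {A : RO.Oracle} {M : Alg} {p : Polynomial ℕ} {L : Set (List Bool)}
    (hM : ∀ x, (M.out A x).isSome = true) (hL : ∀ x, x ∈ L ↔ Wt M p A x)
    {Q : Alg} {P : List Bool → List Bool} (hQ : ∀ x, Q.out A x = some (P x)) :
    Set.range P = L ↔ ∀ x, ∃ y, U8c M p Q x y A := by
  constructor
  · intro hP x
    by_cases hx : x ∈ L
    · rw [← hP] at hx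
      obtain ⟨y, rfl⟩ := hx
      refine ⟨y, hM _, by rw [hQ]; rfl, ?_, fun _ => hQ y⟩
      intro u hu
      rw [hQ] at hu
      rw [← hL, ← hP]
      exact ⟨_, Option.some.inj hu⟩
    · refine ⟨[], hM _, by rw [hQ]; rfl, ?_, fun h => absurd ((hL x).2 h) hx⟩
      intro u hu
      rw [hQ] at hu
      rw [← hL, ← hP]
      exact ⟨_, Option.some.inj hu⟩
  · intro h
    ext x
    constructor
    · rintro ⟨y, rfl⟩
      obtain ⟨_, _, _, h3, _⟩ := h y
      exact (hL _).2 (h3 _ (hQ y))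
    · intro hx
      obtain ⟨y, _, _, _, h4⟩ := h x
      have h5 := h4 ((hL x).1 hx)
      rw [hQ] at h5
      exact ⟨y, Option.some.inj h5⟩

theorem U8_iff (A : RO.Oracle) : HasPOptS A ↔ ∃ i : Alg × Polynomial ℕ × Alg,
    (∀ x, ∃ y, U8c i.1 i.2.1 i.2.2 x y A) ∧
      ∀ j, (∀ z, ∃ w, U8D i j z w A) → ∃ f, ∀ v, U8E i j f v A := by
  constructor
  · rintro ⟨L, hL, hard, P, ⟨⟨P', hP'⟩, hrange⟩, hopt⟩
    obtain ⟨M, p, hM, hLW⟩ := isNP_iff.1 hL
    refine ⟨(M, p, P'), (U8_ps hM hLW hP').1 hrange, ?_⟩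
    rintro (⟨M', p'⟩ | Q) hj
    · have hM' : ∀ x, (M'.out A x).isSome = true := fun x => (hj x).choose_spec
      have hred := hard {x | Wt M' p' A x} (isNP_iff.2 ⟨M', p', hM', fun x => Iff.rfl⟩)
      obtain ⟨f, hf⟩ := red_iff.1 hred
      refine ⟨f, fun v => ?_⟩
      obtain ⟨u, hu, huL⟩ := hf v
      exact ⟨u, hu, huL.trans (hLW u)⟩
    · have hQt : ∀ x, Q.out A x = some ((Q.out A x).getD []) := by
        intro x
        obtain ⟨_, _, h2, _⟩ := hj x
        obtain ⟨t, ht⟩ := Option.isSome_iff_exists.1 h2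
        rw [ht]
        rfl
      have hps : IsProofSystem A L (fun x => (Q.out A x).getD []) :=
        ⟨⟨Q, hQt⟩, (U8_ps hM hLW hQt).2 hj⟩
      obtain ⟨h, ⟨f, hf⟩, hh⟩ := hopt _ hps
      refine ⟨f, fun v => ⟨h v, hf v, P (h v), hP' _, ?_⟩⟩
      rw [hQt v, hh v]
  · rintro ⟨⟨M, p, P⟩, hC, hj⟩
    have hM : ∀ x, (M.out A x).isSome = true := fun x => (hC x).choose_spec.1
    have hPt : ∀ x, P.out A x = some ((P.out A x).getD []) := by
      intro x
      obtain ⟨_, _, h2, _⟩ := hC x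
      obtain ⟨t, ht⟩ := Option.isSome_iff_exists.1 h2
      simp only at ht
      rw [ht]
      rfl
    refine ⟨{x | Wt M p A x}, isNP_iff.2 ⟨M, p, hM, fun x => Iff.rfl⟩, ?_,
      fun x => (P.out A x).getD [], ⟨⟨P, hPt⟩, (U8_ps hM (fun x => Iff.rfl) hPt).2 hC⟩, ?_⟩
    · intro L' hL'
      obtain ⟨M', p', hM', hLW'⟩ := isNP_iff.1 hL'
      obtain ⟨f, hf⟩ := hj (.inl (M', p')) fun z => ⟨[], hM' z⟩
      refine red_iff.2 ⟨f, fun x => ?_⟩
      obtain ⟨u, hu, h⟩ := hf x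
      exact ⟨u, hu, (hLW' x).trans h⟩
    · rintro Q' ⟨⟨Q, hQ⟩, hr⟩
      obtain ⟨f, hf⟩ := hj (.inr Q) ((U8_ps hM (fun x => Iff.rfl) hQ).1 hr)
      have hft : ∀ x, f.out A x = some ((f.out A x).getD []) := by
        intro x
        obtain ⟨u, hu, _⟩ := hf x
        rw [hu]
        rfl
      refine ⟨fun x => (f.out A x).getD [], ⟨f, hft⟩, fun w => ?_⟩
      obtain ⟨u, hu, t, ht, hQw⟩ := hf w
      simp only at hu ht
      rw [hQ] at hQw
      simp only [hu, Option.getD_some, ht]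
      exact (Option.some.inj hQw).symm

theorem up_poptS : IsSigma04 {A : RO.Oracle | HasPOptS A} := by
  have h := sigma04_form (I := Alg × Polynomial ℕ × Alg) (J := (Alg × Polynomial ℕ) ⊕ Alg)
    (F := Alg) (X := List Bool) (Y := List Bool) (Z := List Bool) (W := List Bool)
    (V := List Bool)
    (C := fun i x y A => U8c i.1 i.2.1 i.2.2 x y A) (D := fun i j z w A => U8D i j z w A)
    (E := fun i j f v A => U8E i j f v A)
    (fun i x y => U8c_lc _ _ _ _ _) (fun i j z w => U8D_lc _ _ _ _)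
    (fun i j f v => U8E_lc _ _ _ _)
  have e : {A : RO.Oracle | HasPOptS A} = {A : RO.Oracle | ∃ i : Alg × Polynomial ℕ × Alg,
      (∀ x, ∃ y, U8c i.1 i.2.1 i.2.2 x y A) ∧
      ∀ j, (∀ z, ∃ w, U8D i j z w A) → ∃ f, ∀ v, U8E i j f v A} := by
    ext A
    exact U8_iff A
  rw [e]
  exact h

end Pool.Agent.H543R3.PC
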