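import Pool.Agent.H543R3.PC.F5
import Pool.Agent.H543R3.PC.C7
import Pool.Agent.H543R3.PC.D2
import Pool.Agent.H543R3.PC.U3
import Pool.Agent.H543R3.PC.U4
import Pool.Agent.H543R3.PC.U5
import Pool.Agent.H543R3.PC.U6
import Pool.Agent.H543R3.PC.U7
import Pool.Agent.H543R3.PC.U8
import Pool.Agent.H543R3.PC.P2
import Pool.Agent.H543R3.PC.P3
import Pool.Agent.H543R3.PC.P4
import Pool.Agent.H543R3.PC.P5
import Pool.Agent.H543R3.PC.P6
import Pool.Agent.H543R3.PC.P7
import Pool.Agent.H543R3.PC.P9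
import Pool.Agent.H543R3.PC.M1
import Pool.Agent.H543R3.PC.M2
import Pool.Agent.H543R3.PC.M3
import Pool.Agent.H543R3.PC.M4
import Pool.Agent.H543R3.PC.M5

/-!
# The exact Borel complexity of the existence of complete objects
-/


namespace Pool.Agent.H543R3.PC

open Pool.Agent.NPC Pool.Agent.H628R3 Pool.Agent.H628R3.RO
open H556R2 (IsSigma03 IsPi03 IsSigma04 Sigma04Complete)

/-- The scheme of all completeness theorems. -/
theorem scheme {Has : RO.Oracle → Prop} (hup : IsSigma04 {A : RO.Oracle | Has A})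
    (hpos : ∀ {B : List Bool → Bool} {G : GG} {S : Finset ℕ} {nH : ℕ}, GuideP B →
      PosSit B G S nH → Has (mk B G))
    (hneg : ∀ {B : List Bool → Bool} {G : GG}, GuideP B → ∀ {H : Set ℕ}, NegSit B G H →
      ¬ Has (mk B G)) :
    Sigma04Complete {A : RO.Oracle | Has A} := by
  obtain ⟨B, hB⟩ := exists_guide
  obtain ⟨f, hf, hs⟩ := situations B
  refine complete_of hup B f hf (fun ev h => ?_) fun ev h => ?_
  · obtain ⟨nH, hP⟩ := (hs ev).1 h
    exact hpos hB hP
  · exact hneg hB ((hs ev).2 h)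

theorem up_complete : Sigma04Complete {A : RO.Oracle | HasUP A} :=
  scheme up_up pos_up neg_up

theorem npc_complete : Sigma04Complete {A : RO.Oracle | HasNPC A} :=
  scheme up_npc pos_npc neg_npc

theorem dnp_complete : Sigma04Complete {A : RO.Oracle | HasDNP A} :=
  scheme up_dnp pos_dnp neg_dnp

theorem dconp_complete : Sigma04Complete {A : RO.Oracle | HasDCoNP A} :=
  scheme up_dconp pos_dconp neg_dconp

theorem tfnp_complete : Sigma04Complete {A : RO.Oracle | HasTFNP A} :=
  scheme up_tfnp pos_tfnp neg_tfnp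

theorem hasOpt_of_hasPOptT {A : RO.Oracle} (h : HasPOptT A) : HasOpt A := by
  obtain ⟨L, h1, h2, P, h3⟩ := h
  exact ⟨L, h1, h2, P, popt_opt h3⟩

theorem pos_poptT {B : List Bool → Bool} {G : GG} {S : Finset ℕ} {nH : ℕ} (hB : GuideP B)
    (h : PosSit B G S nH) : HasPOptT (mk B G) :=
  ⟨_, canNP_isCoNP hB, canNP_coHard, pos_psT hB h⟩

theorem pos_poptS {B : List Bool → Bool} {G : GG} {S : Finset ℕ} {nH : ℕ} (hB : GuideP B)
    (h : PosSit B G S nH) : HasPOptS (mk B G) :=
  ⟨_, canNP_isNP hB, canNP_hard, pos_psS hB h⟩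

theorem opt_complete : Sigma04Complete {A : RO.Oracle | HasOpt A} :=
  scheme up_opt (fun hB h => hasOpt_of_hasPOptT (pos_poptT hB h)) neg_opt

theorem poptT_complete : Sigma04Complete {A : RO.Oracle | HasPOptT A} :=
  scheme up_poptT pos_poptT (fun hB _ h h' => neg_opt hB h (hasOpt_of_hasPOptT h'))

theorem poptS_complete : Sigma04Complete {A : RO.Oracle | HasPOptS A} :=
  scheme up_poptS pos_poptS neg_poptS

end Pool.Agent.H543R3.PC
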