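import Pool.Agent.H543R3.PC.DefsP

/-!
# Stubs needed by M1 and M2
-/

namespace Pool.Agent.H543R3.PC

open Pool.Agent.NPC Pool.Agent.H628R3.RO

theorem isNP_of_isUP {A : Oracle} {L : Set (List Bool)} (h : IsUP A L) : IsNP A L := sorry

section
variable {B : List Bool → Bool} {G : GG}

theorem neg_core {H : Set ℕ} (h : NegSit B G H) {e : ℕ} (hr : ∀ u, ¬ CBad (req e) B G u) {j : ℕ}
    (hj : j ∈ H) (hej : e ≤ j) (a : Adv) (ha : a.e = e)
    (hc : ∃ N₀, ∀ n, N₀ ≤ n → ∀ G', (∀ C u, ¬ CBad (req e) B (put G' j n C) u) →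
      ∃ y, y.length = n ∧ y ≠ zer n ∧ CWin a B (put G' j n [y]) j n) (N : ℕ) :
    ∃ n, N ≤ n ∧ Legal G j n ∧ CWin a B G j n := sorry

theorem isUP_LL (hB : GuideP B) {j N : ℕ} (h : ∀ n, N ≤ n → Legal G j n ∨ Inact G j n) :
    IsUP (mk B G) (LL G j N) := sorry

theorem isUP_LLc (hB : GuideP B) {j N : ℕ} (h : ∀ n, N ≤ n → Legal G j n ∨ Inact G j n) :
    IsUP (mk B G) (LL G j N)ᶜ := sorry

theorem comb_dec (a : Adv) (hk : (req a.e).kind = .npc ∨ (req a.e).kind = .dnp) :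
    ∃ N₀, ∀ n, N₀ ≤ n → ∀ B G j, (∀ C u, ¬ CBad (req a.e) B (put G j n C) u) →
      ∃ y, y.length = n ∧ y ≠ zer n ∧ CWin a B (put G j n [y]) j n := sorry

theorem comb_up (a : Adv) (hk : (req a.e).kind = .up) :
    ∃ N₀, ∀ n, N₀ ≤ n → ∀ B G j, (∀ C u, ¬ CBad (req a.e) B (put G j n C) u) →
      ∃ y, y.length = n ∧ y ≠ zer n ∧ CWin a B (put G j n [y]) j n := sorry

theorem comb_dconp (a : Adv) (hk : (req a.e).kind = .dconp) :
    ∃ N₀, ∀ n, N₀ ≤ n → ∀ B G j, (∀ C u, ¬ CBad (req a.e) B (put G j n C) u) →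
      ∃ y, y.length = n ∧ y ≠ zer n ∧ CWin a B (put G j n [y]) j n := sorry

end

end Pool.Agent.H543R3.PC
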