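import Pool.Agent.H543R3.PC.DefsP

namespace Pool.Agent.H543R3.PC

open Pool.Agent.NPC Pool.Agent.H628R3.RO

variable {B : List Bool → Bool} {G : GG}

theorem isTFNP_SS (hB : GuideP B) {j N : ℕ} (h : ∀ n, N ≤ n → Legal G j n ∨ Inact G j n) :
    IsTFNP (mk B G) (SS G j N) := sorry

end Pool.Agent.H543R3.PC
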