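import Pool.Agent.H543R3.PC.DefsP
import Pool.Agent.H622R2.CoNP

/-!
# Task M5: no p-optimal proof system for an NP-complete set (inputs as hypotheses)
-/

namespace Pool.Agent.H543R3.PC

open Pool.Agent.NPC Pool.Agent.H628R3.RO

variable {B : List Bool → Bool} {G : GG}

theorem m5_one_eq (l : List Bool) : one l.length = l.map (fun _ => true) := by
  unfold one
  rw [List.map_const']

theorem m5_uC_ne (j n : ℕ) : uC j n ≠ [] := by
  unfold uC pairBits
  intro h
  have := congrArg List.length h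
  simp at this

/-- the additional proofs of the proof system `m5Q` -/
def m5T (j N : ℕ) (w : List Bool) : List Bool :=
  if N ≤ w.tail.length then uC j w.tail.length else []

/-- the proof system that proves all names of blocks of column `j` -/
def m5Q (P : List Bool → List Bool) (j N : ℕ) (w : List Bool) : List Bool :=
  if w.head? = some true then m5T j N w else P w.tail

theorem m5_poly_T (j N : ℕ) : Poly (m5T j N) := by
  have h1 : Poly (fun w : List Bool => uC j w.tail.length) := by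
    have h2 : (fun w : List Bool => uC j w.tail.length) =
        fun w : List Bool => pairBits (one j) (w.tail.map (fun _ => true)) := by
      funext w
      unfold uC
      rw [m5_one_eq]
    rw [h2]
    exact Pool.Agent.H622R2.poly_pairBits (NPC.Poly.const _)
      (NPC.Poly.map (Poly.tail Poly.id) (NPC.Poly.const _))
  exact Poly.ite (Poly.decide_le (NPC.Poly.const _) (Poly.length (Poly.tail Poly.id))) h1
    (NPC.Poly.const _)

theorem m5_isFP_Q {A : Oracle} {P : List Bool → List Bool} (hP : IsFP A P) (j N : ℕ) :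
    IsFP A (m5Q P j N) := by
  refine IsFP.seq (φ := fun p => p.1.tail)
    (ψ := fun p => if p.1.head? = some true then p.2.1 else p.2.2)
    (IsFP.of_poly (m5_poly_T j N)) hP ?_ ?_
  · exact Poly.tail (Poly.fst Poly.id)
  · refine Poly.ite (Poly.decide_eq (Poly.head? (Poly.fst Poly.id)) (NPC.Poly.const _)) ?_ ?_
    · exact Poly.fst (Poly.snd Poly.id)
    · exact Poly.snd (Poly.snd Poly.id)

theorem m5_nil_mem : ([] : List Bool) ∈ setS G := by
  rintro ⟨j, n, h, -⟩
  exact m5_uC_ne j n h.symm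

theorem m5_uC_inj {j n j' n' : ℕ} (h : uC j n = uC j' n') : j = j' ∧ n = n' := by
  have h1 := congrArg unpair h
  unfold uC at h1
  rw [unpair_pairBits, unpair_pairBits] at h1
  simp only [Prod.mk.injEq] at h1
  unfold one at h1
  exact ⟨by simpa using congrArg List.length h1.1, by simpa using congrArg List.length h1.2⟩

theorem m5_uC_mem {j n : ℕ} (h : Legal G j n ∨ Inact G j n) : uC j n ∈ setS G := by
  rintro ⟨j', n', he, hn⟩
  obtain ⟨rfl, rfl⟩ := m5_uC_inj he
  rcases h with ⟨_, y, hy, _⟩ | h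
  · exact hn.2 y hy
  · have h1 : G j (zer n) = true := hn.1
    have h2 : G j (zer n) = false := h (zer n) (by simp [zer])
    rw [h1] at h2
    cases h2

theorem m5_isProofSystem {A : Oracle} {P : List Bool → List Bool}
    (hP : IsProofSystem A (setS G) P) {j N : ℕ} (h : ∀ n, N ≤ n → Legal G j n ∨ Inact G j n) :
    IsProofSystem A (setS G) (m5Q P j N) := by
  refine ⟨m5_isFP_Q hP.1 j N, ?_⟩
  ext x
  constructor
  · rintro ⟨w, rfl⟩
    unfold m5Q m5T
    split_ifs with h1 h2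
    · exact m5_uC_mem (h _ h2)
    · exact m5_nil_mem
    · rw [← hP.2]
      exact ⟨_, rfl⟩
  · intro hx
    rw [← hP.2] at hx
    obtain ⟨v, hv⟩ := hx
    refine ⟨false :: v, ?_⟩
    unfold m5Q
    rw [if_neg (by simp), List.tail_cons, hv]

theorem m5_neg_poptS_of {H : Set ℕ} (h : NegSit B G H)
    (hSN : IsNP (mk B G) (setS G))
    (hcore : ∀ {e : ℕ} (_ : ∀ u, ¬ CBad (req e) B G u) {j : ℕ}
      (_ : j ∈ H) (_ : e ≤ j) (a : Adv) (_ : a.e = e)
      (_ : ∃ N₀, ∀ n, N₀ ≤ n → ∀ G', (∀ C u, ¬ CBad (req e) B (put G' j n C) u) →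
        ∃ y, y.length = n ∧ y ≠ zer n ∧ CWin a B (put G' j n [y]) j n) (N : ℕ),
      ∃ n, N ≤ n ∧ Legal G j n ∧ CWin a B G j n)
    (hcomb : ∀ (a : Adv) (_ : (req a.e).kind = .nS),
      ∃ N₀, ∀ n, N₀ ≤ n → ∀ B G j, (∀ C u, ¬ CBad (req a.e) B (put G j n C) u) →
        ∃ y, y.length = n ∧ y ≠ zer n ∧ CWin a B (put G j n [y]) j n) :
    ¬ HasPOptS (mk B G) := by
  rintro ⟨L, _, hhard, P, hP⟩
  have hred := hhard _ hSN
  obtain ⟨P₀, hP₀⟩ := hP.transfer hred ⟨[], m5_nil_mem⟩
  obtain ⟨M₀, hM₀⟩ := hP₀.1.1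
  obtain ⟨e, _, he⟩ := req_spec ⟨.nS, M₀, M₀, 0, 0⟩ 0
  have hr : ∀ u, ¬ CBad (req e) B G u := by
    intro u hu
    rw [he] at hu
    obtain ⟨z, hz, hz'⟩ := hu
    rw [hM₀ u] at hz
    simp only [Option.some.injEq] at hz
    subst hz
    apply hz'
    rw [← hP₀.1.2]
    exact ⟨_, rfl⟩
  obtain ⟨j, hj, hej⟩ := h.inf.exists_gt e
  obtain ⟨N, hN⟩ := h.leg j
  obtain ⟨g, hg, hgP⟩ := hP₀.2 _ (m5_isProofSystem hP₀.1 hN)
  have hg' : IsFP (mk B G) (fun x => g (true :: x)) :=
    IsFP.comp hg (IsFP.of_poly (Poly.cons (NPC.Poly.const true) Poly.id))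
  obtain ⟨F, hF⟩ := hg'
  have hk : (req (Adv.mk F F e).e).kind = .nS := by
    show (req e).kind = _
    rw [he]
  obtain ⟨N₀, hN₀⟩ := hcomb (Adv.mk F F e) hk
  obtain ⟨n, hn, hl, hw⟩ := hcore hr hj hej.le (Adv.mk F F e) rfl
    ⟨N₀, fun n hn G' hG' => hN₀ n hn B G' j hG'⟩ N
  have hw' : ¬ ∃ v, F.out (mk B G) (one n) = some v ∧
      (req e).M₀.out (mk B G) v = some (uC j n) := by
    have h1 : CWin (Adv.mk F F e) B G j n ↔ ¬ ∃ v, F.out (mk B G) (one n) = some v ∧
      (req e).M₀.out (mk B G) v = some (uC j n) := by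
      unfold CWin
      rw [hk]
    exact h1.1 hw
  apply hw'
  refine ⟨g (true :: one n), hF _, ?_⟩
  rw [he]
  show M₀.out (mk B G) (g (true :: one n)) = some (uC j n)
  rw [hM₀, hgP]
  congr 1
  unfold m5Q m5T
  rw [if_pos (by simp), List.tail_cons]
  have h2 : (one n).length = n := by simp [one]
  rw [h2, if_pos hn]

end Pool.Agent.H543R3.PC
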