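import Pool.Agent.H543R3.PC.DefsP

/-!
# Task P8: brute-force proof systems for the canonical set and its complement
-/

namespace Pool.Agent.H543R3.PC

open Pool.Agent.NPC Pool.Agent.H628R3.RO

section
variable {B : List Bool → Bool} {G : GG}

theorem brute (hB : GuideP B) (b : Bool) {d : List Bool} (hd : d ∈ canNP B G ↔ b = true) :
    ∃ P, IsProofSystem (mk B G) {z | z ∈ canNP B G ↔ b = true} P := by
  obtain ⟨M, hM⟩ := hB (.bP b d)
  refine ⟨fun x => semB b d B x G, ⟨M, fun x => hM G x⟩, ?_⟩
  ext z
  constructor
  · rintro ⟨x, rfl⟩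
    show semB b d B x G ∈ canNP B G ↔ b = true
    unfold semB
    split_ifs with h
    · exact h.2
    · exact hd
  · intro hz
    refine ⟨pairBits z (one (2 ^ (z.length + 2))), ?_⟩
    show semB b d B (pairBits z (one (2 ^ (z.length + 2)))) G = z
    unfold semB
    rw [unpair_pairBits]
    refine if_pos ⟨?_, hz⟩
    show 2 ^ (z.length + 2) ≤ (one (2 ^ (z.length + 2))).length
    unfold one
    rw [List.length_replicate]

end

end Pool.Agent.H543R3.PC
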