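import Pool.Agent.H543R3.PC.P0
import Pool.Agent.H543R3.PC.P7
import Pool.Agent.H543R3.PC.P8

/-!
# Task P9: p-optimal proof systems from the guarded proof system
-/

namespace Pool.Agent.H543R3.PC

open Pool.Agent.NPC Pool.Agent.H628R3.RO

section
variable {B : List Bool → Bool} {G : GG} {S : Finset ℕ} {nH : ℕ}

/-- The guarded proof system simulates every proof system with the same range. -/
theorem p9_sim (h : PosSit B G S nH) {κ : Kind} {d : List Bool} {Q : List Bool → List Bool}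
    (hQ : IsFP (mk B G) Q)
    (hbad : ∀ M : Alg, (∀ x, M.out (mk B G) x = some (Q x)) →
      ∀ u, ¬ CBad ⟨κ, M, M, 0, 0⟩ B G u) :
    ∃ g, IsFP (mk B G) g ∧ ∀ w, semP S nH κ d B (g w) G = Q w := by
  obtain ⟨M, hM⟩ := hQ
  obtain ⟨ζ, hζ, hs⟩ := ok_complete h ⟨κ, M, M, 0, 0⟩ (hbad M hM)
  refine ⟨ζ, IsFP.of_poly hζ, fun w => ?_⟩
  obtain ⟨h1, h2, h3⟩ := hs w
  unfold semP
  rw [if_pos h1, h2, h3, hM w]
  rfl

theorem p9_isFP (hB : GuideP B) (κ : Kind) (d : List Bool) :
    IsFP (mk B G) (fun x => semP S nH κ d B x G) := by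
  obtain ⟨M, hM⟩ := hB (Task.gP S nH κ d)
  exact ⟨M, fun x => hM G x⟩

theorem pos_psT (hB : GuideP B) (h : PosSit B G S nH) :
    ∃ P, IsPOptimal (mk B G) (canNP B G)ᶜ P := by
  obtain ⟨d, hd⟩ := exists_notMem_canNP (B := B) (G := G)
  have hsim : ∀ Q, IsProofSystem (mk B G) (canNP B G)ᶜ Q →
      ∃ g, IsFP (mk B G) g ∧ ∀ w, semP S nH .psT d B (g w) G = Q w := by
    intro Q hQ
    refine p9_sim h hQ.1 ?_
    rintro M hM u ⟨z, hz, hz'⟩
    have h1 : z = Q u := by
      have h2 := (hM u).symm.trans hz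
      exact (Option.some.inj h2).symm
    have h3 : Q u ∈ (canNP B G)ᶜ := hQ.2 ▸ Set.mem_range_self u
    exact h3 (h1 ▸ hz')
  refine ⟨fun x => semP S nH .psT d B x G, ⟨p9_isFP hB .psT d, ?_⟩, hsim⟩
  apply Set.Subset.antisymm
  · rintro _ ⟨x, rfl⟩
    show semP S nH .psT d B x G ∉ canNP B G
    unfold semP
    by_cases hx : okZ S nH .psT B G x
    · rw [if_pos hx]
      have hc := ok_sound h hx
      have hk := hx.kind
      cases ho : (req (zE x)).M₀.out (mk B G) (zU x) with
      | none => exact hd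
      | some z =>
        intro hz
        apply hc
        unfold CBad
        rw [hk]
        exact ⟨z, ho, hz⟩
    · rw [if_neg hx]
      exact hd
  · obtain ⟨Q, hQ⟩ := brute (G := G) hB false (d := d) (by simp [hd])
    have hset : {z | z ∈ canNP B G ↔ false = true} = (canNP B G)ᶜ := by
      ext z
      simp
    rw [hset] at hQ
    obtain ⟨g, -, hg⟩ := hsim Q hQ
    intro z hz
    rw [← hQ.2] at hz
    obtain ⟨w, rfl⟩ := hz
    exact ⟨g w, hg w⟩

theorem pos_psS (hB : GuideP B) (h : PosSit B G S nH) :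
    ∃ P, IsPOptimal (mk B G) (canNP B G) P := by
  obtain ⟨d, hd⟩ := exists_mem_canNP (B := B) (G := G)
  have hsim : ∀ Q, IsProofSystem (mk B G) (canNP B G) Q →
      ∃ g, IsFP (mk B G) g ∧ ∀ w, semP S nH .psS d B (g w) G = Q w := by
    intro Q hQ
    refine p9_sim h hQ.1 ?_
    rintro M hM u ⟨z, hz, hz'⟩
    have h1 : z = Q u := by
      have h2 := (hM u).symm.trans hz
      exact (Option.some.inj h2).symm
    have h3 : Q u ∈ canNP B G := hQ.2 ▸ Set.mem_range_self u
    exact hz' (h1 ▸ h3)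
  refine ⟨fun x => semP S nH .psS d B x G, ⟨p9_isFP hB .psS d, ?_⟩, hsim⟩
  apply Set.Subset.antisymm
  · rintro _ ⟨x, rfl⟩
    show semP S nH .psS d B x G ∈ canNP B G
    unfold semP
    by_cases hx : okZ S nH .psS B G x
    · rw [if_pos hx]
      have hc := ok_sound h hx
      have hk := hx.kind
      cases ho : (req (zE x)).M₀.out (mk B G) (zU x) with
      | none => exact hd
      | some z =>
        by_contra hz
        apply hc
        unfold CBad
        rw [hk]
        exact ⟨z, ho, hz⟩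
    · rw [if_neg hx]
      exact hd
  · obtain ⟨Q, hQ⟩ := brute (G := G) hB true (d := d) (by simp [hd])
    have hset : {z | z ∈ canNP B G ↔ true = true} = canNP B G := by
      ext z
      simp
    rw [hset] at hQ
    obtain ⟨g, -, hg⟩ := hsim Q hQ
    intro z hz
    rw [← hQ.2] at hz
    obtain ⟨w, rfl⟩ := hz
    exact ⟨g w, hg w⟩

theorem popt_opt {A : Oracle} {L : Set (List Bool)} {P : List Bool → List Bool}
    (h : IsPOptimal A L P) : IsOptimal A L P := by
  refine ⟨h.1, fun Q hQ => ?_⟩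
  obtain ⟨g, hg, hgP⟩ := h.2 Q hQ
  obtain ⟨q, hq⟩ := hg.length_le
  exact ⟨q, fun w => ⟨g w, hgP w, hq w⟩⟩

end

end Pool.Agent.H543R3.PC
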