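import Pool.Agent.H543R3.PC.DefsB
import Pool.Agent.H543R3.PC.DefsC
import Pool.Agent.H543R3.PC.DefsP
import Pool.Agent.H556R2.Sigma04Defs
import Pool.Agent.H556R2.Borel

/-!
# Stubs, part A: decision trees, costs, the guide
-/

namespace Pool.Agent.H543R3.PC

open Pool.Agent.NPC Pool.Agent.H628R3.RO

/-! ### A1: decision trees -/

theorem Agr.mono {m m' : ℕ} {G G' : GG} (h : Agr m G G') (hm : m' ≤ m) : Agr m' G G' := sorry

theorem Agr.symm {m : ℕ} {G G' : GG} (h : Agr m G G') : Agr m G' G := sorry

theorem Agr.trans {m : ℕ} {G G' G'' : GG} (h : Agr m G G') (h' : Agr m G' G'') : Agr m G G'' :=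
  sorry

theorem sh_const {α : Type} (a : α) (d s : ℕ) : Sh (fun _ => a) d s := sorry

theorem sh_mono {α : Type} {f : GG → α} {d d' s s' : ℕ} (h : Sh f d s) (hd : d ≤ d')
    (hs : s ≤ s') : Sh f d' s' := sorry

theorem sh_ask (j : ℕ) (y : List Bool) : Sh (fun G => G j y) 1 (j + y.length) := sorry

theorem sh_map {α β : Type} {f : GG → α} {d s : ℕ} (h : Sh f d s) (g : α → β) :
    Sh (fun G => g (f G)) d s := sorry

theorem sh_bind {α β : Type} {f : GG → α} {g : α → GG → β} {d d' s : ℕ} (h : Sh f d s)
    (h' : ∀ a, Sh (g a) d' s) : Sh (fun G => g (f G) G) (d + d') s := sorry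

/-- Version in which only the values actually taken matter. -/
theorem sh_bind' {α β : Type} {f : GG → α} {g : α → GG → β} {d d' s : ℕ} (h : Sh f d s)
    (h' : ∀ G, Sh (g (f G)) d' s) : Sh (fun G => g (f G) G) (d + d') s := sorry

/-- A function depending only on the positions in a list. -/
theorem sh_dep {α : Type} {f : GG → α} (l : List (ℕ × List Bool)) {s : ℕ}
    (hl : ∀ q ∈ l, q.1 + q.2.length ≤ s)
    (hf : ∀ G G' : GG, (∀ q ∈ l, G' q.1 q.2 = G q.1 q.2) → f G' = f G) : Sh f l.length s := sorry

/-- A function depending only on the positions of size at most `s`. -/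
theorem sh_full {α : Type} {f : GG → α} {s : ℕ}
    (hf : ∀ G G' : GG, Agr (s + 1) G G' → f G' = f G) : Sh f (2 ^ (s + 2)) s := sorry

theorem Sh.agr {α : Type} {f : GG → α} {d s : ℕ} (h : Sh f d s) {G G' : GG}
    (hG : Agr (s + 1) G G') : f G' = f G := sorry

theorem Sh.loc {α : Type} {f : GG → α} {d s : ℕ} (h : Sh f d s) (G : GG) :
    ∃ Q : Finset (ℕ × List Bool), Q.card ≤ d ∧
      ∀ G' : GG, (∀ q ∈ Q, G' q.1 q.2 = G q.1 q.2) → f G' = f G := sorry

theorem DT.path_spec {α : Type} (t : DT α) {G G' : GG}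
    (h : ∀ q ∈ t.path G, G' q.1 q.2 = G q.1 q.2) : t.eval G' = t.eval G ∧ t.path G' = t.path G :=
  sorry

theorem DT.path_length {α : Type} (t : DT α) (G : GG) : (t.path G).length ≤ t.depth := sorry

/-! ### A2: strings -/

theorem unpair_len (y : List Bool) : (unpair y).1.length + (unpair y).2.length ≤ y.length := sorry

theorem zU_zR_len (z : List Bool) : (zU z).length + zR z ≤ z.length := sorry

theorem zK_zM (k u : List Bool) (r : ℕ) : zK (zM k u r) = k := sorry

theorem zU_zM (k u : List Bool) (r : ℕ) : zU (zM k u r) = u := sorry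

theorem zR_zM (k u : List Bool) (r : ℕ) : zR (zM k u r) = r := sorry

theorem poly_zM (k : List Bool) (p : Polynomial ℕ) : Poly (fun u => zM k u (p.eval u.length)) :=
  sorry

theorem uC_inj {j n j' n' : ℕ} (h : uC j n = uC j' n') : j = j' ∧ n = n' := sorry

theorem uC_len (j n : ℕ) : (uC j n).length = 2 * j + 1 + n := sorry

theorem poly_uC (j : ℕ) : Poly (fun x : List Bool => uC j x.length) := sorry

theorem unp_pad (q : ℕ) (v : List Bool) : unp (pad q v) = v := sorry

theorem pad_len {q : ℕ} {v : List Bool} (h : v.length + 1 ≤ q) : (pad q v).length = q := sorry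

theorem gad_pad_pay (q j : ℕ) (y : List Bool) : gad (pad q (pay j y)) = (j, y) := sorry

theorem gad_len (v : List Bool) : (gad v).1 + (gad v).2.length ≤ v.length := sorry

theorem exists_tab (m : ℕ) (G : GG) : ∃ F : Finset (ℕ × List Bool), Agr m (tab F) G := sorry

/-! ### A3: costs -/

theorem exists_costP (M : Alg) (p : Polynomial ℕ) : ∃ c, CostP M p c := sorry

theorem exists_costF (M : Alg) : ∃ c, CostF M c := sorry

theorem CostP.mono {M : Alg} {p c c' : Polynomial ℕ} (h : CostP M p c)
    (hc : ∀ n, c.eval n ≤ c'.eval n) : CostP M p c' := sorry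

theorem CostF.mono {M : Alg} {c c' : Polynomial ℕ} (h : CostF M c)
    (hc : ∀ n, c.eval n ≤ c'.eval n) : CostF M c' := sorry

theorem cR_spec (r : Req) : CostR r (cR r) := sorry

theorem cA_spec (a : Alg × Polynomial ℕ) : CostA a (cA a) := sorry

/-! ### B: the guide -/

theorem gD_poly (c : List Bool) : PolyTime (gD c) := sorry

theorem gAlg_out (c : List Bool) (hc : PolyTime (gD c)) (x : List Bool) (B : List Bool → Bool)
    (G : GG) (t : DT (List Bool))
    (hB : ∀ a : List Bool, a.length < (x.length + c.length) * (x.length + c.length + 3) +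
      (x.length + c.length + 2) → B (pairBits c (pairBits x a)) = gbit t (x.length + c.length) a)
    (hd : t.depth ≤ x.length + c.length) (hs : t.size ≤ x.length + c.length)
    (ho : (t.eval G).length ≤ x.length + c.length) :
    (gAlg c hc).out (mk B G) x = some (t.eval G) := sorry

theorem guide_exists {τ : Type} [Countable τ] [Nonempty τ]
    (f : τ → (List Bool → Bool) → List Bool → GG → List Bool) (κ : τ → ℕ)
    (hloc : ∀ T B B' x, AgB (x.length + κ T) B B' → f T B' x = f T B x)
    (hsh : ∀ T B x, Sh (f T B x) (x.length + κ T) (x.length + κ T))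
    (hlen : ∀ T B x G, (f T B x G).length ≤ x.length + κ T) :
    ∃ B : List Bool → Bool, ∀ T : τ, ∃ M : Alg, ∀ G x, M.out (mk B G) x = some (f T B x G) :=
  sorry

/-! ### E: locality -/

theorem canNP_agr {B : List Bool → Bool} {z : List Bool} {G G' : GG}
    (h : Agr (z.length + 1) G G') : z ∈ canNP B G' ↔ z ∈ canNP B G := sorry

theorem canNP_agB {B B' : List Bool → Bool} {z : List Bool} {G : GG}
    (h : AgB z.length B B') : z ∈ canNP B' G ↔ z ∈ canNP B G := sorry

theorem CBad_agr (r : Req) (u : List Bool) {B : List Bool → Bool} {G G' : GG}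
    (h : Agr ((cR r).eval u.length + 1) G G') : CBad r B G' u ↔ CBad r B G u := sorry

theorem CBad_agB (r : Req) (u : List Bool) {B B' : List Bool → Bool} {G : GG}
    (h : AgB ((cR r).eval u.length) B B') : CBad r B' G u ↔ CBad r B G u := sorry

theorem CWin_agr (a : Adv) (B : List Bool → Bool) (G : GG) (j n : ℕ) :
    ∃ m, ∀ G', Agr m G G' → (CWin a B G' j n ↔ CWin a B G j n) := sorry

/-! ### F: the tasks are shallow -/

theorem okZ_agB (S : Finset ℕ) (nH : ℕ) (κ : Kind) {B B' : List Bool → Bool} (G : GG)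
    (z : List Bool) (h : AgB z.length B B') : okZ S nH κ B' G z ↔ okZ S nH κ B G z := sorry

theorem okZ_sh (S : Finset ℕ) (nH : ℕ) (κ : Kind) (B : List Bool → Bool) (z : List Bool)
    (hg : zT z + zE z * (zT z + 1) + 2 ^ (zm z + 2) ≤ zR z) :
    Sh (fun G => okZ S nH κ B G z) (zE z * (zT z + 1) + 2 ^ (zm z + 2)) (zR z) := sorry

theorem semG_ok (S : Finset ℕ) (nH : ℕ) (κ : Kind) (i dflt : Bool) (B : List Bool → Bool)
    (x : List Bool) :
    Sh (semG S nH κ i dflt B x) (x.length + 2) (x.length + 2) ∧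
    (∀ G, (semG S nH κ i dflt B x G).length ≤ x.length + 2) ∧
    ∀ B', AgB (x.length + 2) B B' → semG S nH κ i dflt B' x = semG S nH κ i dflt B x := sorry

theorem semP_ok (S : Finset ℕ) (nH : ℕ) (κ : Kind) (d : List Bool) (B : List Bool → Bool)
    (x : List Bool) :
    Sh (semP S nH κ d B x) (x.length + (d.length + 1)) (x.length + (d.length + 1)) ∧
    (∀ G, (semP S nH κ d B x G).length ≤ x.length + (d.length + 1)) ∧
    ∀ B', AgB (x.length + (d.length + 1)) B B' → semP S nH κ d B' x = semP S nH κ d B x := sorry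

theorem semC_ok (B : List Bool → Bool) (x : List Bool) :
    Sh (semC B x) (x.length + 2) (x.length + 2) ∧
    (∀ G, (semC B x G).length ≤ x.length + 2) ∧
    ∀ B', AgB (x.length + 2) B B' → semC B' x = semC B x := sorry

theorem semB_ok (b : Bool) (d : List Bool) (B : List Bool → Bool) (x : List Bool) :
    Sh (semB b d B x) (x.length + (d.length + 1)) (x.length + (d.length + 1)) ∧
    (∀ G, (semB b d B x G).length ≤ x.length + (d.length + 1)) ∧
    ∀ B', AgB (x.length + (d.length + 1)) B B' → semB b d B' x = semB b d B x := sorry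

theorem semL_ok (j N : ℕ) (b : Bool) (x : List Bool) :
    Sh (semL j N b x) (x.length + (j + 2)) (x.length + (j + 2)) ∧
    ∀ G, (semL j N b x G).length ≤ x.length + (j + 2) := sorry

theorem semS_ok (j N : ℕ) (x : List Bool) :
    Sh (semS j N x) (x.length + (j + 2)) (x.length + (j + 2)) ∧
    ∀ G, (semS j N x G).length ≤ x.length + (j + 2) := sorry

theorem semU_ok (x : List Bool) :
    Sh (semU x) (x.length + 2) (x.length + 2) ∧ ∀ G, (semU x G).length ≤ x.length + 2 := sorry

theorem semU'_ok (x : List Bool) :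
    Sh (semU' x) (x.length + 2) (x.length + 2) ∧ ∀ G, (semU' x G).length ≤ x.length + 2 := sorry

theorem countable_task : Countable Task := sorry

theorem exists_guide : ∃ B, GuideP B := sorry

end Pool.Agent.H543R3.PC
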