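import Pool.Agent.H543R3.PC.StubsA

/-!
# Stubs, part C: the construction
-/

namespace Pool.Agent.H543R3.PC

open Pool.Agent.NPC Pool.Agent.H628R3.RO

section

variable {Bad : ℕ → GG → Prop} {Win : ℕ → ℕ → ℕ → GG → Prop} {ev : ℕ → Option ℕ}

/-! ### C1: basic facts (no openness needed) -/

theorem tr_tr (m : ℕ) (G : GG) : tr m (tr m G) = tr m G := sorry

theorem agr_tr (m : ℕ) (G : GG) : Agr m G (tr m G) := sorry

theorem tr_congr {m : ℕ} {G G' : GG} (h : Agr m G G') : tr m G' = tr m G := sorry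

theorem put_at {G : GG} {j n : ℕ} {C : List (List Bool)} {y : List Bool} (hy : y.length = n) :
    put G j n C j y = (decide (y = zer n) || decide (y ∈ C)) := sorry

theorem put_ne {G : GG} {j n j' : ℕ} {C : List (List Bool)} {y : List Bool}
    (h : ¬ (j' = j ∧ y.length = n)) : put G j n C j' y = G j' y := sorry

theorem put_hit {G : GG} {j n : ℕ} {C : List (List Bool)} {y : List Bool} :
    Hit (put G j n C) j n y ↔ y.length = n ∧ y ≠ zer n ∧ y ∈ C := sorry

theorem put_act {G : GG} {j n : ℕ} {C : List (List Bool)} : Act (put G j n C) j n := sorry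

theorem put_legal {G : GG} {j n : ℕ} {y : List Bool} (hy : y.length = n) (hy' : y ≠ zer n) :
    Legal (put G j n [y]) j n := sorry

theorem run_m_mid (s : ℕ) : (run Bad Win ev s).m ≤ (mid Bad Win ev s).m := sorry

theorem mid_m_run (s : ℕ) : (mid Bad Win ev s).m < (run Bad Win ev (s + 1)).m := sorry

theorem le_run_m (s : ℕ) : s ≤ (run Bad Win ev s).m := sorry

theorem run_agr_mid (s : ℕ) :
    Agr (run Bad Win ev s).m (run Bad Win ev s).G (mid Bad Win ev s).G := sorry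

theorem mid_agr_run (s : ℕ) :
    Agr (mid Bad Win ev s).m (mid Bad Win ev s).G (run Bad Win ev (s + 1)).G := sorry

theorem run_lim (s : ℕ) :
    (run Bad Win ev s).G = tr (run Bad Win ev s).m (lim Bad Win ev) := sorry

theorem mid_lim (s : ℕ) :
    (mid Bad Win ev s).G = tr (mid Bad Win ev s).m (lim Bad Win ev) := sorry

theorem run_congr {ev' : ℕ → Option ℕ} (s : ℕ) (h : ∀ s' < s, ev s' = ev' s') :
    run Bad Win ev s = run Bad Win ev' s := sorry

theorem lim_congr {ev' : ℕ → Option ℕ} (m : ℕ) (h : ∀ s < m, ev s = ev' s) :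
    Agr m (lim Bad Win ev) (lim Bad Win ev') := sorry

/-! ### C2: what happens at a stage -/

theorem actB_or (hB : ∀ e G, Bad e G → ∃ m, ∀ G', Agr m G G' → Bad e G') (s : ℕ) :
    (∃ e S G', ActB Bad Win ev s e S G') ∨
    ((∀ e S G', ¬ BrkOpt Bad ev (run Bad Win ev s) s e S G') ∧
      mid Bad Win ev s = run Bad Win ev s) := sorry

theorem actB_unique {s s' e : ℕ} {S S' : Finset ℕ} {G G' : GG}
    (h : ActB Bad Win ev s e S G) (h' : ActB Bad Win ev s' e S' G') : s = s' := sorry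

theorem diag_none {s : ℕ} (h : ev s = none) :
    run Bad Win ev (s + 1) = ⟨(mid Bad Win ev s).m + 1, (mid Bad Win ev s).G⟩ := sorry

theorem diag_some (hW : ∀ k j n G, Win k j n G → ∃ m, ∀ G', Agr m G G' → Win k j n G')
    {s j : ℕ} (h : ev s = some j) :
    ∃ n y, (mid Bad Win ev s).m ≤ n ∧ y.length = n ∧ y ≠ zer n ∧
      (run Bad Win ev (s + 1)).G = put (mid Bad Win ev s).G j n [y] ∧
      j + n < (run Bad Win ev (s + 1)).m ∧
      ((∃ n' y', (mid Bad Win ev s).m ≤ n' ∧ y'.length = n' ∧ y' ≠ zer n' ∧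
        Win (cnt ev j 0 s).unpair.1 j n' (put (mid Bad Win ev s).G j n' [y'])) →
        ∀ G', Agr (run Bad Win ev (s + 1)).m (run Bad Win ev (s + 1)).G G' →
          Win (cnt ev j 0 s).unpair.1 j n G') := sorry

/-! ### C3: the blocks of the limit -/

theorem block_cases (hB : ∀ e G, Bad e G → ∃ m, ∀ G', Agr m G G' → Bad e G')
    (hW : ∀ k j n G, Win k j n G → ∃ m, ∀ G', Agr m G G' → Win k j n G') (j n : ℕ) :
    ∃ s, s ≤ j + n ∧ j + n < (run Bad Win ev (s + 1)).m ∧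
      (((run Bad Win ev s).m ≤ j + n ∧ ∃ e S G', ActB Bad Win ev s e S G' ∧
        ∀ y : List Bool, y.length = n → lim Bad Win ev j y = G' j y) ∨
      Inact (lim Bad Win ev) j n ∨ (ev s = some j ∧ Legal (lim Bad Win ev) j n)) := sorry

theorem lim_inv (hB : ∀ e G, Bad e G → ∃ m, ∀ G', Agr m G G' → Bad e G')
    (hW : ∀ k j n G, Win k j n G → ∃ m, ∀ G', Agr m G G' → Win k j n G') (j n : ℕ) :
    Act (lim Bad Win ev) j n ∨ Inact (lim Bad Win ev) j n := sorry

theorem lim_leg (hB : ∀ e G, Bad e G → ∃ m, ∀ G', Agr m G G' → Bad e G')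
    (hW : ∀ k j n G, Win k j n G → ∃ m, ∀ G', Agr m G G' → Win k j n G') (j : ℕ) :
    ∃ N, ∀ n, N ≤ n → Legal (lim Bad Win ev) j n ∨ Inact (lim Bad Win ev) j n := sorry

/-! ### C4: columns with finitely many events -/

theorem evt_finite {j : ℕ} (hj : j ∉ inf ev) :
    {s | ∃ e S, j ∈ S ∧ (∀ i ∈ S, i < e) ∧ Evt ev e S s}.Finite := sorry

theorem evt_infinite (e : ℕ) {S : Finset ℕ} (h : ∀ i ∈ S, i ∈ inf ev) :
    {s | Evt ev e S s}.Infinite := sorry

theorem lim_ina (hB : ∀ e G, Bad e G → ∃ m, ∀ G', Agr m G G' → Bad e G')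
    (hW : ∀ k j n G, Win k j n G → ∃ m, ∀ G', Agr m G G' → Win k j n G') {j : ℕ}
    (hj : j ∉ inf ev) : ∃ N, ∀ n, N ≤ n → Inact (lim Bad Win ev) j n := sorry

/-! ### C5: robustness -/

theorem lim_rob (hB : ∀ e G, Bad e G → ∃ m, ∀ G', Agr m G G' → Bad e G')
    (hW : ∀ k j n G, Win k j n G → ∃ m, ∀ G', Agr m G G' → Win k j n G') {e : ℕ}
    (he : ¬ Bad e (lim Bad Win ev)) (N : ℕ) :
    ∃ m, N ≤ m ∧ ∃ S : Finset ℕ, (∀ i, i ∈ S ↔ i < e ∧ i ∈ inf ev) ∧
      Leg e S m (lim Bad Win ev) (lim Bad Win ev) ∧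
      ∀ G', Leg e S m (lim Bad Win ev) G' → ¬ Bad e G' := sorry

/-! ### C6: diagonalisation -/

theorem lim_act (hW : ∀ k j n G, Win k j n G → ∃ m, ∀ G', Agr m G G' → Win k j n G') {j : ℕ}
    (hj : j ∈ inf ev) (N : ℕ) : ∃ n, N ≤ n ∧ Legal (lim Bad Win ev) j n := sorry

theorem lim_win (hW : ∀ k j n G, Win k j n G → ∃ m, ∀ G', Agr m G G' → Win k j n G') {j : ℕ}
    (hj : j ∈ inf ev) (k N : ℕ) :
    ∃ m, N ≤ m ∧ ((∃ n y, m ≤ n ∧ y.length = n ∧ y ≠ zer n ∧
        Win k j n (put (tr m (lim Bad Win ev)) j n [y])) →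
      ∃ n, N ≤ n ∧ Legal (lim Bad Win ev) j n ∧ Win k j n (lim Bad Win ev)) := sorry

end

/-! ### C7: the two situations -/

theorem situations (B : List Bool → Bool) : ∃ f : (ℕ → Option ℕ) → GG,
    (∀ m, ∃ N, ∀ ev ev' : ℕ → Option ℕ, (∀ s < N, ev s = ev' s) → Agr m (f ev) (f ev')) ∧
    ∀ ev, (∀ hf : (inf ev).Finite, ∃ nH, PosSit B (f ev) hf.toFinset nH) ∧
      ((inf ev).Infinite → NegSit B (f ev) (inf ev)) := sorry

end Pool.Agent.H543R3.PC
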