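import Pool.Agent.H543R3.PC.StubsC

/-!
# Stubs, part P (complete objects exist), part N (they do not), part D and U (Borel complexity)
-/

namespace Pool.Agent.H543R3.PC

open Pool.Agent.NPC Pool.Agent.H628R3.RO

/-! ### P0: guarded instances -/

section
variable {B : List Bool → Bool} {G : GG} {S : Finset ℕ} {nH : ℕ}

theorem ok_sound (h : PosSit B G S nH) {κ : Kind} {z : List Bool} (hz : okZ S nH κ B G z) :
    ¬ CBad (req (zE z)) B G (zU z) := sorry

theorem ok_complete (h : PosSit B G S nH) (r : Req) (hr : ∀ u, ¬ CBad r B G u) :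
    ∃ ζ : List Bool → List Bool, Poly ζ ∧
      ∀ u, okZ S nH r.kind B G (ζ u) ∧ req (zE (ζ u)) = r ∧ zU (ζ u) = u := sorry

/-! ### P1: classes -/

theorem isNP_of_isUP {A : Oracle} {L : Set (List Bool)} (h : IsUP A L) : IsNP A L := sorry

theorem KK_isNP (hB : GuideP B) (κ : Kind) (i dflt : Bool) :
    IsNP (mk B G) (KK B G S nH κ i dflt) := sorry

theorem mem_KK {κ : Kind} {i dflt : Bool} {z : List Bool} :
    z ∈ KK B G S nH κ i dflt ↔
      (okZ S nH κ B G z ∧ (if i = true then Wt (req (zE z)).M₁ (req (zE z)).p₁ (mk B G) (zU z)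
        else Wt (req (zE z)).M₀ (req (zE z)).p₀ (mk B G) (zU z))) ∨
      (¬ okZ S nH κ B G z ∧ dflt = true) := sorry

theorem pos_up (hB : GuideP B) (h : PosSit B G S nH) : HasUP (mk B G) := sorry

theorem pos_npc (hB : GuideP B) (h : PosSit B G S nH) : HasNPC (mk B G) := sorry

theorem pos_dnp (hB : GuideP B) (h : PosSit B G S nH) : HasDNP (mk B G) := sorry

theorem pos_dconp (hB : GuideP B) (h : PosSit B G S nH) : HasDCoNP (mk B G) := sorry

theorem pos_tfnp (hB : GuideP B) (h : PosSit B G S nH) : HasTFNP (mk B G) := sorry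

/-! ### P2: the canonical sets and proof systems -/

theorem canNP_isNP (hB : GuideP B) : IsNP (mk B G) (canNP B G) := sorry

theorem canNP_hard : NPHardRel (mk B G) (canNP B G) := sorry

theorem canNP_isCoNP (hB : GuideP B) : IsCoNP (mk B G) (canNP B G)ᶜ := sorry

theorem canNP_coHard : CoNPHardRel (mk B G) (canNP B G)ᶜ := sorry

theorem exists_mem_canNP : ∃ z, z ∈ canNP B G := sorry

theorem exists_notMem_canNP : ∃ z, z ∉ canNP B G := sorry

theorem brute (hB : GuideP B) (b : Bool) {d : List Bool} (hd : d ∈ canNP B G ↔ b = true) :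
    ∃ P, IsProofSystem (mk B G) {z | z ∈ canNP B G ↔ b = true} P := sorry

theorem pos_psT (hB : GuideP B) (h : PosSit B G S nH) :
    ∃ P, IsPOptimal (mk B G) (canNP B G)ᶜ P := sorry

theorem pos_psS (hB : GuideP B) (h : PosSit B G S nH) :
    ∃ P, IsPOptimal (mk B G) (canNP B G) P := sorry

theorem popt_opt {A : Oracle} {L : Set (List Bool)} {P : List Bool → List Bool}
    (h : IsPOptimal A L P) : IsOptimal A L P := sorry

end

/-! ### N0: general facts -/

section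
variable {B : List Bool → Bool} {G : GG}

theorem leg_put {e m m' n j : ℕ} {S : Finset ℕ} (hS : ∀ i ∈ S, i < e) (hl : Leg e S m G G)
    (hm : m ≤ m') (hn : m' ≤ n) (hj : e ≤ j) (C : List (List Bool)) :
    Leg e S m G (put (tr m' G) j n C) := sorry

theorem leg_put' {e m n j : ℕ} {S : Finset ℕ} (hS : ∀ i ∈ S, i < e) (hl : Leg e S m G G)
    (hn : m ≤ n) (hj : e ≤ j) (C : List (List Bool)) : Leg e S m G (put G j n C) := sorry

theorem neg_core {H : Set ℕ} (h : NegSit B G H) {e : ℕ} (hr : ∀ u, ¬ CBad (req e) B G u) {j : ℕ}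
    (hj : j ∈ H) (hej : e ≤ j) (a : Adv) (ha : a.e = e)
    (hc : ∃ N₀, ∀ n, N₀ ≤ n → ∀ G', (∀ C u, ¬ CBad (req e) B (put G' j n C) u) →
      ∃ y, y.length = n ∧ y ≠ zer n ∧ CWin a B (put G' j n [y]) j n) (N : ℕ) :
    ∃ n, N ≤ n ∧ Legal G j n ∧ CWin a B G j n := sorry

theorem isUP_LL (hB : GuideP B) {j N : ℕ} (h : ∀ n, N ≤ n → Legal G j n ∨ Inact G j n) :
    IsUP (mk B G) (LL G j N) := sorry

theorem isUP_LLc (hB : GuideP B) {j N : ℕ} (h : ∀ n, N ≤ n → Legal G j n ∨ Inact G j n) :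
    IsUP (mk B G) (LL G j N)ᶜ := sorry

theorem isTFNP_SS (hB : GuideP B) {j N : ℕ} (h : ∀ n, N ≤ n → Legal G j n ∨ Inact G j n) :
    IsTFNP (mk B G) (SS G j N) := sorry

theorem setT_isCoNP (hB : GuideP B) : IsCoNP (mk B G) (setT G) := sorry

theorem setS_isNP (hB : GuideP B) : IsNP (mk B G) (setS G) := sorry

/-! ### N1: counting -/

theorem poly_lt (p : Polynomial ℕ) : ∃ N₀, ∀ n, N₀ ≤ n → p.eval n < 2 ^ n := sorry

/-- Two strings starting with `b` and `b'` such that neither is in the set of the other. -/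
theorem pick_two (K n : ℕ) (hn : 8 * K + 8 < 2 ^ n) (b b' : Bool) (Q : List Bool → Finset (List Bool))
    (hQ : ∀ y, (Q y).card ≤ K) (F : Finset (List Bool)) (hF : F.card ≤ K) :
    ∃ y y', y.length = n ∧ y'.length = n ∧ y ≠ zer n ∧ y' ≠ zer n ∧ y ≠ y' ∧
      y.head? = some b ∧ y'.head? = some b' ∧ y ∉ F ∧ y' ∉ F ∧ y' ∉ Q y ∧ y ∉ Q y' := sorry

/-- A string starting with `b` outside a small set. -/
theorem pick_one (K n : ℕ) (hn : 8 * K + 8 < 2 ^ n) (b : Bool) (F : Finset (List Bool))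
    (hF : F.card ≤ K) : ∃ y, y.length = n ∧ y ≠ zer n ∧ y.head? = some b ∧ y ∉ F := sorry

/-! ### N2: adversaries win or the promise can be violated -/

theorem comb_dec (a : Adv) (hk : (req a.e).kind = .npc ∨ (req a.e).kind = .dnp) :
    ∃ N₀, ∀ n, N₀ ≤ n → ∀ B G j, (∀ C u, ¬ CBad (req a.e) B (put G j n C) u) →
      ∃ y, y.length = n ∧ y ≠ zer n ∧ CWin a B (put G j n [y]) j n := sorry

theorem comb_up (a : Adv) (hk : (req a.e).kind = .up) :
    ∃ N₀, ∀ n, N₀ ≤ n → ∀ B G j, (∀ C u, ¬ CBad (req a.e) B (put G j n C) u) →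
      ∃ y, y.length = n ∧ y ≠ zer n ∧ CWin a B (put G j n [y]) j n := sorry

theorem comb_dconp (a : Adv) (hk : (req a.e).kind = .dconp) :
    ∃ N₀, ∀ n, N₀ ≤ n → ∀ B G j, (∀ C u, ¬ CBad (req a.e) B (put G j n C) u) →
      ∃ y, y.length = n ∧ y ≠ zer n ∧ CWin a B (put G j n [y]) j n := sorry

theorem comb_tfnp (a : Adv) (hk : (req a.e).kind = .tfnp) :
    ∃ N₀, ∀ n, N₀ ≤ n → ∀ B G j, (∀ C u, ¬ CBad (req a.e) B (put G j n C) u) →
      ∃ y, y.length = n ∧ y ≠ zer n ∧ CWin a B (put G j n [y]) j n := sorry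

theorem comb_nS (a : Adv) (hk : (req a.e).kind = .nS) :
    ∃ N₀, ∀ n, N₀ ≤ n → ∀ B G j, (∀ C u, ¬ CBad (req a.e) B (put G j n C) u) →
      ∃ y, y.length = n ∧ y ≠ zer n ∧ CWin a B (put G j n [y]) j n := sorry

theorem comb_nT (r : Req) (hk : r.kind = .nT) (q : Polynomial ℕ) :
    ∃ N₀, ∀ n, N₀ ≤ n → ∀ B G j, Legal G j n → (∀ C u, ¬ CBad r B (put G j n C) u) →
      ∀ v : List Bool, v.length ≤ q.eval n → r.M₀.out (mk B G) v ≠ some (uC j n) := sorry

/-! ### N3: no complete objects -/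

theorem neg_up (hB : GuideP B) {H : Set ℕ} (h : NegSit B G H) : ¬ HasUP (mk B G) := sorry

theorem neg_npc (hB : GuideP B) {H : Set ℕ} (h : NegSit B G H) : ¬ HasNPC (mk B G) := sorry

theorem neg_dnp (hB : GuideP B) {H : Set ℕ} (h : NegSit B G H) : ¬ HasDNP (mk B G) := sorry

theorem neg_dconp (hB : GuideP B) {H : Set ℕ} (h : NegSit B G H) : ¬ HasDCoNP (mk B G) := sorry

theorem neg_tfnp (hB : GuideP B) {H : Set ℕ} (h : NegSit B G H) : ¬ HasTFNP (mk B G) := sorry

theorem neg_opt (hB : GuideP B) {H : Set ℕ} (h : NegSit B G H) : ¬ HasOpt (mk B G) := sorry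

theorem neg_poptS (hB : GuideP B) {H : Set ℕ} (h : NegSit B G H) : ¬ HasPOptS (mk B G) := sorry

end

end Pool.Agent.H543R3.PC
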