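import Pool.Agent.H543R3.PC.StubsP

/-!
# Stubs, part D and U: Borel complexity
-/

namespace Pool.Agent.H543R3.PC

open Pool.Agent.NPC Pool.Agent.H628R3 Pool.Agent.H628R3.RO TopologicalSpace Topology
open H556R2 (IsSigma03 IsPi03 IsSigma04 Sigma04Complete)

/-! ### D: coding of `Σ⁰₄` sets -/

theorem exists_ev {X : Type} [TopologicalSpace X] [SecondCountableTopology X]
    (hX : IsTopologicalBasis {s : Set X | IsClopen s}) {D : Set X} (hD : IsSigma04 D) :
    ∃ ev : X → ℕ → Option ℕ, (∀ s x, ∀ᶠ y in 𝓝 x, ev y s = ev x s) ∧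
      ∀ x, x ∈ D ↔ (inf (ev x)).Finite := sorry

theorem complete_of {Has : RO.Oracle → Prop} (hup : IsSigma04 {A : RO.Oracle | Has A})
    (B : List Bool → Bool) (f : (ℕ → Option ℕ) → GG)
    (hf : ∀ m, ∃ N, ∀ ev ev' : ℕ → Option ℕ, (∀ s < N, ev s = ev' s) → Agr m (f ev) (f ev'))
    (hpos : ∀ ev, (inf ev).Finite → Has (mk B (f ev)))
    (hneg : ∀ ev, (inf ev).Infinite → ¬ Has (mk B (f ev))) :
    Sigma04Complete {A : RO.Oracle | Has A} := sorry

/-! ### U0: local predicates of oracles -/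

theorem Lc.isClopen {P : RO.Oracle → Prop} (h : Lc P) : IsClopen {A : RO.Oracle | P A} := sorry

theorem Lc.const (p : Prop) : Lc (fun _ => p) := sorry

theorem Lc.and {P Q : RO.Oracle → Prop} (h : Lc P) (h' : Lc Q) : Lc (fun A => P A ∧ Q A) := sorry

theorem Lc.or {P Q : RO.Oracle → Prop} (h : Lc P) (h' : Lc Q) : Lc (fun A => P A ∨ Q A) := sorry

theorem Lc.not {P : RO.Oracle → Prop} (h : Lc P) : Lc (fun A => ¬ P A) := sorry

theorem Lc.iff {P Q : RO.Oracle → Prop} (h : Lc P) (h' : Lc Q) : Lc (fun A => (P A ↔ Q A)) :=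
  sorry

theorem Lc.imp {P Q : RO.Oracle → Prop} (h : Lc P) (h' : Lc Q) : Lc (fun A => (P A → Q A)) :=
  sorry

theorem Lc.existsFin {ι : Type} {P : ι → RO.Oracle → Prop} (s : Set ι) (hs : s.Finite)
    (h : ∀ i, Lc (P i)) : Lc (fun A => ∃ i ∈ s, P i A) := sorry

theorem Lc.out (M : Alg) (x : List Bool) (y : Option (List Bool)) : Lc (fun A => M.out A x = y) :=
  sorry

/-- A predicate of the output of an algorithm. -/
theorem Lc.bind (M : Alg) (x : List Bool) {P : List Bool → RO.Oracle → Prop} (h : ∀ u, Lc (P u)) :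
    Lc (fun A => ∃ u, M.out A x = some u ∧ P u A) := sorry

theorem Lc.bindAll (M : Alg) (x : List Bool) {P : List Bool → RO.Oracle → Prop}
    (h : ∀ u, Lc (P u)) : Lc (fun A => ∀ u, M.out A x = some u → P u A) := sorry

theorem Lc.tot (M : Alg) (x : List Bool) : Lc (fun A => (M.out A x).isSome = true) := sorry

theorem Lc.acc (M : Alg) (p : Polynomial ℕ) (u w : List Bool) : Lc (fun A => Acc M p A u w) :=
  sorry

theorem Lc.wt (M : Alg) (p : Polynomial ℕ) (u : List Bool) : Lc (fun A => Wt M p A u) := sorry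

theorem sigma04_form {I J F X Y Z W V : Type} [Countable I] [Countable J] [Countable F]
    [Countable X] [Countable Y] [Countable Z] [Countable W] [Countable V]
    {C : I → X → Y → RO.Oracle → Prop} {D : I → J → Z → W → RO.Oracle → Prop}
    {E : I → J → F → V → RO.Oracle → Prop}
    (hC : ∀ i x y, Lc (C i x y)) (hD : ∀ i j z w, Lc (D i j z w)) (hE : ∀ i j f v, Lc (E i j f v)) :
    IsSigma04 {A : RO.Oracle | ∃ i, (∀ x, ∃ y, C i x y A) ∧
      ∀ j, (∀ z, ∃ w, D i j z w A) → ∃ f, ∀ v, E i j f v A} := sorry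

theorem isFP_iff {A : RO.Oracle} {F : List Bool → List Bool} :
    IsFP A F ↔ ∃ M : Alg, ∀ x, M.out A x = some (F x) := sorry

theorem isNP_iff {A : RO.Oracle} {L : Set (List Bool)} :
    IsNP A L ↔ ∃ (M : Alg) (p : Polynomial ℕ), (∀ x, (M.out A x).isSome = true) ∧
      ∀ x, x ∈ L ↔ Wt M p A x := sorry

theorem isUP_iff {A : RO.Oracle} {L : Set (List Bool)} :
    IsUP A L ↔ ∃ (M : Alg) (p : Polynomial ℕ), (∀ x, (M.out A x).isSome = true) ∧
      (∀ x, x ∈ L ↔ Wt M p A x) ∧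
      ∀ x w w', Acc M p A x w → Acc M p A x w' → w = w' := sorry

theorem isTFNP_iff {A : RO.Oracle} {R : List Bool → List Bool → Prop} :
    IsTFNP A R ↔ ∃ (M : Alg) (p : Polynomial ℕ), (∀ x, (M.out A x).isSome = true) ∧
      (∀ x y, R x y ↔ Acc M p A x y) ∧ ∀ x, Wt M p A x := sorry

theorem red_iff {A : RO.Oracle} {L L' : Set (List Bool)} :
    Red A L L' ↔ ∃ M : Alg, ∀ x, ∃ u, M.out A x = some u ∧ (x ∈ L ↔ u ∈ L') := sorry

theorem redPair_iff {A : RO.Oracle} {L₀ L₁ K₀ K₁ : Set (List Bool)} :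
    RedPair A L₀ L₁ K₀ K₁ ↔ ∃ M : Alg, ∀ x, ∃ u, M.out A x = some u ∧ (x ∈ L₀ → u ∈ K₀) ∧
      (x ∈ L₁ → u ∈ K₁) := sorry

theorem redSearch_iff {A : RO.Oracle} {R S : List Bool → List Bool → Prop} :
    RedSearch A R S ↔ ∃ M M' : Alg, (∀ x, (M'.out A x).isSome = true) ∧ ∀ x, ∃ u, M.out A x = some u ∧
      ∀ y, S u y → ∃ v, M'.out A (pairBits x y) = some v ∧ R x v := sorry

/-! ### U1: upper bounds -/

theorem up_up : IsSigma04 {A : RO.Oracle | HasUP A} := sorry

theorem up_npc : IsSigma04 {A : RO.Oracle | HasNPC A} := sorry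

theorem up_dnp : IsSigma04 {A : RO.Oracle | HasDNP A} := sorry

theorem up_dconp : IsSigma04 {A : RO.Oracle | HasDCoNP A} := sorry

theorem up_tfnp : IsSigma04 {A : RO.Oracle | HasTFNP A} := sorry

theorem up_opt : IsSigma04 {A : RO.Oracle | HasOpt A} := sorry

theorem up_poptT : IsSigma04 {A : RO.Oracle | HasPOptT A} := sorry

theorem up_poptS : IsSigma04 {A : RO.Oracle | HasPOptS A} := sorry

end Pool.Agent.H543R3.PC
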