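import Pool.Agent.H543R3.PC.DefsP
import Pool.Agent.H543R3.PC.Reqs
import Pool.Agent.H556R2.Sigma04Defs

/-!
# Stubs needed by U5 (to be replaced by the imports of U0, U1, U2)
-/

namespace Pool.Agent.H543R3.PC

open Pool.Agent.NPC Pool.Agent.H628R3 Pool.Agent.H628R3.RO TopologicalSpace Topology
open H556R2 (IsSigma03 IsPi03 IsSigma04 Sigma04Complete)

theorem Lc.and {P Q : RO.Oracle → Prop} (h : Lc P) (h' : Lc Q) : Lc (fun A => P A ∧ Q A) := sorry

theorem Lc.not {P : RO.Oracle → Prop} (h : Lc P) : Lc (fun A => ¬ P A) := sorry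

theorem Lc.existsFin {ι : Type} {P : ι → RO.Oracle → Prop} (s : Set ι) (hs : s.Finite)
    (h : ∀ i, Lc (P i)) : Lc (fun A => ∃ i ∈ s, P i A) := sorry

theorem Lc.bind (M : Alg) (x : List Bool) {P : List Bool → RO.Oracle → Prop} (h : ∀ u, Lc (P u)) :
    Lc (fun A => ∃ u, M.out A x = some u ∧ P u A) := sorry

theorem Lc.tot (M : Alg) (x : List Bool) : Lc (fun A => (M.out A x).isSome = true) := sorry

theorem Lc.acc (M : Alg) (p : Polynomial ℕ) (u w : List Bool) : Lc (fun A => Acc M p A u w) :=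
  sorry

theorem Lc.wt (M : Alg) (p : Polynomial ℕ) (u : List Bool) : Lc (fun A => Wt M p A u) := sorry

theorem sigma04_form {I J F X Y Z W V : Type} [Countable I] [Countable J] [Countable F]
    [Countable X] [Countable Y] [Countable Z] [Countable W] [Countable V]
    {C : I → X → Y → RO.Oracle → Prop} {D : I → J → Z → W → RO.Oracle → Prop}
    {E : I → J → F → V → RO.Oracle → Prop}
    (hC : ∀ i x y, Lc (C i x y)) (hD : ∀ i j z w, Lc (D i j z w)) (hE : ∀ i j f v, Lc (E i j f v)) :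
    IsSigma04 {A : RO.Oracle | ∃ i, (∀ x, ∃ y, C i x y A) ∧
      ∀ j, (∀ z, ∃ w, D i j z w A) → ∃ f, ∀ v, E i j f v A} := sorry

theorem isTFNP_iff {A : RO.Oracle} {R : List Bool → List Bool → Prop} :
    IsTFNP A R ↔ ∃ (M : Alg) (p : Polynomial ℕ), (∀ x, (M.out A x).isSome = true) ∧
      (∀ x y, R x y ↔ Acc M p A x y) ∧ ∀ x, Wt M p A x := sorry

theorem redSearch_iff {A : RO.Oracle} {R S : List Bool → List Bool → Prop} :
    RedSearch A R S ↔ ∃ M M' : Alg, (∀ x, (M'.out A x).isSome = true) ∧ ∀ x, ∃ u, M.out A x = some u ∧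
      ∀ y, S u y → ∃ v, M'.out A (pairBits x y) = some v ∧ R x v := sorry

end Pool.Agent.H543R3.PC
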