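import Pool.Agent.H543R3.PC.U0
import Pool.Agent.H543R3.PC.U1

/-!
# Stubs needed by U7 (to be replaced by the import of U2)
-/

namespace Pool.Agent.H543R3.PC

open Pool.Agent.NPC Pool.Agent.H628R3 Pool.Agent.H628R3.RO TopologicalSpace Topology
open H556R2 (IsSigma03 IsPi03 IsSigma04 Sigma04Complete)

theorem isNP_iff {A : RO.Oracle} {L : Set (List Bool)} :
    IsNP A L ↔ ∃ (M : Alg) (p : Polynomial ℕ), (∀ x, (M.out A x).isSome = true) ∧
      ∀ x, x ∈ L ↔ Wt M p A x := sorry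

theorem red_iff {A : RO.Oracle} {L L' : Set (List Bool)} :
    Red A L L' ↔ ∃ M : Alg, ∀ x, ∃ u, M.out A x = some u ∧ (x ∈ L ↔ u ∈ L') := sorry

end Pool.Agent.H543R3.PC
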